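import Pool.Agent.Lib.MP_092512_nt.P3.F3
import Pool.Agent.Lib.MP_092512_nt.P3.F5

/-!
# P5 (a prime and three almost primes): generic assembly, definitions and opening of the squares

Over the grid `et` of P3.  For every `i : Fin 4` a weight `w i x m` of the coordinate `i` (`Wt`: values in `[0, 1]`,
supported on squarefree numbers with at most five prime factors, all `> x^de`, level of distribution `1/2` against
`LC_j LC_j'`) and a sieve weight `WW i n = ∑_{c ∈ T i} a i x z c ∏_j LC_{c_j}(n + h_j)`.  `T i` is a union of lines in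
direction `i`: `ins i u b ∈ T i ↔ b ∈ B i ∧ u < len i b`.
`SS = ∑_n (∑_i w i (n + h_i) WW_i(n)² - ∑_{i ≠ 0} WW_i(n)²)`.
-/

set_option autoImplicit false

open Finset

namespace Pool.Agent.Lib.MP_092512_nt.P5

open Pool.Agent.Lib.SW Pool.Agent.Lib.MP_092512_nt.P3

/-- the properties of a weight `w x m` -/
structure Wt (w : ℕ → ℕ → ℝ) : Prop where
  bd : ∃ x₀ : ℕ, ∀ x : ℕ, x₀ ≤ x → ∀ m : ℕ, x < m → m ≤ 3 * x → 0 ≤ w x m ∧ w x m ≤ 1 ∧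
    (w x m ≠ 0 → Squarefree m ∧ m.primeFactors.card ≤ 5 ∧ ∀ p ∈ m.primeFactors, (x : ℝ) ^ de < p)
  lev : ∀ h0 B : ℕ, 3 ≤ B → ∀ (A K : ℕ) (ε : ℝ), 0 < ε →
    ∃ x₀ : ℕ, ∀ x : ℕ, x₀ ≤ x → ∀ j ≤ 59, ∀ j' ≤ 59,
      LevelBd (fun m => if x + h0 < m ∧ m ≤ 2 * x + h0 then
          w x m * (LC x (zB B x) et j m * LC x (zB B x) et j' m) else 0)
        (3 * x) ⌊(x : ℝ) ^ (1 / 2 - ε)⌋₊ K (x / (Real.log x) ^ A)

/-- the data of the sieve weights -/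
structure Dat where
  T : Fin 4 → Finset (Fin 4 → ℕ)
  B : Fin 4 → Finset (Fin 3 → ℕ)
  len : Fin 4 → (Fin 3 → ℕ) → ℕ
  /-- coefficients, depending on `x`, `z` -/
  a : Fin 4 → ℕ → ℕ → (Fin 4 → ℕ) → ℝ
  /-- their limits -/
  f : Fin 4 → (Fin 4 → ℕ) → ℝ
  hT : ∀ (i : Fin 4) (b : Fin 3 → ℕ) (u : ℕ), ins i u b ∈ T i ↔ b ∈ B i ∧ u < len i b
  coord : ∀ (i : Fin 4), ∀ c ∈ T i, ∀ j, c j ≤ 59
  level : ∀ (i : Fin 4), ∀ c ∈ T i, ∑ j ∈ univ.erase i, (c j + 1) ≤ 60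
  all : ∀ (i : Fin 4), ∀ c ∈ T i, ∑ j, (c j + 1) ≤ 118
  lim : ∀ B : ℕ, 3 ≤ B → ∀ ε : ℝ, 0 < ε → ∃ x₀ : ℕ, ∀ x : ℕ, x₀ ≤ x →
    ∀ i, ∀ c ∈ T i, |a i x (zB B x) c - f i c| ≤ ε

variable (d : Dat)

noncomputable def WW (h : Fin 4 → ℕ) (x z : ℕ) (i : Fin 4) (n : ℕ) : ℝ :=
  ∑ c ∈ d.T i, d.a i x z c * PL h x z c n

noncomputable def FF (w : ℕ → ℕ → ℝ) (x z h0 j j' m : ℕ) : ℝ :=
  if x + h0 < m ∧ m ≤ 2 * x + h0 then w x m * (LC x z et j m * LC x z et j' m) else 0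

noncomputable def MM (w : ℕ → ℕ → ℝ) (x z h0 j j' : ℕ) : ℝ := ∑ m ∈ Icc 1 (3 * x), FF w x z h0 j j' m

noncomputable def TI (w : ℕ → ℕ → ℝ) (h : Fin 4 → ℕ) (x z : ℕ) (i : Fin 4) (c c' : Fin 4 → ℕ) : ℝ :=
  ∑ n ∈ Nn h x z, w x (n + h i) * (PL h x z c n * PL h x z c' n)

noncomputable def SS (w : Fin 4 → ℕ → ℕ → ℝ) (h : Fin 4 → ℕ) (x z : ℕ) : ℝ :=
  ∑ n ∈ Nn h x z, (∑ i, w i x (n + h i) * WW d h x z i n ^ 2 - ∑ i ∈ univ.erase 0, WW d h x z i n ^ 2)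

/-- the sum over one line in direction `i` -/
noncomputable def Yb (w : ℕ → ℕ → ℝ) (x z h0 : ℕ) (i : Fin 4) (b : Fin 3 → ℕ) : ℝ :=
  ∑ m ∈ Ioc (x + h0) (2 * x + h0), w x m * LV x z et (d.len i b) (fun u => d.a i x z (ins i u b)) m ^ 2

theorem exp_i (w : ℕ → ℕ → ℝ) (h : Fin 4 → ℕ) (x z : ℕ) (i : Fin 4) :
    ∑ n ∈ Nn h x z, w x (n + h i) * WW d h x z i n ^ 2 =
      ∑ c ∈ d.T i, ∑ c' ∈ d.T i, d.a i x z c * d.a i x z c' * TI w h x z i c c' := by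
  have h1 : ∀ n ∈ Nn h x z, w x (n + h i) * WW d h x z i n ^ 2 =
      ∑ c ∈ d.T i, ∑ c' ∈ d.T i, d.a i x z c * d.a i x z c' *
        (w x (n + h i) * (PL h x z c n * PL h x z c' n)) := by
    intro n _
    unfold WW
    rw [sq, sum_mul_sum, mul_sum]
    refine sum_congr rfl fun c _ => ?_
    rw [mul_sum]
    refine sum_congr rfl fun c' _ => ?_
    ring
  rw [sum_congr rfl h1, sum_comm]
  refine sum_congr rfl fun c _ => ?_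
  rw [sum_comm]
  refine sum_congr rfl fun c' _ => ?_
  unfold TI
  rw [mul_sum]

theorem exp_0 (h : Fin 4 → ℕ) (x z : ℕ) (i : Fin 4) :
    ∑ n ∈ Nn h x z, WW d h x z i n ^ 2 =
      ∑ c ∈ d.T i, ∑ c' ∈ d.T i, d.a i x z c * d.a i x z c' * TZ h x z c c' := by
  have h1 : ∀ n ∈ Nn h x z, WW d h x z i n ^ 2 =
      ∑ c ∈ d.T i, ∑ c' ∈ d.T i, d.a i x z c * d.a i x z c' * (PL h x z c n * PL h x z c' n) := by
    intro n _
    unfold WW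
    rw [sq, sum_mul_sum]
    refine sum_congr rfl fun c _ => ?_
    refine sum_congr rfl fun c' _ => ?_
    ring
  rw [sum_congr rfl h1, sum_comm]
  refine sum_congr rfl fun c _ => ?_
  rw [sum_comm]
  refine sum_congr rfl fun c' _ => ?_
  unfold TZ
  rw [mul_sum]

theorem SS_eq (w : Fin 4 → ℕ → ℕ → ℝ) (h : Fin 4 → ℕ) (x z : ℕ) :
    SS d w h x z = ∑ i, ∑ n ∈ Nn h x z, w i x (n + h i) * WW d h x z i n ^ 2 -
      ∑ i ∈ univ.erase 0, ∑ n ∈ Nn h x z, WW d h x z i n ^ 2 := by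
  unfold SS
  rw [sum_sub_distrib, sum_comm]
  congr 1
  rw [sum_comm]

/-- pointwise: if all `WW_i` agree whenever the weight of the coordinate `0` is not zero -/
theorem point (v : Fin 4 → ℝ) (W : Fin 4 → ℝ) (h0 : ∀ i, 0 ≤ v i) (h1 : ∀ i, v i ≤ 1)
    (hW : v 0 ≠ 0 → ∀ i, W i = W 0) :
    ∑ i, v i * W i ^ 2 - ∑ i ∈ univ.erase 0, W i ^ 2 ≤ if ∀ i, v i ≠ 0 then W 0 ^ 2 else 0 := by
  have key : ∑ i, v i * W i ^ 2 - ∑ i ∈ univ.erase 0, W i ^ 2 =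
      v 0 * W 0 ^ 2 - ∑ i ∈ univ.erase (0 : Fin 4), (1 - v i) * W i ^ 2 := by
    rw [← add_sum_erase univ _ (mem_univ (0 : Fin 4))]
    have : ∑ i ∈ univ.erase (0 : Fin 4), (1 - v i) * W i ^ 2 =
        ∑ i ∈ univ.erase (0 : Fin 4), W i ^ 2 - ∑ i ∈ univ.erase (0 : Fin 4), v i * W i ^ 2 := by
      rw [← sum_sub_distrib]
      refine sum_congr rfl fun i _ => by ring
    rw [this]
    ring
  rw [key]
  have hnn : ∀ i ∈ univ.erase (0 : Fin 4), 0 ≤ (1 - v i) * W i ^ 2 := fun i _ =>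
    mul_nonneg (by linarith [h1 i]) (sq_nonneg _)
  have hs : 0 ≤ ∑ i ∈ univ.erase (0 : Fin 4), (1 - v i) * W i ^ 2 := sum_nonneg hnn
  by_cases hv : v 0 = 0
  · rw [if_neg (by push Not; exact ⟨0, hv⟩), hv]
    linarith
  · have hW' := hW hv
    by_cases hg : ∀ i, v i ≠ 0
    · rw [if_pos hg]
      have : v 0 * W 0 ^ 2 ≤ 1 * W 0 ^ 2 := mul_le_mul_of_nonneg_right (h1 0) (sq_nonneg _)
      linarith
    · rw [if_neg hg]
      push Not at hg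
      obtain ⟨i, hi⟩ := hg
      have hi0 : i ≠ 0 := fun h => hv (h ▸ hi)
      have h2 : (1 - v i) * W i ^ 2 ≤ ∑ i ∈ univ.erase (0 : Fin 4), (1 - v i) * W i ^ 2 :=
        single_le_sum hnn (mem_erase.mpr ⟨hi0, mem_univ i⟩)
      rw [hi, hW' i] at h2
      have : v 0 * W 0 ^ 2 ≤ 1 * W 0 ^ 2 := mul_le_mul_of_nonneg_right (h1 0) (sq_nonneg _)
      linarith

end Pool.Agent.Lib.MP_092512_nt.P5
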