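import Pool.Agent.Lib.MP_092512_nt.P5.A0

/-!
# P5: asymptotic formula for `TZ` on the sets `T i`

As `P3.F3` with `ε = 1/100`: `∏ R_j ≤ x^(236 et)`, `236 et = 2360/2401 ≤ 99/100`.
-/

set_option autoImplicit false

open Finset

namespace Pool.Agent.Lib.MP_092512_nt.P5

open Pool.Agent.Lib.SW Pool.Agent.Lib.MP_092512_nt.P3

private theorem A3_et : (0 : ℝ) < et := by unfold et; norm_num

private theorem A3_prod (d : Dat) (i : Fin 4) (x : ℕ) (hx : 1 ≤ x) (c c' : Fin 4 → ℕ) (hc : c ∈ d.T i)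
    (hc' : c' ∈ d.T i) :
    ∏ i, (x : ℝ) ^ (((c i : ℝ) + 1 + ((c' i : ℝ) + 1)) * et) ≤ (x : ℝ) ^ (1 - 1 / 100 : ℝ) := by
  have hx0 : (0 : ℝ) < x := by exact_mod_cast hx
  have hx1 : (1 : ℝ) ≤ x := by exact_mod_cast hx
  rw [← Real.rpow_sum_of_pos hx0]
  refine Real.rpow_le_rpow_of_exponent_le hx1 ?_
  have h1 := d.all i c hc
  have h2 := d.all i c' hc'
  have h3 : (∑ j, ((c j : ℝ) + 1 + ((c' j : ℝ) + 1))) ≤ 236 := by
    have e : ∑ j, (c j + 1) + ∑ j, (c' j + 1) ≤ 236 := by omega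
    have e' : ((∑ j, (c j + 1) + ∑ j, (c' j + 1) : ℕ) : ℝ) ≤ 236 := by exact_mod_cast e
    push_cast at e'
    rw [sum_add_distrib]
    exact e'
  rw [← sum_mul]
  calc (∑ j, ((c j : ℝ) + 1 + ((c' j : ℝ) + 1))) * et ≤ 236 * et :=
        mul_le_mul_of_nonneg_right h3 A3_et.le
    _ ≤ 1 - 1 / 100 := by unfold et; norm_num

theorem TZ_asymp (d : Dat) (h : Fin 4 → ℕ) (hinj : Function.Injective h) (A : ℕ) :
    ∃ B₀ : ℕ, ∀ B : ℕ, B₀ ≤ B → ∃ x₀ : ℕ, ∀ x : ℕ, x₀ ≤ x → ∀ i, ∀ c ∈ d.T i, ∀ c' ∈ d.T i,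
      |TZ h x (zB B x) c c' - x * VH h (zB B x) * ∏ j, Sg x (zB B x) (c j) (c' j)| ≤
        x / (Real.log x) ^ A := by
  obtain ⟨B1, hB1⟩ := sieve_int 4 h hinj 4 A (1 / 100) (by norm_num)
  refine ⟨max 3 B1, fun B hB => ?_⟩
  obtain ⟨hB3, hBB⟩ := max_le_iff.1 hB
  obtain ⟨x1, hx1⟩ := hB1 B hBB
  obtain ⟨x2, hx2⟩ := alp_le B 61 hB3 et A3_et (by unfold et; norm_num)
  refine ⟨max x1 (max x2 1), fun x hx i c hc c' hc' => ?_⟩
  simp only [max_le_iff] at hx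
  obtain ⟨k1, k2, k3⟩ := hx
  have hxR : (1 : ℝ) ≤ x := by exact_mod_cast k3
  set z : ℕ := zB B x with hz
  have hTZ : TZ h x z c c' =
      ∑ n ∈ (Ioc x (2 * x)).filter (fun n => ∀ i, Nat.Coprime (n + h i) (primorial z)),
        ∏ i, ∑ r ∈ (n + h i).divisors, alp x z et (c i) (c' i) r := by
    unfold TZ Nn PL
    refine sum_congr rfl fun n hn => ?_
    rw [← prod_mul_distrib]
    refine prod_congr rfl fun i _ => ?_
    refine LC_mul x z et (c i) (c' i) (n + h i) ?_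
    have := (mem_Ioc.1 (mem_filter.1 hn).1).1
    omega
  have key := hx1 x k1 (fun j => alp x z et (c j) (c' j))
    (fun j => (x : ℝ) ^ (((c j : ℝ) + 1 + ((c' j : ℝ) + 1)) * et))
    (fun j => Real.one_le_rpow hxR (mul_nonneg (by positivity) A3_et.le))
    (fun j r hr => alp_supp x z k3 et A3_et (c j) (c' j) r hr)
    (fun j r => by
      have := hx2 x k2 (c j) ((d.coord i c hc j).trans (by norm_num)) (c' j)
        ((d.coord i c' hc' j).trans (by norm_num)) r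
      exact_mod_cast this)
    (A3_prod d i x k3 c c' hc hc')
  rw [hTZ]
  exact key

end Pool.Agent.Lib.MP_092512_nt.P5
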