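import Pool.Agent.Lib.MP_092512_nt.P5.A0

/-!
# P5: generic assembly, the main terms

The sets `T i` are unions of lines in direction `i`; `∏_{j ≠ i} Sg (c_j) (c'_j)` vanishes unless `c'` is on the line of `c`.
-/

set_option autoImplicit false

open Finset

namespace Pool.Agent.Lib.MP_092512_nt.P5

open Pool.Agent.Lib.SW Pool.Agent.Lib.MP_092512_nt.P3

private theorem A4_ins_same (i : Fin 4) (u : ℕ) (b : Fin 3 → ℕ) : ins i u b i = u := by
  unfold ins
  exact Fin.insertNth_apply_same _ _ _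

private theorem A4_ins_succ (i : Fin 4) (u : ℕ) (b : Fin 3 → ℕ) (j : Fin 3) :
    ins i u b (i.succAbove j) = b j := by
  unfold ins
  exact Fin.insertNth_apply_succAbove _ _ _ _

private theorem A4_ins (i : Fin 4) (c : Fin 4 → ℕ) : ins i (c i) (i.removeNth c) = c :=
  Fin.insertNth_self_removeNth i c

private theorem A4_rem (i : Fin 4) (x : ℕ) (b : Fin 3 → ℕ) : i.removeNth (ins i x b) = b := by
  unfold ins
  exact Fin.removeNth_insertNth _ _ _

/-- the sum over `T i` is a sum over lines -/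
theorem T_sum (d : Dat) (i : Fin 4) (F : (Fin 4 → ℕ) → ℝ) :
    ∑ c ∈ d.T i, F c = ∑ b ∈ d.B i, ∑ u ∈ range (d.len i b), F (ins i u b) := by
  rw [sum_sigma']
  refine sum_bij' (i := fun c _ => (⟨i.removeNth c, c i⟩ : Σ _ : Fin 3 → ℕ, ℕ))
    (j := fun p _ => ins i p.2 p.1) ?_ ?_ ?_ ?_ ?_
  · intro c hc
    rw [mem_sigma, mem_range]
    have h1 := (d.hT i (i.removeNth c) (c i)).1 (by rw [A4_ins]; exact hc)
    exact h1
  · intro p hp
    rw [mem_sigma, mem_range] at hp
    exact (d.hT i p.1 p.2).2 hp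
  · intro c hc
    exact A4_ins i c
  · intro p hp
    obtain ⟨b, u⟩ := p
    simp only
    rw [A4_rem, A4_ins_same]
  · intro c hc
    rw [A4_ins]

private theorem A4_prod_erase (i : Fin 4) (f : Fin 4 → ℝ) :
    ∏ j ∈ univ.erase i, f j = ∏ j : Fin 3, f (i.succAbove j) := by
  have h1 : univ.erase i = univ.image i.succAbove := by
    ext j
    rw [mem_erase, mem_image]
    constructor
    · rintro ⟨h1, _⟩
      obtain ⟨z, hz⟩ := Fin.exists_succAbove_eq h1
      exact ⟨z, mem_univ _, hz⟩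
    · rintro ⟨z, _, rfl⟩
      exact ⟨Fin.succAbove_ne i z, mem_univ _⟩
  rw [h1, prod_image fun a _ b _ hab => Fin.succAbove_right_injective hab]

private theorem A4_MM (w : ℕ → ℕ → ℝ) (x z h0 : ℕ) (hh : h0 ≤ x) (u t : ℕ) :
    MM w x z h0 u t = ∑ m ∈ Ioc (x + h0) (2 * x + h0), w x m * (LC x z et u m * LC x z et t m) := by
  unfold MM FF
  rw [← sum_filter]
  refine sum_congr ?_ fun _ _ => rfl
  ext m
  rw [mem_filter, mem_Icc, mem_Ioc]
  constructor
  · rintro ⟨_, h2⟩; exact h2
  · intro h2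
    refine ⟨?_, h2⟩
    omega

private theorem A4_Yb (d : Dat) (w : ℕ → ℕ → ℝ) (x z h0 : ℕ) (hh : h0 ≤ x) (i : Fin 4)
    (b : Fin 3 → ℕ) :
    ∑ u ∈ range (d.len i b), ∑ t ∈ range (d.len i b),
      d.a i x z (ins i u b) * d.a i x z (ins i t b) * MM w x z h0 u t =
      Yb d w x z h0 i b := by
  unfold Yb LV
  have h1 : ∀ u t, d.a i x z (ins i u b) * d.a i x z (ins i t b) * MM w x z h0 u t =
      ∑ m ∈ Ioc (x + h0) (2 * x + h0), w x m *
        ((d.a i x z (ins i u b) * LC x z et u m) * (d.a i x z (ins i t b) * LC x z et t m)) := by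
    intro u t
    rw [A4_MM w x z h0 hh, mul_sum]
    refine sum_congr rfl fun m _ => ?_
    ring
  have h2 : ∀ u, ∑ t ∈ range (d.len i b), d.a i x z (ins i u b) * d.a i x z (ins i t b) * MM w x z h0 u t =
      ∑ m ∈ Ioc (x + h0) (2 * x + h0), ∑ t ∈ range (d.len i b), w x m *
        ((d.a i x z (ins i u b) * LC x z et u m) * (d.a i x z (ins i t b) * LC x z et t m)) := by
    intro u
    rw [sum_congr rfl fun t _ => h1 u t, sum_comm]
  rw [sum_congr rfl fun u _ => h2 u, sum_comm]
  refine sum_congr rfl fun m _ => ?_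
  rw [sq, sum_mul_sum, mul_sum]
  refine sum_congr rfl fun u _ => ?_
  rw [mul_sum]

theorem main_i (d : Dat) (w : ℕ → ℕ → ℝ) (x z h0 : ℕ) (hh : h0 ≤ x) (i : Fin 4)
    (horth : ∀ j ≤ 59, ∀ j' ≤ 59, j ≠ j' → Sg x z j j' = 0) (V : ℝ) :
    ∑ c ∈ d.T i, ∑ c' ∈ d.T i, d.a i x z c * d.a i x z c' *
        (V * MM w x z h0 (c i) (c' i) * ∏ j ∈ univ.erase i, Sg x z (c j) (c' j)) =
      V * ∑ b ∈ d.B i, (∏ j, Sg x z (b j) (b j)) * Yb d w x z h0 i b := by
  rw [T_sum d i]
  rw [mul_sum]
  refine sum_congr rfl fun b hb => ?_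
  have hinj : Function.Injective (fun t : ℕ => ins i t b) := by
    intro t t' h
    have h1 := congrFun h i
    simp only [A4_ins_same] at h1
    exact h1
  have hmem : ∀ t ∈ range (d.len i b), ins i t b ∈ d.T i := by
    intro t ht
    rw [mem_range] at ht
    exact (d.hT i b t).2 ⟨hb, ht⟩
  have hinner : ∀ u ∈ range (d.len i b),
      ∑ c' ∈ d.T i, d.a i x z (ins i u b) * d.a i x z c' *
        (V * MM w x z h0 (ins i u b i) (c' i) * ∏ j ∈ univ.erase i, Sg x z (ins i u b j) (c' j)) =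
      ∑ t ∈ range (d.len i b), (V * ∏ j, Sg x z (b j) (b j)) *
        (d.a i x z (ins i u b) * d.a i x z (ins i t b) * MM w x z h0 u t) := by
    intro u hu
    have h1 : ∑ t ∈ range (d.len i b), (V * ∏ j, Sg x z (b j) (b j)) *
        (d.a i x z (ins i u b) * d.a i x z (ins i t b) * MM w x z h0 u t) =
        ∑ c' ∈ (range (d.len i b)).image (fun t => ins i t b),
        d.a i x z (ins i u b) * d.a i x z c' *
        (V * MM w x z h0 (ins i u b i) (c' i) * ∏ j ∈ univ.erase i, Sg x z (ins i u b j) (c' j)) := by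
      rw [sum_image fun a _ b _ hab => hinj hab]
      refine sum_congr rfl fun t ht => ?_
      rw [A4_prod_erase]
      simp only [A4_ins_same, A4_ins_succ]
      ring
    rw [h1]
    symm
    apply sum_subset
    · intro c' hc'
      rw [mem_image] at hc'
      obtain ⟨t, ht, rfl⟩ := hc'
      exact hmem t ht
    · intro c' hc' hnot
      have h2 : ∃ j ∈ univ.erase i, ins i u b j ≠ c' j := by
        by_contra hcon
        push Not at hcon
        apply hnot
        rw [mem_image]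
        have h3 : ins i (c' i) b = c' := by
          funext j
          rcases eq_or_ne j i with h4 | h4
          · subst h4
            exact A4_ins_same _ _ _
          · have h5 := hcon j (mem_erase.mpr ⟨h4, mem_univ _⟩)
            rw [← h5]
            obtain ⟨z', hz'⟩ := Fin.exists_succAbove_eq h4
            rw [← hz', A4_ins_succ, A4_ins_succ]
        refine ⟨c' i, ?_, h3⟩
        rw [mem_range]
        rw [← h3] at hc'
        exact ((d.hT i b _).1 hc').2
      obtain ⟨j, hj, hne⟩ := h2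
      have h3 : Sg x z (ins i u b j) (c' j) = 0 :=
        horth _ (d.coord i _ (hmem u hu) j) _ (d.coord i _ hc' j) hne
      rw [prod_eq_zero hj h3]
      ring
  rw [sum_congr rfl hinner, ← A4_Yb d w x z h0 hh i b]
  rw [← mul_assoc, mul_sum]
  refine sum_congr rfl fun u _ => ?_
  rw [mul_sum]

theorem main_0 (d : Dat) (x z : ℕ) (i : Fin 4)
    (horth : ∀ j ≤ 59, ∀ j' ≤ 59, j ≠ j' → Sg x z j j' = 0) (V : ℝ) :
    ∑ c ∈ d.T i, ∑ c' ∈ d.T i, d.a i x z c * d.a i x z c' * (V * ∏ j, Sg x z (c j) (c' j)) =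
      V * ∑ c ∈ d.T i, d.a i x z c ^ 2 * ∏ j, Sg x z (c j) (c j) := by
  rw [mul_sum]
  refine sum_congr rfl fun c hc => ?_
  rw [sum_eq_single c]
  · ring
  · intro c' hc' hne
    have h2 : ∃ j, c j ≠ c' j := by
      by_contra hcon
      push Not at hcon
      exact hne (funext fun j => (hcon j).symm)
    obtain ⟨j, hj⟩ := h2
    rw [prod_eq_zero (mem_univ j) (horth _ (d.coord i _ hc j) _ (d.coord i _ hc' j) hj)]
    ring
  · intro h
    exact absurd hc h

end Pool.Agent.Lib.MP_092512_nt.P5
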