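import Pool.Agent.Lib.MP_092512_nt.P5.A2
import Pool.Agent.Lib.MP_092512_nt.P5.A3
import Pool.Agent.Lib.MP_092512_nt.P5.A4

/-!
# P5: generic assembly, the lower bound for `SS`

If the line sums are at least `x / log x (D i b - ε)` and `et ∑_{i ≠ 0} ∑_{T i} f_i² < ∑_i ∑_{B i} D i b`, then
`SS ≥ c₀ κ' x / log⁴ x`.
-/

set_option autoImplicit false

open Finset

namespace Pool.Agent.Lib.MP_092512_nt.P5

open Pool.Agent.Lib.SW Pool.Agent.Lib.MP_092512_nt.P3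

private theorem A6_et : (0 : ℝ) < et := by unfold et; norm_num

private theorem A6_eps (D T n M : ℝ) (hκ : 0 < et ^ 3 * D - et ^ 4 * T) :
    ∃ ε : ℝ, 0 < ε ∧ ε < et ∧ (et ^ 3 * D - et ^ 4 * T) / 2 ≤
      (et - ε) ^ 3 * (D - n * ε) - (et + ε) ^ 4 * (T + M * ε) := by
  have hc : ContinuousAt (fun ε : ℝ => (et - ε) ^ 3 * (D - n * ε) - (et + ε) ^ 4 * (T + M * ε)) 0 := by
    fun_prop
  have h0 : (et ^ 3 * D - et ^ 4 * T) / 2 <
      (fun ε : ℝ => (et - ε) ^ 3 * (D - n * ε) - (et + ε) ^ 4 * (T + M * ε)) 0 := by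
    simp only [sub_zero, mul_zero, add_zero]
    linarith
  have h1 := hc.eventually (lt_mem_nhds h0)
  have h2 : ∀ᶠ ε : ℝ in nhds 0, ε < et := gt_mem_nhds A6_et
  have h3 : ∀ᶠ ε : ℝ in nhdsWithin 0 (Set.Ioi 0), ε ∈ Set.Ioi (0 : ℝ) := self_mem_nhdsWithin
  obtain ⟨ε, ⟨ha, hb⟩, hc⟩ := (((h1.and h2).filter_mono nhdsWithin_le_nhds).and h3).exists
  exact ⟨ε, hc, hb, ha.le⟩

/-- the coordinates of `b ∈ B i` are at most `59` if the line is not empty -/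
theorem B_coord (d : Dat) (i : Fin 4) (b : Fin 3 → ℕ) (hb : b ∈ d.B i) (hl : 0 < d.len i b) (j : Fin 3) :
    b j ≤ 59 := by
  have h1 : ins i 0 b ∈ d.T i := (d.hT i b 0).2 ⟨hb, hl⟩
  have h2 := d.coord i _ h1 (i.succAbove j)
  unfold ins at h2
  rw [Fin.insertNth_apply_succAbove] at h2
  exact h2

theorem Yb_zero (d : Dat) (w : ℕ → ℕ → ℝ) (x z h0 : ℕ) (i : Fin 4) (b : Fin 3 → ℕ) (hl : d.len i b = 0) :
    Yb d w x z h0 i b = 0 := by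
  unfold Yb LV
  rw [hl]
  simp

private theorem A6_main (d : Dat) (D Y : Fin 4 → (Fin 3 → ℕ) → ℝ) (a : Fin 4 → (Fin 4 → ℕ) → ℝ) (x z : ℕ)
    (h : Fin 4 → ℕ) (L V ε κ c₀ SA : ℝ) (hL : 0 < L) (hV : 0 < V)
    (hεe : ε < et) (hVH : VH h z = V * VH' h z) (hc : c₀ * V ^ 4 ≤ VH h z) (hc0 : 0 < c₀)
    (hg : ∀ j ≤ 59, |V * L * Sg x z j j - et| ≤ ε)
    (hY : ∀ i, ∀ b ∈ d.B i, x / L * (D i b - ε) ≤ Y i b)
    (hY0 : ∀ i, ∀ b ∈ d.B i, 0 ≤ Y i b)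
    (hYz : ∀ i, ∀ b ∈ d.B i, d.len i b = 0 → Y i b = 0)
    (hSA : ∑ i ∈ univ.erase (0 : Fin 4), ∑ c ∈ d.T i, a i c ^ 2 ≤ SA)
    (hκ : κ ≤ (et - ε) ^ 3 * ∑ i, ∑ b ∈ d.B i, (D i b - ε) - (et + ε) ^ 4 * SA) (hκ0 : 0 < κ) :
    c₀ * κ * (x / L ^ 4) ≤
      ∑ i : Fin 4, VH' h z * ∑ b ∈ d.B i, (∏ j, Sg x z (b j) (b j)) * Y i b -
        ∑ i ∈ univ.erase (0 : Fin 4), (x * VH h z * ∑ c ∈ d.T i, a i c ^ 2 * ∏ j, Sg x z (c j) (c j)) := by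
  have hVL : 0 < V * L := mul_pos hV hL
  have hx : (0 : ℝ) ≤ x := Nat.cast_nonneg _
  have hVH0 : 0 < VH h z := lt_of_lt_of_le (by positivity) hc
  have hV'0 : 0 < VH' h z := by
    rw [hVH] at hVH0
    exact pos_of_mul_pos_right hVH0 hV.le
  have glo : ∀ j ≤ 59, et - ε ≤ V * L * Sg x z j j := fun j hj => by
    have := (abs_le.1 (hg j hj)).1; linarith
  have ghi : ∀ j ≤ 59, V * L * Sg x z j j ≤ et + ε := fun j hj => by
    have := (abs_le.1 (hg j hj)).2; linarith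
  have he0 : 0 < et - ε := by linarith
  have gpos : ∀ j ≤ 59, 0 ≤ V * L * Sg x z j j := fun j hj => he0.le.trans (glo j hj)
  -- the lines
  have key1 : ∀ i : Fin 4, ∀ b ∈ d.B i, (et - ε) ^ 3 * (x / L * (D i b - ε)) ≤
      (V * L) ^ 3 * ((∏ j, Sg x z (b j) (b j)) * Y i b) := by
    intro i b hb
    rcases Nat.eq_zero_or_pos (d.len i b) with hl | hl
    · have h1 := hYz i b hb hl
      have h2 := hY i b hb
      rw [h1] at h2
      rw [h1, mul_zero, mul_zero]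
      exact mul_nonpos_of_nonneg_of_nonpos (by positivity) h2
    have hp : (V * L) ^ 3 * ∏ j, Sg x z (b j) (b j) = ∏ j : Fin 3, (V * L * Sg x z (b j) (b j)) := by
      rw [prod_mul_distrib, prod_const, card_univ, Fintype.card_fin]
    have hp3 : (et - ε) ^ 3 ≤ ∏ j : Fin 3, (V * L * Sg x z (b j) (b j)) := by
      calc (et - ε) ^ 3 = ∏ _j : Fin 3, (et - ε) := by rw [prod_const, card_univ, Fintype.card_fin]
        _ ≤ _ := prod_le_prod (fun _ _ => he0.le) (fun j _ => glo _ (B_coord d i b hb hl j))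
    rw [← mul_assoc ((V * L) ^ 3), hp]
    calc (et - ε) ^ 3 * (x / L * (D i b - ε))
        ≤ (et - ε) ^ 3 * Y i b := mul_le_mul_of_nonneg_left (hY i b hb) (by positivity)
      _ ≤ _ := mul_le_mul_of_nonneg_right hp3 (hY0 i b hb)
  have key2 : ∀ i, ∀ c ∈ d.T i, (V * L) ^ 4 * (a i c ^ 2 * ∏ j, Sg x z (c j) (c j)) ≤
      (et + ε) ^ 4 * a i c ^ 2 := by
    intro i c hcT
    have hp : (V * L) ^ 4 * ∏ j, Sg x z (c j) (c j) = ∏ j : Fin 4, (V * L * Sg x z (c j) (c j)) := by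
      rw [prod_mul_distrib, prod_const, card_univ, Fintype.card_fin]
    have hp4 : ∏ j : Fin 4, (V * L * Sg x z (c j) (c j)) ≤ (et + ε) ^ 4 := by
      calc ∏ j : Fin 4, (V * L * Sg x z (c j) (c j)) ≤ ∏ _j : Fin 4, (et + ε) :=
            prod_le_prod (fun j _ => gpos _ (d.coord i c hcT j)) (fun j _ => ghi _ (d.coord i c hcT j))
        _ = _ := by rw [prod_const, card_univ, Fintype.card_fin]
    calc (V * L) ^ 4 * (a i c ^ 2 * ∏ j, Sg x z (c j) (c j))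
        = a i c ^ 2 * ((V * L) ^ 4 * ∏ j, Sg x z (c j) (c j)) := by ring
      _ ≤ a i c ^ 2 * (et + ε) ^ 4 := by
          rw [hp]; exact mul_le_mul_of_nonneg_left hp4 (sq_nonneg _)
      _ = _ := by ring
  have sum1 : ∀ i : Fin 4, (et - ε) ^ 3 * (x / L * ∑ b ∈ d.B i, (D i b - ε)) ≤
      (V * L) ^ 3 * ∑ b ∈ d.B i, (∏ j, Sg x z (b j) (b j)) * Y i b := by
    intro i
    rw [mul_sum, mul_sum, mul_sum]
    exact sum_le_sum (key1 i)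
  have sum2 : ∀ i, (V * L) ^ 4 * ∑ c ∈ d.T i, a i c ^ 2 * ∏ j, Sg x z (c j) (c j) ≤
      (et + ε) ^ 4 * ∑ c ∈ d.T i, a i c ^ 2 := by
    intro i
    rw [mul_sum, mul_sum]
    exact sum_le_sum (key2 i)
  have sum1' : ∀ i : Fin 4, x * VH h z / (V * L) ^ 4 * ((et - ε) ^ 3 * ∑ b ∈ d.B i, (D i b - ε)) ≤
      VH' h z * ∑ b ∈ d.B i, (∏ j, Sg x z (b j) (b j)) * Y i b := by
    intro i
    have h1 := mul_le_mul_of_nonneg_left (sum1 i) (a := VH' h z / (V * L) ^ 3) (by positivity)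
    have e1 : VH' h z / (V * L) ^ 3 * ((V * L) ^ 3 * ∑ b ∈ d.B i, (∏ j, Sg x z (b j) (b j)) * Y i b) =
        VH' h z * ∑ b ∈ d.B i, (∏ j, Sg x z (b j) (b j)) * Y i b := by
      field_simp
    have e2 : VH' h z / (V * L) ^ 3 * ((et - ε) ^ 3 * (x / L * ∑ b ∈ d.B i, (D i b - ε))) =
        x * VH h z / (V * L) ^ 4 * ((et - ε) ^ 3 * ∑ b ∈ d.B i, (D i b - ε)) := by
      rw [hVH]; field_simp
    rw [e1, e2] at h1
    exact h1
  have sum2' : ∀ i, x * VH h z * (∑ c ∈ d.T i, a i c ^ 2 * ∏ j, Sg x z (c j) (c j)) ≤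
      x * VH h z / (V * L) ^ 4 * ((et + ε) ^ 4 * ∑ c ∈ d.T i, a i c ^ 2) := by
    intro i
    have h1 := mul_le_mul_of_nonneg_left (sum2 i) (a := x * VH h z / (V * L) ^ 4) (by positivity)
    have e1 : x * VH h z / (V * L) ^ 4 *
        ((V * L) ^ 4 * ∑ c ∈ d.T i, a i c ^ 2 * ∏ j, Sg x z (c j) (c j)) =
        x * VH h z * (∑ c ∈ d.T i, a i c ^ 2 * ∏ j, Sg x z (c j) (c j)) := by
      field_simp
    rw [e1] at h1
    exact h1
  have hsum : ∑ i : Fin 4, x * VH h z / (V * L) ^ 4 * ((et - ε) ^ 3 * ∑ b ∈ d.B i, (D i b - ε)) ≤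
      ∑ i : Fin 4, VH' h z * ∑ b ∈ d.B i, (∏ j, Sg x z (b j) (b j)) * Y i b :=
    sum_le_sum (fun i _ => sum1' i)
  rw [← mul_sum, ← mul_sum] at hsum
  have hsum2 : ∑ i ∈ univ.erase (0 : Fin 4),
        (x * VH h z * ∑ c ∈ d.T i, a i c ^ 2 * ∏ j, Sg x z (c j) (c j)) ≤
      x * VH h z / (V * L) ^ 4 * ((et + ε) ^ 4 * SA) := by
    calc ∑ i ∈ univ.erase (0 : Fin 4),
          (x * VH h z * ∑ c ∈ d.T i, a i c ^ 2 * ∏ j, Sg x z (c j) (c j))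
        ≤ ∑ i ∈ univ.erase (0 : Fin 4),
          x * VH h z / (V * L) ^ 4 * ((et + ε) ^ 4 * ∑ c ∈ d.T i, a i c ^ 2) :=
          sum_le_sum fun i _ => sum2' i
      _ = x * VH h z / (V * L) ^ 4 * ((et + ε) ^ 4 *
          ∑ i ∈ univ.erase (0 : Fin 4), ∑ c ∈ d.T i, a i c ^ 2) := by
          rw [← mul_sum, ← mul_sum]
      _ ≤ _ := by
          have he1 : 0 ≤ (et + ε) ^ 4 := by positivity
          exact mul_le_mul_of_nonneg_left (mul_le_mul_of_nonneg_left hSA he1) (by positivity)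
  have hbase : c₀ * (x / L ^ 4) ≤ x * VH h z / (V * L) ^ 4 := by
    have e : c₀ * (x / L ^ 4) = x * (c₀ * V ^ 4) / (V * L) ^ 4 := by field_simp
    rw [e]
    gcongr
  have hfin : c₀ * (x / L ^ 4) * κ ≤ x * VH h z / (V * L) ^ 4 *
      ((et - ε) ^ 3 * ∑ i, ∑ b ∈ d.B i, (D i b - ε) - (et + ε) ^ 4 * SA) :=
    mul_le_mul hbase hκ hκ0.le (by positivity)
  have e3 : x * VH h z / (V * L) ^ 4 *
      ((et - ε) ^ 3 * ∑ i, ∑ b ∈ d.B i, (D i b - ε) - (et + ε) ^ 4 * SA) =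
      x * VH h z / (V * L) ^ 4 * ((et - ε) ^ 3 * ∑ i, ∑ b ∈ d.B i, (D i b - ε)) -
        x * VH h z / (V * L) ^ 4 * ((et + ε) ^ 4 * SA) := by
    ring
  rw [e3] at hfin
  have e4 : c₀ * κ * (x / L ^ 4) = c₀ * (x / L ^ 4) * κ := by ring
  rw [e4]
  linarith

private theorem A6_err {α : Type} (S T : Finset α) (a a' u v : α → α → ℝ) (E : ℝ) (hE : 0 ≤ E)
    (ha : ∀ c ∈ S, ∀ c' ∈ T, |a c c'| ≤ a' c c')
    (h : ∀ c ∈ S, ∀ c' ∈ T, |u c c' - v c c'| ≤ E) :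
    |∑ c ∈ S, ∑ c' ∈ T, a c c' * u c c' - ∑ c ∈ S, ∑ c' ∈ T, a c c' * v c c'| ≤
      (∑ c ∈ S, ∑ c' ∈ T, a' c c') * E := by
  rw [← sum_sub_distrib, sum_mul]
  refine (abs_sum_le_sum_abs _ _).trans (sum_le_sum fun c hc => ?_)
  rw [← sum_sub_distrib, sum_mul]
  refine (abs_sum_le_sum_abs _ _).trans (sum_le_sum fun c' hc' => ?_)
  rw [← mul_sub, abs_mul]
  calc |a c c'| * |u c c' - v c c'| ≤ |a c c'| * E :=
        mul_le_mul_of_nonneg_left (h c hc c' hc') (abs_nonneg _)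
    _ ≤ a' c c' * E := mul_le_mul_of_nonneg_right (ha c hc c' hc') hE

private theorem A6_abs (a f ε : ℝ) (h : |a - f| ≤ ε) : |a| ≤ |f| + ε := by
  have := abs_sub_abs_le_abs_sub a f
  linarith

private theorem A6_sq (a f ε : ℝ) (h : |a - f| ≤ ε) (h1 : ε ≤ 1) (h0 : 0 < ε) :
    a ^ 2 ≤ f ^ 2 + (2 * |f| + 1) * ε := by
  have h2 := A6_abs a f ε h
  have h3 : a ^ 2 ≤ (|f| + ε) ^ 2 := by
    rw [← sq_abs a]
    exact pow_le_pow_left₀ (abs_nonneg _) h2 2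
  have h4 : (|f| + ε) ^ 2 = f ^ 2 + (2 * |f| + ε) * ε := by
    rw [← sq_abs f]; ring
  have h5 : (2 * |f| + ε) * ε ≤ (2 * |f| + 1) * ε :=
    mul_le_mul_of_nonneg_right (by linarith) h0.le
  linarith

private theorem A6_SA (S : Finset (Fin 4)) (T : Fin 4 → Finset (Fin 4 → ℕ)) (a f : Fin 4 → (Fin 4 → ℕ) → ℝ)
    (ε : ℝ) (h1 : ε ≤ 1) (h0 : 0 < ε) (h : ∀ i, ∀ c ∈ T i, |a i c - f i c| ≤ ε) :
    ∑ i ∈ S, ∑ c ∈ T i, a i c ^ 2 ≤
      ∑ i ∈ S, ∑ c ∈ T i, f i c ^ 2 + (∑ i ∈ S, ∑ c ∈ T i, (2 * |f i c| + 1)) * ε := by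
  rw [sum_mul, ← sum_add_distrib]
  refine sum_le_sum fun i _ => ?_
  rw [sum_mul, ← sum_add_distrib]
  exact sum_le_sum fun c hc => A6_sq _ _ _ (h i c hc) h1 h0

/-- the lower bound with an absolute factor `κ'` -/
theorem SS_lower_abs (d : Dat) (w : Fin 4 → ℕ → ℕ → ℝ) (hw : ∀ i, Wt (w i))
    (D : Fin 4 → (Fin 3 → ℕ) → ℝ)
    (hD : ∀ (i : Fin 4) (B h0 : ℕ), 3 ≤ B → ∀ ε : ℝ, 0 < ε → ∃ x₀ : ℕ, ∀ x : ℕ, x₀ ≤ x →
      ∀ b ∈ d.B i, x / Real.log x * (D i b - ε) ≤ Yb d (w i) x (zB B x) h0 i b)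
    (hcert : et * ∑ i ∈ univ.erase (0 : Fin 4), ∑ c ∈ d.T i, d.f i c ^ 2 < ∑ i, ∑ b ∈ d.B i, D i b) :
    ∃ κ' : ℝ, 0 < κ' ∧ ∀ h : Fin 4 → ℕ, Function.Injective h →
    ∀ c₀ : ℝ, 0 < c₀ → ∀ z₀ : ℕ, (∀ z : ℕ, z₀ ≤ z → c₀ * Vz z ^ 4 ≤ VH h z) →
    ∃ B : ℕ, 3 ≤ B ∧ ∃ x₀ : ℕ, ∀ x : ℕ, x₀ ≤ x →
      c₀ * κ' * (x / (Real.log x) ^ 4) ≤ SS d w h x (zB B x) := by
  -- the constant
  set SF : ℝ := ∑ i ∈ univ.erase (0 : Fin 4), ∑ c ∈ d.T i, d.f i c ^ 2 with hSF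
  set SM : ℝ := ∑ i ∈ univ.erase (0 : Fin 4), ∑ c ∈ d.T i, (2 * |d.f i c| + 1) with hSM
  set SD : ℝ := ∑ i, ∑ b ∈ d.B i, D i b with hSD
  have hκ : 0 < et ^ 3 * SD - et ^ 4 * SF := by
    have h2 := mul_lt_mul_of_pos_left hcert (pow_pos A6_et 3)
    nlinarith [h2]
  obtain ⟨ε, hε0, hεe, hεκ⟩ := A6_eps SD SF (∑ i, ((d.B i).card : ℝ)) SM hκ
  set κ : ℝ := (et ^ 3 * SD - et ^ 4 * SF) / 2 with hκdef
  have hκ0 : 0 < κ := by rw [hκdef]; linarith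
  have hκ' : κ ≤ (et - ε) ^ 3 * ∑ i, ∑ b ∈ d.B i, (D i b - ε) - (et + ε) ^ 4 * (SF + SM * ε) := by
    have e : ∑ i, ∑ b ∈ d.B i, (D i b - ε) = SD - (∑ i, ((d.B i).card : ℝ)) * ε := by
      have e1 : ∀ i : Fin 4, ∑ b ∈ d.B i, (D i b - ε) = ∑ b ∈ d.B i, D i b - (d.B i).card * ε := fun i => by
        rw [sum_sub_distrib, sum_const, nsmul_eq_mul]
      rw [sum_congr rfl fun i _ => e1 i, sum_sub_distrib, sum_mul]
    rw [e]
    exact hεκ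
  have het1 : et < 1 := by unfold et; norm_num
  refine ⟨κ / 2, by linarith, fun h hinj c₀ hc0 z₀ hVHl => ?_⟩
  obtain ⟨B1, hB1⟩ := TI_asymp d w hw h hinj 5
  obtain ⟨B2, hB2⟩ := TZ_asymp d h hinj 5
  set B : ℕ := max 3 (max B1 B2) with hBdef
  have hB3 : 3 ≤ B := le_max_left _ _
  have hB1' : B1 ≤ B := (le_max_left _ _).trans (le_max_right _ _)
  have hB2' : B2 ≤ B := (le_max_right _ _).trans (le_max_right _ _)
  obtain ⟨x1, hx1⟩ := hB1 B hB1'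
  obtain ⟨x2, hx2⟩ := hB2 B hB2'
  obtain ⟨x3, hx3⟩ := Sg_eq B hB3 ε hε0
  choose x4 hx4 using fun i : Fin 4 => hD i B (h i) hB3 ε hε0
  choose x5 hx5 using fun i : Fin 4 => (hw i).bd
  obtain ⟨x8, hx8⟩ := d.lim B hB3 ε hε0
  obtain ⟨C1, hC1⟩ : ∃ C1 : ℝ, C1 = ∑ i : Fin 4, ∑ c ∈ d.T i, ∑ c' ∈ d.T i,
    (|d.f i c| + 1) * (|d.f i c'| + 1) := ⟨_, rfl⟩
  have hC0 : 0 ≤ 2 * C1 := by
    have : 0 ≤ C1 := by
      rw [hC1]
      exact sum_nonneg fun i _ => sum_nonneg fun c _ => sum_nonneg fun c' _ => by positivity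
    linarith
  -- large logarithm
  obtain ⟨x6, hx6⟩ : ∃ x6 : ℕ, ∀ x : ℕ, x6 ≤ x →
      2 * (2 * C1) / (c₀ * κ) + 1 ≤ Real.log x := by
    have ht : Filter.Tendsto (fun x : ℕ => Real.log x) Filter.atTop Filter.atTop :=
      Real.tendsto_log_atTop.comp tendsto_natCast_atTop_atTop
    obtain ⟨x6, h6⟩ := Filter.eventually_atTop.1 (ht.eventually_ge_atTop (2 * (2 * C1) / (c₀ * κ) + 1))
    exact ⟨x6, h6⟩
  obtain ⟨x7, hx7⟩ : ∃ x7 : ℕ, ∀ x : ℕ, x7 ≤ x → z₀ ≤ zB B x := by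
    have ht : Filter.Tendsto (fun x : ℕ => Real.log x) Filter.atTop Filter.atTop :=
      Real.tendsto_log_atTop.comp tendsto_natCast_atTop_atTop
    obtain ⟨x7, h7⟩ := Filter.eventually_atTop.1 (ht.eventually_ge_atTop ((z₀ : ℝ) + 1))
    refine ⟨x7, fun x hx => Nat.le_floor ?_⟩
    have h8 := h7 x hx
    have hz0 : (0 : ℝ) ≤ z₀ := Nat.cast_nonneg _
    calc (z₀ : ℝ) ≤ Real.log x := by linarith
      _ = Real.log x ^ 1 := (pow_one _).symm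
      _ ≤ Real.log x ^ B := pow_le_pow_right₀ (by linarith) (by omega)
  refine ⟨B, hB3,
    max x1 (max x2 (max x3 (max (∑ i, x4 i) (max (∑ i, x5 i) (max x6 (max 1
      (max (∑ i, h i) (max x7 x8)))))))),
    fun x hx => ?_⟩
  simp only [max_le_iff] at hx
  obtain ⟨k1, k2, k3, k4, k5, k6, k7, k8, k9, k10⟩ := hx
  have k4' : ∀ i, x4 i ≤ x := fun i =>
    (single_le_sum (f := x4) (fun _ _ => Nat.zero_le _) (mem_univ i)).trans k4
  have k5' : ∀ i, x5 i ≤ x := fun i =>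
    (single_le_sum (f := x5) (fun _ _ => Nat.zero_le _) (mem_univ i)).trans k5
  have k8' : ∀ i, h i ≤ x := fun i =>
    (single_le_sum (f := h) (fun _ _ => Nat.zero_le _) (mem_univ i)).trans k8
  have hlim := hx8 x k10
  set z : ℕ := zB B x with hz
  set L : ℝ := Real.log x with hLdef
  have hL6 := hx6 x k6
  have hL1 : 1 ≤ L := by
    have : 0 ≤ 2 * (2 * C1) / (c₀ * κ) :=
      div_nonneg (mul_nonneg zero_le_two hC0) (mul_pos hc0 hκ0).le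
    linarith
  have hL : 0 < L := by linarith
  have hV : 0 < Vz z := div_pos (Nat.cast_pos.2 (Nat.totient_pos.2 (primorial_pos z)))
    (Nat.cast_pos.2 (primorial_pos z))
  have hx0 : (0 : ℝ) ≤ x := Nat.cast_nonneg _
  -- nonnegativity of the weights
  have wpos : ∀ i : Fin 4, ∀ m : ℕ, x < m → m ≤ 3 * x → 0 ≤ w i x m :=
    fun i m h1 h2 => (hx5 i x (k5' i) m h1 h2).1
  have hY0 : ∀ i, ∀ b ∈ d.B i, 0 ≤ Yb d (w i) x z (h i) i b := by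
    intro i b _
    unfold Yb
    refine sum_nonneg fun m hm => ?_
    have hm' := mem_Ioc.1 hm
    have := k8' i
    exact mul_nonneg (wpos i m (by omega) (by omega)) (sq_nonneg _)
  have horth : ∀ j ≤ 59, ∀ j' ≤ 59, j ≠ j' → Sg x z j j' = 0 :=
    fun j _ j' _ hj => Sg_ne x z k7 j j' hj
  -- the coefficients
  have hSA : ∑ i ∈ univ.erase (0 : Fin 4), ∑ c ∈ d.T i, d.a i x z c ^ 2 ≤ SF + SM * ε :=
    A6_SA (univ.erase (0 : Fin 4)) d.T (fun i c => d.a i x z c) d.f ε (hεe.trans het1).le hε0 hlim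
  have hcf1 : ∀ i, ∀ c ∈ d.T i, |d.a i x z c| ≤ |d.f i c| + 1 := fun i c hc =>
    (A6_abs _ _ _ (hlim i c hc)).trans (add_le_add le_rfl (hεe.trans het1).le)
  have hcf : ∀ i, ∀ c ∈ d.T i, ∀ c' ∈ d.T i,
      |d.a i x z c * d.a i x z c'| ≤ (|d.f i c| + 1) * (|d.f i c'| + 1) := by
    intro i c hc c' hc'
    rw [abs_mul]
    exact mul_le_mul (hcf1 i c hc) (hcf1 i c' hc') (abs_nonneg _) (add_nonneg (abs_nonneg _) zero_le_one)
  have hmain := A6_main d D (fun i b => Yb d (w i) x z (h i) i b) (fun i c => d.a i x z c) x z h L (Vz z)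
    ε κ c₀ (SF + SM * ε) hL hV hεe
    (VH_eq 4 (by norm_num) h z) (hVHl z (hx7 x k9)) hc0
    (fun j hj => hx3 x k3 j (hj.trans (by norm_num))) (fun i b hb => hx4 i x (k4' i) b hb) hY0
    (fun i b _ hl => Yb_zero d (w i) x z (h i) i b hl) hSA hκ' hκ0
  -- error terms
  set E : ℝ := x / L ^ 5 with hE
  have hE0 : 0 ≤ E := by positivity
  have err1 : ∀ i : Fin 4,
      VH' h z * ∑ b ∈ d.B i, (∏ j, Sg x z (b j) (b j)) * Yb d (w i) x z (h i) i b -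
      (∑ c ∈ d.T i, ∑ c' ∈ d.T i, (|d.f i c| + 1) * (|d.f i c'| + 1)) * E ≤
      ∑ n ∈ Nn h x z, w i x (n + h i) * WW d h x z i n ^ 2 := by
    intro i
    have h1 := A6_err (d.T i) (d.T i) (fun c c' => d.a i x z c * d.a i x z c')
      (fun c c' => (|d.f i c| + 1) * (|d.f i c'| + 1))
      (fun c c' => TI (w i) h x z i c c')
      (fun c c' => VH' h z * MM (w i) x z (h i) (c i) (c' i) * ∏ j ∈ univ.erase i, Sg x z (c j) (c' j)) E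
      hE0 (hcf i) (fun c hc c' hc' => hx1 x k1 i c hc c' hc')
    rw [main_i d (w i) x z (h i) (k8' i) i horth (VH' h z)] at h1
    rw [exp_i]
    have := (abs_le.1 h1).1
    linarith
  have err2 : ∀ i : Fin 4, ∑ n ∈ Nn h x z, WW d h x z i n ^ 2 ≤
      x * VH h z * (∑ c ∈ d.T i, d.a i x z c ^ 2 * ∏ j, Sg x z (c j) (c j)) +
      (∑ c ∈ d.T i, ∑ c' ∈ d.T i, (|d.f i c| + 1) * (|d.f i c'| + 1)) * E := by
    intro i
    have h1 := A6_err (d.T i) (d.T i) (fun c c' => d.a i x z c * d.a i x z c')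
      (fun c c' => (|d.f i c| + 1) * (|d.f i c'| + 1)) (fun c c' => TZ h x z c c')
      (fun c c' => x * VH h z * ∏ j, Sg x z (c j) (c' j)) E
      hE0 (hcf i) (fun c hc c' hc' => hx2 x k2 i c hc c' hc')
    rw [main_0 d x z i horth (x * VH h z)] at h1
    rw [exp_0]
    have := (abs_le.1 h1).2
    linarith
  have hsum : ∑ i : Fin 4,
      VH' h z * ∑ b ∈ d.B i, (∏ j, Sg x z (b j) (b j)) * Yb d (w i) x z (h i) i b -
      C1 * E ≤ ∑ i, ∑ n ∈ Nn h x z, w i x (n + h i) * WW d h x z i n ^ 2 := by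
    rw [hC1, sum_mul, ← sum_sub_distrib]
    exact sum_le_sum (fun i _ => err1 i)
  have hsum2 : ∑ i ∈ univ.erase (0 : Fin 4), ∑ n ∈ Nn h x z, WW d h x z i n ^ 2 ≤
      ∑ i ∈ univ.erase (0 : Fin 4),
        (x * VH h z * ∑ c ∈ d.T i, d.a i x z c ^ 2 * ∏ j, Sg x z (c j) (c j)) + C1 * E := by
    have h1 : ∑ i ∈ univ.erase (0 : Fin 4),
        (∑ c ∈ d.T i, ∑ c' ∈ d.T i, (|d.f i c| + 1) * (|d.f i c'| + 1)) * E ≤ C1 * E := by
      rw [← sum_mul]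
      refine mul_le_mul_of_nonneg_right ?_ hE0
      rw [hC1]
      refine sum_le_sum_of_subset_of_nonneg (subset_univ _) fun i _ _ => ?_
      exact sum_nonneg fun c _ => sum_nonneg fun c' _ => by positivity
    have h2 := sum_le_sum (s := univ.erase (0 : Fin 4)) fun i _ => err2 i
    rw [sum_add_distrib] at h2
    linarith
  have hfin : c₀ * κ * (x / L ^ 4) - (2 * C1) * E ≤ SS d w h x z := by
    rw [SS_eq]
    linarith
  have hEb : (2 * C1) * E ≤ c₀ * κ / 2 * (x / L ^ 4) := by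
    have h1 : 2 * C1 ≤ c₀ * κ / 2 * L := by
      have h2 : 2 * (2 * C1) / (c₀ * κ) ≤ L := by linarith
      rw [div_le_iff₀ (by positivity)] at h2
      linarith
    calc (2 * C1) * E ≤ c₀ * κ / 2 * L * E := mul_le_mul_of_nonneg_right h1 hE0
      _ = c₀ * κ / 2 * (x / L ^ 4) := by rw [hE]; field_simp
  linarith

end Pool.Agent.Lib.MP_092512_nt.P5
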