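import Pool.Agent.Lib.MP_092512_nt.P5.A6

/-!
# P5: generic assembly, upper bound for `SS` by the number of good `n`, and the conclusion

`gen_lower`: for weights `w i` with the properties `Wt`, sieve weights `d : Dat` which agree on the support of `w 0`,
a lower bound `D` of the line sums and the certificate, the number of the `n ∈ (x, 2x]` with `w i x (n + h i) ≠ 0` for
all four `i` is at least `c₀ κ x / log⁴ x`.
-/

set_option autoImplicit false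

open Finset

namespace Pool.Agent.Lib.MP_092512_nt.P5

open Pool.Agent.Lib.SW Pool.Agent.Lib.MP_092512_nt.P3

private theorem A7_card_div (m : ℕ) (hm : Squarefree m) (h : m.primeFactors.card ≤ 5) :
    m.divisors.card ≤ 32 := by
  rw [Nat.card_divisors hm.ne_zero]
  calc ∏ p ∈ m.primeFactors, (m.factorization p + 1) ≤ ∏ _p ∈ m.primeFactors, 2 := by
        refine prod_le_prod' fun p _ => ?_
        have := hm.natFactorization_le_one p
        omega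
    _ = 2 ^ m.primeFactors.card := by rw [prod_const]
    _ ≤ 2 ^ 5 := Nat.pow_le_pow_right (by norm_num) h
    _ = 32 := by norm_num

private theorem A7_LC (x z j m : ℕ) (hm : Squarefree m) (h : m.primeFactors.card ≤ 5)
    (hl : ∀ d : ℕ, |lamC x z et j d| ≤ 2) : |LC x z et j m| ≤ 64 := by
  unfold LC
  refine (abs_sum_le_sum_abs _ _).trans ?_
  calc ∑ d ∈ m.divisors, |lamC x z et j d| ≤ ∑ _d ∈ m.divisors, (2 : ℝ) :=
        sum_le_sum fun d _ => hl d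
    _ = (m.divisors.card : ℝ) * 2 := by rw [sum_const, nsmul_eq_mul]
    _ ≤ 32 * 2 := by
        refine mul_le_mul_of_nonneg_right ?_ (by norm_num)
        exact_mod_cast A7_card_div m hm h
    _ = 64 := by norm_num

private theorem A7_WW (d : Dat) (h : Fin 4 → ℕ) (x z n : ℕ)
    (hg : ∀ i, Squarefree (n + h i) ∧ (n + h i).primeFactors.card ≤ 5)
    (hl : ∀ j ≤ 59, ∀ e : ℕ, |lamC x z et j e| ≤ 2)
    (ha : ∀ c ∈ d.T 0, |d.a 0 x z c| ≤ |d.f 0 c| + 1) :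
    WW d h x z 0 n ^ 2 ≤ (∑ c ∈ d.T 0, (|d.f 0 c| + 1) * 64 ^ 4) ^ 2 := by
  have h1 : |WW d h x z 0 n| ≤ ∑ c ∈ d.T 0, (|d.f 0 c| + 1) * 64 ^ 4 := by
    unfold WW
    refine (abs_sum_le_sum_abs _ _).trans ?_
    refine sum_le_sum fun c hc => ?_
    rw [abs_mul]
    refine mul_le_mul (ha c hc) ?_ (abs_nonneg _) (add_nonneg (abs_nonneg _) zero_le_one)
    unfold PL
    rw [abs_prod]
    calc ∏ i, |LC x z et (c i) (n + h i)| ≤ ∏ _i : Fin 4, (64 : ℝ) := by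
          refine prod_le_prod (fun i _ => abs_nonneg _) fun i _ => ?_
          exact A7_LC x z (c i) (n + h i) (hg i).1 (hg i).2 (hl _ (d.coord 0 c hc i))
      _ = 64 ^ 4 := by rw [prod_const, card_univ, Fintype.card_fin]
  rw [← sq_abs (WW d h x z 0 n)]
  exact pow_le_pow_left₀ (abs_nonneg _) h1 2

open Classical in
/-- with an absolute constant -/
theorem SS_upper_abs (d : Dat) (w : Fin 4 → ℕ → ℕ → ℝ) (hw : ∀ i, Wt (w i))
    (hid : ∀ (h : Fin 4 → ℕ) (B : ℕ), 3 ≤ B → ∃ x₀ : ℕ, ∀ x : ℕ, x₀ ≤ x → ∀ n ∈ Nn h x (zB B x),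
      w 0 x (n + h 0) ≠ 0 → ∀ i, WW d h x (zB B x) i n = WW d h x (zB B x) 0 n) :
    ∃ C : ℝ, 0 < C ∧ ∀ (h : Fin 4 → ℕ) (B : ℕ), 3 ≤ B →
    ∃ x₀ : ℕ, ∀ x : ℕ, x₀ ≤ x →
      SS d w h x (zB B x) ≤
        C * (((Ioc x (2 * x)).filter (fun n => ∀ i, w i x (n + h i) ≠ 0)).card : ℝ) := by
  refine ⟨(∑ c ∈ d.T 0, (|d.f 0 c| + 1) * 64 ^ 4) ^ 2 + 1, by positivity, fun h B hB => ?_⟩
  choose x1 hew using fun i : Fin 4 => (hw i).bd
  obtain ⟨x2, hlam⟩ := lamC_le B 61 hB et (by unfold et; norm_num) (by unfold et; norm_num)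
  obtain ⟨x3, hx3⟩ := d.lim B hB 1 one_pos
  obtain ⟨x4, hx4⟩ := hid h B hB
  refine ⟨max (∑ i, x1 i) (max x2 (max (∑ i, h i) (max x3 x4))), ?_⟩
  intro x hx
  simp only [max_le_iff] at hx
  obtain ⟨k1, k2, k3, k4, k5⟩ := hx
  have hx1 : ∀ i, x1 i ≤ x := fun i =>
    (single_le_sum (f := x1) (fun _ _ => Nat.zero_le _) (mem_univ i)).trans k1
  have hhi : ∀ i, h i ≤ x := fun i =>
    le_trans (single_le_sum (f := h) (fun _ _ => Nat.zero_le _) (mem_univ i)) k3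
  have ha : ∀ c ∈ d.T 0, |d.a 0 x (zB B x) c| ≤ |d.f 0 c| + 1 := fun c hc => by
    have h1 := hx3 x k4 0 c hc
    have h2 := abs_sub_abs_le_abs_sub (d.a 0 x (zB B x) c) (d.f 0 c)
    linarith
  obtain ⟨M, hM⟩ : ∃ M : ℝ, M = (∑ c ∈ d.T 0, (|d.f 0 c| + 1) * 64 ^ 4) ^ 2 + 1 := ⟨_, rfl⟩
  rw [← hM]
  have hM0 : 0 ≤ M := by rw [hM]; positivity
  have hterm : ∀ n ∈ Nn h x (zB B x),
      (∑ i, w i x (n + h i) * WW d h x (zB B x) i n ^ 2 -
        ∑ i ∈ univ.erase 0, WW d h x (zB B x) i n ^ 2) ≤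
        if (∀ i, w i x (n + h i) ≠ 0) then M else 0 := by
    intro n hn
    have hn' := mem_Ioc.mp (mem_filter.mp hn).1
    have hrange : ∀ i, x < n + h i ∧ n + h i ≤ 3 * x := fun i => by
      have := hhi i
      omega
    have hp := point (fun i => w i x (n + h i)) (fun i => WW d h x (zB B x) i n)
      (fun i => (hew i x (hx1 i) (n + h i) (hrange i).1 (hrange i).2).1)
      (fun i => (hew i x (hx1 i) (n + h i) (hrange i).1 (hrange i).2).2.1)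
      (fun h0 i => hx4 x k5 n hn h0 i)
    refine hp.trans ?_
    by_cases hg : ∀ i, w i x (n + h i) ≠ 0
    · rw [if_pos hg, if_pos hg]
      have h2 := A7_WW d h x (zB B x) n (fun i => by
          obtain ⟨a1, a2, _⟩ := (hew i x (hx1 i) (n + h i) (hrange i).1 (hrange i).2).2.2 (hg i)
          exact ⟨a1, a2⟩) (fun j hj e => hlam x k2 j (hj.trans (by norm_num)) e) ha
      rw [hM]
      linarith
    · rw [if_neg hg, if_neg hg]
  calc SS d w h x (zB B x) ≤ ∑ n ∈ Nn h x (zB B x), (if (∀ i, w i x (n + h i) ≠ 0) then M else 0) := by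
        unfold SS
        exact sum_le_sum hterm
    _ ≤ ∑ n ∈ Ioc x (2 * x), (if (∀ i, w i x (n + h i) ≠ 0) then M else 0) := by
        refine sum_le_sum_of_subset_of_nonneg (filter_subset _ _) fun n _ _ => ?_
        split_ifs
        · exact hM0
        · exact le_rfl
    _ = M * (((Ioc x (2 * x)).filter (fun n => ∀ i, w i x (n + h i) ≠ 0)).card : ℝ) := by
        rw [← sum_filter, sum_const, nsmul_eq_mul, mul_comm]

open Classical in
/-- the generic conclusion -/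
theorem gen_lower (d : Dat) (w : Fin 4 → ℕ → ℕ → ℝ) (hw : ∀ i, Wt (w i))
    (hid : ∀ (h : Fin 4 → ℕ) (B : ℕ), 3 ≤ B → ∃ x₀ : ℕ, ∀ x : ℕ, x₀ ≤ x → ∀ n ∈ Nn h x (zB B x),
      w 0 x (n + h 0) ≠ 0 → ∀ i, WW d h x (zB B x) i n = WW d h x (zB B x) 0 n)
    (D : Fin 4 → (Fin 3 → ℕ) → ℝ)
    (hD : ∀ (i : Fin 4) (B h0 : ℕ), 3 ≤ B → ∀ ε : ℝ, 0 < ε → ∃ x₀ : ℕ, ∀ x : ℕ, x₀ ≤ x →
      ∀ b ∈ d.B i, x / Real.log x * (D i b - ε) ≤ Yb d (w i) x (zB B x) h0 i b)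
    (hcert : et * ∑ i ∈ univ.erase (0 : Fin 4), ∑ c ∈ d.T i, d.f i c ^ 2 < ∑ i, ∑ b ∈ d.B i, D i b) :
    ∃ κ' : ℝ, 0 < κ' ∧ ∀ h : Fin 4 → ℕ, Function.Injective h →
    ∀ c₀ : ℝ, 0 < c₀ → ∀ z₀ : ℕ, (∀ z : ℕ, z₀ ≤ z → c₀ * Vz z ^ 4 ≤ VH h z) →
    ∃ x₀ : ℕ, ∀ x : ℕ, x₀ ≤ x →
      c₀ * κ' * (x / (Real.log x) ^ 4) ≤
        (((Ioc x (2 * x)).filter (fun n => ∀ i, w i x (n + h i) ≠ 0)).card : ℝ) := by
  obtain ⟨κ, hκ, HL⟩ := SS_lower_abs d w hw D hD hcert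
  obtain ⟨C, hC, HU⟩ := SS_upper_abs d w hw hid
  refine ⟨κ / C, by positivity, fun h hinj c₀ hc₀ z₀ hz₀ => ?_⟩
  obtain ⟨B, hB, x1, hlow⟩ := HL h hinj c₀ hc₀ z₀ hz₀
  obtain ⟨x2, hup⟩ := HU h B hB
  refine ⟨max x1 x2, fun x hx => ?_⟩
  have h1 := hlow x ((le_max_left _ _).trans hx)
  have h2 := hup x ((le_max_right _ _).trans hx)
  have h3 := h1.trans h2
  have e : c₀ * (κ / C) * (x / (Real.log x) ^ 4) = c₀ * κ * (x / (Real.log x) ^ 4) / C := by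
    field_simp
  rw [e, div_le_iff₀ hC]
  linarith

end Pool.Agent.Lib.MP_092512_nt.P5
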