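import Pool.Agent.Lib.MP_092512_nt.P5.A7
import Pool.Agent.Lib.MP_092512_nt.P3.G3

/-!
# P5: passage from `(x, 2x]` to `n ≤ N`, and the form relative to the singular series

`quad_sing`: if the conclusion of `gen_lower` holds for the weights `w i` and `w i x m ≠ 0` implies `Q i m`, then the number of
the `n ≤ N` such that all `n + h i` are squarefree, satisfy `Q i` and have only prime factors `> N^(1/251)` is between
`c S N / log⁴ N` and `C S N / log⁴ N`.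
-/

set_option autoImplicit false

open Finset Filter

namespace Pool.Agent.Lib.MP_092512_nt.P5

open Pool.Agent.Lib.SW Pool.Agent.Lib.MP_092512_nt.P3

open Classical in
/-- passage to `n ≤ N` -/
theorem lower_N (w : Fin 4 → ℕ → ℕ → ℝ) (hw : ∀ i, Wt (w i)) (Q : Fin 4 → ℕ → Prop)
    (hQ : ∀ i, ∃ x₀ : ℕ, ∀ x : ℕ, x₀ ≤ x → ∀ m : ℕ, x < m → m ≤ 3 * x → w i x m ≠ 0 → Q i m)
    (H : ∃ κ' : ℝ, 0 < κ' ∧ ∀ h : Fin 4 → ℕ, Function.Injective h →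
      ∀ c₀ : ℝ, 0 < c₀ → ∀ z₀ : ℕ, (∀ z : ℕ, z₀ ≤ z → c₀ * Vz z ^ 4 ≤ VH h z) →
      ∃ x₀ : ℕ, ∀ x : ℕ, x₀ ≤ x →
        c₀ * κ' * (x / (Real.log x) ^ 4) ≤
          (((Ioc x (2 * x)).filter (fun n => ∀ i, w i x (n + h i) ≠ 0)).card : ℝ)) :
    ∃ c' : ℝ, 0 < c' ∧ ∀ h : Fin 4 → ℕ, Function.Injective h →
    ∀ c₀ : ℝ, 0 < c₀ → ∀ z₀ : ℕ, (∀ z : ℕ, z₀ ≤ z → c₀ * Vz z ^ 4 ≤ VH h z) →
    ∃ N₀ : ℕ, ∀ N : ℕ, N₀ ≤ N →
      c₀ * c' * (N / (Real.log N) ^ 4) ≤ (((Icc 1 N).filter (fun n => ∀ i, Squarefree (n + h i) ∧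
        Q i (n + h i) ∧
          ∀ p ∈ (n + h i).primeFactors, (N : ℝ) ^ (1 / 251 : ℝ) < p)).card : ℝ) := by
  obtain ⟨κ, hκ, HL⟩ := H
  choose x2 hx2 using hQ
  choose x3 hx3 using fun i : Fin 4 => (hw i).bd
  refine ⟨κ / 3, by positivity, fun h hinj c₀ hc₀ z₀ hz₀ => ?_⟩
  obtain ⟨x1, hlow⟩ := HL h hinj c₀ hc₀ z₀ hz₀
  obtain ⟨c, hcd⟩ : ∃ c : ℝ, c = c₀ * κ := ⟨_, rfl⟩
  rw [← hcd] at hlow
  have hc : 0 < c := by rw [hcd]; positivity
  have hcc : c₀ * (κ / 3) = c / 3 := by rw [hcd]; ring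
  rw [hcc]
  refine ⟨3 ^ 251 + (2 * x1 + 2) + (2 * (∑ i, x2 i) + 2) + (2 * (∑ i, x3 i) + 2) + (2 * (∑ i, h i) + 2), ?_⟩
  intro N hN
  have hN1 : 3 ^ 251 ≤ N := by omega
  have hN4 : 9 ≤ N := le_trans (by
    calc 9 = 3 ^ 2 := by norm_num
      _ ≤ 3 ^ 251 := Nat.pow_le_pow_right (by norm_num) (by norm_num)) hN1
  obtain ⟨x, hx⟩ : ∃ x : ℕ, x = N / 2 := ⟨_, rfl⟩
  have hxN : 2 * x ≤ N := by omega
  have hxN' : N ≤ 3 * x := by omega
  have hx1 : x1 ≤ x := by omega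
  have hx2' : ∀ i, x2 i ≤ x := fun i => by
    have := single_le_sum (f := x2) (fun _ _ => Nat.zero_le _) (mem_univ i)
    omega
  have hx3' : ∀ i, x3 i ≤ x := fun i => by
    have := single_le_sum (f := x3) (fun _ _ => Nat.zero_le _) (mem_univ i)
    omega
  have hhi : ∀ i, h i ≤ x := fun i => by
    have := single_le_sum (f := h) (fun _ _ => Nat.zero_le _) (mem_univ i)
    omega
  have hx3n : 3 ≤ x := by omega
  have hNR : (3 : ℝ) ^ (251 : ℕ) ≤ N := by exact_mod_cast hN1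
  have hN0 : (0 : ℝ) < N := lt_of_lt_of_le (by positivity) hNR
  have hxR : (N : ℝ) ≤ 3 * x := by exact_mod_cast hxN'
  have hx0 : (0 : ℝ) < x := by linarith
  have hxN2 : (x : ℝ) ≤ N := by
    have : x ≤ N := by omega
    exact_mod_cast this
  have hx3R : (3 : ℝ) ≤ x := by exact_mod_cast hx3n
  have hpow : (N : ℝ) ^ (1 / 251 : ℝ) ≤ (x : ℝ) ^ de := by
    have h1 : (3 : ℝ) ≤ (N : ℝ) ^ (1 / 251 : ℝ) := by
      calc (3 : ℝ) = ((3 : ℝ) ^ (251 : ℕ)) ^ (1 / 251 : ℝ) := by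
            rw [← Real.rpow_natCast, ← Real.rpow_mul (by norm_num)]
            norm_num
        _ ≤ (N : ℝ) ^ (1 / 251 : ℝ) := Real.rpow_le_rpow (by positivity) hNR (by norm_num)
    have h2 : (N : ℝ) ^ (250 / 251 : ℝ) ≤ x := by
      have h3 : (N : ℝ) ^ (250 / 251 : ℝ) * (N : ℝ) ^ (1 / 251 : ℝ) = N := by
        rw [← Real.rpow_add hN0]
        norm_num
      have h4 : 0 < (N : ℝ) ^ (250 / 251 : ℝ) := Real.rpow_pos_of_pos hN0 _
      nlinarith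
    calc (N : ℝ) ^ (1 / 251 : ℝ) = ((N : ℝ) ^ (250 / 251 : ℝ)) ^ (1 / 250 : ℝ) := by
          rw [← Real.rpow_mul hN0.le]
          norm_num
      _ ≤ (x : ℝ) ^ (1 / 250 : ℝ) := Real.rpow_le_rpow (by positivity) h2 (by norm_num)
      _ = (x : ℝ) ^ de := rfl
  have hlow' := hlow x hx1
  have hcard : (((Ioc x (2 * x)).filter (fun n => ∀ i, w i x (n + h i) ≠ 0)).card : ℝ) ≤
      (((Icc 1 N).filter (fun n => ∀ i, Squarefree (n + h i) ∧ Q i (n + h i) ∧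
          ∀ p ∈ (n + h i).primeFactors, (N : ℝ) ^ (1 / 251 : ℝ) < p)).card : ℝ) := by
    have : ((Ioc x (2 * x)).filter (fun n => ∀ i, w i x (n + h i) ≠ 0)).card ≤
      ((Icc 1 N).filter (fun n => ∀ i, Squarefree (n + h i) ∧ Q i (n + h i) ∧
          ∀ p ∈ (n + h i).primeFactors, (N : ℝ) ^ (1 / 251 : ℝ) < p)).card := by
      refine card_le_card fun n hn => ?_
      rw [mem_filter, mem_Ioc] at hn
      rw [mem_filter, mem_Icc]
      refine ⟨⟨by omega, by omega⟩, fun i => ?_⟩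
      have hi := hhi i
      have hm1 : x < n + h i := by omega
      have hm2 : n + h i ≤ 3 * x := by omega
      obtain ⟨h1, _, h3⟩ := (hx3 i x (hx3' i) (n + h i) hm1 hm2).2.2 (hn.2 i)
      exact ⟨h1, hx2 i x (hx2' i) (n + h i) hm1 hm2 (hn.2 i), fun p hp => lt_of_le_of_lt hpow (h3 p hp)⟩
    exact_mod_cast this
  have hlogx : 0 < Real.log x := Real.log_pos (by linarith)
  have hlogN : Real.log x ≤ Real.log N := Real.log_le_log hx0 hxN2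
  have hmain : (N : ℝ) / 3 / (Real.log N) ^ 4 ≤ x / (Real.log x) ^ 4 := by
    calc (N : ℝ) / 3 / (Real.log N) ^ 4 ≤ x / (Real.log N) ^ 4 := by
          refine div_le_div_of_nonneg_right (by linarith) (by positivity)
      _ ≤ x / (Real.log x) ^ 4 := by
          refine div_le_div_of_nonneg_left hx0.le (by positivity) ?_
          exact pow_le_pow_left₀ hlogx.le hlogN 4
  have h6 : c / 3 * (N / (Real.log N) ^ 4) = c * ((N : ℝ) / 3 / (Real.log N) ^ 4) := by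
    field_simp
  rw [h6]
  exact ((mul_le_mul_of_nonneg_left hmain hc.le).trans hlow').trans hcard

open Classical in
/-- the form relative to the singular series -/
theorem quad_sing (w : Fin 4 → ℕ → ℕ → ℝ) (hw : ∀ i, Wt (w i)) (Q : Fin 4 → ℕ → Prop)
    (hQ : ∀ i, ∃ x₀ : ℕ, ∀ x : ℕ, x₀ ≤ x → ∀ m : ℕ, x < m → m ≤ 3 * x → w i x m ≠ 0 → Q i m)
    (H : ∃ κ' : ℝ, 0 < κ' ∧ ∀ h : Fin 4 → ℕ, Function.Injective h →
      ∀ c₀ : ℝ, 0 < c₀ → ∀ z₀ : ℕ, (∀ z : ℕ, z₀ ≤ z → c₀ * Vz z ^ 4 ≤ VH h z) →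
      ∃ x₀ : ℕ, ∀ x : ℕ, x₀ ≤ x →
        c₀ * κ' * (x / (Real.log x) ^ 4) ≤
          (((Ioc x (2 * x)).filter (fun n => ∀ i, w i x (n + h i) ≠ 0)).card : ℝ)) :
    ∃ c C : ℝ, 0 < c ∧ 0 < C ∧ ∀ h : Fin 4 → ℕ, Function.Injective h →
    (∀ p : ℕ, p.Prime → nuh h univ p < p) →
    ∃ S : ℝ, 0 < S ∧ Tendsto (SgR h) atTop (nhds S) ∧ ∃ N₀ : ℕ, ∀ N : ℕ, N₀ ≤ N →
      c * S * (N / (Real.log N) ^ 4) ≤ (((Icc 1 N).filter (fun n => ∀ i, Squarefree (n + h i) ∧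
        Q i (n + h i) ∧ ∀ p ∈ (n + h i).primeFactors, (N : ℝ) ^ (1 / 251 : ℝ) < p)).card : ℝ) ∧
      (((Icc 1 N).filter (fun n => ∀ i, Squarefree (n + h i) ∧
        Q i (n + h i) ∧ ∀ p ∈ (n + h i).primeFactors, (N : ℝ) ^ (1 / 251 : ℝ) < p)).card : ℝ) ≤
        C * S * (N / (Real.log N) ^ 4) := by
  obtain ⟨c, hc, HL⟩ := lower_N w hw Q hQ H
  obtain ⟨C, hC, HU⟩ := count_upper
  refine ⟨c / 2, 2 * C, by positivity, by positivity, fun h hinj hadm => ?_⟩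
  obtain ⟨S, hS, hlim⟩ := sing h hinj hadm
  refine ⟨S, hS, hlim, ?_⟩
  obtain ⟨z1, hz1⟩ := eventually_atTop.1 (hlim.eventually (lt_mem_nhds (show S / 2 < S by linarith)))
  obtain ⟨z2, hz2⟩ := eventually_atTop.1 (hlim.eventually (gt_mem_nhds (show S < 2 * S by linarith)))
  obtain ⟨N1, hN1⟩ := HL h hinj (S / 2) (by positivity) z1 (fun z hz => by
    rw [VH_SgR]
    exact mul_le_mul_of_nonneg_right (hz1 z hz).le (pow_nonneg (Vz_pos z).le 4))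
  obtain ⟨N2, hN2⟩ := HU h hinj (2 * S) (by positivity) z2 (fun z hz => by
    rw [VH_SgR]
    exact mul_le_mul_of_nonneg_right (hz2 z hz).le (pow_nonneg (Vz_pos z).le 4))
  refine ⟨max N1 N2, fun N hN => ⟨?_, ?_⟩⟩
  · have := hN1 N ((le_max_left _ _).trans hN)
    have e : c / 2 * S * (N / (Real.log N) ^ 4) = S / 2 * c * (N / (Real.log N) ^ 4) := by ring
    rw [e]
    exact this
  · have := hN2 N ((le_max_right _ _).trans hN)
    have e : 2 * C * S * (N / (Real.log N) ^ 4) = C * (2 * S * (N / (Real.log N) ^ 4)) := by ring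
    rw [e]
    refine le_trans ?_ this
    refine Nat.cast_le.2 (card_le_card fun n hn => ?_)
    rw [mem_filter] at hn ⊢
    exact ⟨hn.1, fun i => (hn.2 i).2.2⟩

end Pool.Agent.Lib.MP_092512_nt.P5
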