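import Pool.Agent.Lib.MP_092512_nt.P3.D1

/-!
# P5.B1: uniform version of the convergence of sums over primes to integrals

`∑_{p ∈ PP x a b} (lg p/p) (c g(s) + h(lg p) g(s + lg p)) → ∫_a^b (c g(s) + h(u) g(s + u)) du` uniformly in `s ∈ [0, S]`.

PROOF.  Uniform continuity of `g` on `[0, S + b]`; a finite grid of `s`; `D1_one` at the grid points; the weights
`∑ lg p/p` are bounded by `b - a + 1`.
-/

set_option autoImplicit false

open Finset Filter MeasureTheory

namespace Pool.Agent.Lib.MP_092512_nt.P5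

open Pool.Agent.Lib.MP_092512_nt.P3

theorem B1_unif (a b : ℝ) (ha : 0 < a) (hab : a ≤ b) (c : ℝ) (h g : ℝ → ℝ) (hh : Continuous h)
    (hg : Continuous g) (S : ℝ) (ε : ℝ) (hε : 0 < ε) : ∀ᶠ x : ℕ in atTop, ∀ s : ℝ, 0 ≤ s → s ≤ S →
      |∑ p ∈ PP x a b, lg x p / (p : ℝ) * (c * g s + h (lg x p) * g (s + lg x p)) -
        ∫ u in a..b, (c * g s + h u * g (s + u))| ≤ ε := by
  -- a bound for h on [a, b]
  obtain ⟨H, hH⟩ : ∃ H : ℝ, ∀ u ∈ Set.Icc a b, |h u| ≤ H := by
    obtain ⟨H, hH⟩ := (isCompact_Icc (a := a) (b := b)).exists_bound_of_continuousOn hh.continuousOn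
    exact ⟨H, fun u hu => by simpa using hH u hu⟩
  have hH0 : 0 ≤ H := le_trans (abs_nonneg _) (hH a ⟨le_rfl, hab⟩)
  set Q : ℝ := |c| + H with hQ
  have hQ0 : 0 ≤ Q := by positivity
  set W : ℝ := b - a + 1 with hW
  have hW0 : 1 ≤ W := by linarith
  set e : ℝ := ε / (4 * W * (Q + 1)) with he
  have he0 : 0 < e := by positivity
  -- uniform continuity of g
  obtain ⟨δ, hδ, hgδ⟩ : ∃ δ : ℝ, 0 < δ ∧ ∀ y y' : ℝ, 0 ≤ y → y ≤ S + b → 0 ≤ y' → y' ≤ S + b →
      |y - y'| ≤ δ → |g y - g y'| ≤ e := by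
    have hc : IsCompact (Set.Icc (0 : ℝ) (S + b)) := isCompact_Icc
    have hu := hc.uniformContinuousOn_of_continuous hg.continuousOn
    rw [Metric.uniformContinuousOn_iff] at hu
    obtain ⟨δ, hδ, hd⟩ := hu e he0
    refine ⟨δ / 2, by positivity, fun y y' h1 h2 h3 h4 h5 => ?_⟩
    have := hd y ⟨h1, h2⟩ y' ⟨h3, h4⟩ (by rw [Real.dist_eq]; linarith)
    rw [Real.dist_eq] at this
    exact this.le
  -- the grid
  obtain ⟨N, hN⟩ : ∃ N : ℕ, S / δ ≤ N := exists_nat_ge _
  have hD : ∀ i ∈ range (N + 1), ∀ᶠ x : ℕ in atTop,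
      |∑ p ∈ PP x a b, lg x p / (p : ℝ) * (c * g (i * δ) + h (lg x p) * g (i * δ + lg x p)) -
        ∫ u in a..b, (c * g (i * δ) + h u * g (i * δ + u))| ≤ ε / 4 := by
    intro i _
    have hcont : Continuous (fun u => c * g (i * δ) + h u * g (i * δ + u)) := by fun_prop
    have h1 := D1_one a b ha hab (fun u => c * g (i * δ) + h u * g (i * δ + u)) hcont.continuousOn
    have h2 := h1.eventually (Metric.ball_mem_nhds _ (show 0 < ε / 4 by positivity))
    filter_upwards [h2] with x hx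
    rw [Real.dist_eq] at hx
    refine le_of_lt (lt_of_eq_of_lt ?_ hx)
    congr 2
    exact sum_congr rfl fun p _ => mul_comm _ _
  have hD' : ∀ᶠ x : ℕ in atTop, ∀ i ∈ range (N + 1),
      |∑ p ∈ PP x a b, lg x p / (p : ℝ) * (c * g (i * δ) + h (lg x p) * g (i * δ + lg x p)) -
        ∫ u in a..b, (c * g (i * δ) + h u * g (i * δ + u))| ≤ ε / 4 :=
    (eventually_all_finset _).mpr hD
  have hwt : ∀ᶠ x : ℕ in atTop, ∑ p ∈ PP x a b, lg x p / (p : ℝ) ≤ W := by
    have := (D0_mertens a b ha hab).eventually (Iic_mem_nhds (show b - a < W by linarith))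
    filter_upwards [this] with x hx
    exact hx
  filter_upwards [hD', hwt, eventually_ge_atTop 2] with x hx hwx hx2 s hs0 hsS
  -- nearest grid point below
  set i : ℕ := ⌊s / δ⌋₊ with hi
  have hsi1 : (i : ℝ) * δ ≤ s := by
    have := Nat.floor_le (show 0 ≤ s / δ by positivity)
    rwa [le_div_iff₀ hδ] at this
  have hsi2 : s ≤ (i : ℝ) * δ + δ := by
    have := (Nat.lt_floor_add_one (s / δ)).le
    rw [div_le_iff₀ hδ] at this
    linarith
  have hiN : i ∈ range (N + 1) := by
    rw [mem_range]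
    have h1 : s / δ ≤ N := le_trans (by gcongr) hN
    have h2 : i ≤ N := by
      rw [hi]
      exact Nat.floor_le_of_le h1
    omega
  have hi0 : (0 : ℝ) ≤ (i : ℝ) * δ := by positivity
  have key : ∀ u : ℝ, a ≤ u → u ≤ b → |(c * g s + h u * g (s + u)) -
      (c * g (i * δ) + h u * g (i * δ + u))| ≤ Q * e := by
    intro u hu1 hu2
    have h1 : |g s - g (i * δ)| ≤ e := hgδ s (i * δ) hs0 (by linarith) hi0 (by linarith)
      (by rw [abs_le]; constructor <;> linarith)
    have h2 : |g (s + u) - g (i * δ + u)| ≤ e := hgδ _ _ (by linarith) (by linarith) (by linarith)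
      (by linarith) (by rw [abs_le]; constructor <;> linarith)
    have h3 : (c * g s + h u * g (s + u)) - (c * g (i * δ) + h u * g (i * δ + u)) =
        c * (g s - g (i * δ)) + h u * (g (s + u) - g (i * δ + u)) := by ring
    rw [h3, hQ, add_mul]
    refine (abs_add_le _ _).trans (add_le_add ?_ ?_)
    · rw [abs_mul]
      exact mul_le_mul_of_nonneg_left h1 (abs_nonneg _)
    · rw [abs_mul]
      exact mul_le_mul (hH u ⟨hu1, hu2⟩) h2 (abs_nonneg _) hH0
  have hQe : Q * e * W ≤ ε / 4 := by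
    have h1 : (Q + 1) * e * W = ε / 4 := by
      rw [he]
      field_simp
    nlinarith [mul_pos he0 (by linarith : (0 : ℝ) < W)]
  have e1 : |∑ p ∈ PP x a b, lg x p / (p : ℝ) * (c * g s + h (lg x p) * g (s + lg x p)) -
      ∑ p ∈ PP x a b, lg x p / (p : ℝ) * (c * g (i * δ) + h (lg x p) * g (i * δ + lg x p))| ≤ ε / 4 := by
    rw [← sum_sub_distrib]
    refine (abs_sum_le_sum_abs _ _).trans ?_
    calc ∑ p ∈ PP x a b, |lg x p / (p : ℝ) * (c * g s + h (lg x p) * g (s + lg x p)) -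
          lg x p / (p : ℝ) * (c * g (i * δ) + h (lg x p) * g (i * δ + lg x p))|
        ≤ ∑ p ∈ PP x a b, lg x p / (p : ℝ) * (Q * e) := by
          refine sum_le_sum fun p hp => ?_
          have h1 := PP_lg hx2 hp
          have h0 : 0 ≤ lg x p / (p : ℝ) := div_nonneg (by linarith [h1.1]) (Nat.cast_nonneg _)
          rw [← mul_sub, abs_mul, abs_of_nonneg h0]
          exact mul_le_mul_of_nonneg_left (key _ h1.1.le h1.2) h0
      _ = (∑ p ∈ PP x a b, lg x p / (p : ℝ)) * (Q * e) := by rw [sum_mul]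
      _ ≤ W * (Q * e) := mul_le_mul_of_nonneg_right hwx (by positivity)
      _ ≤ ε / 4 := by linarith
  have c1 : Continuous (fun u => c * g s + h u * g (s + u)) := by fun_prop
  have c2 : Continuous (fun u => c * g (i * δ) + h u * g (i * δ + u)) := by fun_prop
  have e2 : |(∫ u in a..b, (c * g s + h u * g (s + u))) -
      ∫ u in a..b, (c * g (i * δ) + h u * g (i * δ + u))| ≤ ε / 4 := by
    rw [← intervalIntegral.integral_sub (c1.intervalIntegrable _ _) (c2.intervalIntegrable _ _)]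
    have h1 := intervalIntegral.norm_integral_le_of_norm_le_const (a := a) (b := b) (C := Q * e)
      (f := fun u => (c * g s + h u * g (s + u)) - (c * g (i * δ) + h u * g (i * δ + u))) (by
        intro u hu
        rw [Set.uIoc_of_le hab] at hu
        rw [Real.norm_eq_abs]
        exact key u hu.1.le hu.2)
    rw [Real.norm_eq_abs, abs_of_nonneg (by linarith : (0 : ℝ) ≤ b - a)] at h1
    refine h1.trans ?_
    have : Q * e * (b - a) ≤ Q * e * W := mul_le_mul_of_nonneg_left (by linarith) (by positivity)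
    linarith
  have e3 := hx i hiN
  rw [abs_le] at e1 e2 e3 ⊢
  constructor <;> linarith [e1.1, e1.2, e2.1, e2.2, e3.1, e3.2]

end Pool.Agent.Lib.MP_092512_nt.P5
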