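import Pool.Agent.Lib.MP_092512_nt.P5.BDefs
import Pool.Agent.Lib.MP_092512_nt.P5.B1

/-!
# P5.B2: convergence of the iterated operators, uniformly on compact sets

PROOF.  Induction on the list with `B1_unif` (applied to `g = TK c h L f`, continuous by `TK_cont`).
-/

set_option autoImplicit false

open Finset Filter MeasureTheory

namespace Pool.Agent.Lib.MP_092512_nt.P5

open Pool.Agent.Lib.MP_092512_nt.P3

theorem TK_cont (c : ℝ) (h : ℝ → ℝ) (hh : Continuous h) (L : List (ℝ × ℝ)) (f : ℝ → ℝ) (hf : Continuous f) :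
    Continuous (TK c h L f) := by
  induction L with
  | nil => exact hf
  | cons I L ih =>
    have h1 : Continuous (fun q : ℝ × ℝ => c * TK c h L f q.1 + h q.2 * TK c h L f (q.1 + q.2)) := by
      have h2 : Continuous (fun q : ℝ × ℝ => TK c h L f q.1) := ih.comp continuous_fst
      have h3 : Continuous (fun q : ℝ × ℝ => TK c h L f (q.1 + q.2)) :=
        ih.comp (continuous_fst.add continuous_snd)
      have h4 : Continuous (fun q : ℝ × ℝ => h q.2) := hh.comp continuous_snd
      exact (h2.const_mul c).add (h4.mul h3)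
    exact intervalIntegral.continuous_parametric_intervalIntegral_of_continuous'
      (f := fun s u => c * TK c h L f s + h u * TK c h L f (s + u)) h1 I.1 I.2

theorem B2_lim (c : ℝ) (h : ℝ → ℝ) (hh : Continuous h) (L : List (ℝ × ℝ)) (hL : OkL L) (f : ℝ → ℝ)
    (hf : Continuous f) (S : ℝ) (ε : ℝ) (hε : 0 < ε) :
    ∀ᶠ x : ℕ in atTop, ∀ s : ℝ, 0 ≤ s → s ≤ S → |TKx x c h L f s - TK c h L f s| ≤ ε := by
  induction L generalizing S ε with
  | nil =>
    filter_upwards with x s _ _
    simp only [TKx, TK, sub_self, abs_zero]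
    exact hε.le
  | cons I L ih =>
    rw [OkL_cons] at hL
    obtain ⟨⟨ha, hab⟩, hL'⟩ := hL
    obtain ⟨H, hH⟩ : ∃ H : ℝ, ∀ u ∈ Set.Icc I.1 I.2, |h u| ≤ H := by
      obtain ⟨H, hH⟩ := (isCompact_Icc (a := I.1) (b := I.2)).exists_bound_of_continuousOn hh.continuousOn
      exact ⟨H, fun u hu => by simpa using hH u hu⟩
    have hH0 : 0 ≤ H := le_trans (abs_nonneg _) (hH I.1 ⟨le_rfl, hab⟩)
    obtain ⟨W, hW⟩ : ∃ W : ℝ, W = I.2 - I.1 + 1 := ⟨_, rfl⟩
    have hW0 : 1 ≤ W := by linarith
    have hwt : ∀ᶠ x : ℕ in atTop, ∑ p ∈ PP x I.1 I.2, lg x p / (p : ℝ) ≤ W := by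
      have := (D0_mertens I.1 I.2 ha hab).eventually (Iic_mem_nhds (show I.2 - I.1 < W by linarith))
      filter_upwards [this] with x hx
      exact hx
    obtain ⟨e, he⟩ : ∃ e : ℝ, e = ε / (2 * W * (|c| + H + 1)) := ⟨_, rfl⟩
    have he0 : 0 < e := by rw [he]; positivity
    have hcont := TK_cont c h hh L f hf
    filter_upwards [ih hL' (S + I.2) e he0, hwt, eventually_ge_atTop 2,
      B1_unif I.1 I.2 ha hab c h (TK c h L f) hh hcont S (ε / 2) (by positivity)] with x h1 h2 hx2 h3 s hs0 hsS
    have h4 := h3 s hs0 hsS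
    have h5 : |TKx x c h (I :: L) f s - ∑ p ∈ PP x I.1 I.2,
        lg x p / (p : ℝ) * (c * TK c h L f s + h (lg x p) * TK c h L f (s + lg x p))| ≤ ε / 2 := by
      simp only [TKx]
      rw [← sum_sub_distrib]
      refine (abs_sum_le_sum_abs _ _).trans ?_
      calc ∑ p ∈ PP x I.1 I.2, |lg x p / (p : ℝ) * (c * TKx x c h L f s + h (lg x p) * TKx x c h L f (s + lg x p)) -
            lg x p / (p : ℝ) * (c * TK c h L f s + h (lg x p) * TK c h L f (s + lg x p))|
          ≤ ∑ p ∈ PP x I.1 I.2, lg x p / (p : ℝ) * ((|c| + H) * e) := by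
            refine sum_le_sum fun p hp => ?_
            have h6 := PP_lg hx2 hp
            have h0 : 0 ≤ lg x p / (p : ℝ) := div_nonneg (by linarith [h6.1]) (Nat.cast_nonneg _)
            rw [← mul_sub, abs_mul, abs_of_nonneg h0]
            refine mul_le_mul_of_nonneg_left ?_ h0
            have h7 := h1 s hs0 (by linarith)
            have h8 := h1 (s + lg x p) (by linarith [h6.1]) (by linarith [h6.2])
            have h9 : (c * TKx x c h L f s + h (lg x p) * TKx x c h L f (s + lg x p)) -
                (c * TK c h L f s + h (lg x p) * TK c h L f (s + lg x p)) =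
                c * (TKx x c h L f s - TK c h L f s) +
                  h (lg x p) * (TKx x c h L f (s + lg x p) - TK c h L f (s + lg x p)) := by ring
            rw [h9, add_mul]
            refine (abs_add_le _ _).trans (add_le_add ?_ ?_)
            · rw [abs_mul]
              exact mul_le_mul_of_nonneg_left h7 (abs_nonneg _)
            · rw [abs_mul]
              exact mul_le_mul (hH _ ⟨h6.1.le, h6.2⟩) h8 (abs_nonneg _) hH0
        _ = (∑ p ∈ PP x I.1 I.2, lg x p / (p : ℝ)) * ((|c| + H) * e) := by rw [sum_mul]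
        _ ≤ W * ((|c| + H) * e) := mul_le_mul_of_nonneg_right h2 (by positivity)
        _ ≤ W * ((|c| + H + 1) * e) := by
            refine mul_le_mul_of_nonneg_left ?_ (by linarith)
            exact mul_le_mul_of_nonneg_right (by linarith) he0.le
        _ = ε / 2 := by
            rw [he]
            field_simp
    have h10 : TK c h (I :: L) f s = ∫ u in I.1..I.2, (c * TK c h L f s + h u * TK c h L f (s + u)) := rfl
    rw [← h10] at h4
    rw [abs_le] at h4 h5 ⊢
    constructor <;> linarith [h4.1, h4.2, h5.1, h5.2]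

/-- at `s = 0`, as a sum over the box -/
theorem B2_box (c : ℝ) (h : ℝ → ℝ) (hh : Continuous h) (L : List (ℝ × ℝ)) (hL : OkL L) (f : ℝ → ℝ)
    (hf : Continuous f) (ε : ℝ) (hε : 0 < ε) : ∀ᶠ x : ℕ in atTop,
    |∑ l ∈ boxL x L, wtL x l * DF c h (l.map (fun p => lg x p)) f 0 - TK c h L f 0| ≤ ε := by
  filter_upwards [B2_lim c h hh L hL f hf 0 ε hε] with x hx
  rw [sum_boxL_DF]
  exact hx 0 le_rfl le_rfl

end Pool.Agent.Lib.MP_092512_nt.P5
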