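import Pool.Agent.Lib.MP_092512_nt.P5.BDefs
import Pool.Agent.Lib.MP_092512_nt.P3.D0m

/-!
# P5.B3: the tuples with a repeated prime are negligible
-/

set_option autoImplicit false

open Finset Filter

namespace Pool.Agent.Lib.MP_092512_nt.P5

open Pool.Agent.Lib.MP_092512_nt.P3

theorem B3_inv (L : List (ℝ × ℝ)) (hL : OkL L) : ∃ C : ℝ, 0 < C ∧ ∀ᶠ x : ℕ in atTop,
    ∑ l ∈ boxL x L, 1 / (l.prod : ℝ) ≤ C := by
  induction L with
  | nil =>
    refine ⟨1, one_pos, ?_⟩
    filter_upwards with x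
    rw [sum_boxL_nil]
    simp
  | cons I L ih =>
    rw [OkL_cons] at hL
    obtain ⟨⟨ha, hab⟩, hL'⟩ := hL
    obtain ⟨C, hC, h1⟩ := ih hL'
    have hK : 0 < (I.2 - I.1 + 1) / I.1 := by
      apply div_pos _ ha
      linarith
    refine ⟨(I.2 - I.1 + 1) / I.1 * C, by positivity, ?_⟩
    filter_upwards [h1, D0_sum_inv_le I.1 I.2 ha hab] with x h2 h3
    rw [sum_boxL_cons]
    have e : ∀ p ∈ PP x I.1 I.2, ∑ l ∈ boxL x L, 1 / (((p :: l).prod : ℕ) : ℝ) =
        1 / (p : ℝ) * ∑ l ∈ boxL x L, 1 / (l.prod : ℝ) := by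
      intro p _
      rw [mul_sum]
      refine sum_congr rfl fun l _ => ?_
      rw [List.prod_cons, Nat.cast_mul, one_div_mul_one_div]
    rw [sum_congr rfl e, ← sum_mul]
    exact mul_le_mul h3 h2 (sum_nonneg fun l _ => by positivity) hK.le

theorem B3_mem (L : List (ℝ × ℝ)) (hL : OkL L) : ∃ C : ℝ, 0 < C ∧ ∀ᶠ x : ℕ in atTop, ∀ p : ℕ, 0 < p →
    ∑ l ∈ boxL x L, (if p ∈ l then 1 / (l.prod : ℝ) else 0) ≤ C / p := by
  induction L with
  | nil =>
    refine ⟨1, one_pos, ?_⟩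
    filter_upwards with x p hp
    rw [sum_boxL_nil]
    simp
  | cons I L ih =>
    rw [OkL_cons] at hL
    obtain ⟨⟨ha, hab⟩, hL'⟩ := hL
    obtain ⟨C, hC, h1⟩ := ih hL'
    obtain ⟨C', hC', h1'⟩ := B3_inv L hL'
    have hK : 0 < (I.2 - I.1 + 1) / I.1 := by
      apply div_pos _ ha
      linarith
    refine ⟨C' + (I.2 - I.1 + 1) / I.1 * C, by positivity, ?_⟩
    filter_upwards [h1, h1', D0_sum_inv_le I.1 I.2 ha hab] with x h2 h2' h3 p hp
    have hp0 : (0 : ℝ) < p := by exact_mod_cast hp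
    rw [sum_boxL_cons]
    have e : ∀ q ∈ PP x I.1 I.2, ∑ l ∈ boxL x L, (if p ∈ q :: l then 1 / (((q :: l).prod : ℕ) : ℝ) else 0) ≤
        (if q = p then 1 / (p : ℝ) * ∑ l ∈ boxL x L, 1 / (l.prod : ℝ) else 0) +
          1 / (q : ℝ) * (C / p) := by
      intro q _
      have h4 : ∀ l ∈ boxL x L, (if p ∈ q :: l then 1 / (((q :: l).prod : ℕ) : ℝ) else 0) ≤
          (if q = p then 1 / (p : ℝ) * (1 / (l.prod : ℝ)) else 0) +
            1 / (q : ℝ) * (if p ∈ l then 1 / (l.prod : ℝ) else 0) := by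
        intro l _
        rw [List.prod_cons, Nat.cast_mul, ← one_div_mul_one_div]
        by_cases hqp : q = p
        · subst hqp
          rw [if_pos (by simp), if_pos rfl]
          have : 0 ≤ 1 / (q : ℝ) * (if q ∈ l then 1 / (l.prod : ℝ) else 0) := by
            split_ifs <;> positivity
          linarith
        · rw [if_neg hqp, zero_add]
          by_cases hl : p ∈ l
          · rw [if_pos (by simp [hl]), if_pos hl]
          · rw [if_neg (by simp [hl, Ne.symm hqp]), if_neg hl, mul_zero]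
      refine (sum_le_sum h4).trans ?_
      rw [sum_add_distrib, ← mul_sum]
      refine add_le_add ?_ ?_
      · split_ifs
        · rw [← mul_sum]
        · simp
      · exact mul_le_mul_of_nonneg_left (h2 p hp) (by positivity)
    refine (sum_le_sum e).trans ?_
    rw [sum_add_distrib, ← sum_mul, add_div]
    refine add_le_add ?_ ?_
    · rw [sum_ite_eq']
      split_ifs
      · have h7 : C' / (p : ℝ) = 1 / (p : ℝ) * C' := by ring
        rw [h7]
        exact mul_le_mul_of_nonneg_left h2' (by positivity)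
      · positivity
    · rw [mul_div_assoc]
      exact mul_le_mul_of_nonneg_right h3 (by positivity)

theorem B3_sq (a b : ℝ) (ha : 0 < a) (hab : a ≤ b) (ε : ℝ) (hε : 0 < ε) : ∀ᶠ x : ℕ in atTop,
    ∑ p ∈ PP x a b, 1 / (p : ℝ) * (1 / (p : ℝ)) ≤ ε := by
  have h1 : Tendsto (fun x : ℕ => (x : ℝ) ^ (-a)) atTop (nhds 0) :=
    (tendsto_rpow_neg_atTop ha).comp tendsto_natCast_atTop_atTop
  have hK : 0 < (b - a + 1) / a := by
    apply div_pos _ ha
    linarith
  have h2 := h1.eventually (Iic_mem_nhds (show (0 : ℝ) < ε / ((b - a + 1) / a) by positivity))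
  filter_upwards [h2, D0_sum_inv_le a b ha hab, eventually_ge_atTop 1] with x hx h3 hx1
  have hx0 : (0 : ℝ) < x := by exact_mod_cast hx1
  have hx' : (x : ℝ) ^ (-a) ≤ ε / ((b - a + 1) / a) := hx
  calc ∑ p ∈ PP x a b, 1 / (p : ℝ) * (1 / (p : ℝ)) ≤ ∑ p ∈ PP x a b, (x : ℝ) ^ (-a) * (1 / (p : ℝ)) := by
        refine sum_le_sum fun p hp => ?_
        obtain ⟨hp1, hp2, hp3⟩ := mem_PP.mp hp
        refine mul_le_mul_of_nonneg_right ?_ (by positivity)
        rw [Real.rpow_neg hx0.le, one_div]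
        exact inv_anti₀ (by positivity) hp2.le
    _ = (x : ℝ) ^ (-a) * ∑ p ∈ PP x a b, 1 / (p : ℝ) := by rw [mul_sum]
    _ ≤ ε / ((b - a + 1) / a) * ((b - a + 1) / a) :=
        mul_le_mul hx' h3 (sum_nonneg fun p _ => by positivity) (by positivity)
    _ = ε := div_mul_cancel₀ _ hK.ne'

theorem B3_dup (L : List (ℝ × ℝ)) (hL : OkL L) (ε : ℝ) (hε : 0 < ε) : ∀ᶠ x : ℕ in atTop,
    ∑ l ∈ boxL x L, (if l.Nodup then 0 else 1 / (l.prod : ℝ)) ≤ ε := by
  induction L generalizing ε with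
  | nil =>
    filter_upwards with x
    rw [sum_boxL_nil]
    simp [hε.le]
  | cons I L ih =>
    rw [OkL_cons] at hL
    obtain ⟨⟨ha, hab⟩, hL'⟩ := hL
    obtain ⟨C, hC, h1⟩ := B3_mem L hL'
    have hK : 0 < (I.2 - I.1 + 1) / I.1 := by
      apply div_pos _ ha
      linarith
    have hε2 : 0 < ε / (2 * ((I.2 - I.1 + 1) / I.1)) := by positivity
    filter_upwards [h1, ih hL' _ hε2, D0_sum_inv_le I.1 I.2 ha hab,
      B3_sq I.1 I.2 ha hab (ε / (2 * C)) (by positivity)] with x h2 h3 h4 h5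
    rw [sum_boxL_cons]
    have e : ∀ p ∈ PP x I.1 I.2, ∑ l ∈ boxL x L, (if (p :: l).Nodup then 0 else 1 / (((p :: l).prod : ℕ) : ℝ)) ≤
        C * (1 / (p : ℝ) * (1 / (p : ℝ))) + 1 / (p : ℝ) * (ε / (2 * ((I.2 - I.1 + 1) / I.1))) := by
      intro p hp
      have hp0 : 0 < p := (mem_PP.mp hp).1.pos
      have h6 : ∀ l ∈ boxL x L, (if (p :: l).Nodup then 0 else 1 / (((p :: l).prod : ℕ) : ℝ)) ≤
          1 / (p : ℝ) * (if p ∈ l then 1 / (l.prod : ℝ) else 0) +
            1 / (p : ℝ) * (if l.Nodup then 0 else 1 / (l.prod : ℝ)) := by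
        intro l _
        rw [List.prod_cons, Nat.cast_mul, ← one_div_mul_one_div]
        by_cases hpl : p ∈ l
        · rw [if_neg (by simp [hpl]), if_pos hpl]
          have : 0 ≤ 1 / (p : ℝ) * (if l.Nodup then 0 else 1 / (l.prod : ℝ)) := by
            split_ifs <;> positivity
          linarith
        · rw [if_neg hpl, mul_zero, zero_add]
          by_cases hl : l.Nodup
          · rw [if_pos (List.nodup_cons.mpr ⟨hpl, hl⟩), if_pos hl, mul_zero]
          · rw [if_neg (fun h => hl (List.nodup_cons.mp h).2), if_neg hl]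
      refine (sum_le_sum h6).trans ?_
      rw [sum_add_distrib, ← mul_sum, ← mul_sum]
      refine add_le_add ?_ (mul_le_mul_of_nonneg_left h3 (by positivity))
      calc 1 / (p : ℝ) * ∑ l ∈ boxL x L, (if p ∈ l then 1 / (l.prod : ℝ) else 0)
          ≤ 1 / (p : ℝ) * (C / p) := mul_le_mul_of_nonneg_left (h2 p hp0) (by positivity)
        _ = C * (1 / (p : ℝ) * (1 / (p : ℝ))) := by ring
    refine (sum_le_sum e).trans ?_
    rw [sum_add_distrib, ← mul_sum, ← sum_mul]
    calc C * ∑ p ∈ PP x I.1 I.2, 1 / (p : ℝ) * (1 / (p : ℝ)) +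
          (∑ p ∈ PP x I.1 I.2, 1 / (p : ℝ)) * (ε / (2 * ((I.2 - I.1 + 1) / I.1)))
        ≤ C * (ε / (2 * C)) + (I.2 - I.1 + 1) / I.1 * (ε / (2 * ((I.2 - I.1 + 1) / I.1))) :=
          add_le_add (mul_le_mul_of_nonneg_left h5 hC.le) (mul_le_mul_of_nonneg_right h4 hε2.le)
      _ = ε := by
          have hC0 := hC.ne'
          have hK0 := hK.ne'
          generalize (I.2 - I.1 + 1) / I.1 = K at hK0
          field_simp
          norm_num

end Pool.Agent.Lib.MP_092512_nt.P5
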