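import Pool.Agent.Lib.MP_092512_nt.P5.B2
import Pool.Agent.Lib.MP_092512_nt.P5.B3

/-!
# P5.B4: the box lemma (Cauchy-Schwarz with the test function `t u_1 ... u_v`)

If `φ(p_1 ... p_v) ≥ (X(lg p)^2/Z(∑ lg p) - ε')/(p_1 ... p_v)` on the tuples of different primes of the box, with
`X = dfL _ f 0` and `Z(s) = al - be s > 0`, then the sum of `φ` over these tuples is at least
`(TB L f 0)^2/(TM L Z 0) - ε`.

PROOF.  `X^2/Z ≥ 2 t X P - t^2 P^2 Z`, `P = ∏ lg p`, `P/∏ p = wtL`; `B2_box` twice, `B3_dup`, `B3_inv`; `t = I/J`.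
-/

set_option autoImplicit false

open Finset Filter MeasureTheory

namespace Pool.Agent.Lib.MP_092512_nt.P5

open Pool.Agent.Lib.MP_092512_nt.P3

theorem B4_wt (x : ℕ) (l : List ℕ) : wtL x l = (l.map (fun p => lg x p)).prod * (1 / (l.prod : ℝ)) := by
  induction l with
  | nil => simp [wtL]
  | cons p l ih =>
    unfold wtL at ih ⊢
    rw [List.map_cons, List.prod_cons, ih, List.map_cons, List.prod_cons, List.prod_cons, Nat.cast_mul,
      ← one_div_mul_one_div]
    ring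

theorem B4_lg (x : ℕ) (hx : 2 ≤ x) (L : List (ℝ × ℝ)) (hL : OkL L) (hL1 : ∀ I ∈ L, I.2 ≤ 1) (l : List ℕ)
    (hl : l ∈ boxL x L) : (∀ p ∈ l, 0 < lg x p ∧ lg x p ≤ 1) ∧
      (L.map Prod.fst).sum ≤ sL x l ∧ sL x l ≤ (L.map Prod.snd).sum := by
  induction L generalizing l with
  | nil =>
    simp only [boxL, mem_singleton] at hl
    subst hl
    simp [sL]
  | cons I L ih =>
    rw [OkL_cons] at hL
    obtain ⟨p, hp, l', hl', rfl⟩ := mem_boxL_cons.mp hl
    obtain ⟨h1, h2, h3⟩ := ih hL.2 (fun J hJ => hL1 J (List.mem_cons_of_mem _ hJ)) l' hl'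
    have h4 := PP_lg hx hp
    have h5 := hL1 I List.mem_cons_self
    refine ⟨?_, ?_, ?_⟩
    · intro q hq
      rcases List.mem_cons.mp hq with rfl | hq
      · exact ⟨by linarith [h4.1, hL.1.1], by linarith [h4.2]⟩
      · exact h1 q hq
    · unfold sL at h2 ⊢
      rw [List.map_cons, List.sum_cons, List.map_cons, List.sum_cons]
      linarith [h4.1]
    · unfold sL at h3 ⊢
      rw [List.map_cons, List.sum_cons, List.map_cons, List.sum_cons]
      linarith [h4.2]

theorem B4_len {x : ℕ} {L : List (ℝ × ℝ)} {l : List ℕ} (hl : l ∈ boxL x L) : l.length = L.length :=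
  (mem_boxL.mp hl).length_eq

theorem B4_prod (us : List ℝ) (h : ∀ u ∈ us, 0 < u ∧ u ≤ 1) : 0 < us.prod ∧ us.prod ≤ 1 := by
  induction us with
  | nil => simp
  | cons u us ih =>
    obtain ⟨h1, h2⟩ := ih (fun w hw => h w (List.mem_cons_of_mem _ hw))
    obtain ⟨h3, h4⟩ := h u List.mem_cons_self
    rw [List.prod_cons]
    exact ⟨mul_pos h3 h1, mul_le_one₀ h4 h1.le h2⟩

theorem B4_dfL (us : List ℝ) (h : ∀ u ∈ us, 0 < u) (f : ℝ → ℝ) (F S : ℝ)
    (hF : ∀ y : ℝ, 0 ≤ y → y ≤ S → |f y| ≤ F) (s : ℝ) (hs : 0 ≤ s) (hsS : s + us.sum ≤ S) :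
    |dfL us f s| ≤ 2 ^ us.length * F := by
  induction us generalizing s with
  | nil =>
    simp only [dfL, DF, List.length_nil, pow_zero, one_mul]
    exact hF s hs (by simpa using hsS)
  | cons u us ih =>
    have h1 := h u List.mem_cons_self
    have h2 : ∀ w ∈ us, 0 < w := fun w hw => h w (List.mem_cons_of_mem _ hw)
    rw [List.sum_cons] at hsS
    have h3 := ih h2 s hs (by linarith)
    have h4 := ih h2 (s + u) (by linarith) (by linarith)
    unfold dfL at h3 h4 ⊢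
    simp only [DF]
    rw [List.length_cons, pow_succ]
    rw [abs_le] at h3 h4 ⊢
    constructor <;> nlinarith [h3.1, h3.2, h4.1, h4.2]

theorem B4_box (L : List (ℝ × ℝ)) (hL : OkL L) (hL1 : ∀ I ∈ L, I.2 ≤ 1) (f : ℝ → ℝ) (hf : Continuous f)
    (al be : ℝ) (h0 : 0 < al - be * (L.map Prod.fst).sum) (h1 : 0 < al - be * (L.map Prod.snd).sum)
    (hJ : 0 < TM L (fun s => al - be * s) 0) (ε : ℝ) (hε : 0 < ε) :
    ∃ ε' : ℝ, 0 < ε' ∧ ∀ᶠ x : ℕ in atTop, ∀ φ : ℕ → ℝ,
      (∀ l ∈ boxL x L, l.Nodup → 1 / (l.prod : ℝ) *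
        (dfL (l.map (fun p => lg x p)) f 0 ^ 2 / (al - be * sL x l) - ε') ≤ φ l.prod) →
      TB L f 0 ^ 2 / TM L (fun s => al - be * s) 0 - ε ≤
        ∑ l ∈ boxL x L, (if l.Nodup then φ l.prod else 0) := by
  obtain ⟨C, hC, hCx⟩ := B3_inv L hL
  obtain ⟨t, ht⟩ : ∃ t : ℝ, t = TB L f 0 / TM L (fun s => al - be * s) 0 := ⟨_, rfl⟩
  obtain ⟨Sb, hSb⟩ : ∃ S : ℝ, S = max 0 (L.map Prod.snd).sum := ⟨_, rfl⟩
  obtain ⟨F, hF⟩ : ∃ F : ℝ, ∀ y ∈ Set.Icc 0 Sb, |f y| ≤ F := by
    obtain ⟨F, hF⟩ := (isCompact_Icc (a := (0 : ℝ)) (b := Sb)).exists_bound_of_continuousOn hf.continuousOn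
    exact ⟨F, fun u hu => by simpa using hF u hu⟩
  have hSb0 : 0 ≤ Sb := by rw [hSb]; exact le_max_left _ _
  have hF0 : 0 ≤ F := le_trans (abs_nonneg _) (hF 0 ⟨le_rfl, hSb0⟩)
  obtain ⟨M, hM⟩ : ∃ M : ℝ, M = 2 * |t| * (2 ^ L.length * F) + t ^ 2 * (|al| + |be| * Sb) + 1 := ⟨_, rfl⟩
  have hM0 : 0 < M := by rw [hM]; positivity
  obtain ⟨e, he, he1, he2⟩ : ∃ e : ℝ, 0 < e ∧ 2 * |t| * e ≤ ε / 8 ∧ t ^ 2 * e ≤ ε / 8 := by
    refine ⟨ε / (16 * (|t| + 1) + 8 * (t ^ 2 + 1)), by positivity, ?_, ?_⟩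
    · rw [mul_div_assoc', div_le_div_iff₀ (by positivity) (by norm_num)]
      nlinarith [abs_nonneg t, sq_nonneg t]
    · rw [mul_div_assoc', div_le_div_iff₀ (by positivity) (by norm_num)]
      nlinarith [abs_nonneg t, sq_nonneg t]
  refine ⟨ε / (4 * C), by positivity, ?_⟩
  filter_upwards [hCx, B2_box 1 (fun _ => -1) continuous_const L hL f hf e he,
    B2_box 0 (fun u => u) continuous_id L hL (fun s => al - be * s) (by fun_prop) e he,
    B3_dup L hL (ε / (4 * M)) (by positivity), eventually_ge_atTop 2] with x k1 k2 k3 k4 hx2 φ hφ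
  -- the pointwise lower bound
  have hb : ∀ l ∈ boxL x L, |2 * t * dfL (l.map (fun p => lg x p)) f 0 -
      t ^ 2 * ((l.map (fun p => lg x p)).prod * (al - be * sL x l))| ≤ M := by
    intro l hl
    obtain ⟨q1, q2, q3⟩ := B4_lg x hx2 L hL hL1 l hl
    have q4 : ∀ u ∈ l.map (fun p => lg x p), 0 < u ∧ u ≤ 1 := by
      intro u hu
      obtain ⟨p, hp, rfl⟩ := List.mem_map.mp hu
      exact q1 p hp
    have q5 := B4_prod _ q4
    have hs0 : 0 ≤ sL x l := by
      unfold sL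
      exact List.sum_nonneg fun u hu => (q4 u hu).1.le
    have hsb : sL x l ≤ Sb := q3.trans (by rw [hSb]; exact le_max_right _ _)
    have q6 : |dfL (l.map (fun p => lg x p)) f 0| ≤ 2 ^ L.length * F := by
      have := B4_dfL (l.map (fun p => lg x p)) (fun u hu => (q4 u hu).1) f F Sb
        (fun y h1 h2 => hF y ⟨h1, h2⟩) 0 le_rfl (by rw [zero_add]; exact hsb)
      rwa [List.length_map, B4_len hl] at this
    have q7 : |al - be * sL x l| ≤ |al| + |be| * Sb := by
      refine (abs_sub _ _).trans ?_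
      rw [abs_mul, abs_of_nonneg hs0]
      have := mul_le_mul_of_nonneg_left hsb (abs_nonneg be)
      linarith
    refine (abs_sub _ _).trans ?_
    have r1 : |2 * t * dfL (l.map (fun p => lg x p)) f 0| ≤ 2 * |t| * (2 ^ L.length * F) := by
      rw [abs_mul, abs_mul, abs_of_pos (by norm_num : (0 : ℝ) < 2)]
      exact mul_le_mul_of_nonneg_left q6 (by positivity)
    have r2 : |t ^ 2 * ((l.map (fun p => lg x p)).prod * (al - be * sL x l))| ≤
        t ^ 2 * (|al| + |be| * Sb) := by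
      rw [abs_mul, abs_mul, abs_of_nonneg (sq_nonneg t), abs_of_pos q5.1]
      refine mul_le_mul_of_nonneg_left ?_ (sq_nonneg t)
      calc (l.map (fun p => lg x p)).prod * |al - be * sL x l| ≤ 1 * (|al| + |be| * Sb) :=
            mul_le_mul q5.2 q7 (abs_nonneg _) (by norm_num)
        _ = _ := one_mul _
    linarith
  have hp : ∀ l ∈ boxL x L, l.Nodup → wtL x l * (2 * t * dfL (l.map (fun p => lg x p)) f 0 -
      t ^ 2 * ((l.map (fun p => lg x p)).prod * (al - be * sL x l))) - ε / (4 * C) * (1 / (l.prod : ℝ)) ≤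
        φ l.prod := by
    intro l hl hn
    refine le_trans ?_ (hφ l hl hn)
    obtain ⟨q1, q2, q3⟩ := B4_lg x hx2 L hL hL1 l hl
    have hz : 0 < al - be * sL x l := by
      rcases le_or_gt be 0 with hbe | hbe
      · nlinarith
      · nlinarith
    rw [B4_wt]
    generalize hX : dfL (l.map (fun p => lg x p)) f 0 = X
    generalize hP : (l.map (fun p => lg x p)).prod = P
    generalize hZ : al - be * sL x l = Z at hz
    have hi : 0 ≤ 1 / (l.prod : ℝ) := by positivity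
    have key : P * (2 * t * X - t ^ 2 * (P * Z)) ≤ X ^ 2 / Z := by
      rw [le_div_iff₀ hz]
      nlinarith [sq_nonneg (X - t * P * Z)]
    calc P * (1 / (l.prod : ℝ)) * (2 * t * X - t ^ 2 * (P * Z)) - ε / (4 * C) * (1 / (l.prod : ℝ)) =
          1 / (l.prod : ℝ) * (P * (2 * t * X - t ^ 2 * (P * Z)) - ε / (4 * C)) := by ring
      _ ≤ 1 / (l.prod : ℝ) * (X ^ 2 / Z - ε / (4 * C)) :=
          mul_le_mul_of_nonneg_left (by linarith) hi
  -- the full sum
  have hall : ∑ l ∈ boxL x L, wtL x l * (2 * t * dfL (l.map (fun p => lg x p)) f 0 -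
      t ^ 2 * ((l.map (fun p => lg x p)).prod * (al - be * sL x l))) =
      2 * t * ∑ l ∈ boxL x L, wtL x l * DF 1 (fun _ => -1) (l.map (fun p => lg x p)) f 0 -
      t ^ 2 * ∑ l ∈ boxL x L, wtL x l * DF 0 (fun u => u) (l.map (fun p => lg x p))
        (fun s => al - be * s) 0 := by
    rw [mul_sum, mul_sum, ← sum_sub_distrib]
    refine sum_congr rfl fun l _ => ?_
    rw [DF_id]
    simp only [dfL, sL, zero_add]
    ring
  have hmain : TB L f 0 ^ 2 / TM L (fun s => al - be * s) 0 - ε / 4 ≤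
      ∑ l ∈ boxL x L, wtL x l * (2 * t * dfL (l.map (fun p => lg x p)) f 0 -
      t ^ 2 * ((l.map (fun p => lg x p)).prod * (al - be * sL x l))) := by
    rw [hall]
    generalize ∑ l ∈ boxL x L, wtL x l * DF 1 (fun _ => -1) (l.map (fun p => lg x p)) f 0 = A at k2
    generalize ∑ l ∈ boxL x L, wtL x l * DF 0 (fun u => u) (l.map (fun p => lg x p))
        (fun s => al - be * s) 0 = A' at k3
    have e1 : TB L f 0 ^ 2 / TM L (fun s => al - be * s) 0 =
        2 * t * TB L f 0 - t ^ 2 * TM L (fun s => al - be * s) 0 := by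
      rw [ht]
      have := hJ.ne'
      field_simp
      ring
    rw [e1]
    have k2' : |A - TB L f 0| ≤ e := k2
    have k3' : |A' - TM L (fun s => al - be * s) 0| ≤ e := k3
    have r1 : |2 * t * (A - TB L f 0)| ≤ ε / 8 := by
      rw [abs_mul, abs_mul, abs_of_pos (by norm_num : (0 : ℝ) < 2)]
      exact (mul_le_mul_of_nonneg_left k2' (by positivity)).trans he1
    have r2 : |t ^ 2 * (A' - TM L (fun s => al - be * s) 0)| ≤ ε / 8 := by
      rw [abs_mul, abs_of_nonneg (sq_nonneg t)]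
      exact (mul_le_mul_of_nonneg_left k3' (sq_nonneg t)).trans he2
    rw [abs_le] at r1 r2
    nlinarith [r1.1, r2.2]
  -- splitting off the tuples with repetitions
  have hsplit : ∑ l ∈ boxL x L, wtL x l * (2 * t * dfL (l.map (fun p => lg x p)) f 0 -
      t ^ 2 * ((l.map (fun p => lg x p)).prod * (al - be * sL x l))) ≤
      ∑ l ∈ boxL x L, ((if l.Nodup then φ l.prod else 0) + ε / (4 * C) * (1 / (l.prod : ℝ)) +
        M * (if l.Nodup then 0 else 1 / (l.prod : ℝ))) := by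
    refine sum_le_sum fun l hl => ?_
    by_cases hn : l.Nodup
    · rw [if_pos hn, if_pos hn]
      linarith [hp l hl hn]
    · rw [if_neg hn, if_neg hn]
      have r1 := hb l hl
      obtain ⟨q1, q2, q3⟩ := B4_lg x hx2 L hL hL1 l hl
      have q4 : ∀ u ∈ l.map (fun p => lg x p), 0 < u ∧ u ≤ 1 := by
        intro u hu
        obtain ⟨p, hp, rfl⟩ := List.mem_map.mp hu
        exact q1 p hp
      have q5 := B4_prod _ q4
      have hi : 0 ≤ 1 / (l.prod : ℝ) := by positivity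
      have r2 : 0 ≤ wtL x l := by
        rw [B4_wt]
        exact mul_nonneg q5.1.le hi
      have r3 : wtL x l ≤ 1 / (l.prod : ℝ) := by
        rw [B4_wt]
        calc _ ≤ 1 * (1 / (l.prod : ℝ)) := mul_le_mul_of_nonneg_right q5.2 hi
          _ = _ := one_mul _
      have r4 : wtL x l * (2 * t * dfL (l.map (fun p => lg x p)) f 0 -
          t ^ 2 * ((l.map (fun p => lg x p)).prod * (al - be * sL x l))) ≤ 1 / (l.prod : ℝ) * M :=
        (mul_le_mul_of_nonneg_left ((abs_le.mp r1).2) r2).trans (mul_le_mul_of_nonneg_right r3 hM0.le)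
      have r5 : 0 ≤ ε / (4 * C) * (1 / (l.prod : ℝ)) := by positivity
      linarith
  rw [sum_add_distrib, sum_add_distrib, ← mul_sum, ← mul_sum] at hsplit
  have s1 : ε / (4 * C) * ∑ l ∈ boxL x L, 1 / (l.prod : ℝ) ≤ ε / 4 := by
    calc _ ≤ ε / (4 * C) * C := mul_le_mul_of_nonneg_left k1 (by positivity)
      _ = ε / 4 := by field_simp
  have s2 : M * ∑ l ∈ boxL x L, (if l.Nodup then 0 else 1 / (l.prod : ℝ)) ≤ ε / 4 := by
    calc _ ≤ M * (ε / (4 * M)) := mul_le_mul_of_nonneg_left k4 hM0.le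
      _ = ε / 4 := by field_simp
  linarith

end Pool.Agent.Lib.MP_092512_nt.P5
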