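import Pool.Agent.Lib.MP_092512_nt.P5.B4
import Pool.Agent.Lib.MP_092512_nt.P3.D2b

/-!
# P5.B5: values of `LV` at products of different primes

`LV(p_1 ... p_v) → dfL [lg p_1, ..., lg p_v] (VV(1) - VV) 0`, uniformly on a box.

PROOF.  `LV(m) = ∑_j v_j ∑_{d ∣ m} lamC_j(d)`, `lamC_j(d) = μ(d) (η - cl_j(lg d)) + o(1)` (`C4_lamS_asymp`), and
`∑_{d ∣ p m} F(d) = ∑_{d ∣ m} (F(d) + F(p d))` for a prime `p ∤ m`.
-/

set_option autoImplicit false

open Finset Filter

open scoped ArithmeticFunction.Moebius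

namespace Pool.Agent.Lib.MP_092512_nt.P5

open Pool.Agent.Lib.SW Pool.Agent.Lib.MP_092512_nt.P3

theorem B5_sum_divisors (p m : ℕ) (hp : p.Prime) (hm : m ≠ 0) (hc : Nat.Coprime p m) (F : ℕ → ℝ) :
    ∑ d ∈ (p * m).divisors, F d = ∑ d ∈ m.divisors, (F d + F (p * d)) := by
  have h1 : (p * m).divisors = m.divisors ∪ m.divisors.image (fun d => p * d) := by
    ext d
    simp only [Nat.mem_divisors, mem_union, mem_image]
    constructor
    · rintro ⟨hd, _⟩
      by_cases hpd : p ∣ d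
      · obtain ⟨e, rfl⟩ := hpd
        exact Or.inr ⟨e, ⟨(Nat.mul_dvd_mul_iff_left hp.pos).mp hd, hm⟩, rfl⟩
      · exact Or.inl ⟨((Nat.Prime.coprime_iff_not_dvd hp).mpr hpd).symm.dvd_of_dvd_mul_left hd, hm⟩
    · rintro (⟨hd, _⟩ | ⟨e, ⟨he, _⟩, rfl⟩)
      · exact ⟨hd.mul_left p, Nat.mul_ne_zero hp.ne_zero hm⟩
      · exact ⟨Nat.mul_dvd_mul_left p he, Nat.mul_ne_zero hp.ne_zero hm⟩
  have h2 : Disjoint m.divisors (m.divisors.image (fun d => p * d)) := by
    rw [disjoint_left]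
    intro d hd hd'
    obtain ⟨e, he, rfl⟩ := mem_image.mp hd'
    have h3 : p ∣ m := (dvd_mul_right p e).trans (Nat.dvd_of_mem_divisors hd)
    exact (Nat.Prime.coprime_iff_not_dvd hp).mp hc h3
  rw [h1, sum_union h2, sum_image (fun a _ b _ h => Nat.eq_of_mul_eq_mul_left hp.pos h), sum_add_distrib]

theorem B5_prod_primes (l : List ℕ) (hl : ∀ p ∈ l, p.Prime) (p : ℕ) (hp : p.Prime) (hpl : p ∉ l) :
    Nat.Coprime p l.prod := by
  rw [Nat.coprime_comm]
  induction l with
  | nil => simp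
  | cons q l ih =>
    rw [List.prod_cons]
    refine Nat.Coprime.mul_left ?_ (ih (fun r hr => hl r (List.mem_cons_of_mem _ hr))
      (fun h => hpl (List.mem_cons_of_mem _ h)))
    rw [Nat.coprime_primes (hl q List.mem_cons_self) hp]
    rintro rfl
    exact hpl List.mem_cons_self

theorem B5_prod_sqf (l : List ℕ) (hl : ∀ p ∈ l, p.Prime) (hn : l.Nodup) : Squarefree l.prod ∧
    l.prod.divisors.card ≤ 2 ^ l.length := by
  induction l with
  | nil => simp
  | cons q l ih =>
    obtain ⟨h1, h2⟩ := ih (fun r hr => hl r (List.mem_cons_of_mem _ hr)) (List.nodup_cons.mp hn).2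
    have hc := B5_prod_primes l (fun r hr => hl r (List.mem_cons_of_mem _ hr)) q (hl q List.mem_cons_self)
      (List.nodup_cons.mp hn).1
    rw [List.prod_cons]
    constructor
    · rw [Nat.squarefree_mul hc]
      exact ⟨(hl q List.mem_cons_self).squarefree, h1⟩
    · rw [Nat.Coprime.card_divisors_mul hc, List.length_cons, pow_succ, mul_comm (2 ^ l.length)]
      refine Nat.mul_le_mul ?_ h2
      rw [(hl q List.mem_cons_self).divisors]
      exact card_le_two

/-- `∑_{d ∣ p_1 ... p_v} μ(d) g(s + lg d) = dfL [lg p_1, ..., lg p_v] g s` -/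
theorem B5_moebius (x : ℕ) (l : List ℕ) (hl : ∀ p ∈ l, p.Prime) (hn : l.Nodup) (g : ℝ → ℝ) (s : ℝ) :
    ∑ d ∈ l.prod.divisors, (μ d : ℝ) * g (s + lg x d) = dfL (l.map (fun p => lg x p)) g s := by
  induction l generalizing s with
  | nil => simp [dfL, DF, lg]
  | cons q l ih =>
    have hl' : ∀ r ∈ l, r.Prime := fun r hr => hl r (List.mem_cons_of_mem _ hr)
    have hq := hl q List.mem_cons_self
    have hn' := List.nodup_cons.mp hn
    have hc := B5_prod_primes l hl' q hq hn'.1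
    have h0 : l.prod ≠ 0 := (B5_prod_sqf l hl' hn'.2).1.ne_zero
    rw [List.prod_cons, B5_sum_divisors q l.prod hq h0 hc, sum_add_distrib, ih hl' hn'.2 s]
    have h1 : ∑ d ∈ l.prod.divisors, (μ (q * d) : ℝ) * g (s + lg x (q * d)) =
        -∑ d ∈ l.prod.divisors, (μ d : ℝ) * g (s + lg x q + lg x d) := by
      rw [← sum_neg_distrib]
      refine sum_congr rfl fun d hd => ?_
      have hd1 : d ∣ l.prod := Nat.dvd_of_mem_divisors hd
      have hd0 : d ≠ 0 := ne_zero_of_dvd_ne_zero h0 hd1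
      have hcd : Nat.Coprime q d := hc.coprime_dvd_right hd1
      rw [ArithmeticFunction.isMultiplicative_moebius.map_mul_of_coprime hcd,
        ArithmeticFunction.moebius_apply_prime hq]
      have h2 : lg x (q * d) = lg x q + lg x d := by
        unfold lg
        push_cast
        rw [Real.log_mul (by exact_mod_cast hq.ne_zero) (by exact_mod_cast hd0), add_div]
      rw [h2, add_assoc]
      push_cast
      ring
    rw [h1, ih hl' hn'.2 (s + lg x q)]
    simp only [dfL, DF, List.map_cons]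
    ring

theorem B5_VV (η : ℝ) (hη : 0 < η) (len : ℕ) (v : ℕ → ℝ) (hlen : (len : ℝ) * η ≤ 1 / 3) (u : ℝ) :
    ∑ j ∈ range len, v j * (max 0 (((j : ℝ) + 1) * η - u) - max 0 ((j : ℝ) * η - u)) =
      VV η len v 1 - VV η len v u := by
  unfold VV
  rw [← sum_sub_distrib]
  refine sum_congr rfl fun j hj => ?_
  have hj1 : ((j : ℝ) + 1) ≤ len := by exact_mod_cast mem_range.1 hj
  have hj2 : ((j : ℝ) + 1) * η ≤ 1 / 3 := by nlinarith
  have h1 : cl η j 1 = η := by
    unfold cl
    rw [max_eq_left (by nlinarith), min_eq_right (by nlinarith)]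
  rw [h1, D2_cl_eq η hη j u]
  ring

theorem B5_LV (B : ℕ) (hB : 3 ≤ B) (η : ℝ) (hη : 0 < η) (len : ℕ) (v : ℕ → ℝ)
    (hlen : (len : ℝ) * η ≤ 1 / 3) (L : List (ℝ × ℝ)) (hL : OkL L) (ε : ℝ) (hε : 0 < ε) :
    ∀ᶠ x : ℕ in atTop, ∀ l ∈ boxL x L, l.Nodup →
      |LV x (zB B x) η len v l.prod -
        dfL (l.map (fun p => lg x p)) (fun s => VV η len v 1 - VV η len v s) 0| ≤ ε := by
  obtain ⟨S, hS⟩ : ∃ S : ℝ, S = ∑ j ∈ range len, |v j| := ⟨_, rfl⟩
  have hS0 : 0 ≤ S := by rw [hS]; exact sum_nonneg fun j _ => abs_nonneg _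
  obtain ⟨N, hN⟩ : ∃ N : ℝ, N = 2 ^ L.length := ⟨_, rfl⟩
  have hN0 : 0 < N := by rw [hN]; positivity
  obtain ⟨e, he⟩ : ∃ e : ℝ, e = ε / (2 * N * (S + 1)) := ⟨_, rfl⟩
  have he0 : 0 < e := by rw [he]; positivity
  -- a common lower bound of the left endpoints
  have hz : ∀ L' : List (ℝ × ℝ), OkL L' → ∀ᶠ x : ℕ in atTop, ∀ I ∈ L', (zB B x : ℝ) < (x : ℝ) ^ I.1 := by
    intro L' hL'
    induction L' with
    | nil => filter_upwards with x I hI; simp at hI
    | cons I L' ih =>
      rw [OkL_cons] at hL'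
      filter_upwards [ih hL'.2, C1_zB_le_rpow B I.1 hL'.1.1] with x h1 h2 J hJ
      rcases List.mem_cons.mp hJ with rfl | hJ
      · exact h2
      · exact h1 J hJ
  filter_upwards [C4_lamS_asymp B hB e he0, hz L hL, eventually_ge_atTop 2] with x h1 h2 hx2 l hl hn
  have hlp : ∀ p ∈ l, p.Prime ∧ zB B x < p := by
    have h3 := mem_boxL.mp hl
    intro p hp
    obtain ⟨i, hi, rfl⟩ := List.getElem_of_mem hp
    have h4 := (List.forall₂_iff_get.mp h3).2 i hi (by rw [← B4_len hl]; exact hi)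
    obtain ⟨h5, h6, _⟩ := mem_PP.mp h4
    refine ⟨by simpa using h5, ?_⟩
    have h7 := h2 _ (List.get_mem L ⟨i, by rw [← B4_len hl]; exact hi⟩)
    have h8 := h7.trans h6
    exact_mod_cast h8
  have hlq : ∀ p ∈ l, p.Prime := fun p hp => (hlp p hp).1
  obtain ⟨hsq, hcard⟩ := B5_prod_sqf l hlq hn
  rw [B4_len hl] at hcard
  have hrough : Nat.Coprime l.prod (primorial (zB B x)) := by
    have h9 : ∀ l' : List ℕ, (∀ p ∈ l', p.Prime ∧ zB B x < p) → Nat.Coprime l'.prod (primorial (zB B x)) := by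
      intro l' hl'
      induction l' with
      | nil => simp
      | cons q l' ih =>
        rw [List.prod_cons]
        refine Nat.Coprime.mul_left ?_ (ih fun r hr => hl' r (List.mem_cons_of_mem _ hr))
        obtain ⟨hq1, hq2⟩ := hl' q List.mem_cons_self
        rw [Nat.Prime.coprime_iff_not_dvd hq1, hq1.dvd_primorial_iff]
        omega
    exact h9 l hlp
  set m := l.prod with hm
  have hLV : LV x (zB B x) η len v m = ∑ j ∈ range len, v j * ∑ d ∈ m.divisors, lamC x (zB B x) η j d := rfl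
  have hX : dfL (l.map (fun p => lg x p)) (fun s => VV η len v 1 - VV η len v s) 0 =
      ∑ j ∈ range len, v j * ∑ d ∈ m.divisors,
        (μ d : ℝ) * (max 0 (((j : ℝ) + 1) * η - lg x d) - max 0 ((j : ℝ) * η - lg x d)) := by
    rw [← B5_moebius x l hlq hn, ← hm]
    calc ∑ d ∈ m.divisors, (μ d : ℝ) * (VV η len v 1 - VV η len v (0 + lg x d)) =
        ∑ d ∈ m.divisors, ∑ j ∈ range len, v j * ((μ d : ℝ) *
          (max 0 (((j : ℝ) + 1) * η - lg x d) - max 0 ((j : ℝ) * η - lg x d))) := by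
          refine sum_congr rfl fun d _ => ?_
          rw [zero_add, ← B5_VV η hη len v hlen, mul_sum]
          refine sum_congr rfl fun j _ => ?_
          ring
      _ = _ := by
          rw [sum_comm]
          refine sum_congr rfl fun j _ => ?_
          rw [mul_sum]
  rw [hLV, hX, ← sum_sub_distrib]
  refine (abs_sum_le_sum_abs _ _).trans ?_
  have hdiv : ∀ j ∈ range len, |(∑ d ∈ m.divisors, lamC x (zB B x) η j d) - ∑ d ∈ m.divisors,
        (μ d : ℝ) * (max 0 (((j : ℝ) + 1) * η - lg x d) - max 0 ((j : ℝ) * η - lg x d))| ≤ N * (2 * e) := by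
    intro j hj
    rw [← sum_sub_distrib]
    refine (abs_sum_le_sum_abs _ _).trans ?_
    have h3 : ∀ d ∈ m.divisors, |lamC x (zB B x) η j d -
        (μ d : ℝ) * (max 0 (((j : ℝ) + 1) * η - lg x d) - max 0 ((j : ℝ) * η - lg x d))| ≤ 2 * e := by
      intro d hd
      have hdm : d ∣ m := Nat.dvd_of_mem_divisors hd
      have hd1 : Squarefree d := hsq.squarefree_of_dvd hdm
      have hd2 : Nat.Coprime d (primorial (zB B x)) := Nat.Coprime.coprime_dvd_left hdm hrough
      have hj1 : ((j : ℝ) + 1) ≤ len := by exact_mod_cast mem_range.1 hj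
      have hj2 : ((j : ℝ) + 1) * η ≤ 1 := by nlinarith
      have hj3 : (j : ℝ) * η ≤ 1 := by nlinarith
      have q1 := h1 (((j : ℝ) + 1) * η) (by positivity) hj2 d hd1 hd2
      have q2 := h1 ((j : ℝ) * η) (by positivity) hj3 d hd1 hd2
      have q3 : lamC x (zB B x) η j d -
          (μ d : ℝ) * (max 0 (((j : ℝ) + 1) * η - lg x d) - max 0 ((j : ℝ) * η - lg x d)) =
          (lamS x (zB B x) (((j : ℝ) + 1) * η) d -
            (μ d : ℝ) * max 0 (((j : ℝ) + 1) * η - Real.log d / Real.log x)) -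
          (lamS x (zB B x) ((j : ℝ) * η) d -
            (μ d : ℝ) * max 0 ((j : ℝ) * η - Real.log d / Real.log x)) := by
        unfold lamC lg
        ring
      rw [q3]
      refine (abs_sub _ _).trans ?_
      linarith
    refine (sum_le_card_nsmul _ _ _ h3).trans ?_
    rw [nsmul_eq_mul]
    refine mul_le_mul_of_nonneg_right ?_ (by positivity)
    rw [hN]
    exact_mod_cast hcard
  calc ∑ j ∈ range len, |v j * (∑ d ∈ m.divisors, lamC x (zB B x) η j d) - v j * ∑ d ∈ m.divisors,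
        (μ d : ℝ) * (max 0 (((j : ℝ) + 1) * η - lg x d) - max 0 ((j : ℝ) * η - lg x d))|
      ≤ ∑ j ∈ range len, |v j| * (N * (2 * e)) := by
        refine sum_le_sum fun j hj => ?_
        rw [← mul_sub, abs_mul]
        exact mul_le_mul_of_nonneg_left (hdiv j hj) (abs_nonneg _)
    _ = S * (N * (2 * e)) := by rw [← sum_mul, ← hS]
    _ ≤ (S + 1) * (N * (2 * e)) := mul_le_mul_of_nonneg_right (by linarith) (by positivity)
    _ = ε := by
        rw [he]
        field_simp

end Pool.Agent.Lib.MP_092512_nt.P5
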