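import Pool.Agent.Lib.MP_092512_nt.P5.B5

/-!
# P5.B6: multiplicities and disjointness of the boxes of a grid

Grid `g : ℕ → ℝ` (monotone), cell `k` = the primes in `(x^(g k), x^(g (k+1))]`.  `mulL is` = product of the factorials of
the multiplicities of `is`.
-/

set_option autoImplicit false

open Finset Filter

namespace Pool.Agent.Lib.MP_092512_nt.P5

open Pool.Agent.Lib.SW Pool.Agent.Lib.MP_092512_nt.P3

def cellL (g : ℕ → ℝ) (is : List ℕ) : List (ℝ × ℝ) := is.map (fun k => (g k, g (k + 1)))

def mulL : List ℕ → ℕ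
  | [] => 1
  | i :: is => (i :: is).count i * mulL is

/-- the products of the tuples of different primes of the box -/
noncomputable def prodF (x : ℕ) (g : ℕ → ℝ) (is : List ℕ) : Finset ℕ :=
  ((boxL x (cellL g is)).filter (fun l => l.Nodup)).image List.prod

theorem B6_cell {x : ℕ} (hx : 1 ≤ x) {g : ℕ → ℝ} (hg : Monotone g) {i j p : ℕ}
    (hi : p ∈ PP x (g i) (g (i + 1))) (hj : p ∈ PP x (g j) (g (j + 1))) : i = j := by
  obtain ⟨_, h1, h2⟩ := mem_PP.mp hi
  obtain ⟨_, h3, h4⟩ := mem_PP.mp hj
  have hx1 : (1 : ℝ) ≤ x := by exact_mod_cast hx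
  by_contra hne
  rcases lt_or_gt_of_ne hne with h | h
  · have h5 : g (i + 1) ≤ g j := hg h
    have h6 := Real.rpow_le_rpow_of_exponent_le hx1 h5
    linarith
  · have h5 : g (j + 1) ≤ g i := hg h
    have h6 := Real.rpow_le_rpow_of_exponent_le hx1 h5
    linarith

theorem B6_prime {x : ℕ} {L : List (ℝ × ℝ)} {l : List ℕ} (hl : l ∈ boxL x L) : ∀ p ∈ l, p.Prime := by
  induction L generalizing l with
  | nil =>
    simp only [boxL, mem_singleton] at hl
    subst hl
    simp
  | cons I L ih =>
    obtain ⟨p, hp, l', hl', rfl⟩ := mem_boxL_cons.mp hl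
    intro q hq
    rcases List.mem_cons.mp hq with rfl | hq
    · exact (mem_PP.mp hp).1
    · exact ih hl' q hq

open Classical in
/-- the number of entries of `l` in the cell `i` -/
theorem B6_count {x : ℕ} (hx : 1 ≤ x) {g : ℕ → ℝ} (hg : Monotone g) (is : List ℕ) (l : List ℕ)
    (hl : l ∈ boxL x (cellL g is)) (i : ℕ) :
    (l.filter (fun p => decide (p ∈ PP x (g i) (g (i + 1))))).length = is.count i := by
  induction is generalizing l with
  | nil =>
    simp only [cellL, List.map_nil, boxL, mem_singleton] at hl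
    subst hl
    simp
  | cons j is ih =>
    simp only [cellL, List.map_cons] at hl
    obtain ⟨p, hp, l', hl', rfl⟩ := mem_boxL_cons.mp hl
    have h1 := ih l' hl'
    by_cases hij : j = i
    · subst hij
      rw [List.filter_cons_of_pos (by simpa using hp), List.length_cons, h1, List.count_cons_self]
    · rw [List.filter_cons_of_neg (by
        simp only [decide_eq_true_eq]
        intro h
        exact hij (B6_cell hx hg hp h)), h1, List.count_cons_of_ne hij]

open Classical in
theorem B6_fiber_card {x : ℕ} (hx : 1 ≤ x) {g : ℕ → ℝ} (hg : Monotone g) (is : List ℕ) (a : ℕ) :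
    ((boxL x (cellL g is)).filter (fun l => l.Nodup ∧ l.prod = a)).card ≤ mulL is := by
  induction is generalizing a with
  | nil =>
    simp only [cellL, List.map_nil, boxL, mulL]
    exact (card_filter_le _ _).trans (by simp)
  | cons i is ih =>
    rcases ((boxL x (cellL g (i :: is))).filter (fun l => l.Nodup ∧ l.prod = a)).eq_empty_or_nonempty with he | ⟨l0, hl0⟩
    · rw [he]
      simp
    obtain ⟨hl0, hn0, hp0⟩ := mem_filter.mp hl0
    have hc := B6_count hx hg (i :: is) l0 hl0 i
    set P : Finset ℕ := (l0.filter (fun p => decide (p ∈ PP x (g i) (g (i + 1))))).toFinset with hP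
    have hPc : P.card ≤ (i :: is).count i := by
      rw [← hc]
      exact List.toFinset_card_le _
    have hsub : (boxL x (cellL g (i :: is))).filter (fun l => l.Nodup ∧ l.prod = a) ⊆
        P.biUnion (fun p => ((boxL x (cellL g is)).filter (fun l => l.Nodup ∧ l.prod = a / p)).image
          (fun l => p :: l)) := by
      intro l hl
      obtain ⟨hl1, hl2, hl3⟩ := mem_filter.mp hl
      simp only [cellL, List.map_cons] at hl1
      have hprime := B6_prime hl1
      obtain ⟨p, hp, l', hl', rfl⟩ := mem_boxL_cons.mp hl1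
      have hpp : p.Prime := (mem_PP.mp hp).1
      rw [List.prod_cons] at hl3
      rw [mem_biUnion]
      refine ⟨p, ?_, ?_⟩
      · rw [hP, List.mem_toFinset, List.mem_filter]
        refine ⟨?_, by simpa using hp⟩
        have hdvd : p ∣ l0.prod := by
          rw [hp0, ← hl3]
          exact dvd_mul_right _ _
        obtain ⟨q, hq, hpq⟩ := (Prime.dvd_prod_iff hpp.prime).mp hdvd
        have hqp : q.Prime := B6_prime hl0 q hq
        rwa [(Nat.prime_dvd_prime_iff_eq hpp hqp).mp hpq]
      · rw [mem_image]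
        refine ⟨l', mem_filter.mpr ⟨hl', (List.nodup_cons.mp hl2).2, ?_⟩, rfl⟩
        rw [← hl3, Nat.mul_div_cancel_left _ hpp.pos]
    refine (card_le_card hsub).trans (card_biUnion_le.trans ?_)
    calc ∑ p ∈ P, (((boxL x (cellL g is)).filter (fun l => l.Nodup ∧ l.prod = a / p)).image
          (fun l => p :: l)).card ≤ ∑ p ∈ P, mulL is :=
          sum_le_sum fun p _ => card_image_le.trans (ih (a / p))
      _ = P.card * mulL is := by rw [sum_const, smul_eq_mul]
      _ ≤ (i :: is).count i * mulL is := Nat.mul_le_mul_right _ hPc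

theorem B6_sum {x : ℕ} (hx : 1 ≤ x) {g : ℕ → ℝ} (hg : Monotone g) (is : List ℕ) (F : ℕ → ℝ)
    (hF : ∀ a, 0 ≤ F a) :
    ∑ l ∈ boxL x (cellL g is), (if l.Nodup then F l.prod else 0) ≤ mulL is * ∑ a ∈ prodF x g is, F a := by
  classical
  rw [← sum_filter]
  have h1 : ∑ l ∈ (boxL x (cellL g is)).filter (fun l => l.Nodup), F l.prod =
      ∑ a ∈ prodF x g is, ∑ l ∈ ((boxL x (cellL g is)).filter (fun l => l.Nodup)).filter
        (fun l => l.prod = a), F l.prod :=
    (sum_fiberwise_of_maps_to (fun l hl => mem_image_of_mem _ hl) _).symm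
  rw [h1, mul_sum]
  refine sum_le_sum fun a _ => ?_
  have h2 : ∑ l ∈ ((boxL x (cellL g is)).filter (fun l => l.Nodup)).filter (fun l => l.prod = a), F l.prod =
      (((boxL x (cellL g is)).filter (fun l => l.Nodup ∧ l.prod = a)).card : ℝ) * F a := by
    rw [filter_filter, sum_congr rfl (fun l hl => by rw [(mem_filter.mp hl).2.2]), sum_const, nsmul_eq_mul]
  rw [h2]
  refine mul_le_mul_of_nonneg_right ?_ (hF a)
  exact_mod_cast B6_fiber_card hx hg is a

/-- different nondecreasing index lists have disjoint sets of products -/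
theorem B6_disj {x : ℕ} (hx : 1 ≤ x) {g : ℕ → ℝ} (hg : Monotone g) {is js : List ℕ}
    (hi : is.Pairwise (· ≤ ·)) (hj : js.Pairwise (· ≤ ·)) (h : is ≠ js) :
    Disjoint (prodF x g is) (prodF x g js) := by
  classical
  rw [disjoint_left]
  intro a ha ha'
  obtain ⟨l, hl, rfl⟩ := mem_image.mp ha
  obtain ⟨l', hl', hll⟩ := mem_image.mp ha'
  obtain ⟨hl1, _⟩ := mem_filter.mp hl
  obtain ⟨hl1', _⟩ := mem_filter.mp hl'
  have hp : l.Perm l' := (Nat.primeFactorsList_unique rfl (B6_prime hl1)).trans
    (Nat.primeFactorsList_unique hll (B6_prime hl1')).symm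
  have hperm : is.Perm js := by
    rw [List.perm_iff_count]
    intro i
    rw [← B6_count hx hg is l hl1 i, ← B6_count hx hg js l' hl1' i]
    exact (hp.filter _).length_eq
  exact h (hperm.eq_of_pairwise' hi hj)

/-- the number of prime factors of the elements of `prodF` -/
theorem B6_card {x : ℕ} {g : ℕ → ℝ} {is : List ℕ} {a : ℕ} (ha : a ∈ prodF x g is) :
    Squarefree a ∧ a.primeFactors.card = is.length ∧ ∀ p ∈ a.primeFactors, ∃ i ∈ is, p ∈ PP x (g i) (g (i + 1)) := by
  obtain ⟨l, hl, rfl⟩ := mem_image.mp ha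
  obtain ⟨hl1, hn⟩ := mem_filter.mp hl
  have hpr := B6_prime hl1
  have hsq := (B5_prod_sqf l hpr hn).1
  have h1 : l.prod.primeFactors = l.toFinset := by
    rw [← Nat.toFinset_factors, List.toFinset_eq_of_perm _ _ (Nat.primeFactorsList_unique rfl hpr).symm]
  refine ⟨hsq, ?_, ?_⟩
  · rw [h1, List.toFinset_card_of_nodup hn, B4_len hl1]
    simp [cellL]
  · intro p hp
    rw [h1, List.mem_toFinset] at hp
    have h3 := mem_boxL.mp hl1
    obtain ⟨i, hi, rfl⟩ := List.getElem_of_mem hp
    have hlen := B4_len hl1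
    have h4 := (List.forall₂_iff_get.mp h3).2 i hi (by rw [← hlen]; exact hi)
    have hi' : i < is.length := by
      rw [hlen] at hi
      simpa [cellL] using hi
    refine ⟨is[i], List.getElem_mem hi', ?_⟩
    simpa [cellL] using h4

end Pool.Agent.Lib.MP_092512_nt.P5
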