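import Pool.Agent.Lib.MP_092512_nt.P5.B6

/-!
# P5.B7: the lower bound for a finite family of boxes

`Fm`: grids `g v` (for the boxes in `v` primes), a finite set `S` of nondecreasing index lists, and for each `is ∈ S` the
linear majorant `Z(s) = al - be s` of the reciprocal of the weight of the completions.
`B7_fam`: if `Cmp a ≥ (x/log x) (1/Z(lg a) - ε')/a` on the boxes and `Cmp ≥ 0`, then
`∑_{a ∈ AS x} LV(a)² Cmp a ≥ (x/log x) (∑_{is ∈ S} (TB L f 0)²/(mulL is · TM L Z 0) - ε)`, `f = VV(1) - VV`.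
-/

set_option autoImplicit false

open Finset Filter

namespace Pool.Agent.Lib.MP_092512_nt.P5

open Pool.Agent.Lib.SW Pool.Agent.Lib.MP_092512_nt.P3

structure Fm where
  g : ℕ → ℕ → ℝ
  S : Finset (List ℕ)
  al : List ℕ → ℝ
  be : List ℕ → ℝ
  mono : ∀ v, Monotone (g v)
  pos : ∀ v, 0 < g v 0
  sorted : ∀ is ∈ S, is.Pairwise (· ≤ ·)
  le1 : ∀ is ∈ S, ∀ k ∈ is, g is.length (k + 1) ≤ 1
  Z0 : ∀ is ∈ S, 0 < al is - be is * ((cellL (g is.length) is).map Prod.fst).sum
  Z1 : ∀ is ∈ S, 0 < al is - be is * ((cellL (g is.length) is).map Prod.snd).sum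
  J : ∀ is ∈ S, 0 < TM (cellL (g is.length) is) (fun s => al is - be is * s) 0

variable (F : Fm)

/-- the box of the index list `is` -/
noncomputable def Fm.L (is : List ℕ) : List (ℝ × ℝ) := cellL (F.g is.length) is

noncomputable def Fm.AS (x : ℕ) : Finset ℕ := F.S.biUnion (fun is => prodF x (F.g is.length) is)

/-- the value of the lower bound for the line vector `v` -/
noncomputable def Fm.val (η : ℝ) (len : ℕ) (v : ℕ → ℝ) : ℝ :=
  ∑ is ∈ F.S, 1 / (mulL is : ℝ) * (TB (F.L is) (fun s => VV η len v 1 - VV η len v s) 0 ^ 2 /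
    TM (F.L is) (fun s => F.al is - F.be is * s) 0)

theorem B7_ok (is : List ℕ) : OkL (F.L is) := by
  intro I hI
  obtain ⟨k, _, rfl⟩ := List.mem_map.mp hI
  exact ⟨lt_of_lt_of_le (F.pos _) (F.mono _ (Nat.zero_le k)), F.mono _ (Nat.le_succ k)⟩

theorem B7_VV_cont (η : ℝ) (len : ℕ) (v : ℕ → ℝ) : Continuous (fun s => VV η len v 1 - VV η len v s) := by
  unfold VV cl
  fun_prop

theorem B7_mul_pos (is : List ℕ) : 0 < mulL is := by
  induction is with
  | nil => simp [mulL]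
  | cons i is ih =>
    simp only [mulL]
    exact Nat.mul_pos (List.count_pos_iff.mpr List.mem_cons_self) ih

/-- one box -/
theorem B7_one (B : ℕ) (hB : 3 ≤ B) (η : ℝ) (hη : 0 < η) (len : ℕ) (v : ℕ → ℝ)
    (hlen : (len : ℝ) * η ≤ 1 / 3) (is : List ℕ) (his : is ∈ F.S) (ε : ℝ) (hε : 0 < ε) :
    ∃ ε' : ℝ, 0 < ε' ∧ ∀ᶠ x : ℕ in atTop, ∀ Cmp : ℕ → ℝ, (∀ a, 0 ≤ Cmp a) →
      (∀ l ∈ boxL x (F.L is), l.Nodup → 1 / (l.prod : ℝ) * (1 / (F.al is - F.be is * sL x l) - ε') ≤
        Cmp l.prod) →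
      1 / (mulL is : ℝ) * (TB (F.L is) (fun s => VV η len v 1 - VV η len v s) 0 ^ 2 /
        TM (F.L is) (fun s => F.al is - F.be is * s) 0) - ε ≤
        ∑ a ∈ prodF x (F.g is.length) is, LV x (zB B x) η len v a ^ 2 * Cmp a := by
  have hok := B7_ok F is
  have hle1 : ∀ I ∈ F.L is, I.2 ≤ 1 := by
    intro I hI
    obtain ⟨k, hk, rfl⟩ := List.mem_map.mp hI
    exact F.le1 is his k hk
  obtain ⟨e, he, hbox⟩ := B4_box (F.L is) hok hle1 _ (B7_VV_cont η len v) (F.al is) (F.be is)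
    (F.Z0 is his) (F.Z1 is his) (F.J is his) ε hε
  -- bounds for X and 1/Z
  obtain ⟨Sb, hSb⟩ : ∃ S : ℝ, S = max 0 ((F.L is).map Prod.snd).sum := ⟨_, rfl⟩
  obtain ⟨G, hG⟩ : ∃ G : ℝ, ∀ y ∈ Set.Icc 0 Sb, |VV η len v 1 - VV η len v y| ≤ G := by
    obtain ⟨G, hG⟩ := (isCompact_Icc (a := (0 : ℝ)) (b := Sb)).exists_bound_of_continuousOn
      (B7_VV_cont η len v).continuousOn
    exact ⟨G, fun u hu => by simpa using hG u hu⟩
  have hSb0 : 0 ≤ Sb := by rw [hSb]; exact le_max_left _ _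
  have hG0 : 0 ≤ G := le_trans (abs_nonneg _) (hG 0 ⟨le_rfl, hSb0⟩)
  obtain ⟨M, hM⟩ : ∃ M : ℝ, M = 2 ^ (F.L is).length * G + 1 := ⟨_, rfl⟩
  have hM0 : 0 < M := by rw [hM]; positivity
  obtain ⟨Zm, hZm⟩ : ∃ Z : ℝ, Z = min (F.al is - F.be is * ((F.L is).map Prod.fst).sum)
      (F.al is - F.be is * ((F.L is).map Prod.snd).sum) := ⟨_, rfl⟩
  have hZm0 : 0 < Zm := by
    rw [hZm]
    exact lt_min (F.Z0 is his) (F.Z1 is his)
  obtain ⟨e1, he1⟩ : ∃ e1 : ℝ, e1 = min 1 (e * Zm / (4 * (M + 1))) := ⟨_, rfl⟩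
  have he10 : 0 < e1 := by rw [he1]; exact lt_min one_pos (by positivity)
  have he11 : e1 ≤ e * Zm / (4 * (M + 1)) := by rw [he1]; exact min_le_right _ _
  have he12 : e1 ≤ 1 := by rw [he1]; exact min_le_left _ _
  refine ⟨e / (2 * M ^ 2), by positivity, ?_⟩
  filter_upwards [hbox, B5_LV B hB η hη len v hlen (F.L is) hok e1 he10, eventually_ge_atTop 2]
    with x k1 k2 hx2 Cmp hC0 hC
  have h1 := k1 (fun a => LV x (zB B x) η len v a ^ 2 * Cmp a) ?_
  · have h2 := B6_sum (x := x) (by omega) (F.mono is.length) is (fun a => LV x (zB B x) η len v a ^ 2 * Cmp a)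
      (fun a => mul_nonneg (sq_nonneg _) (hC0 a))
    have h3 := h1.trans h2
    have hm : (0 : ℝ) < mulL is := by exact_mod_cast B7_mul_pos is
    have hm1 : (1 : ℝ) ≤ mulL is := by exact_mod_cast B7_mul_pos is
    have h4 : 1 / (mulL is : ℝ) * (TB (F.L is) (fun s => VV η len v 1 - VV η len v s) 0 ^ 2 /
        TM (F.L is) (fun s => F.al is - F.be is * s) 0 - ε) ≤
        ∑ a ∈ prodF x (F.g is.length) is, LV x (zB B x) η len v a ^ 2 * Cmp a := by
      rw [one_div, inv_mul_le_iff₀ hm]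
      exact h3
    have h5 : 1 / (mulL is : ℝ) * ε ≤ ε := by
      rw [one_div, inv_mul_le_iff₀ hm]
      nlinarith
    linarith
  · intro l hl hn
    obtain ⟨q1, q2, q3⟩ := B4_lg x hx2 (F.L is) hok hle1 l hl
    have q4 : ∀ u ∈ l.map (fun p => lg x p), 0 < u := by
      intro u hu
      obtain ⟨p, hp, rfl⟩ := List.mem_map.mp hu
      exact (q1 p hp).1
    have hs0 : 0 ≤ sL x l := by
      unfold sL
      exact List.sum_nonneg fun u hu => (q4 u hu).le
    have hX : |dfL (l.map (fun p => lg x p)) (fun s => VV η len v 1 - VV η len v s) 0| ≤ M - 1 := by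
      have := B4_dfL (l.map (fun p => lg x p)) q4 (fun s => VV η len v 1 - VV η len v s) G Sb
        (fun y h1 h2 => hG y ⟨h1, h2⟩) 0 le_rfl (by
          rw [zero_add]
          exact q3.trans (by rw [hSb]; exact le_max_right _ _))
      rw [List.length_map, B4_len hl] at this
      rw [hM]
      linarith
    have hZ : Zm ≤ F.al is - F.be is * sL x l := by
      rw [hZm]
      rcases le_or_gt (F.be is) 0 with hb | hb
      · refine (min_le_left _ _).trans ?_
        nlinarith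
      · refine (min_le_right _ _).trans ?_
        nlinarith
    have h6 := k2 l hl hn
    have h7 := hC l hl hn
    refine le_trans ?_ (mul_le_mul_of_nonneg_left h7 (sq_nonneg _))
    generalize hXX : dfL (l.map (fun p => lg x p)) (fun s => VV η len v 1 - VV η len v s) 0 = X at h6 hX
    generalize hLL : LV x (zB B x) η len v l.prod = Y at h6
    generalize hZZ : F.al is - F.be is * sL x l = Z at hZ
    have hZ0 : 0 < Z := lt_of_lt_of_le hZm0 hZ
    have hi : 0 ≤ 1 / (l.prod : ℝ) := by positivity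
    have h8 : X ^ 2 / Z - e ≤ Y ^ 2 * (1 / Z - e / (2 * M ^ 2)) := by
      have hY : |Y| ≤ M := by
        have : |Y| ≤ |X| + |Y - X| := by
          have := abs_add_le X (Y - X)
          rwa [add_sub_cancel] at this
        linarith
      have hY2 : Y ^ 2 ≤ M ^ 2 := by
        rw [← sq_abs Y]
        exact pow_le_pow_left₀ (abs_nonneg _) hY 2
      have hXY : X ^ 2 - Y ^ 2 ≤ e1 * (2 * M) := by
        have h9 : X ^ 2 - Y ^ 2 = (X - Y) * (X + Y) := by ring
        rw [h9]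
        refine (le_abs_self _).trans ?_
        rw [abs_mul]
        refine mul_le_mul (by rw [abs_sub_comm]; exact h6) ?_ (abs_nonneg _) he10.le
        refine (abs_add_le _ _).trans ?_
        linarith
      have h10 : X ^ 2 / Z - Y ^ 2 / Z ≤ e / 2 := by
        rw [← sub_div, div_le_iff₀ hZ0]
        have h11 : e1 * (2 * M) ≤ e / 2 * Zm := by
          calc e1 * (2 * M) ≤ e1 * (2 * (M + 1)) := by nlinarith
            _ ≤ e * Zm / (4 * (M + 1)) * (2 * (M + 1)) := mul_le_mul_of_nonneg_right he11 (by positivity)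
            _ = e / 2 * Zm := by field_simp; norm_num
        have h12 : e / 2 * Zm ≤ e / 2 * Z := mul_le_mul_of_nonneg_left hZ (by positivity)
        linarith
      have h13 : Y ^ 2 * (e / (2 * M ^ 2)) ≤ e / 2 := by
        calc Y ^ 2 * (e / (2 * M ^ 2)) ≤ M ^ 2 * (e / (2 * M ^ 2)) :=
              mul_le_mul_of_nonneg_right hY2 (by positivity)
          _ = e / 2 := by field_simp
      have h14 : Y ^ 2 * (1 / Z - e / (2 * M ^ 2)) = Y ^ 2 / Z - Y ^ 2 * (e / (2 * M ^ 2)) := by ring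
      rw [h14]
      linarith
    calc 1 / (l.prod : ℝ) * (X ^ 2 / Z - e) ≤ 1 / (l.prod : ℝ) * (Y ^ 2 * (1 / Z - e / (2 * M ^ 2))) :=
          mul_le_mul_of_nonneg_left h8 hi
      _ = Y ^ 2 * (1 / (l.prod : ℝ) * (1 / Z - e / (2 * M ^ 2))) := by ring

theorem B7_fam (B : ℕ) (hB : 3 ≤ B) (η : ℝ) (hη : 0 < η) (len : ℕ) (v : ℕ → ℝ)
    (hlen : (len : ℝ) * η ≤ 1 / 3) (ε : ℝ) (hε : 0 < ε) :
    ∃ ε' : ℝ, 0 < ε' ∧ ∀ᶠ x : ℕ in atTop, ∀ Cmp : ℕ → ℝ, (∀ a, 0 ≤ Cmp a) →
      (∀ is ∈ F.S, ∀ l ∈ boxL x (F.L is), l.Nodup → x / Real.log x *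
        (1 / (l.prod : ℝ) * (1 / (F.al is - F.be is * sL x l) - ε')) ≤ Cmp l.prod) →
      x / Real.log x * (F.val η len v - ε) ≤ ∑ a ∈ F.AS x, LV x (zB B x) η len v a ^ 2 * Cmp a := by
  classical
  obtain ⟨N, hN⟩ : ∃ N : ℝ, N = F.S.card + 1 := ⟨_, rfl⟩
  have hN0 : 0 < N := by rw [hN]; positivity
  have hch : ∀ is : List ℕ, ∃ ε' : ℝ, 0 < ε' ∧ (is ∈ F.S → ∀ᶠ x : ℕ in atTop, ∀ Cmp : ℕ → ℝ, (∀ a, 0 ≤ Cmp a) →
      (∀ l ∈ boxL x (F.L is), l.Nodup → 1 / (l.prod : ℝ) * (1 / (F.al is - F.be is * sL x l) - ε') ≤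
        Cmp l.prod) →
      1 / (mulL is : ℝ) * (TB (F.L is) (fun s => VV η len v 1 - VV η len v s) 0 ^ 2 /
        TM (F.L is) (fun s => F.al is - F.be is * s) 0) - ε / N ≤
        ∑ a ∈ prodF x (F.g is.length) is, LV x (zB B x) η len v a ^ 2 * Cmp a) := by
    intro is
    by_cases his : is ∈ F.S
    · obtain ⟨e, he, h⟩ := B7_one F B hB η hη len v hlen is his (ε / N) (by positivity)
      exact ⟨e, he, fun _ => h⟩
    · exact ⟨1, one_pos, fun h => absurd h his⟩
  choose e he hee using hch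
  -- the smallest of the e
  obtain ⟨e0, he0, he1⟩ : ∃ e0 : ℝ, 0 < e0 ∧ ∀ is ∈ F.S, e0 ≤ e is := by
    rcases F.S.eq_empty_or_nonempty with h | h
    · exact ⟨1, one_pos, fun is his => by rw [h] at his; simp at his⟩
    · obtain ⟨i0, hi0, hmin⟩ := exists_min_image F.S e h
      exact ⟨e i0, he i0, hmin⟩
  refine ⟨e0, he0, ?_⟩
  have hall := (eventually_all_finset F.S).mpr (fun is his => hee is his)
  filter_upwards [hall, eventually_ge_atTop 3] with x hx hx3 Cmp hC0 hC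
  have hx0 : (0 : ℝ) < x := by
    have : 0 < x := by omega
    exact_mod_cast this
  have hlog : 0 < Real.log x := Real.log_pos (by
    have : 1 < x := by omega
    exact_mod_cast this)
  have hQ : 0 < (x : ℝ) / Real.log x := div_pos hx0 hlog
  have hdisj : ∀ is ∈ F.S, ∀ js ∈ F.S, is ≠ js →
      Disjoint (prodF x (F.g is.length) is) (prodF x (F.g js.length) js) := by
    intro is hi js hj hne
    by_cases hl : is.length = js.length
    · rw [hl]
      exact B6_disj (by omega) (F.mono _) (F.sorted is hi) (F.sorted js hj) hne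
    · rw [disjoint_left]
      intro a ha ha'
      exact hl ((B6_card ha).2.1.symm.trans (B6_card ha').2.1)
  have hsum : ∑ a ∈ F.AS x, LV x (zB B x) η len v a ^ 2 * Cmp a =
      ∑ is ∈ F.S, ∑ a ∈ prodF x (F.g is.length) is, LV x (zB B x) η len v a ^ 2 * Cmp a :=
    sum_biUnion hdisj
  rw [hsum]
  have hpart : ∀ is ∈ F.S, x / Real.log x * (1 / (mulL is : ℝ) *
      (TB (F.L is) (fun s => VV η len v 1 - VV η len v s) 0 ^ 2 /
        TM (F.L is) (fun s => F.al is - F.be is * s) 0) - ε / N) ≤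
        ∑ a ∈ prodF x (F.g is.length) is, LV x (zB B x) η len v a ^ 2 * Cmp a := by
    intro is his
    have h1 := hx is his (fun a => Cmp a / (x / Real.log x)) (fun a => div_nonneg (hC0 a) hQ.le) (by
      intro l hl hn
      rw [le_div_iff₀ hQ, mul_comm]
      refine le_trans ?_ (hC is his l hl hn)
      refine mul_le_mul_of_nonneg_left ?_ hQ.le
      refine mul_le_mul_of_nonneg_left ?_ (by positivity)
      linarith [he1 is his])
    have h2 : ∑ a ∈ prodF x (F.g is.length) is, LV x (zB B x) η len v a ^ 2 * (Cmp a / (x / Real.log x)) =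
        (∑ a ∈ prodF x (F.g is.length) is, LV x (zB B x) η len v a ^ 2 * Cmp a) / (x / Real.log x) := by
      rw [sum_div]
      exact sum_congr rfl fun a _ => by rw [mul_div_assoc]
    rw [h2, le_div_iff₀ hQ] at h1
    rw [mul_comm]
    exact h1
  refine le_trans ?_ (sum_le_sum hpart)
  rw [← mul_sum, sum_sub_distrib, sum_const, nsmul_eq_mul]
  refine mul_le_mul_of_nonneg_left ?_ hQ.le
  have h3 : (F.S.card : ℝ) * (ε / N) ≤ ε := by
    rw [hN, mul_div_assoc', div_le_iff₀ (by positivity)]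
    nlinarith
  unfold Fm.val
  linarith

end Pool.Agent.Lib.MP_092512_nt.P5
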