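import Pool.Agent.Lib.MP_092512_nt.P3.DDefs

/-!
# P5, part B: sums over tuples of primes in a box of intervals

A box is a list `L` of intervals `(a, b)`; `boxL x L` the finite set of the lists `l = [p_1, ..., p_v]` of primes
with `p_j ∈ (x^(a_j), x^(b_j)]`.  `wtL x l = ∏ lg p / p`, `sL x l = ∑ lg p`.
`DF c h [u_1, ..., u_v] f s`: iterated operator `f ↦ (s ↦ c f(s) + h(u) f(s + u))`; `dfL = DF 1 (-1)` (alternating
differences), `DF 0 id us f s = u_1 ... u_v f(s + u_1 + ... + u_v)`.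
`TK c h L f s`: the integral of `DF c h us f s` over `us ∈ L`, `TKx` the same with the sum over primes with weights `lg p/p`.
-/

set_option autoImplicit false

open Finset

namespace Pool.Agent.Lib.MP_092512_nt.P5

open Pool.Agent.Lib.MP_092512_nt.P3

/-- the lists of primes in the box -/
noncomputable def boxL (x : ℕ) : List (ℝ × ℝ) → Finset (List ℕ)
  | [] => {[]}
  | I :: L => ((PP x I.1 I.2) ×ˢ (boxL x L)).image (fun q => q.1 :: q.2)

noncomputable def wtL (x : ℕ) (l : List ℕ) : ℝ := (l.map (fun p => lg x p / (p : ℝ))).prod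

noncomputable def sL (x : ℕ) (l : List ℕ) : ℝ := (l.map (fun p => lg x p)).sum

def DF (c : ℝ) (h : ℝ → ℝ) : List ℝ → (ℝ → ℝ) → ℝ → ℝ
  | [], f, s => f s
  | u :: us, f, s => c * DF c h us f s + h u * DF c h us f (s + u)

/-- alternating differences `(1 - τ_{u_1}) ... (1 - τ_{u_v}) f (s)` -/
def dfL (us : List ℝ) (f : ℝ → ℝ) (s : ℝ) : ℝ := DF 1 (fun _ => -1) us f s

noncomputable def TK (c : ℝ) (h : ℝ → ℝ) : List (ℝ × ℝ) → (ℝ → ℝ) → ℝ → ℝ
  | [], f, s => f s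
  | I :: L, f, s => ∫ u in I.1..I.2, (c * TK c h L f s + h u * TK c h L f (s + u))

noncomputable def TKx (x : ℕ) (c : ℝ) (h : ℝ → ℝ) : List (ℝ × ℝ) → (ℝ → ℝ) → ℝ → ℝ
  | [], f, s => f s
  | I :: L, f, s => ∑ p ∈ PP x I.1 I.2,
      lg x p / (p : ℝ) * (c * TKx x c h L f s + h (lg x p) * TKx x c h L f (s + lg x p))

/-- box integral of the alternating differences -/
noncomputable def TB (L : List (ℝ × ℝ)) (f : ℝ → ℝ) (s : ℝ) : ℝ := TK 1 (fun _ => -1) L f s

/-- box integral of `u_1 ... u_v f(s + ∑ u)` -/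
noncomputable def TM (L : List (ℝ × ℝ)) (f : ℝ → ℝ) (s : ℝ) : ℝ := TK 0 (fun u => u) L f s

/-- all intervals are `0 < a ≤ b` -/
def OkL (L : List (ℝ × ℝ)) : Prop := ∀ I ∈ L, 0 < I.1 ∧ I.1 ≤ I.2

theorem OkL_cons {I : ℝ × ℝ} {L : List (ℝ × ℝ)} : OkL (I :: L) ↔ (0 < I.1 ∧ I.1 ≤ I.2) ∧ OkL L := by
  unfold OkL
  simp

theorem mem_boxL_cons {x : ℕ} {I : ℝ × ℝ} {L : List (ℝ × ℝ)} {l : List ℕ} :
    l ∈ boxL x (I :: L) ↔ ∃ p ∈ PP x I.1 I.2, ∃ l' ∈ boxL x L, l = p :: l' := by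
  simp only [boxL, mem_image, mem_product, Prod.exists]
  constructor
  · rintro ⟨a, b, ⟨h1, h2⟩, h3⟩
    exact ⟨a, h1, b, h2, h3.symm⟩
  · rintro ⟨p, h1, l', h2, h3⟩
    exact ⟨p, l', ⟨h1, h2⟩, h3.symm⟩

theorem mem_boxL {x : ℕ} {L : List (ℝ × ℝ)} {l : List ℕ} :
    l ∈ boxL x L ↔ List.Forall₂ (fun (p : ℕ) (I : ℝ × ℝ) => p ∈ PP x I.1 I.2) l L := by
  induction L generalizing l with
  | nil => simp [boxL]
  | cons I L ih =>
    rw [mem_boxL_cons]
    constructor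
    · rintro ⟨p, hp, l', hl', rfl⟩
      exact List.Forall₂.cons hp (ih.mp hl')
    · intro h
      cases h with
      | cons h1 h2 => exact ⟨_, h1, _, ih.mpr h2, rfl⟩

/-- the sum over a box as an iterated sum -/
theorem sum_boxL_cons (x : ℕ) (I : ℝ × ℝ) (L : List (ℝ × ℝ)) (F : List ℕ → ℝ) :
    ∑ l ∈ boxL x (I :: L), F l = ∑ p ∈ PP x I.1 I.2, ∑ l ∈ boxL x L, F (p :: l) := by
  simp only [boxL]
  rw [sum_image, sum_product]
  rintro ⟨a, b⟩ _ ⟨c, d⟩ _ h
  simp only [List.cons.injEq] at h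
  exact Prod.ext h.1 h.2

theorem sum_boxL_nil (x : ℕ) (F : List ℕ → ℝ) : ∑ l ∈ boxL x [], F l = F [] := by
  simp [boxL]

/-- the sum of `wt * DF` over the box -/
theorem sum_boxL_DF (x : ℕ) (c : ℝ) (h : ℝ → ℝ) (L : List (ℝ × ℝ)) (f : ℝ → ℝ) (s : ℝ) :
    ∑ l ∈ boxL x L, wtL x l * DF c h (l.map (fun p => lg x p)) f s = TKx x c h L f s := by
  induction L generalizing s with
  | nil => simp [boxL, wtL, DF, TKx]
  | cons I L ih =>
    rw [sum_boxL_cons]
    simp only [TKx]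
    refine sum_congr rfl fun p _ => ?_
    rw [← ih s, ← ih (s + lg x p), mul_sum, mul_sum, ← sum_add_distrib, mul_sum]
    refine sum_congr rfl fun l _ => ?_
    simp only [wtL, DF, List.map_cons, List.prod_cons]
    ring

theorem DF_id (us : List ℝ) (f : ℝ → ℝ) (s : ℝ) :
    DF 0 (fun u => u) us f s = us.prod * f (s + us.sum) := by
  induction us generalizing s with
  | nil => simp [DF]
  | cons u us ih =>
    simp only [DF]
    rw [ih (s + u), List.prod_cons, List.sum_cons, zero_mul, zero_add, add_assoc]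
    ring

end Pool.Agent.Lib.MP_092512_nt.P5
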