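import Pool.Agent.Lib.MP_092512_nt.P5.CompL
import Pool.Agent.Lib.MP_092512_nt.P5.B6

/-!
# P5-CompB: completions on a box

`comp_box_lin`: for all small parts of the box, `Comp ≥ x/log x * (1/a) * (1/(1 - 1 * s) - ε)`.
`comp_box_const`: `Comp ≥ x/log x * (1/a) * (w - ε)`, if `w tau ≤ wY κ j (j + 1)` for all cells `j` of the range of `s`.
`comp_one`: the small part `1`.
-/

set_option autoImplicit false

open Finset Filter

namespace Pool.Agent.Lib.MP_092512_nt.P5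

open Pool.Agent.Lib.SW Pool.Agent.Lib.MP_092512_nt.P3

theorem CompB_lg {x : ℕ} (l : List ℕ) (hl : ∀ p ∈ l, p.Prime) : sL x l = lg x l.prod := by
  induction l with
  | nil => simp [sL, lg]
  | cons p l ih =>
    have h1 := hl p List.mem_cons_self
    have h2 : ∀ q ∈ l, q.Prime := fun q hq => hl q (List.mem_cons_of_mem _ hq)
    have h3 : l.prod ≠ 0 := by
      intro h
      exact (h2 0 (List.prod_eq_zero_iff.mp h)).ne_zero rfl
    rw [List.prod_cons, lg_mul h1.ne_zero h3, ← ih h2]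
    simp [sL]

/-- bounds for the product -/
theorem CompB_bd {x : ℕ} (hx : 2 ≤ x) (L : List (ℝ × ℝ)) (l : List ℕ) (hl : l ∈ boxL x L) :
    (x : ℝ) ^ (L.map Prod.fst).sum ≤ l.prod ∧ (l.prod : ℝ) ≤ (x : ℝ) ^ (L.map Prod.snd).sum := by
  have hx0 : (0 : ℝ) < x := by
    have : (2 : ℝ) ≤ x := by exact_mod_cast hx
    linarith
  induction L generalizing l with
  | nil =>
    simp only [boxL, mem_singleton] at hl
    subst hl
    simp
  | cons I L ih =>
    obtain ⟨p, hp, l', hl', rfl⟩ := mem_boxL_cons.mp hl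
    obtain ⟨_, h1, h2⟩ := mem_PP.mp hp
    obtain ⟨h3, h4⟩ := ih l' hl'
    rw [List.map_cons, List.sum_cons, List.map_cons, List.sum_cons, List.prod_cons, Real.rpow_add hx0,
      Real.rpow_add hx0, Nat.cast_mul]
    exact ⟨mul_le_mul h1.le h3 (by positivity) (by positivity), mul_le_mul h2 h4 (by positivity) (by positivity)⟩

private theorem CompB_primes {x : ℕ} (L : List (ℝ × ℝ)) (l : List ℕ) (hl : l ∈ boxL x L) :
    l.length = L.length ∧ ∀ p ∈ l, ∃ I ∈ L, p ∈ PP x I.1 I.2 := by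
  induction L generalizing l with
  | nil =>
    simp only [boxL, mem_singleton] at hl
    subst hl
    simp
  | cons I L ih =>
    obtain ⟨p, hp, l', hl', rfl⟩ := mem_boxL_cons.mp hl
    obtain ⟨h1, h2⟩ := ih l' hl'
    refine ⟨by simp [h1], ?_⟩
    intro q hq
    rcases List.mem_cons.mp hq with rfl | hq
    · exact ⟨I, List.mem_cons_self, hp⟩
    · obtain ⟨I', hI', h3⟩ := h2 q hq
      exact ⟨I', List.mem_cons_of_mem _ hI', h3⟩

theorem CompB_small {x : ℕ} (hx : 2 ≤ x) {δ : ℝ} {J : ℕ} (L : List (ℝ × ℝ))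
    (hL : ∀ I ∈ L, δ ≤ I.1 ∧ I.2 ≤ 60 * et) (hJ : (L.map Prod.snd).sum ≤ (J : ℝ) * tau) (l : List ℕ)
    (hl : l ∈ boxL x L) (hn : l.Nodup) : SmallA x δ L.length J l.prod := by
  have hx1 : (1 : ℝ) ≤ x := by
    have : (2 : ℝ) ≤ x := by exact_mod_cast hx
    linarith
  have hpr := B6_prime hl
  obtain ⟨h1, h2⟩ := CompB_primes L l hl
  have h3 := B5_prod_sqf l hpr hn
  have hpf : l.prod.primeFactors = l.toFinset := by
    ext q
    rw [Nat.mem_primeFactors, List.mem_toFinset]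
    constructor
    · rintro ⟨hq, hd, _⟩
      obtain ⟨r, hr, hqr⟩ := (Nat.Prime.prime hq).dvd_prod_iff.mp hd
      rwa [(Nat.prime_dvd_prime_iff_eq hq (hpr r hr)).mp hqr]
    · intro hq
      refine ⟨hpr q hq, List.dvd_prod hq, ?_⟩
      intro h
      exact (hpr 0 (List.prod_eq_zero_iff.mp h)).ne_zero rfl
  refine ⟨h3.1, ?_, ?_, ?_⟩
  · rw [hpf, List.toFinset_card_of_nodup hn, h1]
  · intro p hp
    rw [hpf, List.mem_toFinset] at hp
    obtain ⟨I, hI, hpI⟩ := h2 p hp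
    obtain ⟨_, h4, h5⟩ := mem_PP.mp hpI
    exact ⟨lt_of_le_of_lt (Real.rpow_le_rpow_of_exponent_le hx1 (hL I hI).1) h4,
      h5.trans (Real.rpow_le_rpow_of_exponent_le hx1 (hL I hI).2)⟩
  · exact (CompB_bd hx L l hl).2.trans (Real.rpow_le_rpow_of_exponent_le hx1 hJ)

theorem comp_box_lin (h0 : ℕ) (ε : ℝ) (hε : 0 < ε) : ∀ᶠ x : ℕ in atTop, ∀ (δ : ℝ) (k : ℕ) (L : List (ℝ × ℝ)),
    L.length ≤ k → (∀ I ∈ L, δ ≤ I.1 ∧ I.2 ≤ 60 * et) → (L.map Prod.snd).sum ≤ 180 * et →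
    ∀ l ∈ boxL x L, l.Nodup →
      x / Real.log x * (1 / (l.prod : ℝ) * (1 / (1 - 1 * sL x l) - ε)) ≤ Comp x h0 δ k l.prod := by
  filter_upwards [comp_lin h0 ε hε, eventually_ge_atTop 2] with x hC hx δ k L hk hL hs l hl hn
  have h1 := CompB_small (J := 720) hx L hL (by
    push_cast
    unfold tau
    linarith) l hl hn
  have h2 := hC δ L.length k l.prod hk h1
  rw [CompB_lg l (B6_prime hl), one_mul, one_div_mul_eq_div]
  exact h2

/-- the cells of the range -/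
theorem comp_box_const (h0 : ℕ) (δ : ℝ) (hδ : δ ≤ 60 * et) (k κ : ℕ) (L : List (ℝ × ℝ)) (hk : L.length + κ ≤ k)
    (hL : ∀ I ∈ L, δ ≤ I.1 ∧ I.2 ≤ 60 * et) (lo hi : ℕ) (hlo : (lo : ℝ) * et ≤ (L.map Prod.fst).sum)
    (hhi : (L.map Prod.snd).sum ≤ hi * et) (hlh : lo < hi) (hh : hi ≤ 180) (w : ℝ)
    (hw : ∀ j ∈ Ico (4 * lo) (4 * hi), w ≤ wY κ j (j + 1) / tau) (ε : ℝ) (hε : 0 < ε) :
    ∀ᶠ x : ℕ in atTop, ∀ l ∈ boxL x L, l.Nodup →
      x / Real.log x * (1 / (l.prod : ℝ) * (w - ε)) ≤ Comp x h0 δ k l.prod := by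
  have h1 : ∀ᶠ x : ℕ in atTop, ∀ j ∈ Ico (4 * lo) (4 * hi), ∀ δ : ℝ, δ ≤ 60 * et → ∀ v k a : ℕ,
      v + κ ≤ k → SmallA x δ v (j + 1) a → (x : ℝ) ^ ((j : ℝ) * tau) ≤ a →
      x / Real.log x * ((wY κ j (j + 1) / tau - ε) / a) ≤ Comp x h0 δ k a := by
    rw [eventually_all_finset]
    intro j hj
    rw [mem_Ico] at hj
    exact comp_cell h0 κ j (j + 1) (by omega) (by omega) ε hε
  filter_upwards [h1, eventually_ge_atTop 2] with x hC hx l hl hn
  have hx1 : (1 : ℝ) < x := by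
    have : (2 : ℝ) ≤ x := by exact_mod_cast hx
    linarith
  have hx0 : (0 : ℝ) < x := by linarith
  have hLo : 0 < Real.log x := Real.log_pos hx1
  have hτ := tau_pos
  have het : et = 4 * tau := by unfold tau; ring
  have het0 : 0 < et := by rw [het]; positivity
  obtain ⟨hb1, hb2⟩ := CompB_bd hx L l hl
  have ha0 : (0 : ℝ) < l.prod := lt_of_lt_of_le (by positivity) hb1
  have hs1 : (lo : ℝ) * et ≤ lg x l.prod := by
    have := le_lg hx hb1
    linarith
  have hs2 : lg x l.prod ≤ hi * et := by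
    have : lg x l.prod ≤ (L.map Prod.snd).sum := by
      unfold lg
      rw [div_le_iff₀ hLo, ← Real.log_rpow hx0]
      exact Real.log_le_log ha0 hb2
    linarith
  -- the cell
  obtain ⟨j, hj, hj1, hj2⟩ : ∃ j ∈ Ico (4 * lo) (4 * hi), (j : ℝ) * tau ≤ lg x l.prod ∧
      lg x l.prod ≤ ((j + 1 : ℕ) : ℝ) * tau := by
    have hq : 0 ≤ lg x l.prod / tau := div_nonneg ((by positivity : (0 : ℝ) ≤ (lo : ℝ) * et).trans hs1) hτ.le
    by_cases htop : (4 * hi - 1 : ℕ) * tau ≤ lg x l.prod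
    · refine ⟨4 * hi - 1, mem_Ico.mpr ⟨by omega, by omega⟩, htop, ?_⟩
      rw [show 4 * hi - 1 + 1 = 4 * hi by omega]
      rw [het] at hs2
      push_cast
      linarith
    · push Not at htop
      refine ⟨⌊lg x l.prod / tau⌋₊, ?_, ?_, ?_⟩
      · rw [mem_Ico]
        constructor
        · apply Nat.le_floor
          rw [le_div_iff₀ hτ]
          push_cast
          rw [het] at hs1
          linarith
        · rw [Nat.floor_lt hq, div_lt_iff₀ hτ]
          refine lt_of_lt_of_le htop ?_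
          apply mul_le_mul_of_nonneg_right _ hτ.le
          exact_mod_cast (by omega : 4 * hi - 1 ≤ 4 * hi)
      · rw [← le_div_iff₀ hτ]
        exact Nat.floor_le hq
      · rw [← div_le_iff₀ hτ]
        push_cast
        exact (Nat.lt_floor_add_one _).le
  have hjr : (x : ℝ) ^ ((j : ℝ) * tau) ≤ l.prod := by
    have h2 : (l.prod : ℝ) = (x : ℝ) ^ (lg x l.prod) := by
      unfold lg
      rw [Real.rpow_def_of_pos hx0, mul_div_cancel₀ _ hLo.ne', Real.exp_log ha0]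
    rw [h2]
    exact Real.rpow_le_rpow_of_exponent_le hx1.le hj1
  have hjr2 : (l.prod : ℝ) ≤ (x : ℝ) ^ (((j + 1 : ℕ) : ℝ) * tau) := by
    have h2 : (l.prod : ℝ) = (x : ℝ) ^ (lg x l.prod) := by
      unfold lg
      rw [Real.rpow_def_of_pos hx0, mul_div_cancel₀ _ hLo.ne', Real.exp_log ha0]
    rw [h2]
    exact Real.rpow_le_rpow_of_exponent_le hx1.le hj2
  have hsm : SmallA x δ L.length (j + 1) l.prod := by
    have h3 : (L.map Prod.snd).sum ≤ ((4 * hi : ℕ) : ℝ) * tau := by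
      rw [het] at hhi
      push_cast
      linarith
    have h4 := CompB_small hx L hL h3 l hl hn
    exact ⟨h4.1, h4.2.1, h4.2.2.1, hjr2⟩
  have h5 := hC j hj δ hδ L.length k l.prod hk hsm hjr
  refine le_trans ?_ h5
  rw [one_div_mul_eq_div]
  apply mul_le_mul_of_nonneg_left _ (by positivity)
  apply div_le_div_of_nonneg_right _ ha0.le
  exact sub_le_sub_right (hw j hj) _

theorem comp_one (h0 : ℕ) (δ : ℝ) (hδ : δ ≤ 60 * et) (k κ : ℕ) (hk : κ ≤ k) (ε : ℝ) (hε : 0 < ε) :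
    ∀ᶠ x : ℕ in atTop, x / Real.log x * (wY κ 0 0 / tau - ε) ≤ Comp x h0 δ k 1 := by
  filter_upwards [comp_cell h0 κ 0 0 le_rfl (by omega) ε hε] with x hC
  have h1 := hC δ hδ 0 k 1 (by omega) (by
    refine ⟨squarefree_one, by simp, by simp, by simp⟩) (by simp)
  simpa using h1

end Pool.Agent.Lib.MP_092512_nt.P5
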