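import Pool.Agent.Lib.MP_092512_nt.P3.DDefs

/-!
# P5-Sets: sets of numbers with one or two prime factors in given boxes (P3.D7_sets with `δ ≤`)
-/

set_option autoImplicit false

open Finset Filter

namespace Pool.Agent.Lib.MP_092512_nt.P5

open Pool.Agent.Lib.SW Pool.Agent.Lib.MP_092512_nt.P3

private theorem Sets_rpow_le {x : ℕ} (hx : 2 ≤ x) {a b : ℝ} (h : a ≤ b) : (x : ℝ) ^ a ≤ (x : ℝ) ^ b := by
  have hx1 : (1 : ℝ) ≤ x := by
    have : (2 : ℝ) ≤ x := by exact_mod_cast hx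
    linarith
  exact Real.rpow_le_rpow_of_exponent_le hx1 h

/-- the pieces are disjoint -/
private theorem Sets_PP_disj {x : ℕ} (hx : 2 ≤ x) {a b c d : ℝ} (h : b ≤ c ∨ d ≤ a) {p : ℕ}
    (h1 : p ∈ PP x a b) (h2 : p ∈ PP x c d) : False := by
  obtain ⟨_, h3, h4⟩ := mem_PP.mp h1
  obtain ⟨_, h5, h6⟩ := mem_PP.mp h2
  rcases h with h | h
  · have := Sets_rpow_le hx h
    linarith
  · have := Sets_rpow_le hx h
    linarith

/-- pairs of primes `p < q` are determined by the product -/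
private theorem Sets_pair_inj {p q p' q' : ℕ} (hp : p.Prime) (hq : q.Prime) (hp' : p'.Prime) (hq' : q'.Prime)
    (h : p < q) (h' : p' < q') (he : p * q = p' * q') : p = p' ∧ q = q' := by
  have h1 : p ∣ p' * q' := ⟨q, he.symm⟩
  rcases (Nat.Prime.dvd_mul hp).mp h1 with h2 | h2
  · have h3 : p = p' := (Nat.prime_dvd_prime_iff_eq hp hp').mp h2
    subst h3
    exact ⟨rfl, Nat.eq_of_mul_eq_mul_left hp.pos he⟩
  · have h3 : p = q' := (Nat.prime_dvd_prime_iff_eq hp hq').mp h2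
    subst h3
    have h4 : q = p' := by
      have : p * q = p * p' := by rw [he, mul_comm]
      exact Nat.eq_of_mul_eq_mul_left hp.pos this
    omega

private theorem Sets_Aset_prime {x p : ℕ} (hx : 2 ≤ x) {δ θ a0 a1 : ℝ} (h1 : δ ≤ a0) (h2 : 2 * a1 ≤ θ)
    (hp : p ∈ PP x a0 a1) : Aset x δ θ p := by
  obtain ⟨hp0, hp1, hp2⟩ := mem_PP.mp hp
  have hx0 : (0 : ℝ) < x := by
    have : (2 : ℝ) ≤ x := by exact_mod_cast hx
    linarith
  refine ⟨hp0.squarefree, ?_, ?_, ?_⟩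
  · rw [hp0.primeFactors, card_singleton]
  · rw [hp0.primeFactors, card_singleton]; norm_num
  · intro r hr
    rw [hp0.primeFactors, mem_singleton] at hr
    subst hr
    refine ⟨lt_of_le_of_lt (Sets_rpow_le hx h1) hp1, ?_⟩
    calc (r : ℝ) * r ≤ (x : ℝ) ^ a1 * (x : ℝ) ^ a1 := by
          apply mul_le_mul hp2 hp2 (by positivity) (by positivity)
      _ = (x : ℝ) ^ (2 * a1) := by
          rw [← Real.rpow_add hx0]; ring_nf
      _ ≤ (x : ℝ) ^ θ := Sets_rpow_le hx h2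

private theorem Sets_Aset_two {x p q : ℕ} (hx : 2 ≤ x) {δ θ b0 b1 c0 c1 : ℝ} (h1 : δ ≤ b0) (h1' : δ ≤ c0)
    (h2 : b1 + 2 * c1 ≤ θ) (hpq : p < q) (hp : p ∈ PP x b0 b1) (hq : q ∈ PP x c0 c1) :
    Aset x δ θ (p * q) := by
  obtain ⟨hp0, hp1, hp2⟩ := mem_PP.mp hp
  obtain ⟨hq0, hq1, hq2⟩ := mem_PP.mp hq
  have hx0 : (0 : ℝ) < x := by
    have : (2 : ℝ) ≤ x := by exact_mod_cast hx
    linarith
  have hne : p ≠ q := hpq.ne
  have hcop : Nat.Coprime p q := (Nat.coprime_primes hp0 hq0).mpr hne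
  have hpf : (p * q).primeFactors = {p, q} := by
    rw [Nat.primeFactors_mul hp0.ne_zero hq0.ne_zero, hp0.primeFactors, hq0.primeFactors]
    rfl
  have hmain : ((p : ℝ) * q) * q ≤ (x : ℝ) ^ θ := by
    calc ((p : ℝ) * q) * q ≤ ((x : ℝ) ^ b1 * (x : ℝ) ^ c1) * (x : ℝ) ^ c1 := by
          apply mul_le_mul (mul_le_mul hp2 hq2 (by positivity) (by positivity)) hq2 (by positivity)
            (by positivity)
      _ = (x : ℝ) ^ (b1 + 2 * c1) := by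
          rw [← Real.rpow_add hx0, ← Real.rpow_add hx0]; ring_nf
      _ ≤ (x : ℝ) ^ θ := Sets_rpow_le hx h2
  refine ⟨(Nat.squarefree_mul hcop).mpr ⟨hp0.squarefree, hq0.squarefree⟩, ?_, ?_, ?_⟩
  · rw [hpf, card_pair hne]; norm_num
  · rw [hpf, card_pair hne]
  · intro r hr
    rw [hpf, mem_insert, mem_singleton] at hr
    push_cast
    rcases hr with rfl | rfl
    · refine ⟨lt_of_le_of_lt (Sets_rpow_le hx h1) hp1, le_trans ?_ hmain⟩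
      have h3 : (r : ℝ) ≤ q := by exact_mod_cast hpq.le
      exact mul_le_mul_of_nonneg_left h3 (by positivity)
    · exact ⟨lt_of_le_of_lt (Sets_rpow_le hx h1') hq1, hmain⟩

/-- in a box `p < q` -/
private theorem Sets_box_lt {x p q : ℕ} (hx : 2 ≤ x) {b0 b1 c0 c1 : ℝ} (h : b1 ≤ c0)
    (hp : p ∈ PP x b0 b1) (hq : q ∈ PP x c0 c1) : p < q := by
  obtain ⟨_, _, hp2⟩ := mem_PP.mp hp
  obtain ⟨_, hq1, _⟩ := mem_PP.mp hq
  have h1 := Sets_rpow_le hx h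
  have h2 : (p : ℝ) < q := by linarith
  exact_mod_cast h2

/-- the set of cofactors used -/
theorem Sets_sets (x : ℕ) (hx : 2 ≤ x) (δ θ : ℝ)
    {ι₁ ι₂ ι₃ : Type} (us : Finset ι₁) (bs : Finset ι₂) (ds : Finset ι₃)
    (a0 a1 : ι₁ → ℝ) (b0 b1 c0 c1 : ι₂ → ℝ) (s0 s1 : ι₃ → ℝ)
    (hus : ∀ i ∈ us, δ ≤ a0 i ∧ a0 i < a1 i ∧ 2 * a1 i ≤ θ)
    (hus' : ∀ i ∈ us, ∀ j ∈ us, i ≠ j → a1 i ≤ a0 j ∨ a1 j ≤ a0 i)
    (hbs : ∀ i ∈ bs, δ ≤ b0 i ∧ b0 i < b1 i ∧ b1 i ≤ c0 i ∧ c0 i < c1 i ∧ b1 i + 2 * c1 i ≤ θ)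
    (hbs' : ∀ i ∈ bs, ∀ j ∈ bs, i ≠ j → b1 i ≤ b0 j ∨ b1 j ≤ b0 i ∨ c1 i ≤ c0 j ∨ c1 j ≤ c0 i)
    (hds : ∀ i ∈ ds, δ ≤ s0 i ∧ s0 i < s1 i ∧ 3 * s1 i ≤ θ)
    (hds' : ∀ i ∈ ds, ∀ j ∈ ds, i ≠ j → s1 i ≤ s0 j ∨ s1 j ≤ s0 i)
    (hbd : ∀ i ∈ bs, ∀ j ∈ ds, b1 i ≤ s0 j ∨ s1 j ≤ b0 i ∨ c1 i ≤ s0 j ∨ s1 j ≤ c0 i) :
    ∃ A : Finset ℕ, (∀ a ∈ A, Aset x δ θ a ∧ (a.primeFactors.card = 1 ∨ bs.Nonempty ∨ ds.Nonempty)) ∧
      ∀ F : ℕ → ℝ,
      ∑ a ∈ A, F a = ∑ i ∈ us, ∑ p ∈ PP x (a0 i) (a1 i), F p +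
        ∑ i ∈ bs, ∑ p ∈ PP x (b0 i) (b1 i), ∑ q ∈ PP x (c0 i) (c1 i), F (p * q) +
        ∑ i ∈ ds, ∑ p ∈ PP x (s0 i) (s1 i), ∑ q ∈ (PP x (s0 i) (s1 i)).filter (fun q => p < q), F (p * q) := by
  classical
  -- the set of primes
  set A1 : Finset ℕ := us.biUnion (fun i => PP x (a0 i) (a1 i)) with hA1
  -- the sets of pairs
  set P2 : ι₂ → Finset (ℕ × ℕ) := fun i => PP x (b0 i) (b1 i) ×ˢ PP x (c0 i) (c1 i) with hP2
  set P3 : ι₃ → Finset (ℕ × ℕ) := fun i =>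
    (PP x (s0 i) (s1 i) ×ˢ PP x (s0 i) (s1 i)).filter (fun w => w.1 < w.2) with hP3
  set Q2 : Finset (ℕ × ℕ) := bs.biUnion P2 with hQ2
  set Q3 : Finset (ℕ × ℕ) := ds.biUnion P3 with hQ3
  have hm2 : ∀ w ∈ Q2, ∃ i ∈ bs, w.1 ∈ PP x (b0 i) (b1 i) ∧ w.2 ∈ PP x (c0 i) (c1 i) := by
    intro w hw
    obtain ⟨i, hi, h⟩ := mem_biUnion.mp hw
    obtain ⟨h1, h2⟩ := mem_product.mp h
    exact ⟨i, hi, h1, h2⟩
  have hm3 : ∀ w ∈ Q3, ∃ i ∈ ds, w.1 ∈ PP x (s0 i) (s1 i) ∧ w.2 ∈ PP x (s0 i) (s1 i) ∧ w.1 < w.2 := by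
    intro w hw
    obtain ⟨i, hi, h⟩ := mem_biUnion.mp hw
    obtain ⟨h1, h2⟩ := mem_filter.mp h
    obtain ⟨h3, h4⟩ := mem_product.mp h1
    exact ⟨i, hi, h3, h4, h2⟩
  have hlt : ∀ w ∈ Q2 ∪ Q3, w.1.Prime ∧ w.2.Prime ∧ w.1 < w.2 := by
    intro w hw
    rcases mem_union.mp hw with h | h
    · obtain ⟨i, hi, h1, h2⟩ := hm2 w h
      exact ⟨(mem_PP.mp h1).1, (mem_PP.mp h2).1, Sets_box_lt hx (hbs i hi).2.2.1 h1 h2⟩
    · obtain ⟨i, hi, h1, h2, h3⟩ := hm3 w h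
      exact ⟨(mem_PP.mp h1).1, (mem_PP.mp h2).1, h3⟩
  have hinj : Set.InjOn (fun w : ℕ × ℕ => w.1 * w.2) ((Q2 ∪ Q3 : Finset (ℕ × ℕ)) : Set (ℕ × ℕ)) := by
    intro w hw w' hw' he
    obtain ⟨h1, h2, h3⟩ := hlt w (mem_coe.mp hw)
    obtain ⟨h1', h2', h3'⟩ := hlt w' (mem_coe.mp hw')
    obtain ⟨e1, e2⟩ := Sets_pair_inj h1 h2 h1' h2' h3 h3' he
    exact Prod.ext e1 e2
  have hd23 : Disjoint Q2 Q3 := by
    rw [Finset.disjoint_left]
    intro w h2 h3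
    obtain ⟨i, hi, h4, h5⟩ := hm2 w h2
    obtain ⟨j, hj, h6, h7, _⟩ := hm3 w h3
    rcases hbd i hi j hj with h | h | h | h
    · exact Sets_PP_disj hx (Or.inl h) h4 h6
    · exact Sets_PP_disj hx (Or.inr h) h4 h6
    · exact Sets_PP_disj hx (Or.inl h) h5 h7
    · exact Sets_PP_disj hx (Or.inr h) h5 h7
  set A2 : Finset ℕ := (Q2 ∪ Q3).image (fun w => w.1 * w.2) with hA2
  have hA1p : ∀ a ∈ A1, a.Prime := by
    intro a ha
    obtain ⟨i, hi, h⟩ := mem_biUnion.mp ha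
    exact (mem_PP.mp h).1
  have hd12 : Disjoint A1 A2 := by
    rw [Finset.disjoint_left]
    intro a h1 h2
    obtain ⟨w, hw, rfl⟩ := mem_image.mp h2
    obtain ⟨h3, h4, _⟩ := hlt w hw
    exact Nat.not_prime_mul h3.ne_one h4.ne_one (hA1p _ h1)
  refine ⟨A1 ∪ A2, ?_, ?_⟩
  · intro a ha
    rcases mem_union.mp ha with h | h
    · obtain ⟨i, hi, h1⟩ := mem_biUnion.mp h
      obtain ⟨h2, h3, h4⟩ := hus i hi
      exact ⟨Sets_Aset_prime hx h2 h4 h1, Or.inl (by rw [(mem_PP.mp h1).1.primeFactors, card_singleton])⟩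
    · obtain ⟨w, hw, rfl⟩ := mem_image.mp h
      obtain ⟨_, _, h3⟩ := hlt w hw
      rcases mem_union.mp hw with h | h
      · obtain ⟨i, hi, h4, h5⟩ := hm2 w h
        obtain ⟨g1, g2, g3, g4, g5⟩ := hbs i hi
        exact ⟨Sets_Aset_two hx g1 (by linarith) g5 h3 h4 h5, Or.inr (Or.inl ⟨i, hi⟩)⟩
      · obtain ⟨i, hi, h4, h5, _⟩ := hm3 w h
        obtain ⟨g1, g2, g3⟩ := hds i hi
        exact ⟨Sets_Aset_two hx g1 g1 (by linarith) h3 h4 h5, Or.inr (Or.inr ⟨i, hi⟩)⟩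
  · intro F
    rw [Finset.sum_union hd12, hA2, Finset.sum_image hinj, Finset.sum_union hd23, hA1]
    rw [Finset.sum_biUnion, hQ2, Finset.sum_biUnion, hQ3, Finset.sum_biUnion, add_assoc]
    · congr 1
      congr 1
      · refine Finset.sum_congr rfl fun i _ => ?_
        rw [hP2, Finset.sum_product]
      · refine Finset.sum_congr rfl fun i _ => ?_
        simp only [hP3]
        rw [Finset.sum_filter, Finset.sum_product]
        refine Finset.sum_congr rfl fun p _ => ?_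
        rw [Finset.sum_filter]
    · intro i hi j hj hij
      rw [Function.onFun, Finset.disjoint_left]
      intro w h1 h2
      simp only [hP3, mem_filter, mem_product] at h1 h2
      exact Sets_PP_disj hx (hds' i (mem_coe.mp hi) j (mem_coe.mp hj) hij) h1.1.1 h2.1.1
    · intro i hi j hj hij
      rw [Function.onFun, Finset.disjoint_left]
      intro w h1 h2
      simp only [hP2, mem_product] at h1 h2
      rcases hbs' i (mem_coe.mp hi) j (mem_coe.mp hj) hij with h | h | h | h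
      · exact Sets_PP_disj hx (Or.inl h) h1.1 h2.1
      · exact Sets_PP_disj hx (Or.inr h) h1.1 h2.1
      · exact Sets_PP_disj hx (Or.inl h) h1.2 h2.2
      · exact Sets_PP_disj hx (Or.inr h) h1.2 h2.2
    · intro i hi j hj hij
      rw [Function.onFun, Finset.disjoint_left]
      intro w h1 h2
      exact Sets_PP_disj hx (hus' i (mem_coe.mp hi) j (mem_coe.mp hj) hij) h1 h2

end Pool.Agent.Lib.MP_092512_nt.P5
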