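import Pool.Agent.Lib.MP_092512_nt.P5.CompP
import Pool.Agent.Lib.MP_092512_nt.P5.Sets

/-!
# P5-CompL: completions on a cell

`tau = et / 4`.  `wY κ j J`: lower bound (times `tau`) for the sum over `Q` with at most `κ` large primes, for
`x^(j tau) ≤ a ≤ x^(J tau)`.
-/

set_option autoImplicit false

open Finset Filter

namespace Pool.Agent.Lib.MP_092512_nt.P5

open Pool.Agent.Lib.SW Pool.Agent.Lib.MP_092512_nt.P3

noncomputable def tau : ℝ := et / 4

/-- cells `(c, c + 1]` of one large prime -/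
def cOne (J : ℕ) : Finset ℕ := (range 480).filter (fun c => 240 ≤ c ∧ J + 2 * (c + 1) ≤ 960)

/-- cells `(240 + 3 i, 243 + 3 i]` of two different large primes -/
def cPairs (J : ℕ) : Finset (ℕ × ℕ) := ((range 80) ×ˢ (range 80)).filter
  (fun i => i.1 < i.2 ∧ J + (243 + 3 * i.1) + 2 * (243 + 3 * i.2) ≤ 960)

/-- diagonal cells -/
def cDiag (J : ℕ) : Finset ℕ := (range 80).filter (fun i => J + 3 * (243 + 3 * i) ≤ 960)

noncomputable def wY (κ j J : ℕ) : ℝ :=
  1 / (4802 / 5 - j) +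
    (if 1 ≤ κ then ∑ c ∈ cOne J, 1 / (((c : ℝ) + 1) * (4802 / 5 - j - (c + 1))) else 0) +
    (if 2 ≤ κ then ∑ i ∈ cPairs J,
      9 / ((243 + 3 * (i.1 : ℝ)) * (243 + 3 * i.2) * (4802 / 5 - j - (243 + 3 * i.1) - (243 + 3 * i.2))) else 0) +
    (if 2 ≤ κ then ∑ i ∈ cDiag J,
      9 / (2 * (243 + 3 * (i : ℝ)) ^ 2 * (4802 / 5 - j - 2 * (243 + 3 * i))) else 0)

theorem tau_pos : 0 < tau := by unfold tau et; norm_num

theorem tau_val : tau = 5 / 4802 := by unfold tau et; norm_num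

private theorem CompL_rpow {x : ℕ} (hx : 2 ≤ x) {a b : ℝ} (h : a ≤ b) : (x : ℝ) ^ a ≤ (x : ℝ) ^ b := by
  have hx1 : (1 : ℝ) ≤ x := by
    have : (2 : ℝ) ≤ x := by exact_mod_cast hx
    linarith
  exact Real.rpow_le_rpow_of_exponent_le hx1 h

private theorem CompL_TS_nonneg (x h0 a : ℕ) : 0 ≤ TS x h0 a := by
  unfold TS
  exact sum_nonneg fun b _ => Real.log_natCast_nonneg b

/-- the hypothesis on the small part -/
def SmallA (x : ℕ) (δ : ℝ) (v J a : ℕ) : Prop :=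
  Squarefree a ∧ a.primeFactors.card = v ∧ (∀ p ∈ a.primeFactors, (x : ℝ) ^ δ < p ∧ (p : ℝ) ≤ (x : ℝ) ^ (60 * et)) ∧
    (a : ℝ) ≤ (x : ℝ) ^ ((J : ℝ) * tau)

theorem SmallA_one {x : ℕ} {δ : ℝ} {k v J a : ℕ} (hx : 2 ≤ x) (hJ : J ≤ 720) (hv : v ≤ k)
    (ha : SmallA x δ v J a) : 1 ∈ QF x δ k a := by
  obtain ⟨h1, h2, h3, h4⟩ := ha
  have hx0 : (0 : ℝ) < x := by
    have : (2 : ℝ) ≤ x := by exact_mod_cast hx
    linarith
  have hJ' : (J : ℝ) ≤ 720 := by exact_mod_cast hJ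
  rw [mem_QF]
  refine ⟨⟨le_rfl, by omega⟩, by simp, ?_⟩
  rw [mul_one]
  by_cases ha1 : a = 1
  · exact Or.inl ha1
  · right
    have hcard : 1 ≤ a.primeFactors.card := by
      rw [Nat.one_le_iff_ne_zero, Ne, card_eq_zero, Nat.primeFactors_eq_empty]
      push Not
      exact ⟨h1.ne_zero, ha1⟩
    refine ⟨h1, hcard, by omega, h4.trans (CompL_rpow hx ?_), fun p hp => ⟨(h3 p hp).1, ?_⟩⟩
    · unfold th
      rw [tau_val]
      linarith
    · calc (a : ℝ) * p ≤ (x : ℝ) ^ ((J : ℝ) * tau) * (x : ℝ) ^ (60 * et) :=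
          mul_le_mul h4 (h3 p hp).2 (by positivity) (by positivity)
        _ = (x : ℝ) ^ ((J : ℝ) * tau + 60 * et) := (Real.rpow_add hx0 _ _).symm
        _ ≤ (x : ℝ) ^ th := by
          apply CompL_rpow hx
          unfold th et
          rw [tau_val]
          linarith

theorem SmallA_mem {x : ℕ} {δ : ℝ} {k v J a Q : ℕ} (hx : 2 ≤ x) (hδ : δ ≤ 60 * et) (hJ : J ≤ 720)
    (ha : SmallA x δ v J a) (hQ : Aset x (240 * tau) ((960 - J) * tau) Q)
    (hv : v + Q.primeFactors.card ≤ k) : Q ∈ QF x δ k a := by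
  obtain ⟨h1, h2, h3, h4⟩ := ha
  obtain ⟨q1, q2, q3, q4⟩ := hQ
  have hx1 : (1 : ℝ) < x := by
    have : (2 : ℝ) ≤ x := by exact_mod_cast hx
    linarith
  have hx0 : (0 : ℝ) < x := by linarith
  have hJ' : (J : ℝ) ≤ 720 := by exact_mod_cast hJ
  have ht : 240 * tau = 60 * et := by unfold tau; ring
  rw [ht] at q4
  obtain ⟨q, hq⟩ := card_pos.mp (by omega : 0 < Q.primeFactors.card)
  have hqp := Nat.prime_of_mem_primeFactors hq
  have hq0 : (0 : ℝ) < q := by exact_mod_cast hqp.pos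
  have hQ0 : (0 : ℝ) < Q := by exact_mod_cast Nat.pos_of_ne_zero q1.ne_zero
  have ha0 : (0 : ℝ) < a := by exact_mod_cast Nat.pos_of_ne_zero h1.ne_zero
  -- size of Q
  have hQ1 : (Q : ℝ) ≤ (x : ℝ) ^ ((720 - J) * tau) := by
    have e1 : (Q : ℝ) * (x : ℝ) ^ (60 * et) ≤ (x : ℝ) ^ ((960 - J) * tau) :=
      le_trans (mul_le_mul_of_nonneg_left (q4 q hq).1.le hQ0.le) (q4 q hq).2
    have e2 : (x : ℝ) ^ ((960 - J) * tau) = (x : ℝ) ^ ((720 - J) * tau) * (x : ℝ) ^ (60 * et) := by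
      rw [← Real.rpow_add hx0]
      congr 1
      rw [← ht]
      ring
    rw [e2] at e1
    exact le_of_mul_le_mul_right e1 (by positivity)
  have haQ : ((a * Q : ℕ) : ℝ) ≤ (x : ℝ) ^ (720 * tau) := by
    rw [Nat.cast_mul]
    calc (a : ℝ) * Q ≤ (x : ℝ) ^ ((J : ℝ) * tau) * (x : ℝ) ^ ((720 - J) * tau) :=
          mul_le_mul h4 hQ1 hQ0.le (by positivity)
      _ = (x : ℝ) ^ (720 * tau) := by
          rw [← Real.rpow_add hx0]
          congr 1
          ring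
  have hcop : Nat.Coprime a Q := by
    by_contra hn
    obtain ⟨p, hp, hpa, hpQ⟩ := Nat.Prime.not_coprime_iff_dvd.mp hn
    have e1 := (h3 p (Nat.mem_primeFactors.mpr ⟨hp, hpa, h1.ne_zero⟩)).2
    have e2 := (q4 p (Nat.mem_primeFactors.mpr ⟨hp, hpQ, q1.ne_zero⟩)).1
    linarith
  have hpf : (a * Q).primeFactors = a.primeFactors ∪ Q.primeFactors :=
    Nat.primeFactors_mul h1.ne_zero q1.ne_zero
  have hcard : (a * Q).primeFactors.card = v + Q.primeFactors.card := by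
    rw [hpf, card_union_of_disjoint hcop.disjoint_primeFactors, h2]
  have hmain : ∀ r : ℕ, (r : ℝ) ≤ q → ((a * Q : ℕ) : ℝ) * r ≤ (x : ℝ) ^ th := by
    intro r hr
    rw [Nat.cast_mul]
    calc (a : ℝ) * Q * r ≤ (a : ℝ) * Q * q := mul_le_mul_of_nonneg_left hr (by positivity)
      _ = (a : ℝ) * ((Q : ℝ) * q) := by ring
      _ ≤ (x : ℝ) ^ ((J : ℝ) * tau) * (x : ℝ) ^ ((960 - J) * tau) :=
          mul_le_mul h4 (q4 q hq).2 (by positivity) (by positivity)
      _ = (x : ℝ) ^ th := by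
          rw [← Real.rpow_add hx0]
          congr 1
          unfold th
          rw [tau_val]
          ring
  have hmain' : ∀ r ∈ Q.primeFactors, ((a * Q : ℕ) : ℝ) * r ≤ (x : ℝ) ^ th := by
    intro r hr
    rw [Nat.cast_mul]
    calc (a : ℝ) * Q * r = (a : ℝ) * ((Q : ℝ) * r) := by ring
      _ ≤ (x : ℝ) ^ ((J : ℝ) * tau) * (x : ℝ) ^ ((960 - J) * tau) :=
          mul_le_mul h4 (q4 r hr).2 (by positivity) (by positivity)
      _ = (x : ℝ) ^ th := by
          rw [← Real.rpow_add hx0]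
          congr 1
          unfold th
          rw [tau_val]
          ring
  rw [mem_QF]
  refine ⟨⟨Nat.pos_of_ne_zero q1.ne_zero, ?_⟩, fun p hp => (q4 p hp).1, Or.inr ⟨?_, ?_, ?_, ?_, ?_⟩⟩
  · have e1 : (Q : ℝ) ≤ (x : ℝ) ^ (1 : ℝ) := hQ1.trans (CompL_rpow hx (by
      rw [tau_val]
      have : (0 : ℝ) ≤ J := Nat.cast_nonneg J
      linarith))
    rw [Real.rpow_one] at e1
    exact_mod_cast e1
  · exact (Nat.squarefree_mul hcop).mpr ⟨h1, q1⟩
  · rw [hcard]
    omega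
  · rw [hcard]
    exact hv
  · refine haQ.trans (CompL_rpow hx ?_)
    unfold th
    rw [tau_val]
    norm_num
  · intro p hp
    rw [hpf, mem_union] at hp
    rcases hp with hp | hp
    · refine ⟨(h3 p hp).1, hmain p ?_⟩
      exact (h3 p hp).2.trans (q4 q hq).1.le
    · exact ⟨lt_of_le_of_lt (CompL_rpow hx hδ) (q4 p hp).1, hmain' p hp⟩

/-- the terms are nonnegative -/
private theorem CompL_nonneg {x h0 : ℕ} {δ : ℝ} {k a : ℕ} (hx : 2 ≤ x) {Q : ℕ} (hQ : Q ∈ QF x δ k a) :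
    0 ≤ TS x h0 (a * Q) / Real.log (3 * x / ((a * Q : ℕ) : ℝ)) := by
  have hx1 : (1 : ℝ) < x := by
    have : (2 : ℝ) ≤ x := by exact_mod_cast hx
    linarith
  have hx0 : (0 : ℝ) < x := by linarith
  apply div_nonneg (CompL_TS_nonneg _ _ _)
  have h1 : ((a * Q : ℕ) : ℝ) ≤ x := by
    rcases (mem_QF.mp hQ).2.2 with h | h
    · rw [h, Nat.cast_one]
      linarith
    · refine h.2.2.2.1.trans ?_
      calc (x : ℝ) ^ (3 * th / 4) ≤ (x : ℝ) ^ (1 : ℝ) := CompL_rpow hx (by unfold th; norm_num)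
        _ = x := Real.rpow_one _
  by_cases h0 : ((a * Q : ℕ) : ℝ) = 0
  · rw [h0, div_zero, Real.log_zero]
  · have h2 : (0 : ℝ) < ((a * Q : ℕ) : ℝ) := lt_of_le_of_ne (Nat.cast_nonneg _) (Ne.symm h0)
    apply Real.log_nonneg
    rw [le_div_iff₀ h2]
    linarith

theorem Comp_ge {x h0 : ℕ} {δ : ℝ} {k a : ℕ} (hx : 2 ≤ x) (S : Finset ℕ) (hS : S ⊆ QF x δ k a) :
    ∑ Q ∈ S, TS x h0 (a * Q) / Real.log (3 * x / ((a * Q : ℕ) : ℝ)) ≤ Comp x h0 δ k a := by
  unfold Comp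
  exact sum_le_sum_of_subset_of_nonneg hS fun Q hQ _ => CompL_nonneg hx hQ

theorem CompL_Comp_nonneg {x h0 : ℕ} {δ : ℝ} {k a : ℕ} (hx : 2 ≤ x) : 0 ≤ Comp x h0 δ k a := by
  unfold Comp
  exact sum_nonneg fun Q hQ => CompL_nonneg hx hQ

/-- only `Q = 1` -/
theorem comp_lin (h0 : ℕ) (ε : ℝ) (hε : 0 < ε) : ∀ᶠ x : ℕ in atTop, ∀ δ : ℝ, ∀ v k a : ℕ, v ≤ k →
    SmallA x δ v 720 a →
    x / Real.log x * ((1 / (1 - lg x a) - ε) / a) ≤ Comp x h0 δ k a := by
  filter_upwards [Comp_point h0 (1 - 720 * tau) (by rw [tau_val]; norm_num) ε hε, eventually_ge_atTop 2]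
    with x hP hx δ v k a hv ha
  have h1 := SmallA_one hx (le_refl 720) hv ha
  have h2 := Comp_ge (h0 := h0) hx {1} (singleton_subset_iff.mpr h1)
  rw [sum_singleton, mul_one] at h2
  refine le_trans (hP a (Nat.pos_of_ne_zero ha.1.ne_zero) ?_) h2
  have := ha.2.2.2
  push_cast at this
  refine this.trans (le_of_eq ?_)
  congr 1
  ring

private theorem CompL_tau_le {a b : ℕ} (h : a ≤ b) : (a : ℝ) * tau ≤ b * tau :=
  mul_le_mul_of_nonneg_right (by exact_mod_cast h) tau_pos.le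

private theorem CompL_tau_lt {a b : ℕ} (h : a < b) : (a : ℝ) * tau < b * tau :=
  mul_lt_mul_of_pos_right (by exact_mod_cast h) tau_pos

/-- the set of all completions -/
private theorem CompL_set (x : ℕ) (hx : 2 ≤ x) (κ J : ℕ) (hJ : J ≤ 720) :
    ∃ A : Finset ℕ, (∀ a ∈ A, Aset x (240 * tau) ((960 - J) * tau) a ∧ a.primeFactors.card ≤ κ) ∧
      ∀ F : ℕ → ℝ, ∑ a ∈ A, F a =
        ∑ c ∈ (if 1 ≤ κ then cOne J else ∅), ∑ p ∈ PP x ((c : ℕ) * tau) (((c + 1 : ℕ) : ℝ) * tau), F p +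
        ∑ i ∈ (if 2 ≤ κ then cPairs J else ∅),
          ∑ p ∈ PP x (((240 + 3 * i.1 : ℕ) : ℝ) * tau) (((243 + 3 * i.1 : ℕ) : ℝ) * tau),
          ∑ q ∈ PP x (((240 + 3 * i.2 : ℕ) : ℝ) * tau) (((243 + 3 * i.2 : ℕ) : ℝ) * tau), F (p * q) +
        ∑ i ∈ (if 2 ≤ κ then cDiag J else ∅),
          ∑ p ∈ PP x (((240 + 3 * i : ℕ) : ℝ) * tau) (((243 + 3 * i : ℕ) : ℝ) * tau),
          ∑ q ∈ (PP x (((240 + 3 * i : ℕ) : ℝ) * tau) (((243 + 3 * i : ℕ) : ℝ) * tau)).filter (fun q => p < q),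
            F (p * q) := by
  have h240 : (240 : ℝ) * tau = ((240 : ℕ) : ℝ) * tau := by norm_num
  have hth : ((960 : ℝ) - J) * tau = ((960 - J : ℕ) : ℝ) * tau := by
    rw [Nat.cast_sub (by omega)]
    norm_num
  rw [h240, hth]
  obtain ⟨A, hA, hF⟩ := Sets_sets x hx (((240 : ℕ) : ℝ) * tau) (((960 - J : ℕ) : ℝ) * tau)
    (if 1 ≤ κ then cOne J else ∅) (if 2 ≤ κ then cPairs J else ∅) (if 2 ≤ κ then cDiag J else ∅)
    (fun c => (c : ℝ) * tau) (fun c => ((c + 1 : ℕ) : ℝ) * tau)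
    (fun i => ((240 + 3 * i.1 : ℕ) : ℝ) * tau) (fun i => ((243 + 3 * i.1 : ℕ) : ℝ) * tau)
    (fun i => ((240 + 3 * i.2 : ℕ) : ℝ) * tau) (fun i => ((243 + 3 * i.2 : ℕ) : ℝ) * tau)
    (fun i => ((240 + 3 * i : ℕ) : ℝ) * tau) (fun i => ((243 + 3 * i : ℕ) : ℝ) * tau)
    (by
      intro c hc
      split_ifs at hc
      · unfold cOne at hc
        rw [mem_filter, mem_range] at hc
        refine ⟨CompL_tau_le hc.2.1, CompL_tau_lt (by omega), ?_⟩
        have := CompL_tau_le (show 2 * (c + 1) ≤ 960 - J by omega)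
        push_cast at this ⊢
        linarith
      · simp at hc)
    (by
      intro i _ j _ hij
      rcases lt_or_gt_of_ne hij with h | h
      · exact Or.inl (CompL_tau_le (by omega))
      · exact Or.inr (CompL_tau_le (by omega)))
    (by
      intro i hi
      split_ifs at hi
      · unfold cPairs at hi
        rw [mem_filter] at hi
        refine ⟨CompL_tau_le (by omega), CompL_tau_lt (by omega), CompL_tau_le (by omega),
          CompL_tau_lt (by omega), ?_⟩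
        have := CompL_tau_le (show (243 + 3 * i.1) + 2 * (243 + 3 * i.2) ≤ 960 - J by omega)
        push_cast at this ⊢
        linarith
      · simp at hi)
    (by
      intro i _ j _ hij
      have hne : i.1 ≠ j.1 ∨ i.2 ≠ j.2 := by
        by_contra h
        push Not at h
        exact hij (Prod.ext h.1 h.2)
      rcases hne with h | h
      · rcases lt_or_gt_of_ne h with h | h
        · exact Or.inl (CompL_tau_le (by omega))
        · exact Or.inr (Or.inl (CompL_tau_le (by omega)))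
      · rcases lt_or_gt_of_ne h with h | h
        · exact Or.inr (Or.inr (Or.inl (CompL_tau_le (by omega))))
        · exact Or.inr (Or.inr (Or.inr (CompL_tau_le (by omega)))))
    (by
      intro i hi
      split_ifs at hi
      · unfold cDiag at hi
        rw [mem_filter] at hi
        refine ⟨CompL_tau_le (by omega), CompL_tau_lt (by omega), ?_⟩
        have := CompL_tau_le (show 3 * (243 + 3 * i) ≤ 960 - J by omega)
        push_cast at this ⊢
        linarith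
      · simp at hi)
    (by
      intro i _ j _ hij
      rcases lt_or_gt_of_ne hij with h | h
      · exact Or.inl (CompL_tau_le (by omega))
      · exact Or.inr (CompL_tau_le (by omega)))
    (by
      intro i hi j _
      split_ifs at hi
      · unfold cPairs at hi
        rw [mem_filter] at hi
        rcases lt_trichotomy i.1 j with h | h | h
        · exact Or.inl (CompL_tau_le (by omega))
        · exact Or.inr (Or.inr (Or.inr (CompL_tau_le (by omega))))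
        · exact Or.inr (Or.inl (CompL_tau_le (by omega)))
      · simp at hi)
  refine ⟨A, ?_, hF⟩
  intro a ha
  refine ⟨(hA a ha).1, ?_⟩
  by_cases hκ2 : 2 ≤ κ
  · exact (hA a ha).1.2.2.1.trans hκ2
  · rcases (hA a ha).2 with h | h | h
    · by_cases hκ1 : 1 ≤ κ
      · omega
      · exfalso
        have h1 := hF (fun _ => 1)
        simp only [hκ1, hκ2, if_false, sum_empty, add_zero, sum_const, nsmul_eq_mul, mul_one] at h1
        rw [Nat.cast_eq_zero, card_eq_zero] at h1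
        rw [h1] at ha
        simp at ha
    · simp [hκ2] at h
    · simp [hκ2] at h

theorem comp_cell (h0 κ j J : ℕ) (hjJ : j ≤ J) (hJ : J ≤ 720) (ε : ℝ) (hε : 0 < ε) :
    ∀ᶠ x : ℕ in atTop, ∀ δ : ℝ, δ ≤ 60 * et → ∀ v k a : ℕ, v + κ ≤ k → SmallA x δ v J a →
      (x : ℝ) ^ ((j : ℝ) * tau) ≤ a →
      x / Real.log x * ((wY κ j J / tau - ε) / a) ≤ Comp x h0 δ k a := by
  classical
  obtain ⟨U, hU⟩ : ∃ U : Finset ℕ, U = if 1 ≤ κ then cOne J else ∅ := ⟨_, rfl⟩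
  obtain ⟨V, hV⟩ : ∃ V : Finset (ℕ × ℕ), V = if 2 ≤ κ then cPairs J else ∅ := ⟨_, rfl⟩
  obtain ⟨W, hW⟩ : ∃ W : Finset ℕ, W = if 2 ≤ κ then cDiag J else ∅ := ⟨_, rfl⟩
  obtain ⟨N, hN⟩ : ∃ N : ℝ, N = 1 + U.card + V.card + W.card := ⟨_, rfl⟩
  have hN0 : 0 < N := by rw [hN]; positivity
  have hτ := tau_pos
  have hτv := tau_val
  have hJr : (J : ℝ) ≤ 720 := by exact_mod_cast hJ
  have hjr : (j : ℝ) ≤ J := by exact_mod_cast hjJ
  have hj0 : (0 : ℝ) ≤ j := Nat.cast_nonneg j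
  have hσ : (j : ℝ) * tau ≤ J * tau := CompL_tau_le hjJ
  obtain ⟨ε1, hε1⟩ : ∃ ε1 : ℝ, ε1 = ε / N := ⟨_, rfl⟩
  have hε10 : 0 < ε1 := by rw [hε1]; positivity
  have hP := Comp_point h0 (1 - 720 * tau) (by rw [tau_val]; norm_num) ε1 hε10
  -- one large prime
  have hC1 : ∀ᶠ x : ℕ in atTop, ∀ c ∈ U, ∀ a : ℕ, 1 ≤ a →
      (x : ℝ) ^ ((j : ℝ) * tau) ≤ a → (a : ℝ) ≤ (x : ℝ) ^ ((J : ℝ) * tau) →
      x / Real.log x * ((1 / (((c : ℝ) + 1) * (4802 / 5 - j - (c + 1))) / tau - ε1) / a) ≤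
        ∑ q ∈ PP x ((c : ℕ) * tau) (((c + 1 : ℕ) : ℝ) * tau),
          TS x h0 (a * q) / Real.log (3 * x / ((a * q : ℕ) : ℝ)) := by
    rw [eventually_all_finset]
    intro c hc
    have hc' : 240 ≤ c ∧ J + 2 * (c + 1) ≤ 960 := by
      rw [hU] at hc
      split_ifs at hc
      · unfold cOne at hc
        exact (mem_filter.mp hc).2
      · simp at hc
    have hcr : (240 : ℝ) ≤ c := by exact_mod_cast hc'.1
    have hcr2 : (J : ℝ) + 2 * (c + 1) ≤ 960 := by exact_mod_cast hc'.2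
    have h1 := Comp_cell h0 ((j : ℝ) * tau) ((J : ℝ) * tau) ((c : ℝ) * tau) (((c + 1 : ℕ) : ℝ) * tau) hσ
      (by positivity) (CompL_tau_lt (by omega)) (by
        push_cast
        rw [hτv]
        linarith) ε1 hε10
    filter_upwards [h1] with x hx a ha hax hax'
    refine le_trans (le_of_eq ?_) (hx a ha hax hax')
    congr 3
    push_cast
    have e1 : (1 : ℝ) - j * tau - (c + 1) * tau = (4802 / 5 - j - (c + 1)) * tau := by
      rw [hτv]
      ring
    have e2 : (4802 / 5 - (j : ℝ) - (c + 1)) ≠ 0 := by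
      have : 0 < 4802 / 5 - (j : ℝ) - (c + 1) := by linarith
      exact this.ne'
    have e3 : ((c : ℝ) + 1) ≠ 0 := by positivity
    rw [e1]
    field_simp
    ring
  -- pairs
  have hC2 : ∀ᶠ x : ℕ in atTop, ∀ i ∈ V, ∀ a : ℕ, 1 ≤ a →
      (x : ℝ) ^ ((j : ℝ) * tau) ≤ a → (a : ℝ) ≤ (x : ℝ) ^ ((J : ℝ) * tau) →
      x / Real.log x * ((9 / ((243 + 3 * (i.1 : ℝ)) * (243 + 3 * i.2) *
        (4802 / 5 - j - (243 + 3 * i.1) - (243 + 3 * i.2))) / tau - ε1) / a) ≤
        ∑ p ∈ PP x (((240 + 3 * i.1 : ℕ) : ℝ) * tau) (((243 + 3 * i.1 : ℕ) : ℝ) * tau),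
          ∑ q ∈ PP x (((240 + 3 * i.2 : ℕ) : ℝ) * tau) (((243 + 3 * i.2 : ℕ) : ℝ) * tau),
          TS x h0 (a * (p * q)) / Real.log (3 * x / ((a * (p * q) : ℕ) : ℝ)) := by
    rw [eventually_all_finset]
    intro i hi
    have hi' : i.1 < i.2 ∧ J + (243 + 3 * i.1) + 2 * (243 + 3 * i.2) ≤ 960 := by
      rw [hV] at hi
      split_ifs at hi
      · unfold cPairs at hi
        rw [mem_filter] at hi
        exact hi.2
      · simp at hi
    have hir : (J : ℝ) + (243 + 3 * i.1) + 2 * (243 + 3 * i.2) ≤ 960 := by exact_mod_cast hi'.2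
    have hir1 : (i.1 : ℝ) ≤ i.2 := by exact_mod_cast hi'.1.le
    have hi10 : (0 : ℝ) ≤ i.1 := Nat.cast_nonneg _
    have hlim := (D0_mertens (((240 + 3 * i.1 : ℕ) : ℝ) * tau) (((243 + 3 * i.1 : ℕ) : ℝ) * tau)
      (by positivity) (CompL_tau_le (by omega))).mul
      (D0_mertens (((240 + 3 * i.2 : ℕ) : ℝ) * tau) (((243 + 3 * i.2 : ℕ) : ℝ) * tau)
      (by positivity) (CompL_tau_le (by omega)))
    have h1 := Comp_two h0 ((j : ℝ) * tau) ((J : ℝ) * tau)
      (((240 + 3 * i.1 : ℕ) : ℝ) * tau) (((243 + 3 * i.1 : ℕ) : ℝ) * tau)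
      (((240 + 3 * i.2 : ℕ) : ℝ) * tau) (((243 + 3 * i.2 : ℕ) : ℝ) * tau) _ hσ
      (by positivity) (CompL_tau_lt (by omega)) (by positivity) (CompL_tau_lt (by omega))
      (CompL_tau_le (by omega)) (by
        push_cast
        rw [hτv]
        linarith)
      (fun x _ => PP x (((240 + 3 * i.2 : ℕ) : ℝ) * tau) (((243 + 3 * i.2 : ℕ) : ℝ) * tau))
      (fun x _ => Subset.rfl) (by
        refine hlim.congr fun x => ?_
        rw [sum_mul_sum]) ε1 hε10
    filter_upwards [h1] with x hx a ha hax hax'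
    refine le_trans (le_of_eq ?_) (hx a ha hax hax')
    congr 3
    push_cast
    have e1 : (1 : ℝ) - j * tau - (243 + 3 * i.1) * tau - (243 + 3 * i.2) * tau =
        (4802 / 5 - j - (243 + 3 * i.1) - (243 + 3 * i.2)) * tau := by
      rw [hτv]
      ring
    have e2 : (4802 / 5 - (j : ℝ) - (243 + 3 * i.1) - (243 + 3 * i.2)) ≠ 0 := by
      have : 0 < (4802 / 5 - (j : ℝ) - (243 + 3 * i.1) - (243 + 3 * i.2)) := by linarith
      exact this.ne'
    have e3 : (243 + 3 * (i.1 : ℝ)) ≠ 0 := by positivity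
    have e4 : (243 + 3 * (i.2 : ℝ)) ≠ 0 := by positivity
    rw [e1]
    field_simp
    ring
  -- diagonal
  have hC3 : ∀ᶠ x : ℕ in atTop, ∀ i ∈ W, ∀ a : ℕ, 1 ≤ a →
      (x : ℝ) ^ ((j : ℝ) * tau) ≤ a → (a : ℝ) ≤ (x : ℝ) ^ ((J : ℝ) * tau) →
      x / Real.log x * ((9 / (2 * (243 + 3 * (i : ℝ)) ^ 2 * (4802 / 5 - j - 2 * (243 + 3 * i))) / tau - ε1) / a) ≤
        ∑ p ∈ PP x (((240 + 3 * i : ℕ) : ℝ) * tau) (((243 + 3 * i : ℕ) : ℝ) * tau),
          ∑ q ∈ (PP x (((240 + 3 * i : ℕ) : ℝ) * tau) (((243 + 3 * i : ℕ) : ℝ) * tau)).filter (fun q => p < q),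
          TS x h0 (a * (p * q)) / Real.log (3 * x / ((a * (p * q) : ℕ) : ℝ)) := by
    rw [eventually_all_finset]
    intro i hi
    have hi' : J + 3 * (243 + 3 * i) ≤ 960 := by
      rw [hW] at hi
      split_ifs at hi
      · unfold cDiag at hi
        exact (mem_filter.mp hi).2
      · simp at hi
    have hir : (J : ℝ) + 3 * (243 + 3 * i) ≤ 960 := by exact_mod_cast hi'
    have hi10 : (0 : ℝ) ≤ i := Nat.cast_nonneg _
    have hlim := D1_diag (((240 + 3 * i : ℕ) : ℝ) * tau) (((243 + 3 * i : ℕ) : ℝ) * tau)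
      (by positivity) (CompL_tau_le (by omega)) (fun _ _ => 1) (fun _ _ => rfl) continuousOn_const
    simp only [one_mul, intervalIntegral.integral_const, smul_eq_mul, mul_one] at hlim
    have h1 := Comp_two h0 ((j : ℝ) * tau) ((J : ℝ) * tau)
      (((240 + 3 * i : ℕ) : ℝ) * tau) (((243 + 3 * i : ℕ) : ℝ) * tau)
      (((240 + 3 * i : ℕ) : ℝ) * tau) (((243 + 3 * i : ℕ) : ℝ) * tau) _ hσ
      (by positivity) (CompL_tau_lt (by omega)) (by positivity) (CompL_tau_lt (by omega))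
      le_rfl (by
        push_cast
        rw [hτv]
        linarith)
      (fun x p => (PP x (((240 + 3 * i : ℕ) : ℝ) * tau) (((243 + 3 * i : ℕ) : ℝ) * tau)).filter (fun q => p < q))
      (fun x _ => filter_subset _ _) hlim ε1 hε10
    filter_upwards [h1] with x hx a ha hax hax'
    refine le_trans (le_of_eq ?_) (hx a ha hax hax')
    congr 3
    push_cast
    have e1 : (1 : ℝ) - j * tau - (243 + 3 * i) * tau - (243 + 3 * i) * tau =
        (4802 / 5 - j - 2 * (243 + 3 * i)) * tau := by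
      rw [hτv]
      ring
    have e2 : (4802 / 5 - (j : ℝ) - 2 * (243 + 3 * i)) ≠ 0 := by
      have : 0 < (4802 / 5 - (j : ℝ) - 2 * (243 + 3 * i)) := by linarith
      exact this.ne'
    have e3 : (243 + 3 * (i : ℝ)) ≠ 0 := by positivity
    rw [e1]
    field_simp
    ring
  filter_upwards [hP, hC1, hC2, hC3, eventually_ge_atTop 2] with x hP hC1 hC2 hC3 hx δ hδ v k a hv ha hax
  have hx1 : (1 : ℝ) < x := by
    have : (2 : ℝ) ≤ x := by exact_mod_cast hx
    linarith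
  have hx0 : (0 : ℝ) < x := by linarith
  have hL : 0 < Real.log x := Real.log_pos hx1
  have ha1 : 1 ≤ a := Nat.pos_of_ne_zero ha.1.ne_zero
  have ha0 : (0 : ℝ) < a := by exact_mod_cast ha1
  obtain ⟨A, hA, hF⟩ := CompL_set x hx κ J hJ
  rw [← hU, ← hV, ← hW] at hF
  have hsub : insert 1 A ⊆ QF x δ k a := by
    intro Q hQ
    rcases mem_insert.mp hQ with rfl | hQ
    · exact SmallA_one hx hJ (by omega) ha
    · exact SmallA_mem hx hδ hJ ha (hA Q hQ).1 (by have := (hA Q hQ).2; omega)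
  have h1A : (1 : ℕ) ∉ A := by
    intro h
    have := (hA 1 h).1.2.1
    simp at this
  refine le_trans ?_ (Comp_ge hx _ hsub)
  rw [sum_insert h1A, hF, mul_one]
  have e0 : x / Real.log x * ((1 / (4802 / 5 - (j : ℝ)) / tau - ε1) / a) ≤
      TS x h0 a / Real.log (3 * x / (a : ℝ)) := by
    have h2 : (a : ℝ) ≤ (x : ℝ) ^ (1 - (1 - 720 * tau)) := by
      refine ha.2.2.2.trans (CompL_rpow hx ?_)
      rw [hτv]
      linarith
    refine le_trans ?_ (hP a ha1 h2)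
    apply mul_le_mul_of_nonneg_left _ (by positivity)
    apply div_le_div_of_nonneg_right _ ha0.le
    apply sub_le_sub_right
    have h3 : (j : ℝ) * tau ≤ lg x a := le_lg hx hax
    have h4 : lg x a ≤ 720 * tau := by
      unfold lg
      rw [div_le_iff₀ hL, ← Real.log_rpow hx0]
      refine Real.log_le_log ha0 (h2.trans (le_of_eq ?_))
      congr 1
      ring
    have h5 : 0 < 1 - lg x a := by
      rw [hτv] at h4
      linarith
    have h6 : 0 < 4802 / 5 - (j : ℝ) := by linarith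
    rw [div_div, div_le_div_iff₀ (by positivity) h5, one_mul, one_mul]
    rw [sub_mul, show (4802 / 5 : ℝ) * tau = 1 by rw [hτv]; norm_num]
    linarith
  have e1 := sum_le_sum (s := U) fun c hc => hC1 c hc a ha1 hax ha.2.2.2
  have e2 := sum_le_sum (s := V) fun i hi => hC2 i hi a ha1 hax ha.2.2.2
  have e3 := sum_le_sum (s := W) fun i hi => hC3 i hi a ha1 hax ha.2.2.2
  have e4 : x / Real.log x * ((wY κ j J / tau - ε) / a) =
      x / Real.log x * ((1 / (4802 / 5 - (j : ℝ)) / tau - ε1) / a) +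
      (∑ c ∈ U, x / Real.log x * ((1 / (((c : ℝ) + 1) * (4802 / 5 - j - (c + 1))) / tau - ε1) / a) +
      ∑ i ∈ V, x / Real.log x * ((9 / ((243 + 3 * (i.1 : ℝ)) * (243 + 3 * i.2) *
        (4802 / 5 - j - (243 + 3 * i.1) - (243 + 3 * i.2))) / tau - ε1) / a) +
      ∑ i ∈ W, x / Real.log x * ((9 / (2 * (243 + 3 * (i : ℝ)) ^ 2 *
        (4802 / 5 - j - 2 * (243 + 3 * i))) / tau - ε1) / a)) := by
    rw [← mul_sum, ← mul_sum, ← mul_sum, ← sum_div, ← sum_div, ← sum_div, sum_sub_distrib, sum_sub_distrib,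
      sum_sub_distrib, ← sum_div, ← sum_div, ← sum_div, sum_const, sum_const, sum_const, nsmul_eq_mul,
      nsmul_eq_mul, nsmul_eq_mul]
    have w1 : wY κ j J = 1 / (4802 / 5 - (j : ℝ)) +
        ∑ c ∈ U, 1 / (((c : ℝ) + 1) * (4802 / 5 - j - (c + 1))) +
        ∑ i ∈ V, 9 / ((243 + 3 * (i.1 : ℝ)) * (243 + 3 * i.2) *
          (4802 / 5 - j - (243 + 3 * i.1) - (243 + 3 * i.2))) +
        ∑ i ∈ W, 9 / (2 * (243 + 3 * (i : ℝ)) ^ 2 * (4802 / 5 - j - 2 * (243 + 3 * i))) := by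
      unfold wY
      rw [hU, hV, hW]
      congr 1
      · congr 1
        · congr 1
          split_ifs
          · rfl
          · rw [sum_empty]
        · split_ifs
          · rfl
          · rw [sum_empty]
      · split_ifs
        · rfl
        · rw [sum_empty]
    have w2 : ε = ε1 + U.card * ε1 + V.card * ε1 + W.card * ε1 := by
      rw [hε1]
      field_simp
      rw [hN]
    rw [w1, w2]
    ring
  rw [e4]
  linarith

end Pool.Agent.Lib.MP_092512_nt.P5
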