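import Pool.Agent.Lib.MP_092512_nt.P5.Low
import Pool.Agent.Lib.MP_092512_nt.P3.D0
import Pool.Agent.Lib.MP_092512_nt.P3.D0m
import Pool.Agent.Lib.MP_092512_nt.P3.D1b

/-!
# P5-CompP: completions, pointwise estimates

`Comp_point`: `TS n/log (3x/n) ≥ x/(n log x) (1/(1 - lg n) - ε)` for `n ≤ x^(1-κ)`.
`Comp_cell`: the sum over one large prime in `(x^c, x^d]`; `Comp_two`: over two large primes.
-/

set_option autoImplicit false

open Finset Filter

namespace Pool.Agent.Lib.MP_092512_nt.P5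

open Pool.Agent.Lib.SW Pool.Agent.Lib.MP_092512_nt.P3

private theorem CompP_log (e : ℝ) (he : 0 < e) : ∀ᶠ x : ℕ in atTop, Real.log 3 ≤ e * Real.log x := by
  have h1 : Tendsto (fun x : ℕ => Real.log x) atTop atTop :=
    Real.tendsto_log_atTop.comp tendsto_natCast_atTop_atTop
  filter_upwards [h1.eventually_ge_atTop (Real.log 3 / e)] with x hx
  rw [div_le_iff₀ he] at hx
  linarith

private theorem CompP_key (t κ e ε : ℝ) (hκ : 0 < κ) (ht : κ ≤ t) (ht1 : t ≤ 1) (he : 0 < e)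
    (hε : 2 * e ≤ ε * κ ^ 2) : 1 / t - ε ≤ (1 - e) / (t + e) := by
  have ht0 : 0 < t := by linarith
  rw [div_sub' ht0.ne', div_le_div_iff₀ ht0 (by linarith)]
  have h1 : ε * κ ^ 2 ≤ ε * t ^ 2 := by
    have hε0 : 0 ≤ ε := by
      by_contra h
      push Not at h
      have : ε * κ ^ 2 < 0 := mul_neg_of_neg_of_pos h (by positivity)
      linarith
    apply mul_le_mul_of_nonneg_left _ hε0
    exact pow_le_pow_left₀ hκ.le ht 2
  have hε0 : 0 < ε := by
    by_contra h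
    push Not at h
    have : ε * κ ^ 2 ≤ 0 := mul_nonpos_of_nonpos_of_nonneg h (by positivity)
    linarith
  nlinarith [mul_pos (mul_pos hε0 ht0) he]

/-- lower bound for one cofactor -/
theorem Comp_point (h0 : ℕ) (κ : ℝ) (hκ : 0 < κ) (ε : ℝ) (hε : 0 < ε) : ∀ᶠ x : ℕ in atTop,
    ∀ n : ℕ, 1 ≤ n → (n : ℝ) ≤ (x : ℝ) ^ (1 - κ) →
      x / Real.log x * ((1 / (1 - lg x n) - ε) / n) ≤ TS x h0 n / Real.log (3 * x / (n : ℝ)) := by
  set e : ℝ := min (1 / 2) (ε * κ ^ 2 / 2) with he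
  have he0 : 0 < e := lt_min (by norm_num) (by positivity)
  have he1 : e ≤ 1 / 2 := min_le_left _ _
  have he2 : 2 * e ≤ ε * κ ^ 2 := by
    have := min_le_right (1 / 2 : ℝ) (ε * κ ^ 2 / 2)
    linarith
  filter_upwards [D0_TS_asymp h0 κ hκ e he0, CompP_log e he0, eventually_ge_atTop 2]
    with x hTS hlog hx2 n hn hnx
  have hx1 : (1 : ℝ) < x := by exact_mod_cast hx2
  have hx0 : (0 : ℝ) < x := by linarith
  have hL : 0 < Real.log x := Real.log_pos hx1
  have hn0 : (0 : ℝ) < n := by exact_mod_cast hn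
  have hn1 : (1 : ℝ) ≤ n := by exact_mod_cast hn
  have hs0 : 0 ≤ lg x n := div_nonneg (Real.log_nonneg hn1) hL.le
  have hs1 : lg x n ≤ 1 - κ := by
    unfold lg
    rw [div_le_iff₀ hL, ← Real.log_rpow hx0]
    exact Real.log_le_log hn0 hnx
  have h1 := (abs_le.mp (hTS n hn hnx)).1
  have h2 : (1 - e) * ((x : ℝ) / n) ≤ TS x h0 n := by linarith
  have h3 : Real.log (3 * x / (n : ℝ)) = (1 - lg x n) * Real.log x + Real.log 3 := by
    rw [Real.log_div (by positivity) hn0.ne', Real.log_mul (by norm_num) hx0.ne']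
    unfold lg
    field_simp
    ring
  have h4 : Real.log (3 * x / (n : ℝ)) ≤ (1 - lg x n + e) * Real.log x := by
    rw [h3]
    linarith
  have h5 : 0 < Real.log (3 * x / (n : ℝ)) := by
    rw [h3]
    have : 0 < Real.log 3 := Real.log_pos (by norm_num)
    have : 0 ≤ (1 - lg x n) * Real.log x := mul_nonneg (by linarith) hL.le
    linarith
  have h6 := CompP_key (1 - lg x n) κ e ε hκ (by linarith) (by linarith) he0 he2
  calc x / Real.log x * ((1 / (1 - lg x n) - ε) / n)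
      ≤ x / Real.log x * (((1 - e) / (1 - lg x n + e)) / n) := by
        apply mul_le_mul_of_nonneg_left _ (by positivity)
        exact div_le_div_of_nonneg_right h6 hn0.le
    _ = (1 - e) * ((x : ℝ) / n) / ((1 - lg x n + e) * Real.log x) := by
        have : (1 - lg x n + e) ≠ 0 := by
          have : 0 < 1 - lg x n + e := by linarith
          exact this.ne'
        field_simp
    _ ≤ (1 - e) * ((x : ℝ) / n) / Real.log (3 * x / (n : ℝ)) := by
        apply div_le_div_of_nonneg_left _ h5 h4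
        have : 0 ≤ 1 - e := by linarith
        positivity
    _ ≤ TS x h0 n / Real.log (3 * x / (n : ℝ)) := div_le_div_of_nonneg_right h2 h5.le

theorem lg_mul {x m n : ℕ} (hm : m ≠ 0) (hn : n ≠ 0) : lg x (m * n) = lg x m + lg x n := by
  unfold lg
  rw [Nat.cast_mul, Real.log_mul (by exact_mod_cast hm) (by exact_mod_cast hn), add_div]

theorem le_lg {x a : ℕ} (hx : 2 ≤ x) {σ : ℝ} (h : (x : ℝ) ^ σ ≤ a) : σ ≤ lg x a := by
  have hx1 : (1 : ℝ) < x := by exact_mod_cast hx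
  have hx0 : (0 : ℝ) < x := by linarith
  have hL : 0 < Real.log x := Real.log_pos hx1
  unfold lg
  rw [le_div_iff₀ hL, ← Real.log_rpow hx0]
  exact Real.log_le_log (by positivity) h

/-- one large prime -/
theorem Comp_cell (h0 : ℕ) (σ0 σ1 c d : ℝ) (h01 : σ0 ≤ σ1) (hc : 0 < c)
    (hcd : c < d) (hd : σ1 + 2 * d < 1) (ε : ℝ) (hε : 0 < ε) : ∀ᶠ x : ℕ in atTop, ∀ a : ℕ, 1 ≤ a →
      (x : ℝ) ^ σ0 ≤ a → (a : ℝ) ≤ (x : ℝ) ^ σ1 →
      x / Real.log x * (((d - c) / (d * (1 - σ0 - d)) - ε) / a) ≤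
        ∑ q ∈ PP x c d, TS x h0 (a * q) / Real.log (3 * x / ((a * q : ℕ) : ℝ)) := by
  have hd0 : 0 < d := hc.trans hcd
  have hy : d < 1 - σ0 - d := by linarith
  have hD : 0 < d * (1 - σ0 - d) := mul_pos hd0 (by linarith)
  set M : ℝ := (d - c + 1) / c with hM
  have hM0 : 0 < M := div_pos (by linarith) hc
  set ε1 : ℝ := ε / (2 * M) with hε1
  have hε10 : 0 < ε1 := by positivity
  set ε2 : ℝ := ε / 2 * (d * (1 - σ0 - d)) with hε2
  have hε20 : 0 < ε2 := by positivity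
  have hmer := (D0_mertens c d hc hcd.le).eventually (lt_mem_nhds (show d - c - ε2 < d - c by linarith))
  filter_upwards [Comp_point h0 (1 - σ1 - d) (by linarith) ε1 hε10, hmer,
    D0_sum_inv_le c d hc hcd.le, eventually_ge_atTop 2] with x hP hm hi hx2 a ha hax0 hax1
  have hx1 : (1 : ℝ) < x := by exact_mod_cast hx2
  have hx0 : (0 : ℝ) < x := by linarith
  have hL : 0 < Real.log x := Real.log_pos hx1
  have ha0 : (0 : ℝ) < a := by exact_mod_cast ha
  have hsa : σ0 ≤ lg x a := le_lg hx2 hax0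
  have hpt : ∀ q ∈ PP x c d, x / Real.log x * ((lg x q / q / (d * (1 - σ0 - d)) - ε1 * (1 / q)) / a) ≤
      TS x h0 (a * q) / Real.log (3 * x / ((a * q : ℕ) : ℝ)) := by
    intro q hq
    obtain ⟨hqp, hq1, hq2⟩ := mem_PP.mp hq
    obtain ⟨hl1, hl2⟩ := PP_lg hx2 hq
    have hq0 : (0 : ℝ) < q := by exact_mod_cast hqp.pos
    have h1 : ((a * q : ℕ) : ℝ) ≤ (x : ℝ) ^ (1 - (1 - σ1 - d)) := by
      rw [Nat.cast_mul]
      calc (a : ℝ) * q ≤ (x : ℝ) ^ σ1 * (x : ℝ) ^ d := mul_le_mul hax1 hq2 hq0.le (by positivity)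
        _ = (x : ℝ) ^ (1 - (1 - σ1 - d)) := by
            rw [← Real.rpow_add hx0]
            congr 1
            ring
    refine le_trans ?_ (hP (a * q) (Nat.mul_pos ha hqp.pos) h1)
    apply mul_le_mul_of_nonneg_left _ (by positivity)
    have hlt : lg x (a * q) = lg x a + lg x q := lg_mul (by omega) hqp.ne_zero
    have hlt1 : lg x (a * q) ≤ σ1 + d := by
      have h2 : lg x (a * q) ≤ 1 - (1 - σ1 - d) := by
        unfold lg
        rw [div_le_iff₀ hL, ← Real.log_rpow hx0]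
        exact Real.log_le_log (by exact_mod_cast Nat.mul_pos ha hqp.pos) h1
      linarith
    have h3 : lg x q / (d * (1 - σ0 - d)) ≤ 1 / (1 - lg x (a * q)) := by
      rw [div_le_div_iff₀ hD (by linarith), one_mul]
      -- u (1 - s) ≤ u (1 - σ0 - u) ≤ d (1 - σ0 - d)
      have h4 : lg x q * (1 - lg x (a * q)) ≤ lg x q * (1 - σ0 - lg x q) :=
        mul_le_mul_of_nonneg_left (by linarith) (by linarith)
      have h5 : lg x q * (1 - σ0 - lg x q) ≤ d * (1 - σ0 - d) := by nlinarith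
      linarith
    rw [Nat.cast_mul]
    have h6 : (lg x q / q / (d * (1 - σ0 - d)) - ε1 * (1 / q)) / a =
        (lg x q / (d * (1 - σ0 - d)) - ε1) / ((a : ℝ) * q) := by
      field_simp
    rw [h6]
    apply div_le_div_of_nonneg_right _ (by positivity)
    linarith
  refine le_trans ?_ (sum_le_sum hpt)
  rw [← mul_sum, ← sum_div]
  apply mul_le_mul_of_nonneg_left _ (by positivity)
  apply div_le_div_of_nonneg_right _ ha0.le
  rw [sum_sub_distrib, ← sum_div, ← mul_sum]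
  have h7 : ε1 * ∑ q ∈ PP x c d, 1 / (q : ℝ) ≤ ε / 2 := by
    calc ε1 * ∑ q ∈ PP x c d, 1 / (q : ℝ) ≤ ε1 * M := mul_le_mul_of_nonneg_left hi hε10.le
      _ = ε / 2 := by
        rw [hε1]
        field_simp
  have h8 : (d - c) / (d * (1 - σ0 - d)) - ε / 2 ≤
      (∑ q ∈ PP x c d, lg x q / (q : ℝ)) / (d * (1 - σ0 - d)) := by
    rw [le_div_iff₀ hD, sub_mul, div_mul_cancel₀ _ hD.ne']
    have : d - c - ε2 ≤ ∑ q ∈ PP x c d, lg x q / (q : ℝ) := hm.le
    rw [hε2] at this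
    linarith
  linarith

/-- two large primes -/
theorem Comp_two (h0 : ℕ) (σ0 σ1 c1 d1 c2 d2 L : ℝ) (hσ : σ0 ≤ σ1) (hc1 : 0 < c1)
    (hcd1 : c1 < d1) (hc2 : 0 < c2) (hcd2 : c2 < d2) (hdd : d1 ≤ d2) (hd : σ1 + d1 + 2 * d2 < 1)
    (S : ℕ → ℕ → Finset ℕ) (hS : ∀ x p, S x p ⊆ PP x c2 d2)
    (hL : Tendsto (fun x : ℕ => ∑ p ∈ PP x c1 d1, ∑ q ∈ S x p, (lg x p / (p : ℝ)) * (lg x q / (q : ℝ)))
      atTop (nhds L)) (ε : ℝ) (hε : 0 < ε) : ∀ᶠ x : ℕ in atTop, ∀ a : ℕ, 1 ≤ a →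
      (x : ℝ) ^ σ0 ≤ a → (a : ℝ) ≤ (x : ℝ) ^ σ1 →
      x / Real.log x * ((L / (d1 * d2 * (1 - σ0 - d1 - d2)) - ε) / a) ≤
        ∑ p ∈ PP x c1 d1, ∑ q ∈ S x p,
          TS x h0 (a * (p * q)) / Real.log (3 * x / ((a * (p * q) : ℕ) : ℝ)) := by
  have hd10 : 0 < d1 := hc1.trans hcd1
  have hd20 : 0 < d2 := hc2.trans hcd2
  have hy : d2 < 1 - σ0 - d1 - d2 := by linarith
  have hD : 0 < d1 * d2 * (1 - σ0 - d1 - d2) := mul_pos (mul_pos hd10 hd20) (by linarith)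
  set M1 : ℝ := (d1 - c1 + 1) / c1 with hM1
  set M2 : ℝ := (d2 - c2 + 1) / c2 with hM2
  have hM10 : 0 < M1 := div_pos (by linarith) hc1
  have hM20 : 0 < M2 := div_pos (by linarith) hc2
  set ε1 : ℝ := ε / (2 * (M1 * M2)) with hε1
  have hε10 : 0 < ε1 := by positivity
  set ε2 : ℝ := ε / 2 * (d1 * d2 * (1 - σ0 - d1 - d2)) with hε2
  have hε20 : 0 < ε2 := by positivity
  have hmer := hL.eventually (lt_mem_nhds (show L - ε2 < L by linarith))
  filter_upwards [Comp_point h0 (1 - σ1 - d1 - d2) (by linarith) ε1 hε10, hmer,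
    D0_sum_inv_le c1 d1 hc1 hcd1.le, D0_sum_inv_le c2 d2 hc2 hcd2.le, eventually_ge_atTop 2]
    with x hP hm hi1 hi2 hx2 a ha hax0 hax1
  have hx1 : (1 : ℝ) < x := by exact_mod_cast hx2
  have hx0 : (0 : ℝ) < x := by linarith
  have hLo : 0 < Real.log x := Real.log_pos hx1
  have ha0 : (0 : ℝ) < a := by exact_mod_cast ha
  have hsa : σ0 ≤ lg x a := le_lg hx2 hax0
  have hpt : ∀ p ∈ PP x c1 d1, ∀ q ∈ S x p, x / Real.log x *
      ((lg x p / p * (lg x q / q) / (d1 * d2 * (1 - σ0 - d1 - d2)) - ε1 * (1 / p * (1 / q))) / a) ≤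
      TS x h0 (a * (p * q)) / Real.log (3 * x / ((a * (p * q) : ℕ) : ℝ)) := by
    intro p hp q hq'
    have hq := hS x p hq'
    obtain ⟨hpp, hp1, hp2⟩ := mem_PP.mp hp
    obtain ⟨hqp, hq1, hq2⟩ := mem_PP.mp hq
    obtain ⟨hm1, hm2⟩ := PP_lg hx2 hp
    obtain ⟨hl1, hl2⟩ := PP_lg hx2 hq
    have hp0 : (0 : ℝ) < p := by exact_mod_cast hpp.pos
    have hq0 : (0 : ℝ) < q := by exact_mod_cast hqp.pos
    have hn : 0 < a * (p * q) := Nat.mul_pos ha (Nat.mul_pos hpp.pos hqp.pos)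
    have h1 : ((a * (p * q) : ℕ) : ℝ) ≤ (x : ℝ) ^ (1 - (1 - σ1 - d1 - d2)) := by
      rw [Nat.cast_mul, Nat.cast_mul]
      calc (a : ℝ) * (p * q) ≤ (x : ℝ) ^ σ1 * ((x : ℝ) ^ d1 * (x : ℝ) ^ d2) :=
            mul_le_mul hax1 (mul_le_mul hp2 hq2 hq0.le (by positivity)) (by positivity) (by positivity)
        _ = (x : ℝ) ^ (1 - (1 - σ1 - d1 - d2)) := by
            rw [← Real.rpow_add hx0, ← Real.rpow_add hx0]
            congr 1
            ring
    refine le_trans ?_ (hP (a * (p * q)) hn h1)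
    apply mul_le_mul_of_nonneg_left _ (by positivity)
    have hlt : lg x (a * (p * q)) = lg x a + (lg x p + lg x q) := by
      rw [lg_mul (by omega) (Nat.mul_pos hpp.pos hqp.pos).ne', lg_mul hpp.ne_zero hqp.ne_zero]
    have hlt1 : lg x (a * (p * q)) ≤ σ1 + d1 + d2 := by
      have h2 : lg x (a * (p * q)) ≤ 1 - (1 - σ1 - d1 - d2) := by
        unfold lg
        rw [div_le_iff₀ hLo, ← Real.log_rpow hx0]
        exact Real.log_le_log (by exact_mod_cast hn) h1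
      linarith
    have h3 : lg x p * lg x q / (d1 * d2 * (1 - σ0 - d1 - d2)) ≤ 1 / (1 - lg x (a * (p * q))) := by
      rw [div_le_div_iff₀ hD (by linarith), one_mul]
      have hu : 0 < lg x p := hc1.trans hm1
      have hw : 0 < lg x q := hc2.trans hl1
      have h4 : lg x p * lg x q * (1 - lg x (a * (p * q))) ≤
          lg x p * lg x q * (1 - σ0 - lg x p - lg x q) :=
        mul_le_mul_of_nonneg_left (by linarith) (mul_pos hu hw).le
      have h5 : lg x p * (1 - σ0 - lg x q - lg x p) ≤ d1 * (1 - σ0 - lg x q - d1) := by nlinarith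
      have h6 : lg x q * (1 - σ0 - d1 - lg x q) ≤ d2 * (1 - σ0 - d1 - d2) := by nlinarith
      have h7 : lg x p * lg x q * (1 - σ0 - lg x p - lg x q) ≤ d1 * (lg x q * (1 - σ0 - d1 - lg x q)) := by
        calc lg x p * lg x q * (1 - σ0 - lg x p - lg x q) =
              lg x q * (lg x p * (1 - σ0 - lg x q - lg x p)) := by ring
          _ ≤ lg x q * (d1 * (1 - σ0 - lg x q - d1)) := mul_le_mul_of_nonneg_left h5 hw.le
          _ = _ := by ring
      have h8 : d1 * (lg x q * (1 - σ0 - d1 - lg x q)) ≤ d1 * (d2 * (1 - σ0 - d1 - d2)) :=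
        mul_le_mul_of_nonneg_left h6 hd10.le
      calc _ ≤ _ := h4
        _ ≤ _ := h7
        _ ≤ _ := h8
        _ = _ := by ring
    rw [Nat.cast_mul, Nat.cast_mul]
    have h6 : (lg x p / p * (lg x q / q) / (d1 * d2 * (1 - σ0 - d1 - d2)) - ε1 * (1 / p * (1 / q))) / a =
        (lg x p * lg x q / (d1 * d2 * (1 - σ0 - d1 - d2)) - ε1) / ((a : ℝ) * (p * q)) := by
      field_simp
    rw [h6]
    apply div_le_div_of_nonneg_right _ (by positivity)
    linarith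
  refine le_trans ?_ (sum_le_sum fun p hp => sum_le_sum (hpt p hp))
  have e1 : ∑ p ∈ PP x c1 d1, ∑ q ∈ S x p, x / Real.log x *
      ((lg x p / p * (lg x q / q) / (d1 * d2 * (1 - σ0 - d1 - d2)) - ε1 * (1 / p * (1 / q))) / a) =
      x / Real.log x * (((∑ p ∈ PP x c1 d1, ∑ q ∈ S x p, lg x p / (p : ℝ) * (lg x q / q)) /
        (d1 * d2 * (1 - σ0 - d1 - d2)) -
        ε1 * ∑ p ∈ PP x c1 d1, ∑ q ∈ S x p, 1 / (p : ℝ) * (1 / q)) / a) := by
    simp only [mul_sum, sum_div, sub_div, sum_sub_distrib, mul_sub]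
  rw [e1]
  apply mul_le_mul_of_nonneg_left _ (by positivity)
  apply div_le_div_of_nonneg_right _ ha0.le
  have h7 : ε1 * ∑ p ∈ PP x c1 d1, ∑ q ∈ S x p, 1 / (p : ℝ) * (1 / q) ≤ ε / 2 := by
    have h8 : ∑ p ∈ PP x c1 d1, ∑ q ∈ S x p, 1 / (p : ℝ) * (1 / q) ≤ M1 * M2 := by
      calc ∑ p ∈ PP x c1 d1, ∑ q ∈ S x p, 1 / (p : ℝ) * (1 / q)
          ≤ ∑ p ∈ PP x c1 d1, ∑ q ∈ PP x c2 d2, 1 / (p : ℝ) * (1 / q) := by
            refine sum_le_sum fun p _ => sum_le_sum_of_subset_of_nonneg (hS x p) fun q _ _ => by positivity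
        _ = (∑ p ∈ PP x c1 d1, 1 / (p : ℝ)) * ∑ q ∈ PP x c2 d2, 1 / (q : ℝ) := by
            rw [sum_mul_sum]
        _ ≤ M1 * M2 := mul_le_mul hi1 hi2 (sum_nonneg fun q _ => by positivity) hM10.le
    calc _ ≤ ε1 * (M1 * M2) := mul_le_mul_of_nonneg_left h8 hε10.le
      _ = ε / 2 := by
        rw [hε1]
        field_simp
  have h8 : L / (d1 * d2 * (1 - σ0 - d1 - d2)) - ε / 2 ≤
      (∑ p ∈ PP x c1 d1, ∑ q ∈ S x p, lg x p / (p : ℝ) * (lg x q / q)) /
        (d1 * d2 * (1 - σ0 - d1 - d2)) := by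
    rw [le_div_iff₀ hD, sub_mul, div_mul_cancel₀ _ hD.ne']
    have : L - ε2 ≤ ∑ p ∈ PP x c1 d1, ∑ q ∈ S x p, lg x p / (p : ℝ) * (lg x q / q) := hm.le
    rw [hε2] at this
    linarith
  linarith

end Pool.Agent.Lib.MP_092512_nt.P5
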