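import Pool.Agent.Lib.MP_092512_nt.P5.Defs
import Pool.Agent.Lib.MP_092512_nt.P3.D3b
import Pool.Agent.Lib.MP_092512_nt.P3.Defs2

/-!
# P5-Low: lower bound for the mass of `ewk` by any set of cofactors, split into small and large primes

`QF x δ k a`: the numbers `Q` (also `1`) with all prime factors `> x^(60 et)` such that `a Q` is `1` or in `As`.
`Comp x h0 δ k a = ∑_{Q ∈ QF} TS (a Q)/log (3x/(a Q))`.
`split_lower`: for every finite set `A` of squarefree numbers with all prime factors in `(x^δ, x^(60 et)]`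
`∑_{a ∈ A} LV a ^ 2 * Comp a ≤ ∑_m ewk m * LV m ^ 2`.
-/

set_option autoImplicit false

open Finset Filter

open scoped ArithmeticFunction.Moebius

namespace Pool.Agent.Lib.MP_092512_nt.P5

open Pool.Agent.Lib.SW Pool.Agent.Lib.MP_092512_nt.P3

/-! ### large primes are invisible -/

theorem Low_LC_mul {x z : ℕ} (hx : 1 ≤ x) {η : ℝ} (hη : 0 < η) {j a Q : ℕ} (ha : a ≠ 0) (hQ : Q ≠ 0)
    (h : ∀ p ∈ Q.primeFactors, (x : ℝ) ^ (((j : ℝ) + 1) * η) < p) :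
    LC x z η j (a * Q) = LC x z η j a := by
  unfold LC
  symm
  apply Finset.sum_subset
  · exact Nat.divisors_subset_of_dvd (mul_ne_zero ha hQ) (Dvd.intro _ rfl)
  · intro d hd hd'
    by_contra hne
    obtain ⟨_, _, h3⟩ := C3_lamC_support hx hη hne
    have hdab : d ∣ a * Q := Nat.dvd_of_mem_divisors hd
    have hd0 : 0 < d := Nat.pos_of_mem_divisors hd
    have hc : Nat.Coprime d Q := by
      by_contra hn
      obtain ⟨p, hp, hpd, hpQ⟩ := Nat.Prime.not_coprime_iff_dvd.mp hn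
      have h4 := h p (Nat.mem_primeFactors.mpr ⟨hp, hpQ, hQ⟩)
      have h5 : (p : ℝ) ≤ d := by exact_mod_cast Nat.le_of_dvd hd0 hpd
      linarith
    exact hd' (Nat.mem_divisors.mpr ⟨hc.dvd_of_dvd_mul_right hdab, ha⟩)

theorem Low_LV_mul {x z : ℕ} (hx : 1 ≤ x) {len : ℕ} (v : ℕ → ℝ) (hlen : len ≤ 60) {a Q : ℕ}
    (ha : a ≠ 0) (hQ : Q ≠ 0) (h : ∀ p ∈ Q.primeFactors, (x : ℝ) ^ (60 * et) < p) :
    LV x z et len v (a * Q) = LV x z et len v a := by
  have het : 0 < et := by unfold et; norm_num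
  unfold LV
  refine Finset.sum_congr rfl fun j hj => ?_
  have hj' : ((j : ℝ) + 1) ≤ 60 := by
    have := mem_range.mp hj
    exact_mod_cast (by omega : j + 1 ≤ 60)
  have hx1 : (1 : ℝ) ≤ x := by exact_mod_cast hx
  rw [Low_LC_mul hx het ha hQ fun p hp => lt_of_le_of_lt
    (Real.rpow_le_rpow_of_exponent_le hx1 (mul_le_mul_of_nonneg_right hj' het.le)) (h p hp)]

/-! ### the lower bound by a set of cofactors -/

open scoped Classical in
private noncomputable def LowQ (x : ℕ) (δ θ : ℝ) (k m : ℕ) : Finset ℕ :=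
  m.primeFactors.filter (fun b => As x δ θ k (m / b))

private theorem Low_ew (x : ℕ) (δ θ : ℝ) (k m : ℕ) : ewk x δ θ k m =
    (if m.Prime then Real.log m / Real.log (3 * x) else 0) +
    ∑ b ∈ LowQ x δ θ k m, Real.log b / Real.log (3 * x / ((m / b : ℕ) : ℝ)) := by
  unfold ewk LowQ
  rfl

private theorem Low_mem {x : ℕ} {δ θ : ℝ} {k m b : ℕ} :
    b ∈ LowQ x δ θ k m ↔ (b.Prime ∧ b ∣ m ∧ m ≠ 0) ∧ As x δ θ k (m / b) := by
  classical
  unfold LowQ
  rw [mem_filter, Nat.mem_primeFactors]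

theorem Low_D3 (x h0 : ℕ) (hx : 2 ≤ x) (hh : h0 ≤ x) (δ θ : ℝ) (k : ℕ) (A : Finset ℕ)
    (hA : ∀ a ∈ A, As x δ θ k a) (f : ℕ → ℝ) (hf : ∀ m, 0 ≤ f m)
    (hfa : ∀ a ∈ A, ∀ b : ℕ, b.Prime → x + h0 < a * b → f (a * b) = f a) :
    ∑ p ∈ (Ioc (x + h0) (2 * x + h0)).filter Nat.Prime, Real.log p / Real.log (3 * x) * f p +
        ∑ a ∈ A, f a * TS x h0 a / Real.log (3 * x / a) ≤
      ∑ m ∈ Ioc (x + h0) (2 * x + h0), ewk x δ θ k m * f m := by
  classical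
  have h1 : ∑ m ∈ Ioc (x + h0) (2 * x + h0), ewk x δ θ k m * f m =
      ∑ p ∈ (Ioc (x + h0) (2 * x + h0)).filter Nat.Prime, Real.log p / Real.log (3 * x) * f p +
        ∑ m ∈ Ioc (x + h0) (2 * x + h0), ∑ b ∈ LowQ x δ θ k m,
          Real.log b / Real.log (3 * x / ((m / b : ℕ) : ℝ)) * f m := by
    rw [sum_filter, ← sum_add_distrib]
    refine sum_congr rfl fun m _ => ?_
    rw [Low_ew, add_mul, sum_mul]
    congr 1
    split_ifs
    · rfl
    · rw [zero_mul]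
  rw [h1]
  apply add_le_add le_rfl
  -- the left side as a sum over pairs
  set P : ℕ → Finset ℕ := fun a => (Icc 1 (2 * x + h0)).filter
    (fun b => b.Prime ∧ x + h0 < a * b ∧ a * b ≤ 2 * x + h0) with hP
  have h2 : ∑ a ∈ A, f a * TS x h0 a / Real.log (3 * x / a) =
      ∑ w ∈ A.sigma P, f (w.1 * w.2) * Real.log w.2 / Real.log (3 * x / w.1) := by
    rw [sum_sigma]
    refine sum_congr rfl fun a ha => ?_
    unfold TS
    rw [mul_sum, sum_div]
    refine sum_congr rfl fun b hb => ?_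
    rw [hP, mem_filter] at hb
    simp only
    rw [hfa a ha b hb.2.1 hb.2.2.1]
  have h3 : ∑ m ∈ Ioc (x + h0) (2 * x + h0), ∑ b ∈ LowQ x δ θ k m,
      Real.log b / Real.log (3 * x / ((m / b : ℕ) : ℝ)) * f m =
      ∑ w ∈ (Ioc (x + h0) (2 * x + h0)).sigma (fun m => LowQ x δ θ k m),
        Real.log w.2 / Real.log (3 * x / ((w.1 / w.2 : ℕ) : ℝ)) * f w.1 := by
    rw [sum_sigma]
  rw [h2, h3]
  set e : ((_ : ℕ) × ℕ) → ((_ : ℕ) × ℕ) := fun w => ⟨w.1 * w.2, w.2⟩ with he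
  have hprop : ∀ w ∈ A.sigma P, w.1 ∈ A ∧ w.2.Prime ∧ x + h0 < w.1 * w.2 ∧ w.1 * w.2 ≤ 2 * x + h0 := by
    intro w hw
    rw [mem_sigma, hP, mem_filter] at hw
    exact ⟨hw.1, hw.2.2.1, hw.2.2.2.1, hw.2.2.2.2⟩
  have hinj : Set.InjOn e ((A.sigma P : Finset ((_ : ℕ) × ℕ)) : Set ((_ : ℕ) × ℕ)) := by
    intro w hw w' hw' h
    obtain ⟨_, hp, _, _⟩ := hprop w (mem_coe.mp hw)
    rw [he] at h
    simp only [Sigma.mk.injEq] at h
    obtain ⟨h4, h5⟩ := h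
    have h6 : w.2 = w'.2 := eq_of_heq h5
    have h7 : w.1 = w'.1 := by
      rw [← h6] at h4
      exact Nat.eq_of_mul_eq_mul_right hp.pos h4
    exact Sigma.ext h7 h5
  have h4 : ∑ w ∈ A.sigma P, f (w.1 * w.2) * Real.log w.2 / Real.log (3 * x / w.1) =
      ∑ w ∈ (A.sigma P).image e,
        Real.log w.2 / Real.log (3 * x / ((w.1 / w.2 : ℕ) : ℝ)) * f w.1 := by
    rw [sum_image hinj]
    refine sum_congr rfl fun w hw => ?_
    obtain ⟨_, hp, _, _⟩ := hprop w hw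
    rw [he]
    simp only
    rw [Nat.mul_div_cancel _ hp.pos]
    ring
  rw [h4]
  apply sum_le_sum_of_subset_of_nonneg
  · intro w hw
    rw [mem_image] at hw
    obtain ⟨v, hv, rfl⟩ := hw
    obtain ⟨ha, hp, hlo, hhi⟩ := hprop v hv
    rw [he, mem_sigma]
    simp only
    rw [mem_Ioc, Low_mem, Nat.mul_div_cancel _ hp.pos]
    exact ⟨⟨hlo, hhi⟩, ⟨hp, dvd_mul_left _ _, by omega⟩, hA _ ha⟩
  · intro w hw _
    rw [mem_sigma, mem_Ioc, Low_mem] at hw
    obtain ⟨⟨hlo, hhi⟩, ⟨hp, hdvd, h0'⟩, _⟩ := hw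
    apply mul_nonneg _ (hf _)
    apply div_nonneg (Real.log_natCast_nonneg _)
    apply Real.log_nonneg
    have h5 : 0 < w.1 / w.2 := Nat.div_pos (Nat.le_of_dvd (by omega) hdvd) hp.pos
    have h6 : w.1 / w.2 ≤ 3 * x := (Nat.div_le_self _ _).trans (by omega)
    have h7 : (0 : ℝ) < ((w.1 / w.2 : ℕ) : ℝ) := by exact_mod_cast h5
    rw [one_le_div h7]
    exact_mod_cast h6

/-- the prime part is the term `a = 1` -/
theorem Low_prime_part (x h0 : ℕ) (f : ℕ → ℝ)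
    (hf1 : ∀ b : ℕ, b.Prime → x + h0 < b → f b = f 1) :
    ∑ p ∈ (Ioc (x + h0) (2 * x + h0)).filter Nat.Prime, Real.log p / Real.log (3 * x) * f p =
      f 1 * TS x h0 1 / Real.log (3 * x / ((1 : ℕ) : ℝ)) := by
  have h1 : (Ioc (x + h0) (2 * x + h0)).filter Nat.Prime =
      (Icc 1 (2 * x + h0)).filter (fun b => b.Prime ∧ x + h0 < 1 * b ∧ 1 * b ≤ 2 * x + h0) := by
    ext b
    simp only [mem_filter, mem_Ioc, mem_Icc, one_mul]
    constructor
    · rintro ⟨⟨h1, h2⟩, h3⟩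
      exact ⟨⟨h3.one_le, h2⟩, h3, h1, h2⟩
    · rintro ⟨_, h3, h1, h2⟩
      exact ⟨⟨h1, h2⟩, h3⟩
  unfold TS
  rw [h1, Nat.cast_one, div_one, mul_sum, sum_div]
  refine sum_congr rfl fun b hb => ?_
  have hb' := (mem_filter.mp hb).2
  rw [hf1 b hb'.1 (by omega)]
  ring

/-! ### completions -/

open scoped Classical in
/-- the numbers with all prime factors `> x^(60 et)` which complete `a` -/
noncomputable def QF (x : ℕ) (δ : ℝ) (k a : ℕ) : Finset ℕ :=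
  (Icc 1 x).filter (fun Q => (∀ p ∈ Q.primeFactors, (x : ℝ) ^ (60 * et) < p) ∧
    (a * Q = 1 ∨ As x δ th k (a * Q)))

/-- the sum over the completions of `a` -/
noncomputable def Comp (x h0 : ℕ) (δ : ℝ) (k a : ℕ) : ℝ :=
  ∑ Q ∈ QF x δ k a, TS x h0 (a * Q) / Real.log (3 * x / ((a * Q : ℕ) : ℝ))

theorem mem_QF {x : ℕ} {δ : ℝ} {k a Q : ℕ} : Q ∈ QF x δ k a ↔ (1 ≤ Q ∧ Q ≤ x) ∧
    (∀ p ∈ Q.primeFactors, (x : ℝ) ^ (60 * et) < p) ∧ (a * Q = 1 ∨ As x δ th k (a * Q)) := by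
  classical
  unfold QF
  rw [mem_filter, mem_Icc]

/-- the largest prime factor is invisible -/
theorem Low_large {x : ℕ} (hx : 2 ≤ x) {δ : ℝ} {k a b : ℕ} (ha : As x δ th k a ∨ a = 1)
    (h : x < a * b) : (x : ℝ) ^ (60 * et) < b := by
  have hx1 : (1 : ℝ) < x := by exact_mod_cast hx
  have hx0 : (0 : ℝ) < x := by linarith
  have h1 : (a : ℝ) ≤ (x : ℝ) ^ (3 * th / 4) := by
    rcases ha with ha | ha
    · exact ha.2.2.2.1
    · rw [ha, Nat.cast_one]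
      exact Real.one_le_rpow hx1.le (by unfold th; norm_num)
  have h2 : (x : ℝ) < a * b := by exact_mod_cast h
  have h3 : (x : ℝ) = (x : ℝ) ^ (3 * th / 4) * (x : ℝ) ^ (1 - 3 * th / 4) := by
    rw [← Real.rpow_add hx0]
    norm_num
  have h4 : (x : ℝ) ^ (60 * et) ≤ (x : ℝ) ^ (1 - 3 * th / 4) :=
    Real.rpow_le_rpow_of_exponent_le hx1.le (by unfold et th; norm_num)
  by_contra h5
  push Not at h5
  have h6 : (a : ℝ) * b ≤ (x : ℝ) ^ (3 * th / 4) * (x : ℝ) ^ (1 - 3 * th / 4) :=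
    mul_le_mul h1 (h5.trans h4) (by positivity) (by positivity)
  linarith

private theorem Low_split_eq {x : ℕ} {a a' Q Q' : ℕ} (ha0 : a ≠ 0) (ha0' : a' ≠ 0) (hQ : Q ≠ 0) (hQ' : Q' ≠ 0)
    (ha : ∀ p ∈ a.primeFactors, (p : ℝ) ≤ (x : ℝ) ^ (60 * et))
    (ha' : ∀ p ∈ a'.primeFactors, (p : ℝ) ≤ (x : ℝ) ^ (60 * et))
    (h : ∀ p ∈ Q.primeFactors, (x : ℝ) ^ (60 * et) < p)
    (h' : ∀ p ∈ Q'.primeFactors, (x : ℝ) ^ (60 * et) < p) (he : a * Q = a' * Q') : a = a' ∧ Q = Q' := by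
  have key : ∀ a Q : ℕ, a ≠ 0 → Q ≠ 0 → (∀ p ∈ a.primeFactors, (p : ℝ) ≤ (x : ℝ) ^ (60 * et)) →
      (∀ p ∈ Q.primeFactors, (x : ℝ) ^ (60 * et) < p) → Nat.Coprime a Q := by
    intro a Q ha hQ h1 h2
    by_contra hn
    obtain ⟨p, hp, hpa, hpQ⟩ := Nat.Prime.not_coprime_iff_dvd.mp hn
    have h3 := h1 p (Nat.mem_primeFactors.mpr ⟨hp, hpa, ha⟩)
    have h4 := h2 p (Nat.mem_primeFactors.mpr ⟨hp, hpQ, hQ⟩)
    linarith
  have h1 : a ∣ a' := (key a Q' ha0 hQ' ha h').dvd_of_dvd_mul_right (he ▸ Dvd.intro _ rfl)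
  have h2 : a' ∣ a := (key a' Q ha0' hQ ha' h).dvd_of_dvd_mul_right (he.symm ▸ Dvd.intro _ rfl)
  have h3 : a = a' := Nat.dvd_antisymm h1 h2
  subst h3
  exact ⟨rfl, Nat.eq_of_mul_eq_mul_left (Nat.pos_of_ne_zero ha0) he⟩

/-- **Splitting into small and large primes.** -/
theorem split_lower (x h0 z : ℕ) (hx : 2 ≤ x) (hh : h0 ≤ x) (δ : ℝ) (k len : ℕ) (hlen : len ≤ 60)
    (v : ℕ → ℝ) (A : Finset ℕ)
    (hA : ∀ a ∈ A, a ≠ 0 ∧ ∀ p ∈ a.primeFactors, (p : ℝ) ≤ (x : ℝ) ^ (60 * et)) :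
    ∑ a ∈ A, LV x z et len v a ^ 2 * Comp x h0 δ k a ≤
      ∑ m ∈ Ioc (x + h0) (2 * x + h0), ewk x δ th k m * LV x z et len v m ^ 2 := by
  classical
  have hx1 : 1 ≤ x := by omega
  set f : ℕ → ℝ := fun m => LV x z et len v m ^ 2 with hf
  set G : ℕ → ℝ := fun a => f a * TS x h0 a / Real.log (3 * x / (a : ℝ)) with hG
  set S : Finset ℕ := A.biUnion (fun a => (QF x δ k a).image (fun Q => a * Q)) with hS
  have hmul : ∀ a ∈ A, ∀ Q ∈ QF x δ k a, f (a * Q) = f a := by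
    intro a ha Q hQ
    rw [mem_QF] at hQ
    simp only [hf]
    rw [Low_LV_mul hx1 v hlen (hA a ha).1 (by omega) hQ.2.1]
  -- the sum over `S`
  have h1 : ∑ a ∈ S, G a = ∑ a ∈ A, f a * Comp x h0 δ k a := by
    rw [hS, sum_biUnion]
    · refine sum_congr rfl fun a ha => ?_
      rw [sum_image]
      · unfold Comp
        rw [mul_sum]
        refine sum_congr rfl fun Q hQ => ?_
        simp only [hG]
        rw [hmul a ha Q hQ, mul_div_assoc]
      · intro Q _ Q' _ h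
        exact Nat.eq_of_mul_eq_mul_left (Nat.pos_of_ne_zero (hA a ha).1) h
    · intro a ha a' ha' hne
      rw [Function.onFun, Finset.disjoint_left]
      intro n hn hn'
      rw [mem_image] at hn hn'
      obtain ⟨Q, hQ, rfl⟩ := hn
      obtain ⟨Q', hQ', he⟩ := hn'
      rw [mem_QF] at hQ hQ'
      exact hne (Low_split_eq (hA a ha).1 (hA a' ha').1 (by omega) (by omega) (hA a ha).2 (hA a' ha').2
        hQ.2.1 hQ'.2.1 he.symm).1
  have hSm : ∀ n ∈ S, n = 1 ∨ As x δ th k n := by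
    intro n hn
    rw [hS, mem_biUnion] at hn
    obtain ⟨a, _, hn⟩ := hn
    rw [mem_image] at hn
    obtain ⟨Q, hQ, rfl⟩ := hn
    exact (mem_QF.mp hQ).2.2
  -- invisibility of the prime `b`
  have hinv : ∀ n : ℕ, (As x δ th k n ∨ n = 1) → ∀ b : ℕ, b.Prime → x + h0 < n * b → f (n * b) = f n := by
    intro n hn b hb hlt
    have hn0 : n ≠ 0 := by
      rintro rfl
      omega
    have h2 := Low_large hx hn (by omega : x < n * b)
    simp only [hf]
    rw [Low_LV_mul hx1 v hlen hn0 hb.ne_zero fun p hp => by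
      rw [hb.primeFactors, mem_singleton] at hp
      rw [hp]
      exact h2]
  have h2 := Low_D3 x h0 hx hh δ th k (S.erase 1)
    (fun a ha => (hSm a (mem_of_mem_erase ha)).resolve_left (ne_of_mem_erase ha)) f
    (fun m => sq_nonneg _)
    (fun a ha b hb hlt => hinv a (Or.inl ((hSm a (mem_of_mem_erase ha)).resolve_left
      (ne_of_mem_erase ha))) b hb hlt)
  have h3 := Low_prime_part x h0 f (fun b hb hlt => by
    have := hinv 1 (Or.inr rfl) b hb (by omega)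
    rwa [one_mul] at this)
  have h4 : ∑ a ∈ S, G a ≤ G 1 + ∑ a ∈ S.erase 1, G a := by
    by_cases h5 : 1 ∈ S
    · rw [add_sum_erase _ _ h5]
    · rw [erase_eq_of_notMem h5]
      have h6 : 0 ≤ G 1 := by
        have e1 : G 1 = f 1 * TS x h0 1 / Real.log (3 * x / ((1 : ℕ) : ℝ)) := by
          simp only [hG]
        rw [e1, ← h3]
        refine sum_nonneg fun p _ => mul_nonneg (div_nonneg (Real.log_natCast_nonneg _) ?_) (sq_nonneg _)
        apply Real.log_nonneg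
        have : (2 : ℝ) ≤ x := by exact_mod_cast hx
        linarith
      linarith
  rw [← h1]
  refine h4.trans ?_
  refine le_trans (le_of_eq ?_) h2
  rw [h3]

end Pool.Agent.Lib.MP_092512_nt.P5
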