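import Pool.Agent.Lib.MP_092512_nt.P5.EDefs
import Pool.Agent.Lib.MP_092512_nt.P5.Low

/-!
# P5.Fam: the families of the certificate and the lower bound for the mass of a line

`Fk k`: the family `Fm` of the boxes of `LF k`.  `Fk_val`: its value as a sum over the list.  `D_main`: the lower bound for
`∑_m ewk m LV(m)²` given the bounds for the completions.
-/

set_option autoImplicit false

open Finset Filter

namespace Pool.Agent.Lib.MP_092512_nt.P5

open Pool.Agent.Lib.SW Pool.Agent.Lib.MP_092512_nt.P3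

/-! ### the lists -/

/-- look up the second component -/
def lk : List (List ℕ × ℕ) → List ℕ → ℕ
  | [], _ => 0
  | e :: L, is => if e.1 = is then e.2 else lk L is

theorem lk_eq {L : List (List ℕ × ℕ)} (hn : (L.map Prod.fst).Nodup) {e : List ℕ × ℕ} (he : e ∈ L) :
    lk L e.1 = e.2 := by
  induction L with
  | nil => simp at he
  | cons a L ih =>
    rw [List.map_cons, List.nodup_cons] at hn
    rcases List.mem_cons.mp he with rfl | he'
    · simp [lk]
    · have : a.1 ≠ e.1 := by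
        intro h
        exact hn.1 (h ▸ List.mem_map_of_mem he')
      rw [lk, if_neg this]
      exact ih hn.2 he'

theorem sum_keys {L : List (List ℕ × ℕ)} (hn : (L.map Prod.fst).Nodup) (f : List ℕ → ℕ → ℝ) :
    ∑ is ∈ (L.map Prod.fst).toFinset, f is (lk L is) = (L.map (fun e => f e.1 e.2)).sum := by
  rw [List.sum_toFinset _ hn, List.map_map]
  congr 1
  apply List.map_congr_left
  intro e he
  simp only [Function.comp]
  rw [lk_eq hn he]

/-- the code of an index list -/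
def kcode (is : List ℕ) : ℕ := is.foldl (fun a i => 64 * a + (i + 1)) 0

/-- strictly increasing codes above `a` -/
def incr : ℕ → List (List ℕ × ℕ) → Bool
  | _, [] => true
  | a, e :: L => Nat.ble (a + 1) (kcode e.1 + 1) && incr (kcode e.1 + 1) L

theorem incr_lt {L : List (List ℕ × ℕ)} {a : ℕ} (h : incr a L = true) : ∀ e ∈ L, a ≤ kcode e.1 := by
  induction L generalizing a with
  | nil => simp
  | cons b L ih =>
    simp only [incr, Bool.and_eq_true, Nat.ble_eq] at h
    intro e he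
    rcases List.mem_cons.mp he with rfl | he
    · omega
    · have := ih h.2 e he
      omega

theorem incr_nodup {L : List (List ℕ × ℕ)} {a : ℕ} (h : incr a L = true) : (L.map Prod.fst).Nodup := by
  induction L generalizing a with
  | nil => simp
  | cons b L ih =>
    simp only [incr, Bool.and_eq_true, Nat.ble_eq] at h
    rw [List.map_cons, List.nodup_cons]
    refine ⟨fun hm => ?_, ih h.2⟩
    obtain ⟨e, he, heq⟩ := List.mem_map.mp hm
    have := incr_lt h.2 e he
    rw [heq] at this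
    omega

theorem nodup_LF3 : (LF3.map Prod.fst).Nodup := incr_nodup (a := 0) (by decide +kernel)

theorem nodup_LF4 : (LF4.map Prod.fst).Nodup := incr_nodup (a := 0) (by decide +kernel)

theorem nodup_LF (k : ℕ) : ((LF k).map Prod.fst).Nodup := by
  unfold LF
  split
  · exact nodup_LF3
  · exact nodup_LF4

/-- the conditions on an entry -/
def okB (e : List ℕ × ℕ) : Bool :=
  decide (e.1.Pairwise (· ≤ ·)) && e.1.all (fun j => Nat.ble (Pt e.1.length j + 1) (Pt e.1.length (j + 1)) &&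
    Nat.ble (Pt e.1.length (j + 1)) 60 &&
    Nat.ble (((bx e.1).map Prod.snd).sum + Pt e.1.length (j + 1)) 240) &&
    Nat.ble (((bx e.1).map Prod.snd).sum) 180 && decide (0 < (MI (bx e.1) 2401 10).1) &&
    decide (0 < (MI (bx e.1) 1 0).1) && Nat.ble e.1.length 4

theorem okB_LF3 : LF3.all okB = true := by decide +kernel

theorem okB_LF4 : LF4.all okB = true := by decide +kernel

theorem okB_LF (k : ℕ) : ∀ e ∈ LF k, okB e = true := by
  intro e he
  unfold LF at he
  split at he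
  · exact List.all_eq_true.mp okB_LF3 e he
  · exact List.all_eq_true.mp okB_LF4 e he

theorem okB_iff (e : List ℕ × ℕ) : okB e = true ↔ e.1.Pairwise (· ≤ ·) ∧
    (∀ j ∈ e.1, Pt e.1.length j < Pt e.1.length (j + 1) ∧ Pt e.1.length (j + 1) ≤ 60 ∧
      ((bx e.1).map Prod.snd).sum + Pt e.1.length (j + 1) ≤ 240) ∧
    ((bx e.1).map Prod.snd).sum ≤ 180 ∧ 0 < (MI (bx e.1) 2401 10).1 ∧ 0 < (MI (bx e.1) 1 0).1 ∧
    e.1.length ≤ 4 := by
  unfold okB
  simp only [Bool.and_eq_true, decide_eq_true_eq, List.all_eq_true, Nat.ble_eq, Nat.succ_le_iff]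
  constructor
  · rintro ⟨⟨⟨⟨⟨h1, h2⟩, h3⟩, h4⟩, h5⟩, h6⟩
    exact ⟨h1, fun j hj => ⟨(h2 j hj).1.1, (h2 j hj).1.2, (h2 j hj).2⟩, h3, h4, h5, h6⟩
  · rintro ⟨h1, h2, h3, h4, h5, h6⟩
    exact ⟨⟨⟨⟨⟨h1, fun j hj => ⟨⟨(h2 j hj).1, (h2 j hj).2.1⟩, (h2 j hj).2.2⟩⟩, h3⟩, h4⟩, h5⟩, h6⟩

/-! ### the grid -/

theorem Pt_zero (v : ℕ) : Pt v 0 = 1 := by
  unfold Pt
  split <;> rfl

theorem Pt_mono (v : ℕ) : Monotone (Pt v) := by
  have key : ∀ l : List ℕ, (∀ j < l.length, l.getD j 60 ≤ l.getD (j + 1) 60) → Monotone (fun j => l.getD j 60) := by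
    intro l h
    apply monotone_nat_of_le_succ
    intro j
    by_cases hj : j < l.length
    · exact h j hj
    · rw [List.getD_eq_default _ _ (by omega), List.getD_eq_default _ _ (by omega)]
  intro a b hab
  unfold Pt
  split
  · exact key _ (by decide) hab
  · exact key _ (by decide) hab
  · exact key _ (by decide) hab
  · omega

theorem et_pos : (0 : ℝ) < et := by unfold et; norm_num

/-- the grid -/
noncomputable def gE (v k : ℕ) : ℝ := (Pt v k : ℝ) * et

theorem cell_eq (is : List ℕ) : cellL (gE is.length) is = scL et (bx is) := by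
  unfold cellL scL bx gE
  rw [List.map_map]
  rfl

theorem sum_fst (is : List ℕ) : ((cellL (gE is.length) is).map Prod.fst).sum = (((bx is).map Prod.fst).sum : ℕ) * et := by
  rw [cell_eq]
  unfold scL
  rw [List.map_map]
  induction bx is with
  | nil => simp
  | cons a l ih =>
    simp only [List.map_cons, List.sum_cons, Function.comp] at ih ⊢
    rw [ih]
    push_cast
    ring

theorem sum_snd (is : List ℕ) : ((cellL (gE is.length) is).map Prod.snd).sum = (((bx is).map Prod.snd).sum : ℕ) * et := by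
  rw [cell_eq]
  unfold scL
  rw [List.map_map]
  induction bx is with
  | nil => simp
  | cons a l ih =>
    simp only [List.map_cons, List.sum_cons, Function.comp] at ih ⊢
    rw [ih]
    push_cast
    ring

theorem bx_fst_le (is : List ℕ) (h : ∀ j ∈ is, Pt is.length j < Pt is.length (j + 1)) :
    ((bx is).map Prod.fst).sum ≤ ((bx is).map Prod.snd).sum := by
  unfold bx
  rw [List.map_map, List.map_map]
  apply List.sum_le_sum
  intro j hj
  exact (h j hj).le

theorem ZW_pos (w : ℕ) (n : ℕ) (hn : n ≤ 180) : 0 < alW w - beW w * ((n : ℝ) * et) := by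
  unfold alW beW
  have het := et_pos
  split
  · have h1 : (n : ℝ) ≤ 180 := by exact_mod_cast hn
    have h2 : (n : ℝ) * et ≤ 180 * et := mul_le_mul_of_nonneg_right h1 het.le
    have h3 : 180 * et < 1 := by unfold et; norm_num
    linarith
  · rename_i hw
    have : (0 : ℝ) < w := by exact_mod_cast Nat.pos_of_ne_zero hw
    rw [zero_mul, sub_zero]
    positivity

theorem ZW_form (w : ℕ) (t : ℝ) : alW w - beW w * t =
    (if w = 0 then (1 : ℝ) / 2401 else et * 10 ^ 12 / w) * ((if w = 0 then (2401 : ℤ) else 1 : ℤ) : ℝ) -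
      (if w = 0 then (1 : ℝ) / 2401 else et * 10 ^ 12 / w) * ((if w = 0 then (10 : ℤ) else 0 : ℤ) : ℝ) / et * t := by
  unfold alW beW
  split
  · unfold et
    push_cast
    ring
  · push_cast
    ring

theorem TMW_pos (e : List ℕ × ℕ) (h1 : 0 < (MI (bx e.1) 2401 10).1) (h2 : 0 < (MI (bx e.1) 1 0).1) :
    0 < TM (scL et (bx e.1)) (fun t => alW e.2 - beW e.2 * t) 0 := by
  have het := et_pos
  have h3 : (fun t => alW e.2 - beW e.2 * t) = fun t =>
    (if e.2 = 0 then (1 : ℝ) / 2401 else et * 10 ^ 12 / e.2) * ((if e.2 = 0 then (2401 : ℤ) else 1 : ℤ) : ℝ) -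
      (if e.2 = 0 then (1 : ℝ) / 2401 else et * 10 ^ 12 / e.2) * ((if e.2 = 0 then (10 : ℤ) else 0 : ℤ) : ℝ) / et * t := by
    funext t
    exact ZW_form e.2 t
  rw [h3, E1_TM et _ het]
  split
  · have : (0 : ℝ) < ((MI (bx e.1) 2401 10).1 : ℝ) := by exact_mod_cast h1
    positivity
  · rename_i hw
    have hw' : (0 : ℝ) < e.2 := by exact_mod_cast Nat.pos_of_ne_zero hw
    have : (0 : ℝ) < ((MI (bx e.1) 1 0).1 : ℝ) := by exact_mod_cast h2
    positivity

theorem mem_keys {k : ℕ} {is : List ℕ} (h : is ∈ ((LF k).map Prod.fst).toFinset) :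
    (is, lk (LF k) is) ∈ LF k := by
  rw [List.mem_toFinset, List.mem_map] at h
  obtain ⟨e, he, rfl⟩ := h
  rw [lk_eq (nodup_LF k) he]
  exact he

/-- the family of the boxes of `LF k` -/
noncomputable def Fk (k : ℕ) : Fm where
  g := gE
  S := ((LF k).map Prod.fst).toFinset
  al := fun is => alW (lk (LF k) is)
  be := fun is => beW (lk (LF k) is)
  mono := fun v a b h => by
    unfold gE
    apply mul_le_mul_of_nonneg_right _ et_pos.le
    exact_mod_cast Pt_mono v h
  pos := fun v => by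
    unfold gE
    rw [Pt_zero, Nat.cast_one, one_mul]
    exact et_pos
  sorted := fun is h => ((okB_iff _).mp (okB_LF k _ (mem_keys h))).1
  le1 := fun is h j hj => by
    have h1 := (((okB_iff _).mp (okB_LF k _ (mem_keys h))).2.1 j hj).2.1
    unfold gE
    have h2 : (Pt is.length (j + 1) : ℝ) ≤ 60 := by exact_mod_cast h1
    have h3 : (Pt is.length (j + 1) : ℝ) * et ≤ 60 * et := mul_le_mul_of_nonneg_right h2 et_pos.le
    have h4 : 60 * et ≤ 1 := by unfold et; norm_num
    linarith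
  Z0 := fun is h => by
    obtain ⟨_, h1, h2, _⟩ := (okB_iff _).mp (okB_LF k _ (mem_keys h))
    rw [sum_fst]
    exact ZW_pos _ _ ((bx_fst_le is fun j hj => (h1 j hj).1).trans h2)
  Z1 := fun is h => by
    obtain ⟨_, h1, h2, _⟩ := (okB_iff _).mp (okB_LF k _ (mem_keys h))
    rw [sum_snd]
    exact ZW_pos _ _ h2
  J := fun is h => by
    obtain ⟨_, _, _, h3, h4, _⟩ := (okB_iff _).mp (okB_LF k _ (mem_keys h))
    rw [cell_eq]
    exact TMW_pos (is, lk (LF k) is) h3 h4

/-- the value of the family -/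
theorem Fk_val (k : ℕ) (len : ℕ) (v : ℕ → ℝ) : (Fk k).val et len v =
    ((LF k).map (fun e => 1 / (mulL e.1 : ℝ) * (TB (scL et (bx e.1)) (fun t => VV et len v 1 - VV et len v t) 0 ^ 2 /
      TM (scL et (bx e.1)) (fun t => alW e.2 - beW e.2 * t) 0))).sum := by
  rw [← sum_keys (nodup_LF k) (fun is w => 1 / (mulL is : ℝ) *
    (TB (scL et (bx is)) (fun t => VV et len v 1 - VV et len v t) 0 ^ 2 /
      TM (scL et (bx is)) (fun t => alW w - beW w * t) 0))]
  unfold Fm.val Fm.L
  simp only [Fk, cell_eq]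

/-! ### the line masses -/

theorem TS_nonneg (x h0 a : ℕ) : 0 ≤ TS x h0 a :=
  sum_nonneg fun b _ => Real.log_natCast_nonneg b

theorem Comp_nonneg {x : ℕ} (hx : 1 ≤ x) (h0 : ℕ) (δ : ℝ) (k a : ℕ) : 0 ≤ Comp x h0 δ k a := by
  unfold Comp
  refine sum_nonneg fun Q hQ => div_nonneg (TS_nonneg _ _ _) ?_
  obtain ⟨_, _, h⟩ := mem_QF.mp hQ
  have hx1 : (1 : ℝ) ≤ x := by exact_mod_cast hx
  rcases h with h | h
  · rw [h, Nat.cast_one, div_one]
    exact Real.log_nonneg (by linarith)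
  · have h0 : (0 : ℝ) < ((a * Q : ℕ) : ℝ) := by exact_mod_cast Nat.pos_of_ne_zero (As_ne_zero h)
    apply Real.log_nonneg
    rw [le_div_iff₀ h0, one_mul]
    have h1 := h.2.2.2.1
    have h2 : (x : ℝ) ^ (3 * th / 4) ≤ x := by
      calc (x : ℝ) ^ (3 * th / 4) ≤ (x : ℝ) ^ (1 : ℝ) :=
            Real.rpow_le_rpow_of_exponent_le hx1 (by unfold th; norm_num)
        _ = x := Real.rpow_one _
    linarith

/-- the elements of the box -/
theorem box_primes {x : ℕ} (hx : 1 ≤ x) {k : ℕ} {is : List ℕ} (h : is ∈ (Fk k).S) {l : List ℕ}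
    (hl : l ∈ boxL x ((Fk k).L is)) : l.prod ≠ 0 ∧ ∀ p ∈ l.prod.primeFactors, (p : ℝ) ≤ (x : ℝ) ^ (60 * et) := by
  have hp := B6_prime hl
  have h0 : l.prod ≠ 0 := List.prod_ne_zero fun h => Nat.not_prime_zero (hp 0 h)
  refine ⟨h0, fun p hpp => ?_⟩
  have hpr := Nat.prime_of_mem_primeFactors hpp
  have hpd := Nat.dvd_of_mem_primeFactors hpp
  obtain ⟨q, hq, hpq⟩ := (Prime.dvd_prod_iff hpr.prime).mp hpd
  have hpq' : p = q := (Nat.prime_dvd_prime_iff_eq hpr (hp q hq)).mp hpq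
  subst hpq'
  have h1 := mem_boxL.mp hl
  obtain ⟨I, hI, hpI⟩ : ∃ I ∈ (Fk k).L is, p ∈ PP x I.1 I.2 := by
    clear hl hp h0 hpp hpd
    revert h1 hq
    generalize (Fk k).L is = L
    intro hq h1
    induction h1 with
    | nil => simp at hq
    | cons h2 h3 ih =>
      rcases List.mem_cons.mp hq with rfl | hq
      · exact ⟨_, List.mem_cons_self, h2⟩
      · obtain ⟨I, hI, hpI⟩ := ih hq
        exact ⟨I, List.mem_cons_of_mem _ hI, hpI⟩
  obtain ⟨j, hj, rfl⟩ := List.mem_map.mp hI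
  have h2 := (((okB_iff _).mp (okB_LF k _ (mem_keys h))).2.1 j hj).2.1
  refine (mem_PP.mp hpI).2.2.trans ?_
  apply Real.rpow_le_rpow_of_exponent_le (by exact_mod_cast hx)
  show gE is.length (j + 1) ≤ _
  unfold gE
  apply mul_le_mul_of_nonneg_right _ et_pos.le
  exact_mod_cast h2

/-- **the masses of the lines** -/
theorem D_main (k : ℕ)
    (hD2 : ∀ h0 : ℕ, ∀ e ∈ LF k, ∀ ε : ℝ, 0 < ε → ∀ᶠ x : ℕ in atTop, ∀ l ∈ boxL x (scL et (bx e.1)), l.Nodup →
      x / Real.log x * (1 / (l.prod : ℝ) * (1 / (alW e.2 - beW e.2 * sL x l) - ε)) ≤ Comp x h0 de k l.prod) :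
    ∀ B h0 : ℕ, 3 ≤ B → ∀ s < 58, ∀ ε : ℝ, 0 < ε → ∃ x₀ : ℕ, ∀ x : ℕ, x₀ ≤ x →
      x / Real.log x * ((Fk k).val et (58 - s) (fun u => (Gf (s + u) : ℝ)) - ε) ≤
        ∑ m ∈ Ioc (x + h0) (2 * x + h0),
          ewk x de th k m * LV x (zB B x) et (58 - s) (fun u => (Gf (s + u) : ℝ)) m ^ 2 := by
  intro B h0 hB s hs ε hε
  have hlen : (((58 - s : ℕ)) : ℝ) * et ≤ 1 / 3 := by
    have h1 : (((58 - s : ℕ)) : ℝ) ≤ 58 := by exact_mod_cast (by omega : 58 - s ≤ 58)
    have h2 : (((58 - s : ℕ)) : ℝ) * et ≤ 58 * et := mul_le_mul_of_nonneg_right h1 et_pos.le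
    have h3 : 58 * et ≤ 1 / 3 := by unfold et; norm_num
    linarith
  obtain ⟨ε', hε', hev⟩ := B7_fam (Fk k) B hB et et_pos (58 - s) (fun u => (Gf (s + u) : ℝ)) hlen ε hε
  have hall : ∀ᶠ x : ℕ in atTop, ∀ is ∈ (Fk k).S, ∀ l ∈ boxL x ((Fk k).L is), l.Nodup → x / Real.log x *
      (1 / (l.prod : ℝ) * (1 / ((Fk k).al is - (Fk k).be is * sL x l) - ε')) ≤ Comp x h0 de k l.prod := by
    rw [eventually_all_finset]
    intro is his
    have h1 := hD2 h0 _ (mem_keys his) ε' hε'
    have h2 : (Fk k).L is = scL et (bx is) := cell_eq is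
    rw [h2]
    exact h1
  obtain ⟨x₀, hx₀⟩ := eventually_atTop.mp (hev.and hall)
  refine ⟨max x₀ (max 2 h0), fun x hx => ?_⟩
  have hx2 : 2 ≤ x := le_trans (le_max_left _ _) (le_trans (le_max_right _ _) hx)
  have hxh : h0 ≤ x := le_trans (le_max_right _ _) (le_trans (le_max_right _ _) hx)
  obtain ⟨h1, h2⟩ := hx₀ x (le_trans (le_max_left _ _) hx)
  have h3 := h1 (Comp x h0 de k) (Comp_nonneg (by omega) h0 de k) h2
  refine h3.trans ?_
  refine split_lower x h0 (zB B x) hx2 hxh de k (58 - s) (by omega) _ ((Fk k).AS x) ?_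
  intro a ha
  unfold Fm.AS at ha
  rw [mem_biUnion] at ha
  obtain ⟨is, his, ha⟩ := ha
  unfold prodF at ha
  rw [mem_image] at ha
  obtain ⟨l, hl, rfl⟩ := ha
  rw [mem_filter] at hl
  exact box_primes (by omega) his hl.1

end Pool.Agent.Lib.MP_092512_nt.P5
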