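import Pool.Agent.Lib.MP_092512_nt.P5.CompB
import Pool.Agent.Lib.MP_092512_nt.P5.WK
import Pool.Agent.Lib.MP_092512_nt.P5.Fam

/-!
# P5-D2: the completions of the boxes of the certificate
-/

set_option autoImplicit false
set_option linter.constructorNameAsVariable false

open Finset Filter

namespace Pool.Agent.Lib.MP_092512_nt.P5

open Pool.Agent.Lib.SW Pool.Agent.Lib.MP_092512_nt.P3

/-- the check of an entry -/
def okD (k : ℕ) (e : List ℕ × ℕ) : Bool :=
  Nat.ble e.1.length k && (Nat.beq e.2 0 ||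
    (if e.1 = [] then Nat.ble e.2 9332743881 else
      Nat.ble (e.1.length + 1) k &&
      Nat.ble ((((bx e.1).map Prod.fst).sum) + 1) (((bx e.1).map Prod.snd).sum) &&
      rchk (min 2 (k - e.1.length)) (((bx e.1).map Prod.fst).sum) (((bx e.1).map Prod.snd).sum) e.2))

theorem okD_LF3 : LF3.all (okD 3) = true := by decide +kernel

theorem okD_LF4 : LF4.all (okD 4) = true := by decide +kernel

theorem okD_LF (k : ℕ) (hk : k = 3 ∨ k = 4) : ∀ e ∈ LF k, okD k e = true := by
  intro e he
  rcases hk with rfl | rfl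
  · have h1 : LF 3 = LF3 := rfl
    rw [h1] at he
    exact List.all_eq_true.mp okD_LF3 e he
  · have h1 : LF 4 = LF4 := rfl
    rw [h1] at he
    exact List.all_eq_true.mp okD_LF4 e he

theorem okD_iff (k : ℕ) (e : List ℕ × ℕ) : okD k e = true ↔ e.1.length ≤ k ∧ (e.2 = 0 ∨
    (if e.1 = [] then e.2 ≤ 9332743881 else e.1.length < k ∧
      ((bx e.1).map Prod.fst).sum < ((bx e.1).map Prod.snd).sum ∧
      rchk (min 2 (k - e.1.length)) (((bx e.1).map Prod.fst).sum) (((bx e.1).map Prod.snd).sum) e.2 = true)) := by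
  unfold okD
  rw [Bool.and_eq_true, Bool.or_eq_true, Nat.ble_eq, Nat.beq_eq]
  by_cases h : e.1 = []
  · rw [if_pos h, if_pos h, Nat.ble_eq]
  · rw [if_neg h, if_neg h, Bool.and_eq_true, Bool.and_eq_true, Nat.ble_eq, Nat.ble_eq, and_assoc, Nat.succ_le_iff,
      Nat.succ_le_iff]

private theorem D2_w (w κ j J : ℕ) (h : (w : ℝ) ≤ 4000000000000 * wY κ j J) :
    (w : ℝ) / (et * 10 ^ 12) ≤ wY κ j J / tau := by
  have het := et_pos
  rw [show tau = et / 4 from rfl, div_le_div_iff₀ (by positivity) (by positivity)]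
  have h1 : (w : ℝ) * (et / 4) ≤ 4000000000000 * wY κ j J * (et / 4) :=
    mul_le_mul_of_nonneg_right h (by positivity)
  refine h1.trans (le_of_eq ?_)
  ring

/-- **completions** -/
theorem D2 (k : ℕ) (hk : k = 3 ∨ k = 4) (h0 : ℕ) : ∀ e ∈ LF k, ∀ ε : ℝ, 0 < ε → ∀ᶠ x : ℕ in atTop,
    ∀ l ∈ boxL x (scL et (bx e.1)), l.Nodup →
      x / Real.log x * (1 / (l.prod : ℝ) * (1 / (alW e.2 - beW e.2 * sL x l) - ε)) ≤ Comp x h0 de k l.prod := by
  intro e he ε hε
  have het := et_pos
  have h1 := (okD_iff k e).mp (okD_LF k hk e he)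
  have h2 := (okB_iff e).mp (okB_LF k e he)
  obtain ⟨hlen, hw⟩ := h1
  obtain ⟨_, hPt, hs, _, _, _⟩ := h2
  have hbxlen : (bx e.1).length = e.1.length := by
    unfold bx
    rw [List.length_map]
  have hslen : (scL et (bx e.1)).length = e.1.length := by
    unfold scL
    rw [List.length_map, hbxlen]
  have hI : ∀ I ∈ scL et (bx e.1), de ≤ I.1 ∧ I.2 ≤ 60 * et := by
    intro I hI
    unfold scL bx at hI
    rw [List.map_map, List.mem_map] at hI
    obtain ⟨j, hj, rfl⟩ := hI
    simp only [Function.comp]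
    have h3 : (1 : ℝ) ≤ Pt e.1.length j := by
      have h4 : 1 ≤ Pt e.1.length j := by
        have := Pt_mono e.1.length (Nat.zero_le j)
        rwa [Pt_zero] at this
      exact_mod_cast h4
    have h5 : ((Pt e.1.length (j + 1) : ℕ) : ℝ) ≤ 60 := by exact_mod_cast (hPt j hj).2.1
    constructor
    · have h6 : 1 * et ≤ (Pt e.1.length j : ℝ) * et := mul_le_mul_of_nonneg_right h3 het.le
      have h7 : de ≤ 1 * et := by unfold de et; norm_num
      exact h7.trans h6
    · exact mul_le_mul_of_nonneg_right h5 het.le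
  have hde : de ≤ 60 * et := by unfold de et; norm_num
  have hfst : ((scL et (bx e.1)).map Prod.fst).sum = (((bx e.1).map Prod.fst).sum : ℕ) * et := by
    rw [← cell_eq, sum_fst]
  have hsnd : ((scL et (bx e.1)).map Prod.snd).sum = (((bx e.1).map Prod.snd).sum : ℕ) * et := by
    rw [← cell_eq, sum_snd]
  have hs' : ((scL et (bx e.1)).map Prod.snd).sum ≤ 180 * et := by
    rw [hsnd]
    apply mul_le_mul_of_nonneg_right _ het.le
    exact_mod_cast hs
  rcases hw with hw | hw
  · filter_upwards [comp_box_lin h0 ε hε] with x hx l hl hn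
    have h3 := hx de k (scL et (bx e.1)) (by omega) hI hs' l hl hn
    have h4 : alW e.2 = 1 := by unfold alW; rw [if_pos hw]
    have h5 : beW e.2 = 1 := by unfold beW; rw [if_pos hw]
    rw [h4, h5]
    exact h3
  · by_cases hw0 : e.2 = 0
    · filter_upwards [comp_box_lin h0 ε hε] with x hx l hl hn
      have h3 := hx de k (scL et (bx e.1)) (by omega) hI hs' l hl hn
      have h4 : alW e.2 = 1 := by unfold alW; rw [if_pos hw0]
      have h5 : beW e.2 = 1 := by unfold beW; rw [if_pos hw0]
      rw [h4, h5]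
      exact h3
    have h4 : alW e.2 = et * 10 ^ 12 / e.2 := by unfold alW; rw [if_neg hw0]
    have h5 : beW e.2 = 0 := by unfold beW; rw [if_neg hw0]
    have h6 : ∀ t : ℝ, 1 / (alW e.2 - beW e.2 * t) = (e.2 : ℝ) / (et * 10 ^ 12) := by
      intro t
      rw [h4, h5, zero_mul, sub_zero, one_div_div]
    by_cases hnil : e.1 = []
    · rw [if_pos hnil] at hw
      have h7 : (e.2 : ℝ) ≤ 4000000000000 * wY 2 0 0 := by
        have h8 : (e.2 : ℝ) ≤ 9332743881 := by exact_mod_cast hw
        exact h8.trans WK_zero_wY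
      filter_upwards [comp_one h0 de hde k 2 (by omega) ε hε, eventually_ge_atTop 2] with x hx hx2 l hl hn
      rw [hnil] at hl
      have h8 : l = [] := by
        simpa [bx, scL, boxL] using hl
      rw [h8, h6]
      simp only [List.prod_nil, Nat.cast_one, div_one, one_mul]
      refine le_trans ?_ hx
      have hx1 : (1 : ℝ) < x := by
        have : (2 : ℝ) ≤ x := by exact_mod_cast hx2
        linarith
      have hLo : 0 < Real.log x := Real.log_pos hx1
      apply mul_le_mul_of_nonneg_left _ (by positivity)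
      exact sub_le_sub_right (D2_w _ _ _ _ h7) _
    · rw [if_neg hnil] at hw
      obtain ⟨hw1, hw2, hw3⟩ := hw
      have hκ : min 2 (k - e.1.length) = 1 ∨ min 2 (k - e.1.length) = 2 := by omega
      have h7 := WK_range hκ hw3
      have h8 := comp_box_const h0 de hde k (min 2 (k - e.1.length)) (scL et (bx e.1)) (by omega) hI
        (((bx e.1).map Prod.fst).sum) (((bx e.1).map Prod.snd).sum) (le_of_eq hfst.symm) (le_of_eq hsnd)
        hw2 hs ((e.2 : ℝ) / (et * 10 ^ 12)) (fun j hj => D2_w _ _ _ _ (h7 j hj)) ε hε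
      filter_upwards [h8] with x hx l hl hn
      rw [h6]
      exact hx l hl hn

end Pool.Agent.Lib.MP_092512_nt.P5
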