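import Pool.Agent.Lib.MP_092512_nt.P5.A4

/-!
# P5: the sieve weights of the theorem `(P_1, P_4, P_5, P_5)`

`Kc i c`: the number of cells of the coordinate `0` used by the `i`-th weight; `T i = {c : c 1 + c 2 + c 3 ≤ 57, c 0 < Kc i c}`,
`a i x z c = G (c 1 + c 2 + c 3) / Kc i c * rho x z (c 0)`, `rho x z j = et / lamC x z et j 1 → 1`.
`hid_dat`: if all prime factors of `n + h 0` are `> x^(1/4)` then all `WW i n` agree.
-/

set_option autoImplicit false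

open Finset Filter

open scoped ArithmeticFunction.Moebius

namespace Pool.Agent.Lib.MP_092512_nt.P5

open Pool.Agent.Lib.SW Pool.Agent.Lib.MP_092512_nt.P3

private theorem D1_et : (0 : ℝ) < et := by unfold et; norm_num

/-! ### the sets -/

def Kc (i : Fin 4) (c : Fin 4 → ℕ) : ℕ := ![1, 58 - (c 2 + c 3), 58 - (c 1 + c 3), 58 - (c 1 + c 2)] i

def Kb (i : Fin 4) (b : Fin 3 → ℕ) : ℕ := ![1, 58 - (b 1 + b 2), 58 - (b 0 + b 2), 58 - (b 0 + b 1)] i

def lenT (i : Fin 4) (b : Fin 3 → ℕ) : ℕ := if i = 0 then 1 else 58 - (b 1 + b 2)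

@[irreducible] def boxD : Finset (Fin 4 → ℕ) := Fintype.piFinset (fun _ : Fin 4 => range 60)

@[irreducible] def setT (i : Fin 4) : Finset (Fin 4 → ℕ) := boxD.filter (fun c => c 1 + c 2 + c 3 ≤ 57 ∧ c 0 < Kc i c)

@[irreducible] def BN : Finset (Fin 3 → ℕ) :=
  (Fintype.piFinset (fun _ : Fin 3 => range 60)).filter (fun b => b 0 + b 1 + b 2 < 58)

theorem mem_BN (b : Fin 3 → ℕ) : b ∈ BN ↔ b 0 + b 1 + b 2 < 58 := by
  unfold BN
  rw [mem_filter, Fintype.mem_piFinset]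
  refine ⟨fun h => h.2, fun h => ⟨fun j => ?_, h⟩⟩
  rw [mem_range]
  fin_cases j <;> simp <;> omega

theorem ins0 (u : ℕ) (b : Fin 3 → ℕ) : ins 0 u b = ![u, b 0, b 1, b 2] := by
  funext j; fin_cases j <;> rfl

theorem ins1 (u : ℕ) (b : Fin 3 → ℕ) : ins 1 u b = ![b 0, u, b 1, b 2] := by
  funext j; fin_cases j <;> rfl

theorem ins2 (u : ℕ) (b : Fin 3 → ℕ) : ins 2 u b = ![b 0, b 1, u, b 2] := by
  funext j; fin_cases j <;> rfl

theorem ins3 (u : ℕ) (b : Fin 3 → ℕ) : ins 3 u b = ![b 0, b 1, b 2, u] := by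
  funext j; fin_cases j <;> rfl

theorem mem_setT (i : Fin 4) (c : Fin 4 → ℕ) : c ∈ setT i ↔ c 1 + c 2 + c 3 ≤ 57 ∧ c 0 < Kc i c := by
  unfold setT boxD
  rw [mem_filter, Fintype.mem_piFinset]
  refine ⟨fun h => h.2, fun h => ⟨fun j => ?_, h⟩⟩
  have hK : Kc i c ≤ 58 := by
    unfold Kc
    fin_cases i <;> simp
  obtain ⟨h1, h2⟩ := h
  rw [mem_range]
  fin_cases j <;> simp <;> omega

theorem hT_dat (i : Fin 4) (b : Fin 3 → ℕ) (u : ℕ) : ins i u b ∈ setT i ↔ b ∈ BN ∧ u < lenT i b := by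
  rw [mem_setT, mem_BN]
  fin_cases i
  · simp only [ins0, Kc, lenT, Fin.zero_eta, Fin.isValue, Matrix.cons_val_zero, Matrix.cons_val_one,
      Matrix.cons_val, if_true]
    omega
  · simp only [ins1, Kc, lenT, Fin.mk_one, Fin.isValue, Matrix.cons_val_zero, Matrix.cons_val_one,
      Matrix.cons_val, one_ne_zero, if_false]
    omega
  · simp only [Fin.reduceFinMk, ins2, Kc, lenT, Fin.isValue, Matrix.cons_val_zero, Matrix.cons_val_one,
      Matrix.cons_val, Fin.reduceEq, if_false]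
    omega
  · simp only [Fin.reduceFinMk, ins3, Kc, lenT, Fin.isValue, Matrix.cons_val_zero, Matrix.cons_val_one,
      Matrix.cons_val, Fin.reduceEq, if_false]
    omega

theorem coord_dat (i : Fin 4) (c : Fin 4 → ℕ) (hc : c ∈ setT i) (j : Fin 4) : c j ≤ 59 := by
  unfold setT boxD at hc
  rw [mem_filter, Fintype.mem_piFinset] at hc
  have := mem_range.1 (hc.1 j)
  omega

theorem level_dat (i : Fin 4) (c : Fin 4 → ℕ) (hc : c ∈ setT i) : ∑ j ∈ univ.erase i, (c j + 1) ≤ 60 := by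
  rw [mem_setT] at hc
  obtain ⟨h1, h2⟩ := hc
  have h3 := add_sum_erase univ (fun j => c j + 1) (mem_univ i)
  rw [Fin.sum_univ_four] at h3
  unfold Kc at h2
  fin_cases i
  · simp at h2 h3 ⊢
    omega
  · simp at h2 h3 ⊢
    omega
  · simp at h2 h3 ⊢
    omega
  · simp at h2 h3 ⊢
    omega

theorem all_dat (i : Fin 4) (c : Fin 4 → ℕ) (hc : c ∈ setT i) : ∑ j, (c j + 1) ≤ 118 := by
  rw [mem_setT] at hc
  obtain ⟨h1, h2⟩ := hc
  have hK : Kc i c ≤ 58 := by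
    unfold Kc
    fin_cases i <;> simp
  rw [Fin.sum_univ_four]
  omega

theorem Kc_ins0 (i : Fin 4) (u : ℕ) (b : Fin 3 → ℕ) : Kc i (ins 0 u b) = Kb i b := by
  rw [ins0]
  fin_cases i <;> rfl

/-- `T i` is also a union of lines in direction `0` -/
theorem mem_setT_ins0 (i : Fin 4) (b : Fin 3 → ℕ) (u : ℕ) : ins 0 u b ∈ setT i ↔ b ∈ BN ∧ u < Kb i b := by
  rw [mem_setT, mem_BN, Kc_ins0, ins0]
  simp only [Fin.isValue, Matrix.cons_val_zero, Matrix.cons_val_one, Matrix.cons_val]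
  omega

theorem Kb_pos (i : Fin 4) (b : Fin 3 → ℕ) (hb : b ∈ BN) : 0 < Kb i b := by
  rw [mem_BN] at hb
  unfold Kb
  fin_cases i <;> simp <;> omega

theorem setT_sum0 (i : Fin 4) (F : (Fin 4 → ℕ) → ℝ) :
    ∑ c ∈ setT i, F c = ∑ b ∈ BN, ∑ u ∈ range (Kb i b), F (ins 0 u b) := by
  have hins : ∀ c : Fin 4 → ℕ, ins 0 (c 0) ((0 : Fin 4).removeNth c) = c :=
    fun c => Fin.insertNth_self_removeNth 0 c
  have hrem : ∀ (u : ℕ) (b : Fin 3 → ℕ), (0 : Fin 4).removeNth (ins 0 u b) = b := fun u b => by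
    unfold ins
    exact Fin.removeNth_insertNth _ _ _
  have hsame : ∀ (u : ℕ) (b : Fin 3 → ℕ), ins 0 u b 0 = u := fun u b => by
    unfold ins
    exact Fin.insertNth_apply_same _ _ _
  rw [sum_sigma']
  refine sum_bij' (i := fun c _ => (⟨(0 : Fin 4).removeNth c, c 0⟩ : Σ _ : Fin 3 → ℕ, ℕ))
    (j := fun p _ => ins 0 p.2 p.1) ?_ ?_ ?_ ?_ ?_
  · intro c hc
    rw [mem_sigma, mem_range]
    exact (mem_setT_ins0 i ((0 : Fin 4).removeNth c) (c 0)).1 (by rw [hins]; exact hc)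
  · intro p hp
    rw [mem_sigma, mem_range] at hp
    exact (mem_setT_ins0 i p.1 p.2).2 hp
  · intro c hc
    exact hins c
  · intro p hp
    obtain ⟨b, u⟩ := p
    simp only
    rw [hrem, hsame]
  · intro c hc
    rw [hins]

/-! ### the coefficients -/

noncomputable def rho (x z j : ℕ) : ℝ := et / lamC x z et j 1

noncomputable def fG (G : ℕ → ℝ) (i : Fin 4) (c : Fin 4 → ℕ) : ℝ := G (c 1 + c 2 + c 3) / Kc i c

theorem lamC_one (B : ℕ) (hB : 3 ≤ B) (ε : ℝ) (hε : 0 < ε) : ∃ x₀ : ℕ, ∀ x : ℕ, x₀ ≤ x → ∀ j ≤ 59,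
    |lamC x (zB B x) et j 1 - et| ≤ ε := by
  obtain ⟨x4, hx4⟩ := eventually_atTop.1 (C4_lamS_asymp B hB (ε / 2) (by linarith))
  refine ⟨x4, fun x hx j hj => ?_⟩
  have hj' : (j : ℝ) ≤ 59 := by exact_mod_cast hj
  have hj0 : (0 : ℝ) ≤ j := Nat.cast_nonneg _
  have h0 : 0 ≤ ((j : ℝ) + 1) * et := mul_nonneg (by linarith) D1_et.le
  have h0' : 0 ≤ (j : ℝ) * et := mul_nonneg hj0 D1_et.le
  have h1 : ((j : ℝ) + 1) * et ≤ 1 := by
    calc ((j : ℝ) + 1) * et ≤ 60 * et := mul_le_mul_of_nonneg_right (by linarith) D1_et.le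
      _ ≤ 1 := by unfold et; norm_num
  have h1' : (j : ℝ) * et ≤ 1 := by
    calc (j : ℝ) * et ≤ ((j : ℝ) + 1) * et := mul_le_mul_of_nonneg_right (by linarith) D1_et.le
      _ ≤ 1 := h1
  have a1 := hx4 x hx (((j : ℝ) + 1) * et) h0 h1 1 squarefree_one (Nat.coprime_one_left _)
  have a2 := hx4 x hx ((j : ℝ) * et) h0' h1' 1 squarefree_one (Nat.coprime_one_left _)
  simp only [ArithmeticFunction.moebius_apply_one, Int.cast_one, Nat.cast_one, Real.log_one, zero_div, sub_zero,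
    one_mul, max_eq_right h0, max_eq_right h0'] at a1 a2
  unfold lamC
  rw [abs_le] at a1 a2 ⊢
  constructor <;> linarith [a1.1, a1.2, a2.1, a2.2]

theorem rho_asymp (B : ℕ) (hB : 3 ≤ B) (ε : ℝ) (hε : 0 < ε) : ∃ x₀ : ℕ, ∀ x : ℕ, x₀ ≤ x → ∀ j ≤ 59,
    lamC x (zB B x) et j 1 ≠ 0 ∧ |rho x (zB B x) j - 1| ≤ ε := by
  obtain ⟨x₀, h⟩ := lamC_one B hB (min (et / 2) (et / 2 * ε)) (lt_min (by linarith [D1_et])
    (mul_pos (by linarith [D1_et]) hε))
  refine ⟨x₀, fun x hx j hj => ?_⟩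
  have h1 := h x hx j hj
  have h2 := h1.trans (min_le_left _ _)
  have h3 := h1.trans (min_le_right _ _)
  have h4 : et / 2 ≤ lamC x (zB B x) et j 1 := by
    have := (abs_le.1 h2).1
    linarith
  have h5 : 0 < lamC x (zB B x) et j 1 := by linarith [D1_et]
  refine ⟨h5.ne', ?_⟩
  unfold rho
  rw [div_sub_one h5.ne', abs_div, abs_of_pos h5, div_le_iff₀ h5, abs_sub_comm]
  refine h3.trans ?_
  rw [mul_comm ε]
  exact mul_le_mul_of_nonneg_right h4 hε.le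

noncomputable def dat (G : ℕ → ℝ) : Dat where
  T := setT
  B := fun _ => BN
  len := lenT
  a := fun i x z c => fG G i c * rho x z (c 0)
  f := fG G
  hT := hT_dat
  coord := coord_dat
  level := level_dat
  all := all_dat
  lim := by
    intro B hB ε hε
    set M : ℝ := ∑ i, ∑ c ∈ setT i, |fG G i c| + 1 with hM
    have hM0 : 0 < M := by
      have : 0 ≤ ∑ i, ∑ c ∈ setT i, |fG G i c| :=
        sum_nonneg fun i _ => sum_nonneg fun c _ => abs_nonneg _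
      rw [hM]; linarith
    obtain ⟨x₀, h⟩ := rho_asymp B hB (ε / M) (div_pos hε hM0)
    refine ⟨x₀, fun x hx i c hc => ?_⟩
    have h1 := (h x hx (c 0) (coord_dat i c hc 0)).2
    have h2 : |fG G i c| ≤ M := by
      have e1 : |fG G i c| ≤ ∑ c ∈ setT i, |fG G i c| :=
        single_le_sum (f := fun c => |fG G i c|) (fun _ _ => abs_nonneg _) hc
      have e2 : ∑ c ∈ setT i, |fG G i c| ≤ ∑ i, ∑ c ∈ setT i, |fG G i c| :=
        single_le_sum (f := fun i => ∑ c ∈ setT i, |fG G i c|)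
          (fun _ _ => sum_nonneg fun _ _ => abs_nonneg _) (mem_univ i)
      rw [hM]; linarith
    have e : fG G i c * rho x (zB B x) (c 0) - fG G i c = fG G i c * (rho x (zB B x) (c 0) - 1) := by ring
    rw [e, abs_mul]
    calc |fG G i c| * |rho x (zB B x) (c 0) - 1| ≤ M * (ε / M) :=
          mul_le_mul h2 h1 (abs_nonneg _) hM0.le
      _ = ε := by field_simp

/-! ### the weights agree -/

/-- for a number without prime factor `≤ x^(1/4)` the weight `LC_j`, `j ≤ 59`, is `lamC 1` -/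
theorem LC_rough (x z j m : ℕ) (hx : 1 ≤ x) (hj : j ≤ 59) (hm : m ≠ 0)
    (hr : ∀ p ∈ m.primeFactors, (x : ℝ) ^ (1 / 4 : ℝ) < p) : LC x z et j m = lamC x z et j 1 := by
  unfold LC
  have h1 : (1 : ℕ) ∈ m.divisors := Nat.one_mem_divisors.2 hm
  rw [← add_sum_erase _ _ h1]
  have h2 : ∑ d ∈ m.divisors.erase 1, lamC x z et j d = 0 := by
    refine sum_eq_zero fun d hd => ?_
    have hd1 := ne_of_mem_erase hd
    have hdm := Nat.dvd_of_mem_divisors (mem_of_mem_erase hd)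
    obtain ⟨p, hp, hpd⟩ := Nat.exists_prime_and_dvd hd1
    have hd0 : d ≠ 0 := fun h => hm (by rw [h] at hdm; exact Nat.eq_zero_of_zero_dvd hdm)
    have hpm : p ∈ m.primeFactors := Nat.mem_primeFactors.2 ⟨hp, hpd.trans hdm, hm⟩
    have hple : (p : ℝ) ≤ d := by exact_mod_cast Nat.le_of_dvd (Nat.pos_of_ne_zero hd0) hpd
    have hlt : (x : ℝ) ^ (1 / 4 : ℝ) < d := lt_of_lt_of_le (hr p hpm) hple
    have hx1 : (1 : ℝ) ≤ x := by exact_mod_cast hx
    by_contra hne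
    have h3 := (C3_lamC_support hx D1_et hne).2.2
    have hj' : (j : ℝ) ≤ 59 := by exact_mod_cast hj
    have h4 : ((j : ℝ) + 1) * et ≤ 1 / 4 := by
      calc ((j : ℝ) + 1) * et ≤ 60 * et := mul_le_mul_of_nonneg_right (by linarith) D1_et.le
        _ ≤ 1 / 4 := by unfold et; norm_num
    have h5 := Real.rpow_le_rpow_of_exponent_le hx1 h4
    linarith
  rw [h2, add_zero]

theorem WW_dat (G : ℕ → ℝ) (h : Fin 4 → ℕ) (x z n : ℕ) (i : Fin 4) (hx : 1 ≤ x) (hn : n + h 0 ≠ 0)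
    (hr : ∀ p ∈ (n + h 0).primeFactors, (x : ℝ) ^ (1 / 4 : ℝ) < p)
    (hl : ∀ j ≤ 59, lamC x z et j 1 ≠ 0) :
    WW (dat G) h x z i n = ∑ b ∈ BN, et * G (b 0 + b 1 + b 2) *
      (LC x z et (b 0) (n + h 1) * LC x z et (b 1) (n + h 2) * LC x z et (b 2) (n + h 3)) := by
  have e0 : WW (dat G) h x z i n = ∑ c ∈ setT i, fG G i c * rho x z (c 0) * PL h x z c n := rfl
  rw [e0, setT_sum0]
  refine sum_congr rfl fun b hb => ?_
  have hK := Kb_pos i b hb
  have hK' : (0 : ℝ) < Kb i b := by exact_mod_cast hK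
  have h1 : ∀ u ∈ range (Kb i b), fG G i (ins 0 u b) * rho x z (ins 0 u b 0) * PL h x z (ins 0 u b) n =
      et * G (b 0 + b 1 + b 2) / Kb i b *
      (LC x z et (b 0) (n + h 1) * LC x z et (b 1) (n + h 2) * LC x z et (b 2) (n + h 3)) := by
    intro u hu
    have hmem : ins 0 u b ∈ setT i := (mem_setT_ins0 i b u).2 ⟨hb, mem_range.1 hu⟩
    have hu59 : u ≤ 59 := by
      have := coord_dat i _ hmem 0
      rw [ins0] at this
      exact this
    unfold fG PL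
    rw [Kc_ins0, ins0]
    rw [Fin.prod_univ_four]
    simp only [Fin.isValue, Matrix.cons_val_zero, Matrix.cons_val_one, Matrix.cons_val]
    rw [LC_rough x z u (n + h 0) hx hu59 hn hr]
    unfold rho
    have h2 := hl u hu59
    field_simp
  rw [sum_congr rfl h1, sum_const, card_range, nsmul_eq_mul]
  field_simp

theorem hid_dat (G : ℕ → ℝ) (w : Fin 4 → ℕ → ℕ → ℝ)
    (hw0 : ∃ x₀ : ℕ, ∀ x : ℕ, x₀ ≤ x → ∀ m : ℕ, x < m → m ≤ 3 * x → w 0 x m ≠ 0 →
      ∀ p ∈ m.primeFactors, (x : ℝ) ^ (1 / 4 : ℝ) < p) :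
    ∀ (h : Fin 4 → ℕ) (B : ℕ), 3 ≤ B → ∃ x₀ : ℕ, ∀ x : ℕ, x₀ ≤ x → ∀ n ∈ Nn h x (zB B x),
      w 0 x (n + h 0) ≠ 0 → ∀ i, WW (dat G) h x (zB B x) i n = WW (dat G) h x (zB B x) 0 n := by
  intro h B hB
  obtain ⟨x1, hx1⟩ := hw0
  obtain ⟨x2, hx2⟩ := rho_asymp B hB 1 one_pos
  refine ⟨max (max x1 x2) (max 1 (h 0)), fun x hx n hn hne i => ?_⟩
  simp only [max_le_iff] at hx
  obtain ⟨⟨k1, k2⟩, k3, k4⟩ := hx
  have hn' := mem_Ioc.1 (mem_filter.1 hn).1
  have hr := hx1 x k1 (n + h 0) (by omega) (by omega) hne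
  rw [WW_dat G h x (zB B x) n i k3 (by omega) hr fun j hj => (hx2 x k2 j hj).1,
    WW_dat G h x (zB B x) n 0 k3 (by omega) hr fun j hj => (hx2 x k2 j hj).1]

end Pool.Agent.Lib.MP_092512_nt.P5
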