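import Pool.Agent.Lib.MP_092512_nt.P3.Defs

/-!
# P5: the minorant of the indicator of the products of at most `k + 1` primes

`As x δ θ k a`: squarefree `a` with `1, ..., k` prime factors, all `> x^δ`, `a P⁺(a) ≤ x^θ` and `a ≤ x^(3 θ/4)`.
`ewk x δ θ k m`: the minorant of the indicator of the products of at most `k + 1` primes; `k = 0`: the primes.
-/

set_option autoImplicit false

open Finset

namespace Pool.Agent.Lib.MP_092512_nt.P5

open Pool.Agent.Lib.SW Pool.Agent.Lib.MP_092512_nt.P3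

def As (x : ℕ) (δ θ : ℝ) (k a : ℕ) : Prop :=
  Squarefree a ∧ 1 ≤ a.primeFactors.card ∧ a.primeFactors.card ≤ k ∧ (a : ℝ) ≤ (x : ℝ) ^ (3 * θ / 4) ∧
    ∀ p ∈ a.primeFactors, (x : ℝ) ^ δ < p ∧ (a : ℝ) * p ≤ (x : ℝ) ^ θ

open Classical in
/-- minorant of the indicator of the numbers with at most `k + 1` prime factors, all `> x^δ` -/
noncomputable def ewk (x : ℕ) (δ θ : ℝ) (k m : ℕ) : ℝ :=
  (if m.Prime then Real.log m / Real.log (3 * x) else 0) +
    ∑ b ∈ m.primeFactors.filter (fun b => As x δ θ k (m / b)),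
      Real.log b / Real.log (3 * x / ((m / b : ℕ) : ℝ))

theorem As_ne_zero {x : ℕ} {δ θ : ℝ} {k a : ℕ} (h : As x δ θ k a) : a ≠ 0 := by
  rintro rfl
  have := h.2.1
  simp at this

/-- the large prime is larger than the other ones -/
theorem As_lt {x : ℕ} {δ θ : ℝ} {k a b m : ℕ} (hθ : θ ≤ 1) (hx : 1 ≤ x) (hm : x < m) (hab : a * b = m)
    (h : As x δ θ k a) {p : ℕ} (hp : p ∈ a.primeFactors) : p < b := by
  have hx1 : (1 : ℝ) ≤ x := by exact_mod_cast hx
  have h1 := (h.2.2.2.2 p hp).2
  have h2 : (x : ℝ) ^ θ ≤ x := by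
    calc (x : ℝ) ^ θ ≤ (x : ℝ) ^ (1 : ℝ) := Real.rpow_le_rpow_of_exponent_le hx1 hθ
      _ = x := Real.rpow_one _
  have h3 : (x : ℝ) < a * b := by
    rw [← Nat.cast_mul, hab]
    exact_mod_cast hm
  have ha : (0 : ℝ) < a := by exact_mod_cast Nat.pos_of_ne_zero (As_ne_zero h)
  have h4 : (a : ℝ) * p < a * b := by linarith
  have h5 : (p : ℝ) < b := lt_of_mul_lt_mul_left h4 ha.le
  exact_mod_cast h5

/-- there is at most one representation -/
theorem ewk_unique {x : ℕ} {δ θ : ℝ} {k m : ℕ} (hθ : θ ≤ 1) (hx : 1 ≤ x) (hm : x < m) {b b' : ℕ}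
    (hb : b ∈ m.primeFactors) (hb' : b' ∈ m.primeFactors) (h : As x δ θ k (m / b))
    (h' : As x δ θ k (m / b')) : b = b' := by
  have key : ∀ c c' : ℕ, c ∈ m.primeFactors → c' ∈ m.primeFactors → As x δ θ k (m / c) → c' ≤ c := by
    intro c c' hc hc' hA
    have hcp := Nat.prime_of_mem_primeFactors hc
    have hcp' := Nat.prime_of_mem_primeFactors hc'
    have hcm := Nat.dvd_of_mem_primeFactors hc
    have hcm' := Nat.dvd_of_mem_primeFactors hc'
    have hab : m / c * c = m := Nat.div_mul_cancel hcm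
    have h1 : c' ∣ m / c * c := by rw [hab]; exact hcm'
    rcases (Nat.Prime.dvd_mul hcp').1 h1 with h2 | h2
    · have h3 : c' ∈ (m / c).primeFactors := Nat.mem_primeFactors.2 ⟨hcp', h2, As_ne_zero hA⟩
      exact (As_lt hθ hx hm hab hA h3).le
    · exact Nat.le_of_dvd hcp.pos h2
  exact le_antisymm (key b' b hb' hb h') (key b b' hb hb' h)

/-- elementary properties of the minorant -/
theorem ewk_bound (δ θ : ℝ) (hd1 : δ ≤ 1) (hθ : θ ≤ 1) (k : ℕ) : ∀ x : ℕ, 2 ≤ x → ∀ m : ℕ,
    x < m → m ≤ 3 * x → 0 ≤ ewk x δ θ k m ∧ ewk x δ θ k m ≤ 1 ∧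
      (ewk x δ θ k m ≠ 0 → Squarefree m ∧ m.primeFactors.card ≤ k + 1 ∧
        ∀ p ∈ m.primeFactors, (x : ℝ) ^ δ < p) := by
  classical
  intro x hx m hm hm3
  have hx0 : (0 : ℝ) < x := by exact_mod_cast (by omega : 0 < x)
  have hx1 : (1 : ℝ) ≤ x := by exact_mod_cast (by omega : 1 ≤ x)
  have hxm : (x : ℝ) < m := by exact_mod_cast hm
  have hm3' : (m : ℝ) ≤ 3 * x := by exact_mod_cast hm3
  have hm0 : (0 : ℝ) < m := by linarith
  have hlog3 : 0 < Real.log (3 * x) := Real.log_pos (by linarith)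
  have hxd : (x : ℝ) ^ δ ≤ x := by
    calc (x : ℝ) ^ δ ≤ (x : ℝ) ^ (1 : ℝ) := Real.rpow_le_rpow_of_exponent_le hx1 hd1
      _ = x := Real.rpow_one _
  -- the terms of the sum
  have hterm : ∀ b ∈ m.primeFactors, As x δ θ k (m / b) →
      0 ≤ Real.log b / Real.log (3 * x / ((m / b : ℕ) : ℝ)) ∧
        Real.log b / Real.log (3 * x / ((m / b : ℕ) : ℝ)) ≤ 1 := by
    intro b hb hA
    have hbp := Nat.prime_of_mem_primeFactors hb
    have hab : m / b * b = m := Nat.div_mul_cancel (Nat.dvd_of_mem_primeFactors hb)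
    have ha0 : (0 : ℝ) < ((m / b : ℕ) : ℝ) := by exact_mod_cast Nat.pos_of_ne_zero (As_ne_zero hA)
    have hb1 : (1 : ℝ) < b := by exact_mod_cast hbp.one_lt
    have h1 : (b : ℝ) ≤ 3 * x / ((m / b : ℕ) : ℝ) := by
      rw [le_div_iff₀ ha0, mul_comm, ← Nat.cast_mul, hab]
      exact hm3'
    have h2 : Real.log b ≤ Real.log (3 * x / ((m / b : ℕ) : ℝ)) := Real.log_le_log (by linarith) h1
    have h3 : 0 < Real.log b := Real.log_pos hb1
    constructor
    · exact div_nonneg h3.le (h3.le.trans h2)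
    · rw [div_le_one (h3.trans_le h2)]
      exact h2
  by_cases hp : m.Prime
  · have hempty : m.primeFactors.filter (fun b => As x δ θ k (m / b)) = ∅ := by
      rw [hp.primeFactors, filter_eq_empty_iff]
      intro b hb hA
      rw [mem_singleton] at hb
      rw [hb, Nat.div_self hp.pos] at hA
      have := hA.2.1
      simp at this
    have he : ewk x δ θ k m = Real.log m / Real.log (3 * x) := by
      unfold ewk
      rw [if_pos hp, hempty, sum_empty, add_zero]
    rw [he]
    refine ⟨div_nonneg (Real.log_nonneg (by linarith)) hlog3.le, ?_, fun _ => ⟨hp.squarefree, ?_, ?_⟩⟩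
    · rw [div_le_one hlog3]
      exact Real.log_le_log hm0 hm3'
    · rw [hp.primeFactors, card_singleton]
      omega
    · intro p hpm
      rw [hp.primeFactors, mem_singleton] at hpm
      rw [hpm]
      exact hxd.trans_lt hxm
  · by_cases hex : ∃ b ∈ m.primeFactors, As x δ θ k (m / b)
    · obtain ⟨b, hb, hA⟩ := hex
      have hsing : m.primeFactors.filter (fun b => As x δ θ k (m / b)) = {b} := by
        ext c
        rw [mem_filter, mem_singleton]
        constructor
        · rintro ⟨h1, h2⟩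
          exact ewk_unique hθ (by omega) hm h1 hb h2 hA
        · rintro rfl
          exact ⟨hb, hA⟩
      have he : ewk x δ θ k m = Real.log b / Real.log (3 * x / ((m / b : ℕ) : ℝ)) := by
        unfold ewk
        rw [if_neg hp, hsing, sum_singleton, zero_add]
      rw [he]
      refine ⟨(hterm b hb hA).1, (hterm b hb hA).2, fun _ => ?_⟩
      have hbp := Nat.prime_of_mem_primeFactors hb
      have hab : m / b * b = m := Nat.div_mul_cancel (Nat.dvd_of_mem_primeFactors hb)
      have hcop : Nat.Coprime (m / b) b := by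
        refine ((Nat.Prime.coprime_iff_not_dvd hbp).2 fun h => ?_).symm
        exact lt_irrefl b (As_lt hθ (by omega) hm hab hA
          (Nat.mem_primeFactors.2 ⟨hbp, h, As_ne_zero hA⟩))
      have hpf : m.primeFactors = insert b (m / b).primeFactors := by
        conv_lhs => rw [← hab]
        rw [hcop.primeFactors_mul, hbp.primeFactors, union_comm]
        rfl
      refine ⟨?_, ?_, ?_⟩
      · rw [← hab]
        exact (Nat.squarefree_mul hcop).2 ⟨hA.1, hbp.squarefree⟩
      · rw [hpf]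
        exact (card_insert_le _ _).trans (by have := hA.2.2.1; omega)
      · intro p hpm
        rw [hpf, mem_insert] at hpm
        rcases hpm with rfl | hpm
        · obtain ⟨q, hq⟩ := card_pos.mp (Nat.lt_of_lt_of_le Nat.zero_lt_one hA.2.1)
          have h1 := (hA.2.2.2.2 q hq).1
          have h2 : (q : ℝ) < p := by exact_mod_cast As_lt hθ (by omega) hm hab hA hq
          exact h1.trans h2
        · exact (hA.2.2.2.2 p hpm).1
    · have hempty : m.primeFactors.filter (fun b => As x δ θ k (m / b)) = ∅ := by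
        rw [filter_eq_empty_iff]
        intro b hb hA
        exact hex ⟨b, hb, hA⟩
      have he : ewk x δ θ k m = 0 := by
        unfold ewk
        rw [if_neg hp, hempty, sum_empty, add_zero]
      rw [he]
      exact ⟨le_rfl, zero_le_one, fun h => absurd rfl h⟩

end Pool.Agent.Lib.MP_092512_nt.P5
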