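import Pool.Agent.Lib.MP_092512_nt.P5.BDefs

/-!
# P5.E1: closed forms of the box integrals for boxes with integer endpoints (times `η`)

`TB L g = R g 0 s L` where `g_(k+1)' = g_k` and `R k s (I :: L) = (b - a) R k s L - R (k+1) (s+b) L + R (k+1) (s+a) L`.
For `g_0 = VV η len v` all iterated primitives are truncated powers, and the value is `η^(n+1)/(n+1)!` times an integer
combination of the `v x`.
-/

set_option autoImplicit false

open Finset MeasureTheory

namespace Pool.Agent.Lib.MP_092512_nt.P5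

open Pool.Agent.Lib.MP_092512_nt.P3

/-- the recursion for the box integral of the alternating differences -/
noncomputable def RR (g : ℕ → ℝ → ℝ) : List (ℝ × ℝ) → ℕ → ℝ → ℝ
  | [], k, s => g k s
  | I :: L, k, s => (I.2 - I.1) * RR g L k s - RR g L (k + 1) (s + I.2) + RR g L (k + 1) (s + I.1)

theorem RR_deriv (g : ℕ → ℝ → ℝ) (hg : ∀ k s, HasDerivAt (g (k + 1)) (g k s) s) (L : List (ℝ × ℝ)) (k : ℕ) (s : ℝ) :
    HasDerivAt (RR g L (k + 1)) (RR g L k s) s := by
  induction L generalizing k s with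
  | nil => exact hg k s
  | cons I L ih =>
    have h1 := (ih k s).const_mul (I.2 - I.1)
    have h2 : HasDerivAt (fun t => RR g L (k + 1 + 1) (t + I.2)) (RR g L (k + 1) (s + I.2)) s :=
      (ih (k + 1) (s + I.2)).comp_add_const s I.2
    have h3 : HasDerivAt (fun t => RR g L (k + 1 + 1) (t + I.1)) (RR g L (k + 1) (s + I.1)) s :=
      (ih (k + 1) (s + I.1)).comp_add_const s I.1
    exact (h1.sub h2).add h3

theorem RR_cont (g : ℕ → ℝ → ℝ) (hg : ∀ k s, HasDerivAt (g (k + 1)) (g k s) s) (hc : Continuous (g 0))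
    (L : List (ℝ × ℝ)) (k : ℕ) : Continuous (RR g L k) := by
  have hk : ∀ k, Continuous (g k) := by
    intro k
    cases k with
    | zero => exact hc
    | succ k => exact continuous_iff_continuousAt.2 fun s => (hg k s).continuousAt
  induction L generalizing k with
  | nil => exact hk k
  | cons I L ih =>
    have h1 := ih k
    have h2 := ih (k + 1)
    have e1 : Continuous (fun s => (I.2 - I.1) * RR g L k s) := continuous_const.mul h1
    have e2 : Continuous (fun s => RR g L (k + 1) (s + I.2)) := h2.comp (continuous_id.add continuous_const)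
    have e3 : Continuous (fun s => RR g L (k + 1) (s + I.1)) := h2.comp (continuous_id.add continuous_const)
    exact (e1.sub e2).add e3

theorem TB_eq_RR (g : ℕ → ℝ → ℝ) (hg : ∀ k s, HasDerivAt (g (k + 1)) (g k s) s) (hc : Continuous (g 0))
    (L : List (ℝ × ℝ)) (k : ℕ) (s : ℝ) : TB L (g k) s = RR g L k s := by
  induction L generalizing k s with
  | nil => rfl
  | cons I L ih =>
    have e1 : TB (I :: L) (g k) s = ∫ u in I.1..I.2, (RR g L k s - RR g L k (s + u)) := by
      unfold TB
      simp only [TK]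
      apply intervalIntegral.integral_congr
      intro u _
      have h1 := ih k s
      have h2 := ih k (s + u)
      unfold TB at h1 h2
      simp only
      rw [h1, h2]
      ring
    rw [e1]
    have hcont := RR_cont g hg hc L k
    have hcont' : Continuous (fun u => RR g L k (s + u)) := hcont.comp (continuous_const.add continuous_id)
    rw [intervalIntegral.integral_sub intervalIntegrable_const (hcont'.intervalIntegrable _ _)]
    rw [intervalIntegral.integral_const]
    have e2 : ∫ u in I.1..I.2, RR g L k (s + u) = RR g L (k + 1) (s + I.2) - RR g L (k + 1) (s + I.1) := by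
      have h3 : ∀ u ∈ Set.uIcc I.1 I.2, HasDerivAt (fun t => RR g L (k + 1) (s + t)) (RR g L k (s + u)) u := by
        intro u _
        exact (RR_deriv g hg L k (s + u)).comp_const_add s u
      exact intervalIntegral.integral_eq_sub_of_hasDerivAt h3 (hcont'.intervalIntegrable _ _)
    rw [e2]
    simp only [RR, smul_eq_mul]
    ring

/-- constants disappear -/
theorem TB_const_sub (c : ℝ) (f : ℝ → ℝ) (L : List (ℝ × ℝ)) (s : ℝ) :
    TB L (fun t => c - f t) s = (if L = [] then c else 0) - TB L f s := by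
  induction L generalizing s with
  | nil => simp [TB, TK]
  | cons I L ih =>
    rw [if_neg (by simp)]
    unfold TB at ih ⊢
    simp only [TK]
    rw [zero_sub, ← intervalIntegral.integral_neg]
    apply intervalIntegral.integral_congr
    intro u _
    simp only
    rw [ih s, ih (s + u)]
    ring

/-- the positive part powers -/
noncomputable def hk (k : ℕ) (y : ℝ) : ℝ := (max y 0 ^ k - max (y - 1) 0 ^ k) / (k.factorial : ℝ)

theorem hasDerivAt_pospow (k : ℕ) (y : ℝ) : HasDerivAt (fun t : ℝ => max t 0 ^ (k + 2)) ((k + 2 : ℝ) * max y 0 ^ (k + 1)) y := by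
  rcases lt_trichotomy y 0 with h | h | h
  · have h1 : (fun t : ℝ => max t 0 ^ (k + 2)) =ᶠ[nhds y] fun _ => 0 := by
      filter_upwards [Iio_mem_nhds h] with t ht
      rw [max_eq_right (le_of_lt ht)]
      simp
    rw [max_eq_right h.le]
    have h2 : (k + 2 : ℝ) * 0 ^ (k + 1) = 0 := by simp
    rw [h2]
    exact (hasDerivAt_const y (0 : ℝ)).congr_of_eventuallyEq h1
  · subst h
    rw [max_self]
    have h2 : (k + 2 : ℝ) * 0 ^ (k + 1) = 0 := by simp
    rw [h2, hasDerivAt_iff_isLittleO]
    simp only [sub_zero, max_self, smul_zero]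
    have h3 : (0 : ℝ) ^ (k + 2) = 0 := by simp
    rw [h3]
    simp only [sub_zero]
    rw [Asymptotics.isLittleO_iff]
    intro c hc
    have h4 : ∀ᶠ t : ℝ in nhds 0, |t| < min c 1 := by
      have : (0 : ℝ) < min c 1 := lt_min hc one_pos
      filter_upwards [Metric.ball_mem_nhds (0 : ℝ) this] with t ht
      simpa [Real.dist_eq] using ht
    filter_upwards [h4] with t ht
    rw [Real.norm_eq_abs, Real.norm_eq_abs]
    have h5 : max t 0 ≤ |t| := max_le (le_abs_self t) (abs_nonneg t)
    have h6 : 0 ≤ max t 0 := le_max_right _ _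
    rw [abs_of_nonneg (pow_nonneg h6 _)]
    have h7 : max t 0 ^ (k + 2) ≤ |t| ^ (k + 2) := pow_le_pow_left₀ h6 h5 _
    have h8 : |t| ^ (k + 2) = |t| ^ k * |t| * |t| := by ring
    have h9 : |t| ^ k ≤ 1 := pow_le_one₀ (abs_nonneg t) (ht.trans_le (min_le_right _ _)).le
    have h10 : |t| ≤ c := (ht.trans_le (min_le_left _ _)).le
    calc max t 0 ^ (k + 2) ≤ |t| ^ k * |t| * |t| := by rw [← h8]; exact h7
      _ ≤ 1 * c * |t| := by gcongr
      _ = c * |t| := by ring
  · have h1 : (fun t : ℝ => max t 0 ^ (k + 2)) =ᶠ[nhds y] fun t => t ^ (k + 2) := by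
      filter_upwards [Ioi_mem_nhds h] with t ht
      rw [max_eq_left (le_of_lt ht)]
    rw [max_eq_left h.le]
    have h2 := hasDerivAt_pow (k + 2) y
    have h3 : ((k + 2 : ℕ) : ℝ) * y ^ (k + 2 - 1) = (k + 2 : ℝ) * y ^ (k + 1) := by
      push_cast
      rfl
    rw [h3] at h2
    exact h2.congr_of_eventuallyEq h1

/-- the iterated primitives of `VV` -/
noncomputable def GG (η : ℝ) (len : ℕ) (v : ℕ → ℝ) (k : ℕ) (s : ℝ) : ℝ :=
  ∑ x ∈ range len, v x * (η ^ (k + 1) * hk (k + 1) (s / η - x))

theorem hk_deriv (η : ℝ) (hη : 0 < η) (x : ℝ) (k : ℕ) (s : ℝ) :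
    HasDerivAt (fun t => η ^ (k + 2) * hk (k + 2) (t / η - x)) (η ^ (k + 1) * hk (k + 1) (s / η - x)) s := by
  have h0 : HasDerivAt (fun t : ℝ => t / η - x) (1 / η) s := ((hasDerivAt_id s).div_const η).sub_const x
  have h0' : HasDerivAt (fun t : ℝ => t / η - x - 1) (1 / η) s := h0.sub_const 1
  have h1 := (hasDerivAt_pospow k (s / η - x)).comp s h0
  have h2 := (hasDerivAt_pospow k (s / η - x - 1)).comp s h0'
  have h3 := ((h1.sub h2).div_const (((k + 2).factorial : ℕ) : ℝ)).const_mul (η ^ (k + 2))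
  have e1 : η ^ (k + 1) * hk (k + 1) (s / η - x) = η ^ (k + 2) *
      (((k + 2 : ℝ) * max (s / η - x) 0 ^ (k + 1) * (1 / η) - (k + 2 : ℝ) * max (s / η - x - 1) 0 ^ (k + 1) * (1 / η)) /
        (((k + 2).factorial : ℕ) : ℝ)) := by
    unfold hk
    have hf : (((k + 1 + 1).factorial : ℕ) : ℝ) = (k + 2) * (((k + 1).factorial : ℕ) : ℝ) := by
      rw [Nat.factorial_succ (k + 1)]
      push_cast
      ring
    have hf' : (((k + 2).factorial : ℕ) : ℝ) = (k + 2) * (((k + 1).factorial : ℕ) : ℝ) := hf
    rw [hf']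
    have hf0 : (((k + 1).factorial : ℕ) : ℝ) ≠ 0 := by exact_mod_cast (Nat.factorial_pos _).ne'
    have hk0 : (k + 2 : ℝ) ≠ 0 := by positivity
    generalize max (s / η - x) 0 ^ (k + 1) = A
    generalize max (s / η - x - 1) 0 ^ (k + 1) = B
    rw [pow_succ η (k + 1)]
    field_simp
  rw [e1]
  exact h3

theorem GG_deriv (η : ℝ) (hη : 0 < η) (len : ℕ) (v : ℕ → ℝ) (k : ℕ) (s : ℝ) :
    HasDerivAt (GG η len v (k + 1)) (GG η len v k s) s := by
  unfold GG
  apply HasDerivAt.fun_sum
  intro x _
  exact (hk_deriv η hη x k s).const_mul (v x)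

theorem GG_zero (η : ℝ) (hη : 0 < η) (len : ℕ) (v : ℕ → ℝ) (s : ℝ) : GG η len v 0 s = VV η len v s := by
  unfold GG VV
  apply sum_congr rfl
  intro x _
  congr 1
  unfold hk cl
  simp only [zero_add, pow_one, Nat.factorial_one, Nat.cast_one, div_one]
  have e1 : s / η - x = (s - x * η) / η := by field_simp
  have e2 : s / η - x - 1 = (s - x * η - η) / η := by field_simp
  rw [e2, e1]
  have e3 : ∀ t : ℝ, η * max (t / η) 0 = max t 0 := by
    intro t
    have h1 : η * (t / η) = t := by field_simp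
    rw [mul_max_of_nonneg _ _ hη.le, h1, mul_zero]
  rw [mul_sub, e3, e3]
  set t := s - x * η
  rcases le_total t 0 with h | h
  · rw [max_eq_right h, max_eq_right (by linarith), min_eq_left hη.le]
    ring
  · rw [max_eq_left h]
    rcases le_total t η with h' | h'
    · rw [max_eq_right (by linarith), min_eq_left h']
      ring
    · rw [max_eq_left (by linarith), min_eq_right h']
      ring

/-- real version of the recursion, integer end points -/
noncomputable def RJ : List (ℕ × ℕ) → ℕ → ℕ → ℕ → ℝ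
  | [], k, y, x => hk (k + 1) ((y : ℝ) - x)
  | I :: L, k, y, x => ((I.2 : ℝ) - I.1) * RJ L k y x - RJ L (k + 1) (y + I.2) x + RJ L (k + 1) (y + I.1) x

/-- the box with the end points multiplied by `η` -/
noncomputable def scL (η : ℝ) (L : List (ℕ × ℕ)) : List (ℝ × ℝ) := L.map fun I => ((I.1 : ℝ) * η, (I.2 : ℝ) * η)

theorem RR_GG (η : ℝ) (hη : 0 < η) (len : ℕ) (v : ℕ → ℝ) (L : List (ℕ × ℕ)) (k y : ℕ) :
    RR (GG η len v) (scL η L) k (y * η) = ∑ x ∈ range len, v x * (η ^ (k + 1 + L.length) * RJ L k y x) := by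
  induction L generalizing k y with
  | nil =>
    simp only [scL, List.map_nil, RR, GG, List.length_nil, add_zero, RJ]
    apply sum_congr rfl
    intro x _
    have : (y : ℝ) * η / η = y := by field_simp
    rw [this]
  | cons I L ih =>
    have e0 : scL η (I :: L) = ((I.1 : ℝ) * η, (I.2 : ℝ) * η) :: scL η L := rfl
    rw [e0]
    simp only [RR]
    have e1 : (y : ℝ) * η + (I.2 : ℝ) * η = ((y + I.2 : ℕ) : ℝ) * η := by push_cast; ring
    have e2 : (y : ℝ) * η + (I.1 : ℝ) * η = ((y + I.1 : ℕ) : ℝ) * η := by push_cast; ring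
    rw [e1, e2, ih, ih, ih, mul_sum, ← sum_sub_distrib, ← sum_add_distrib]
    apply sum_congr rfl
    intro x _
    simp only [RJ, List.length_cons]
    ring

/-- the integer recursion; `n` is the number of the intervals -/
def RI (n : ℕ) : List (ℕ × ℕ) → ℕ → ℕ → ℕ → ℤ
  | [], k, y, x => (((n + 1).factorial / (k + 1).factorial : ℕ) : ℤ) *
      (((y - x : ℕ) : ℤ) ^ (k + 1) - ((y - x - 1 : ℕ) : ℤ) ^ (k + 1))
  | I :: L, k, y, x => ((I.2 : ℤ) - I.1) * RI n L k y x - RI n L (k + 1) (y + I.2) x + RI n L (k + 1) (y + I.1) x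

theorem RI_eq (n : ℕ) (L : List (ℕ × ℕ)) (k y x : ℕ) (hn : k + L.length ≤ n) :
    (RI n L k y x : ℝ) = ((n + 1).factorial : ℝ) * RJ L k y x := by
  induction L generalizing k y with
  | nil =>
    simp only [List.length_nil, add_zero] at hn
    simp only [RI, RJ, hk]
    have h1 : (((n + 1).factorial / (k + 1).factorial : ℕ) : ℝ) = ((n + 1).factorial : ℝ) / ((k + 1).factorial : ℝ) :=
      Nat.cast_div (Nat.factorial_dvd_factorial (by omega)) (by exact_mod_cast (Nat.factorial_pos _).ne')
    have h2 : (((y - x : ℕ) : ℤ) : ℝ) = max ((y : ℝ) - x) 0 := by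
      rcases le_total y x with h | h
      · have h3 : (y : ℝ) ≤ x := by exact_mod_cast h
        rw [Nat.sub_eq_zero_of_le h, max_eq_right (by linarith)]
        simp
      · have h3 : (x : ℝ) ≤ y := by exact_mod_cast h
        rw [max_eq_left (by linarith)]
        push_cast [Nat.cast_sub h]
        ring
    have h4 : (((y - x - 1 : ℕ) : ℤ) : ℝ) = max ((y : ℝ) - x - 1) 0 := by
      rcases le_total y (x + 1) with h | h
      · have h3 : (y : ℝ) ≤ x + 1 := by exact_mod_cast h
        have h5 : y - x - 1 = 0 := by omega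
        rw [h5, max_eq_right (by linarith)]
        simp
      · have h3 : (x : ℝ) + 1 ≤ y := by exact_mod_cast h
        have h5 : y - x - 1 = y - (x + 1) := by omega
        rw [h5, max_eq_left (by linarith)]
        push_cast [Nat.cast_sub h]
        ring
    rw [Int.cast_mul, Int.cast_sub, Int.cast_pow, Int.cast_pow, h2, h4, Int.cast_natCast, h1]
    ring
  | cons I L ih =>
    simp only [List.length_cons] at hn
    simp only [RI, RJ]
    push_cast
    rw [ih k y (by omega), ih (k + 1) (y + I.2) (by omega), ih (k + 1) (y + I.1) (by omega)]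
    ring

/-- closed form of the box integral -/
theorem E1_TB (η : ℝ) (hη : 0 < η) (len : ℕ) (v : ℕ → ℝ) (c : ℝ) (L : List (ℕ × ℕ)) (hL : L ≠ []) :
    TB (scL η L) (fun s => c - VV η len v s) 0 =
      -(η ^ (L.length + 1) / ((L.length + 1).factorial : ℝ) * ∑ x ∈ range len, v x * (RI L.length L 0 0 x : ℝ)) := by
  rw [TB_const_sub, if_neg (by simpa [scL] using hL), zero_sub]
  congr 1
  have h1 : (VV η len v) = GG η len v 0 := by
    funext s
    rw [GG_zero η hη]
  have h2 : TB (scL η L) (GG η len v 0) 0 = RR (GG η len v) (scL η L) 0 0 := by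
    apply TB_eq_RR _ (GG_deriv η hη len v)
    rw [← h1]
    unfold VV cl
    fun_prop
  have h3 := RR_GG η hη len v L 0 0
  rw [Nat.cast_zero, zero_mul] at h3
  rw [h1, h2, h3, mul_sum]
  apply sum_congr rfl
  intro x _
  rw [RI_eq L.length L 0 0 x (by omega)]
  have hf : (((L.length + 1).factorial : ℕ) : ℝ) ≠ 0 := by exact_mod_cast (Nat.factorial_pos _).ne'
  field_simp
  ring

/-- the same for a list of length `0` -/
theorem E1_TB_nil (η : ℝ) (f : ℝ → ℝ) : TB (scL η []) f 0 = f 0 := rfl

/-- the pair recursion for linear functions -/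
noncomputable def MP : List (ℝ × ℝ) → ℝ → ℝ → ℝ × ℝ
  | [], al, be => (al, be)
  | I :: L, al, be => ((MP L al be).1 * ((I.2 ^ 2 - I.1 ^ 2) / 2) - (MP L al be).2 * ((I.2 ^ 3 - I.1 ^ 3) / 3),
      (MP L al be).2 * ((I.2 ^ 2 - I.1 ^ 2) / 2))

theorem TM_linear (L : List (ℝ × ℝ)) (al be s : ℝ) :
    TM L (fun t => al - be * t) s = (MP L al be).1 - (MP L al be).2 * s := by
  induction L generalizing s with
  | nil => rfl
  | cons I L ih =>
    have e1 : TM (I :: L) (fun t => al - be * t) s =
        ∫ u in I.1..I.2, (((MP L al be).1 - (MP L al be).2 * s) * u - (MP L al be).2 * u ^ 2) := by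
      unfold TM at ih ⊢
      simp only [TK]
      apply intervalIntegral.integral_congr
      intro u _
      simp only
      rw [ih (s + u)]
      ring
    rw [e1, intervalIntegral.integral_sub (Continuous.intervalIntegrable (by fun_prop) _ _)
      (Continuous.intervalIntegrable (by fun_prop) _ _), intervalIntegral.integral_const_mul,
      intervalIntegral.integral_const_mul, integral_id, integral_pow]
    simp only [MP]
    push_cast
    ring

/-- the integer pair recursion, for `6^n` times the integral -/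
def MI : List (ℕ × ℕ) → ℤ → ℤ → ℤ × ℤ
  | [], A, B => (A, B)
  | I :: L, A, B => ((MI L A B).1 * (3 * ((I.2 : ℤ) ^ 2 - (I.1 : ℤ) ^ 2)) - (MI L A B).2 * (2 * ((I.2 : ℤ) ^ 3 - (I.1 : ℤ) ^ 3)),
      (MI L A B).2 * (3 * ((I.2 : ℤ) ^ 2 - (I.1 : ℤ) ^ 2)))

theorem MP_scL (η c : ℝ) (hη : 0 < η) (L : List (ℕ × ℕ)) (A B : ℤ) :
    (MP (scL η L) (c * A) (c * B / η)).1 = c * (η ^ 2 / 6) ^ L.length * ((MI L A B).1 : ℝ) ∧
    (MP (scL η L) (c * A) (c * B / η)).2 = c / η * (η ^ 2 / 6) ^ L.length * ((MI L A B).2 : ℝ) := by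
  induction L with
  | nil =>
    simp only [scL, List.map_nil, MP, MI, List.length_nil, pow_zero]
    constructor <;> ring
  | cons I L ih =>
    have e0 : scL η (I :: L) = ((I.1 : ℝ) * η, (I.2 : ℝ) * η) :: scL η L := rfl
    rw [e0]
    simp only [MP, MI, List.length_cons]
    rw [ih.1, ih.2]
    push_cast
    constructor
    · rw [pow_succ]
      field_simp
      ring
    · rw [pow_succ]
      field_simp
      ring

/-- closed form of the linear integral -/
theorem E1_TM (η c : ℝ) (hη : 0 < η) (L : List (ℕ × ℕ)) (A B : ℤ) :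
    TM (scL η L) (fun t => c * A - c * B / η * t) 0 = c * (η ^ 2 / 6) ^ L.length * ((MI L A B).1 : ℝ) := by
  rw [TM_linear, mul_zero, sub_zero, (MP_scL η c hη L A B).1]

end Pool.Agent.Lib.MP_092512_nt.P5
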