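import Pool.Agent.Lib.MP_092512_nt.P5.EDefs

/-!
# P5.E2: the integer value `ES` of a list of entries is a lower bound for the real value
-/

set_option autoImplicit false

open Finset

namespace Pool.Agent.Lib.MP_092512_nt.P5

open Pool.Agent.Lib.SW Pool.Agent.Lib.MP_092512_nt.P3

private theorem E2_et : (0 : ℝ) < et := by unfold et; norm_num

private theorem E2_bx_len (is : List ℕ) : (bx is).length = is.length := by simp [bx]

private theorem E2_cl_one (i : ℕ) (hi : i < 58) : cl et i 1 = et := by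
  unfold cl et
  have h : (i : ℝ) ≤ 57 := by exact_mod_cast (by omega : i ≤ 57)
  rw [max_eq_left (by linarith), min_eq_right (by linarith)]

private theorem E2_cl_zero (i : ℕ) : cl et i 0 = 0 := by
  unfold cl
  have h : (0 : ℝ) - i * et ≤ 0 := by
    have : 0 ≤ (i : ℝ) * et := mul_nonneg (Nat.cast_nonneg _) E2_et.le
    linarith
  rw [max_eq_right h, min_eq_left E2_et.le]

private theorem E2_TB (is : List ℕ) (s : ℕ) (hs : s < 58) :
    TB (scL et (bx is)) (fun t => VV et (58 - s) (fun u => (Gf (s + u) : ℝ)) 1 -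
      VV et (58 - s) (fun u => (Gf (s + u) : ℝ)) t) 0 ^ 2 =
      (et ^ (is.length + 1) / ((is.length + 1).factorial : ℝ)) ^ 2 * ((zz is s).natAbs : ℝ) ^ 2 := by
  have hz : ((zz is s).natAbs : ℝ) ^ 2 = (zz is s : ℝ) ^ 2 := by
    have h1 : (((zz is s).natAbs : ℤ)) ^ 2 = (zz is s) ^ 2 := Int.natAbs_sq _
    have h2 : (((((zz is s).natAbs : ℤ)) ^ 2 : ℤ) : ℝ) = (((zz is s) ^ 2 : ℤ) : ℝ) := congrArg _ h1
    rw [Int.cast_pow, Int.cast_pow, Int.cast_natCast] at h2
    exact h2
  rw [hz]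
  by_cases h : is = []
  · subst h
    have e1 : TB (scL et (bx [])) (fun t => VV et (58 - s) (fun u => (Gf (s + u) : ℝ)) 1 -
        VV et (58 - s) (fun u => (Gf (s + u) : ℝ)) t) 0 =
        VV et (58 - s) (fun u => (Gf (s + u) : ℝ)) 1 - VV et (58 - s) (fun u => (Gf (s + u) : ℝ)) 0 := rfl
    rw [e1]
    have e2 : VV et (58 - s) (fun u => (Gf (s + u) : ℝ)) 0 = 0 := by
      unfold VV
      exact sum_eq_zero fun i _ => by rw [E2_cl_zero, mul_zero]
    have e3 : VV et (58 - s) (fun u => (Gf (s + u) : ℝ)) 1 = et * (zz [] s : ℝ) := by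
      unfold VV zz
      push_cast
      rw [mul_sum]
      refine sum_congr rfl fun i hi => ?_
      rw [mem_range] at hi
      rw [E2_cl_one i (by omega)]
      simp only [ff, if_true]
      push_cast
      ring
    rw [e2, e3]
    simp
    ring
  · have hb : bx is ≠ [] := by
      intro h2
      apply h
      have h3 := E2_bx_len is
      rw [h2] at h3
      exact List.eq_nil_of_length_eq_zero h3.symm
    rw [E1_TB et E2_et _ _ _ _ hb, E2_bx_len]
    have e4 : ∑ x ∈ range (58 - s), (Gf (s + x) : ℝ) * (RI is.length (bx is) 0 0 x : ℝ) = (zz is s : ℝ) := by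
      unfold zz
      push_cast
      refine sum_congr rfl fun x _ => ?_
      simp only [ff, if_neg h]
    rw [e4]
    ring

private theorem E2_mulL_pos : ∀ is : List ℕ, 0 < mulL is := by
  intro is
  induction is with
  | nil => simp [mulL]
  | cons i is ih =>
    simp only [mulL]
    exact Nat.mul_pos (List.count_pos_iff.2 (by simp)) ih

private theorem E2_TM0 (is : List ℕ) :
    TM (scL et (bx is)) (fun t => alW 0 - beW 0 * t) 0 =
      1 / 2401 * (et ^ 2 / 6) ^ is.length * ((MI (bx is) 2401 10).1 : ℝ) := by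
  have h := E1_TM et (1 / 2401) E2_et (bx is) 2401 10
  rw [E2_bx_len] at h
  rw [← h]
  congr 1
  funext t
  simp only [alW, beW, if_true]
  unfold et
  norm_num

private theorem E2_TMw (is : List ℕ) (w : ℕ) (hw : w ≠ 0) :
    TM (scL et (bx is)) (fun t => alW w - beW w * t) 0 =
      et * 10 ^ 12 / w * (et ^ 2 / 6) ^ is.length * ((MI (bx is) 1 0).1 : ℝ) := by
  have h := E1_TM et (et * 10 ^ 12 / w) E2_et (bx is) 1 0
  rw [E2_bx_len] at h
  rw [← h]
  congr 1
  funext t
  simp only [alW, beW, if_neg hw]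
  simp

private theorem E2_floor (a b : ℕ) : ((a / b : ℕ) : ℝ) ≤ (a : ℝ) / b := Nat.cast_div_le

private theorem E2_toNat {a : ℤ} (h : 0 < a) : ((a.toNat : ℕ) : ℝ) = (a : ℝ) := by
  have h1 : ((a.toNat : ℕ) : ℤ) = a := Int.toNat_of_nonneg h.le
  exact_mod_cast h1

/-- the term of one entry -/
private theorem E2_term (is : List ℕ) (w : ℕ) (h1 : 0 < (MI (bx is) 2401 10).1) (h2 : 0 < (MI (bx is) 1 0).1)
    (s : ℕ) (hs : s < 58) :
    et * ((Ci is w : ℝ) / 10 ^ 30) * ((zz is s).natAbs : ℝ) ^ 2 ≤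
      1 / (mulL is : ℝ) * (TB (scL et (bx is)) (fun t => VV et (58 - s) (fun u => (Gf (s + u) : ℝ)) 1 -
        VV et (58 - s) (fun u => (Gf (s + u) : ℝ)) t) 0 ^ 2 /
        TM (scL et (bx is)) (fun t => alW w - beW w * t) 0) := by
  rw [E2_TB is s hs]
  have het := E2_et
  have hmul : (0 : ℝ) < mulL is := by exact_mod_cast E2_mulL_pos is
  have hfac : (0 : ℝ) < ((is.length + 1).factorial : ℝ) := by exact_mod_cast Nat.factorial_pos _
  have hZ : 0 ≤ ((zz is s).natAbs : ℝ) ^ 2 := by positivity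
  by_cases hw : w = 0
  · subst hw
    rw [E2_TM0]
    have hM : (0 : ℝ) < ((MI (bx is) 2401 10).1 : ℝ) := by exact_mod_cast h1
    have hC : (Ci is 0 : ℝ) ≤ 10 ^ 31 * 6 ^ is.length /
        (mulL is * ((is.length + 1).factorial : ℝ) ^ 2 * ((MI (bx is) 2401 10).1 : ℝ)) := by
      unfold Ci
      rw [if_pos rfl]
      refine (E2_floor _ _).trans (le_of_eq ?_)
      push_cast
      rw [E2_toNat h1]
      norm_num
    have e : 1 / (mulL is : ℝ) * ((et ^ (is.length + 1) / ((is.length + 1).factorial : ℝ)) ^ 2 *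
        ((zz is s).natAbs : ℝ) ^ 2 / (1 / 2401 * (et ^ 2 / 6) ^ is.length * ((MI (bx is) 2401 10).1 : ℝ))) =
        et * ((10 ^ 31 * 6 ^ is.length /
        (mulL is * ((is.length + 1).factorial : ℝ) ^ 2 * ((MI (bx is) 2401 10).1 : ℝ))) / 10 ^ 30) *
        ((zz is s).natAbs : ℝ) ^ 2 := by
      have h3 : et * 2401 = 10 := by unfold et; norm_num
      rw [div_pow (et ^ 2) 6, ← pow_mul]
      have h4 : et ^ (is.length + 1) = et ^ is.length * et := pow_succ _ _
      have h5 : et ^ (2 * is.length) = et ^ is.length * et ^ is.length := by rw [two_mul, pow_add]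
      rw [h4, h5]
      have hE : (et ^ is.length) ≠ 0 := (pow_pos het _).ne'
      have h6 : (6 : ℝ) ^ is.length ≠ 0 := by positivity
      generalize et ^ is.length = E at hE ⊢
      generalize (6 : ℝ) ^ is.length = S at h6 ⊢
      generalize ((is.length + 1).factorial : ℝ) = F at hfac ⊢
      generalize ((MI (bx is) 2401 10).1 : ℝ) = M at hM ⊢
      generalize (mulL is : ℝ) = m at hmul ⊢
      generalize ((zz is s).natAbs : ℝ) = Y
      have e1 : 1 / m * ((E * et / F) ^ 2 * Y ^ 2 / (1 / 2401 * (E * E / S) * M)) =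
          (et * 2401) * et * S * Y ^ 2 / (m * F ^ 2 * M) := by
        field_simp
      rw [e1, h3]
      field_simp
    rw [e]
    refine mul_le_mul_of_nonneg_right ?_ hZ
    refine mul_le_mul_of_nonneg_left ?_ het.le
    exact div_le_div_of_nonneg_right hC (by positivity)
  · rw [E2_TMw is w hw]
    have hw0 : (0 : ℝ) < w := by exact_mod_cast Nat.pos_of_ne_zero hw
    have hM : (0 : ℝ) < ((MI (bx is) 1 0).1 : ℝ) := by exact_mod_cast h2
    have hC : (Ci is w : ℝ) ≤ 10 ^ 18 * w * 6 ^ is.length /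
        (mulL is * ((is.length + 1).factorial : ℝ) ^ 2 * ((MI (bx is) 1 0).1 : ℝ)) := by
      unfold Ci
      rw [if_neg hw]
      refine (E2_floor _ _).trans (le_of_eq ?_)
      push_cast
      rw [E2_toNat h2]
      norm_num
    have e : 1 / (mulL is : ℝ) * ((et ^ (is.length + 1) / ((is.length + 1).factorial : ℝ)) ^ 2 *
        ((zz is s).natAbs : ℝ) ^ 2 / (et * 10 ^ 12 / w * (et ^ 2 / 6) ^ is.length * ((MI (bx is) 1 0).1 : ℝ))) =
        et * ((10 ^ 18 * w * 6 ^ is.length /
        (mulL is * ((is.length + 1).factorial : ℝ) ^ 2 * ((MI (bx is) 1 0).1 : ℝ))) / 10 ^ 30) *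
        ((zz is s).natAbs : ℝ) ^ 2 := by
      rw [div_pow (et ^ 2) 6, ← pow_mul]
      have h4 : et ^ (is.length + 1) = et ^ is.length * et := pow_succ _ _
      have h5 : et ^ (2 * is.length) = et ^ is.length * et ^ is.length := by rw [two_mul, pow_add]
      rw [h4, h5]
      have hE : (et ^ is.length) ≠ 0 := (pow_pos het _).ne'
      have h6 : (6 : ℝ) ^ is.length ≠ 0 := by positivity
      generalize et ^ is.length = E at hE ⊢
      generalize (6 : ℝ) ^ is.length = S at h6 ⊢
      generalize ((is.length + 1).factorial : ℝ) = F at hfac ⊢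
      generalize ((MI (bx is) 1 0).1 : ℝ) = M at hM ⊢
      generalize (mulL is : ℝ) = m at hmul ⊢
      generalize ((zz is s).natAbs : ℝ) = Y
      have het' : et ≠ 0 := het.ne'
      field_simp
    rw [e]
    refine mul_le_mul_of_nonneg_right ?_ hZ
    refine mul_le_mul_of_nonneg_left ?_ het.le
    exact div_le_div_of_nonneg_right hC (by positivity)

private theorem E2_Q (is : List ℕ) :
    (Qi is : ℝ) / 10 ^ 6 ≤ ∑ s ∈ range 58, ((s : ℝ) + 1) / (58 - s) * ((zz is s).natAbs : ℝ) ^ 2 := by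
  unfold Qi
  push_cast
  rw [sum_div]
  refine sum_le_sum fun s hs => ?_
  have hs' := mem_range.1 hs
  have hc : ((58 - s : ℕ) : ℝ) = 58 - s := by
    rw [Nat.cast_sub hs'.le]; norm_num
  have h1 : (((s + 1) * 10 ^ 6 / (58 - s) : ℕ) : ℝ) ≤ ((s : ℝ) + 1) * 10 ^ 6 / (58 - s) := by
    refine (E2_floor _ _).trans (le_of_eq ?_)
    rw [hc]
    push_cast
    norm_num
  have hZ : 0 ≤ ((zz is s).natAbs : ℝ) ^ 2 := by positivity
  have h2 := mul_le_mul_of_nonneg_right h1 hZ
  have e : ((s : ℝ) + 1) / (58 - s) * ((zz is s).natAbs : ℝ) ^ 2 =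
      (((s : ℝ) + 1) * 10 ^ 6 / (58 - s) * ((zz is s).natAbs : ℝ) ^ 2) / 10 ^ 6 := by ring
  rw [e]
  refine div_le_div_of_nonneg_right ?_ (by positivity)
  refine le_trans (le_of_eq ?_) h2
  push_cast
  rfl

private theorem E2_entry (is : List ℕ) (w : ℕ) (h1 : 0 < (MI (bx is) 2401 10).1) (h2 : 0 < (MI (bx is) 1 0).1) :
    (et / 10 ^ 36) * ((Ci is w * Qi is : ℕ) : ℝ) ≤ ∑ s ∈ range 58, ((s : ℝ) + 1) / (58 - s) *
      (1 / (mulL is : ℝ) * (TB (scL et (bx is)) (fun t => VV et (58 - s) (fun u => (Gf (s + u) : ℝ)) 1 -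
        VV et (58 - s) (fun u => (Gf (s + u) : ℝ)) t) 0 ^ 2 /
        TM (scL et (bx is)) (fun t => alW w - beW w * t) 0)) := by
  have het := E2_et
  have hC : 0 ≤ et * ((Ci is w : ℝ) / 10 ^ 30) := by positivity
  calc (et / 10 ^ 36) * ((Ci is w * Qi is : ℕ) : ℝ) = et * ((Ci is w : ℝ) / 10 ^ 30) * ((Qi is : ℝ) / 10 ^ 6) := by
        push_cast
        ring
    _ ≤ et * ((Ci is w : ℝ) / 10 ^ 30) *
        ∑ s ∈ range 58, ((s : ℝ) + 1) / (58 - s) * ((zz is s).natAbs : ℝ) ^ 2 :=
        mul_le_mul_of_nonneg_left (E2_Q is) hC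
    _ = ∑ s ∈ range 58, ((s : ℝ) + 1) / (58 - s) *
        (et * ((Ci is w : ℝ) / 10 ^ 30) * ((zz is s).natAbs : ℝ) ^ 2) := by
        rw [mul_sum]
        refine sum_congr rfl fun s _ => ?_
        ring
    _ ≤ _ := by
        refine sum_le_sum fun s hs => ?_
        have hs' := mem_range.1 hs
        have hc : ((58 - s : ℕ) : ℝ) = 58 - s := by
          rw [Nat.cast_sub hs'.le]; norm_num
        have hp : (0 : ℝ) < 58 - s := by
          rw [← hc]
          exact_mod_cast Nat.sub_pos_of_lt hs'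
        exact mul_le_mul_of_nonneg_left (E2_term is w h1 h2 s hs') (by positivity)

theorem E2 (L : List (List ℕ × ℕ)) (hL : ∀ e ∈ L, 0 < (MI (bx e.1) 2401 10).1 ∧ 0 < (MI (bx e.1) 1 0).1) :
    (et / 10 ^ 36) * (ES L : ℝ) ≤ ∑ s ∈ range 58, ((s : ℝ) + 1) / (58 - s) *
      (L.map (fun e => 1 / (mulL e.1 : ℝ) * (TB (scL et (bx e.1))
        (fun t => VV et (58 - s) (fun u => (Gf (s + u) : ℝ)) 1 - VV et (58 - s) (fun u => (Gf (s + u) : ℝ)) t) 0 ^ 2 /
        TM (scL et (bx e.1)) (fun t => alW e.2 - beW e.2 * t) 0))).sum := by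
  induction L with
  | nil => simp [ES]
  | cons e L ih =>
    have h1 := hL e (by simp)
    have h2 := ih (fun e' he' => hL e' (by simp [he']))
    have h3 := E2_entry e.1 e.2 h1.1 h1.2
    simp only [ES, List.map_cons, List.sum_cons, mul_add, sum_add_distrib] at h2 ⊢
    push_cast at h2 h3 ⊢
    rw [mul_add]
    exact add_le_add h3 h2

/-- boolean form of the condition of `E2` -/
private def okE (e : List ℕ × ℕ) : Bool := decide (0 < (MI (bx e.1) 2401 10).1) && decide (0 < (MI (bx e.1) 1 0).1)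

private theorem okE_spec {e : List ℕ × ℕ} (h : okE e = true) :
    0 < (MI (bx e.1) 2401 10).1 ∧ 0 < (MI (bx e.1) 1 0).1 := by
  unfold okE at h
  rw [Bool.and_eq_true, decide_eq_true_eq, decide_eq_true_eq] at h
  exact h

private theorem okE_LF3 : LF3.all okE = true := by decide +kernel

private theorem okE_LF4 : LF4.all okE = true := by decide +kernel

/-- the decidable condition of `E2` for the two lists of the certificate -/
theorem E2_pos (k : ℕ) : ∀ e ∈ LF k, 0 < (MI (bx e.1) 2401 10).1 ∧ 0 < (MI (bx e.1) 1 0).1 := by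
  intro e he
  unfold LF at he
  split at he
  · exact okE_spec (List.all_eq_true.mp okE_LF3 e he)
  · exact okE_spec (List.all_eq_true.mp okE_LF4 e he)

end Pool.Agent.Lib.MP_092512_nt.P5
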