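import Pool.Agent.Lib.MP_092512_nt.P5.K2

/-!
# P5.ECert: the values of the two lists (kernel evaluation, about 15 seconds)
-/

set_option autoImplicit false

open Finset

namespace Pool.Agent.Lib.MP_092512_nt.P5

theorem ES_append (A B : List (List ℕ × ℕ)) : ES (A ++ B) = ES A + ES B := by
  unfold ES
  rw [List.map_append, List.sum_append]

private theorem ec_run (n : ℕ) (hn : n ≠ 0) (L : List (List ℕ × ℕ)) (V : ℕ)
    (h : L.all (fun e => okB e && Nat.beq e.1.length n) = true) (hV : V ≤ run n L) : V ≤ ES L := by
  refine hV.trans (run_le n hn L fun e he => ?_)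
  have h1 := List.all_eq_true.mp h e he
  rw [Bool.and_eq_true, Nat.beq_eq] at h1
  exact h1

private theorem ec_zz (s : ℕ) : zz [] s = ((∑ x ∈ range (58 - s), Gf (s + x) : ℕ) : ℤ) := by
  unfold zz ff
  push_cast
  simp

private theorem ec_Q0 : Qi [] = 10673968013844659 := by
  unfold Qi
  simp only [ec_zz, Int.natAbs_natCast]
  decide +kernel

private theorem ec0 : 99617409667198464566781579000000000000000000 ≤ ES D0 := by
  unfold ES D0
  simp only [List.map_cons, List.map_nil, List.sum_cons, List.sum_nil, ec_Q0]
  decide +kernel

private theorem ec_D1 : 147870402627939235005824885282891504719846145 ≤ ES D1 :=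
  ec_run 1 (by decide) D1 _ (by decide +kernel) (by decide +kernel)

private theorem ec_D2a : 106196007192516775867752471214534897119854570 ≤ ES D2a :=
  ec_run 2 (by decide) D2a _ (by decide +kernel) (by decide +kernel)

private theorem ec_D2b : 107040453373131422370776389740763237467967271 ≤ ES D2b :=
  ec_run 2 (by decide) D2b _ (by decide +kernel) (by decide +kernel)

private theorem ec_D3a : 37361487317679052913939207754583277393154929 ≤ ES D3a :=
  ec_run 3 (by decide) D3a _ (by decide +kernel) (by decide +kernel)

private theorem ec_D3b : 49491414922808168158793932726314097269722912 ≤ ES D3b :=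
  ec_run 3 (by decide) D3b _ (by decide +kernel) (by decide +kernel)

private theorem ec_D4 : 15261010042875912127821177273104502728172653 ≤ ES D4 :=
  ec_run 4 (by decide) D4 _ (by decide +kernel) (by decide +kernel)

theorem ES3 : 391045306 * 10 ^ 36 ≤ ES LF3 := by
  have h0 := ec0
  have h1 := ec_D1
  have h2 := ec_D2a
  have h3 := ec_D3a
  unfold LF3
  rw [ES_append, ES_append, ES_append]
  omega

theorem ES4 : 419280690 * 10 ^ 36 ≤ ES LF4 := by
  have h0 := ec0
  have h1 := ec_D1
  have h2 := ec_D2b
  have h3 := ec_D3b
  have h4 := ec_D4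
  unfold LF4
  rw [ES_append, ES_append, ES_append, ES_append]
  omega

end Pool.Agent.Lib.MP_092512_nt.P5
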