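import Pool.Agent.Lib.MP_092512_nt.P5.E1
import Pool.Agent.Lib.MP_092512_nt.P5.B7
import Pool.Agent.Lib.MP_092512_nt.P3.Defs2

/-!
# P5.EDefs: the boxes of the certificate

A box in `n` primes is an index list `is = [i_1 ≤ ... ≤ i_n]`; its `j`-th interval is
`(et * Pt n i_j, et * Pt n (i_j + 1)]`.  An entry `(is, w)`: `w = 0`: the box is used with one completion only and with the
majorant `Z(s) = 1 - s`; `w > 0`: with the constant majorant `Z = et * 10^12 / w`.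
`LF 3`: the boxes for the products of at most 4 primes, `LF 4`: for at most 5 primes.
-/

set_option autoImplicit false

open Finset

namespace Pool.Agent.Lib.MP_092512_nt.P5

open Pool.Agent.Lib.SW Pool.Agent.Lib.MP_092512_nt.P3

/-- break points in units of `et` -/
def Pt (v k : ℕ) : ℕ :=
  match v with
  | 2 => [1, 7, 12, 17, 21, 25, 30, 35, 40, 45, 50, 55].getD k 60
  | 3 => [1, 8, 14, 20, 25, 30, 36, 42, 48, 54].getD k 60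
  | 4 => [1, 14, 22, 29, 36, 38, 45, 53].getD k 60
  | _ => k + 1

/-- the box in units of `et` -/
def bx (is : List ℕ) : List (ℕ × ℕ) := is.map (fun k => (Pt is.length k, Pt is.length (k + 1)))

/-- the function of the certificate -/
def Gf (S : ℕ) : ℕ := (61 - S) ^ 2

/-- value of the functional of the box on the cell `x` -/
def ff (is : List ℕ) (x : ℕ) : ℤ := if is = [] then 1 else RI is.length (bx is) 0 0 x

def zz (is : List ℕ) (s : ℕ) : ℤ := ∑ x ∈ range (58 - s), (Gf (s + x) : ℤ) * ff is x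

/-- the quadratic form of the box -/
def Qi (is : List ℕ) : ℕ := ∑ s ∈ range 58, (s + 1) * 10 ^ 6 / (58 - s) * (zz is s).natAbs ^ 2

/-- the coefficient of the box, times `10^30` -/
def Ci (is : List ℕ) (w : ℕ) : ℕ :=
  if w = 0 then 10 ^ 31 * 6 ^ is.length /
    (mulL is * (is.length + 1).factorial ^ 2 * (MI (bx is) 2401 10).1.toNat)
  else 10 ^ 18 * w * 6 ^ is.length /
    (mulL is * (is.length + 1).factorial ^ 2 * (MI (bx is) 1 0).1.toNat)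

/-- the value of a list of entries -/
def ES (L : List (List ℕ × ℕ)) : ℕ := (L.map (fun e => Ci e.1 e.2 * Qi e.1)).sum

/-- the constant term of the majorant -/
noncomputable def alW (w : ℕ) : ℝ := if w = 0 then 1 else et * 10 ^ 12 / w

/-- the slope of the majorant -/
noncomputable def beW (w : ℕ) : ℝ := if w = 0 then 1 else 0

/-- no visible prime -/
def D0 : List (List ℕ × ℕ) :=
  [([], 9332743881)]

/-- one visible prime -/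
def D1 : List (List ℕ × ℕ) :=
  [([0], 9300827083), ([1], 9304918655), ([2], 9300514884), ([3], 9299966938), ([4], 9304290590),
   ([5], 9299768673), ([6], 9299344659), ([7], 9303326964), ([8], 9298689008), ([9], 9298423177),
   ([10], 9302049767), ([11], 9297938619), ([12], 9297230187), ([13], 9301148145), ([14], 9296958433),
   ([15], 9296479291), ([16], 9300049653), ([17], 9295788629), ([18], 9295589622), ([19], 9298801503),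
   ([20], 9295200052), ([21], 9294617140), ([22], 9298207921), ([23], 9294590666), ([24], 9294397418),
   ([25], 9297654100), ([26], 9294036457), ([27], 9294308615), ([28], 9297227521), ([29], 9294446618),
   ([30], 9294451999), ([31], 9297880743), ([32], 9295181695), ([33], 9295821070), ([34], 9298963820),
   ([35], 9296375014), ([36], 9297762303), ([37], 9300629071), ([38], 9299117457), ([39], 9300449806),
   ([40], 9304025404), ([41], 9302746568), ([42], 9305087730), ([43], 9308485497), ([44], 9307488529),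
   ([45], 9311012283), ([46], 9314267271), ([47], 9314680583), ([48], 9318426720), ([49], 9322788479),
   ([50], 9323668379), ([51], 9327380487), ([52], 9333033074), ([53], 9334831345), ([54], 9339775936),
   ([55], 9345592712), ([56], 9349853987), ([57], 9355001518), ([58], 9361084269)]

def D2a_0 : List (List ℕ × ℕ) :=
  [([0, 0], 8745387462), ([0, 1], 8823381251), ([0, 2], 8887430111), ([0, 3], 8950310201), ([0, 4], 8999545566),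
   ([0, 5], 9047615087), ([0, 6], 9105712462), ([0, 7], 9161115335), ([0, 8], 9213219030), ([0, 9], 9261311212),
   ([0, 10], 9304550685), ([0, 11], 9341941106), ([1, 1], 8900109779), ([1, 2], 8962716931), ([1, 3], 9023739627),
   ([1, 4], 9071142604), ([1, 5], 9117026544), ([1, 6], 9171821133), ([1, 7], 9223183298), ([1, 8], 9270376793),
   ([1, 9], 9312531649), ([1, 10], 9348616846), ([1, 11], 9377406443), ([2, 2], 9023739627), ([2, 3], 9082766189),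
   ([2, 4], 9128228622), ([2, 5], 9171821133), ([2, 6], 9223183298), ([2, 7], 9270376793), ([2, 8], 9312531649),
   ([2, 9], 9348616846), ([2, 10], 9377406443), ([2, 11], 9397437284), ([3, 3], 9139314013), ([3, 4], 9182389989),
   ([3, 5], 9223183298), ([3, 6], 9270376793), ([3, 7], 9312531649), ([3, 8], 9348616846), ([3, 9], 9377406443),
   ([3, 10], 9397437284), ([3, 11], 9392820779), ([4, 4], 9223183298), ([4, 5], 9261311212), ([4, 6], 9304550685),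
   ([4, 7], 9341941106), ([4, 8], 9372298597), ([4, 9], 9394211301), ([4, 10], 9396787576), ([4, 11], 9369791422),
   ([5, 5], 9296336355), ([5, 6], 9334984770), ([5, 7], 9366853844), ([5, 8], 9390581004), ([5, 9], 9396787576),
   ([5, 10], 9369791422), ([5, 11], 9322704884), ([6, 6], 9366853844), ([6, 7], 9390581004), ([6, 8], 9396787576)]

def D2a_1 : List (List ℕ × ℕ) :=
  [([6, 9], 9369791422), ([6, 10], 9322704884), ([6, 11], 9251305921), ([7, 7], 9396787576), ([7, 8], 9369791422),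
   ([7, 9], 9322704884), ([7, 10], 9251305921), ([7, 11], 9150368849), ([8, 8], 9322704884), ([8, 9], 9251305921),
   ([8, 10], 9150368849), ([8, 11], 9013371937), ([9, 9], 9150368849), ([9, 10], 9013371937),
   ([9, 11], 8832099751), ([10, 10], 8832099751), ([10, 11], 8596093097), ([11, 11], 8291873963)]

/-- two visible primes, at most 4 primes -/
def D2a : List (List ℕ × ℕ) :=
  D2a_0 ++ D2a_1

def D2b_0 : List (List ℕ × ℕ) :=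
  [([0, 0], 9297230187), ([0, 1], 9295788629), ([0, 2], 9294617140), ([0, 3], 9294036457), ([0, 4], 9294036457),
   ([0, 5], 9294036457), ([0, 6], 9294451999), ([0, 7], 9296375014), ([0, 8], 9302746568), ([0, 9], 9311012283),
   ([0, 10], 9323668379), ([0, 11], 9345592712), ([1, 1], 9294617140), ([1, 2], 9294036457), ([1, 3], 9294036457),
   ([1, 4], 9294308615), ([1, 5], 9295181695), ([1, 6], 9297762303), ([1, 7], 9302746568), ([1, 8], 9314267271),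
   ([1, 9], 9327380487), ([1, 10], 9349853987), ([1, 11], 9377406443), ([2, 2], 9294036457), ([2, 3], 9294446618),
   ([2, 4], 9295181695), ([2, 5], 9297762303), ([2, 6], 9302746568), ([2, 7], 9314267271), ([2, 8], 9327380487),
   ([2, 9], 9349853987), ([2, 10], 9377406443), ([2, 11], 9397437284), ([3, 3], 9295821070), ([3, 4], 9299117457),
   ([3, 5], 9302746568), ([3, 6], 9314267271), ([3, 7], 9327380487), ([3, 8], 9349853987), ([3, 9], 9377406443),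
   ([3, 10], 9397437284), ([3, 11], 9392820779), ([4, 4], 9302746568), ([4, 5], 9311012283), ([4, 6], 9323668379),
   ([4, 7], 9345592712), ([4, 8], 9372298597), ([4, 9], 9394211301), ([4, 10], 9396787576), ([4, 11], 9369791422),
   ([5, 5], 9322788479), ([5, 6], 9339775936), ([5, 7], 9366853844), ([5, 8], 9390581004), ([5, 9], 9396787576),
   ([5, 10], 9369791422), ([5, 11], 9322704884), ([6, 6], 9366853844), ([6, 7], 9390581004), ([6, 8], 9396787576)]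

def D2b_1 : List (List ℕ × ℕ) :=
  [([6, 9], 9369791422), ([6, 10], 9322704884), ([6, 11], 9251305921), ([7, 7], 9396787576), ([7, 8], 9369791422),
   ([7, 9], 9322704884), ([7, 10], 9251305921), ([7, 11], 9150368849), ([8, 8], 9322704884), ([8, 9], 9251305921),
   ([8, 10], 9150368849), ([8, 11], 9013371937), ([9, 9], 9150368849), ([9, 10], 9013371937),
   ([9, 11], 8832099751), ([10, 10], 8832099751), ([10, 11], 8596093097), ([11, 11], 8291873963)]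

/-- two visible primes, at most 5 primes -/
def D2b : List (List ℕ × ℕ) :=
  D2b_0 ++ D2b_1

def D3a_0 : List (List ℕ × ℕ) :=
  [([0, 0, 0], 0), ([0, 0, 1], 0), ([0, 0, 2], 0), ([0, 0, 3], 0), ([0, 0, 4], 0), ([0, 0, 5], 0), ([0, 0, 6], 0),
   ([0, 0, 7], 0), ([0, 0, 8], 0), ([0, 0, 9], 0), ([0, 1, 1], 0), ([0, 1, 2], 0), ([0, 1, 3], 0), ([0, 1, 4], 0),
   ([0, 1, 5], 0), ([0, 1, 6], 0), ([0, 1, 7], 0), ([0, 1, 8], 0), ([0, 1, 9], 0), ([0, 2, 2], 0), ([0, 2, 3], 0),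
   ([0, 2, 4], 0), ([0, 2, 5], 0), ([0, 2, 6], 0), ([0, 2, 7], 0), ([0, 2, 8], 0), ([0, 2, 9], 0), ([0, 3, 3], 0),
   ([0, 3, 4], 0), ([0, 3, 5], 0), ([0, 3, 6], 0), ([0, 3, 7], 0), ([0, 3, 8], 0), ([0, 3, 9], 0), ([0, 4, 4], 0),
   ([0, 4, 5], 0), ([0, 4, 6], 0), ([0, 4, 7], 0), ([0, 4, 8], 0), ([0, 4, 9], 0), ([0, 5, 5], 0), ([0, 5, 6], 0),
   ([0, 5, 7], 0), ([0, 5, 8], 0), ([0, 5, 9], 0), ([0, 6, 6], 0), ([0, 6, 7], 0), ([0, 6, 8], 0), ([0, 6, 9], 0),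
   ([0, 7, 7], 0), ([0, 7, 8], 0), ([0, 7, 9], 0), ([0, 8, 8], 0), ([0, 8, 9], 0), ([0, 9, 9], 0), ([1, 1, 1], 0),
   ([1, 1, 2], 0), ([1, 1, 3], 0), ([1, 1, 4], 0), ([1, 1, 5], 0)]

def D3a_1 : List (List ℕ × ℕ) :=
  [([1, 1, 6], 0), ([1, 1, 7], 0), ([1, 1, 8], 0), ([1, 1, 9], 0), ([1, 2, 2], 0), ([1, 2, 3], 0), ([1, 2, 4], 0),
   ([1, 2, 5], 0), ([1, 2, 6], 0), ([1, 2, 7], 0), ([1, 2, 8], 0), ([1, 2, 9], 0), ([1, 3, 3], 0), ([1, 3, 4], 0),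
   ([1, 3, 5], 0), ([1, 3, 6], 0), ([1, 3, 7], 0), ([1, 3, 8], 0), ([1, 3, 9], 0), ([1, 4, 4], 0), ([1, 4, 5], 0),
   ([1, 4, 6], 0), ([1, 4, 7], 0), ([1, 4, 8], 0), ([1, 4, 9], 0), ([1, 5, 5], 0), ([1, 5, 6], 0), ([1, 5, 7], 0),
   ([1, 5, 8], 0), ([1, 5, 9], 0), ([1, 6, 6], 0), ([1, 6, 7], 0), ([1, 6, 8], 0), ([1, 6, 9], 0), ([1, 7, 7], 0),
   ([1, 7, 8], 0), ([1, 7, 9], 0), ([1, 8, 8], 0), ([1, 8, 9], 0), ([1, 9, 9], 0), ([2, 2, 2], 0), ([2, 2, 3], 0),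
   ([2, 2, 4], 0), ([2, 2, 5], 0), ([2, 2, 6], 0), ([2, 2, 7], 0), ([2, 2, 8], 0), ([2, 2, 9], 0), ([2, 3, 3], 0),
   ([2, 3, 4], 0), ([2, 3, 5], 0), ([2, 3, 6], 0), ([2, 3, 7], 0), ([2, 3, 8], 0), ([2, 3, 9], 0), ([2, 4, 4], 0),
   ([2, 4, 5], 0), ([2, 4, 6], 0), ([2, 4, 7], 0), ([2, 4, 8], 0)]

def D3a_2 : List (List ℕ × ℕ) :=
  [([2, 4, 9], 0), ([2, 5, 5], 0), ([2, 5, 6], 0), ([2, 5, 7], 0), ([2, 5, 8], 0), ([2, 5, 9], 0), ([2, 6, 6], 0),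
   ([2, 6, 7], 0), ([2, 6, 8], 0), ([2, 6, 9], 0), ([2, 7, 7], 0), ([2, 7, 8], 0), ([2, 7, 9], 0), ([2, 8, 8], 0),
   ([2, 8, 9], 0), ([2, 9, 9], 0), ([3, 3, 3], 0), ([3, 3, 4], 0), ([3, 3, 5], 0), ([3, 3, 6], 0), ([3, 3, 7], 0),
   ([3, 3, 8], 0), ([3, 3, 9], 0), ([3, 4, 4], 0), ([3, 4, 5], 0), ([3, 4, 6], 0), ([3, 4, 7], 0), ([3, 4, 8], 0),
   ([3, 4, 9], 0), ([3, 5, 5], 0), ([3, 5, 6], 0), ([3, 5, 7], 0), ([3, 5, 8], 0), ([3, 5, 9], 0), ([3, 6, 6], 0),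
   ([3, 6, 7], 0), ([3, 6, 8], 0), ([3, 6, 9], 0), ([3, 7, 7], 0), ([3, 7, 8], 0), ([3, 7, 9], 0), ([3, 8, 8], 0),
   ([3, 8, 9], 0), ([3, 9, 9], 0), ([4, 4, 4], 0), ([4, 4, 5], 0), ([4, 4, 6], 0), ([4, 4, 7], 0), ([4, 4, 8], 0),
   ([4, 4, 9], 0), ([4, 5, 5], 0), ([4, 5, 6], 0), ([4, 5, 7], 0), ([4, 5, 8], 0), ([4, 5, 9], 0), ([4, 6, 6], 0),
   ([4, 6, 7], 0), ([4, 6, 8], 0), ([4, 6, 9], 0), ([4, 7, 7], 0)]

def D3a_3 : List (List ℕ × ℕ) :=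
  [([4, 7, 8], 0), ([4, 7, 9], 0), ([4, 8, 8], 0), ([4, 8, 9], 0), ([4, 9, 9], 0), ([5, 5, 5], 0), ([5, 5, 6], 0),
   ([5, 5, 7], 0), ([5, 5, 8], 0), ([5, 5, 9], 0), ([5, 6, 6], 0), ([5, 6, 7], 0), ([5, 6, 8], 0), ([5, 6, 9], 0),
   ([5, 7, 7], 0), ([5, 7, 8], 0), ([5, 7, 9], 0), ([5, 8, 8], 0), ([5, 8, 9], 0), ([5, 9, 9], 0), ([6, 6, 6], 0),
   ([6, 6, 7], 0), ([6, 6, 8], 0), ([6, 6, 9], 0), ([6, 7, 7], 0), ([6, 7, 8], 0), ([6, 7, 9], 0), ([6, 8, 8], 0),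
   ([6, 8, 9], 0), ([6, 9, 9], 0), ([7, 7, 7], 0), ([7, 7, 8], 0), ([7, 7, 9], 0), ([7, 8, 8], 0), ([7, 8, 9], 0),
   ([7, 9, 9], 0), ([8, 8, 8], 0), ([8, 8, 9], 0), ([8, 9, 9], 0), ([9, 9, 9], 0)]

/-- three visible primes, at most 4 primes -/
def D3a : List (List ℕ × ℕ) :=
  D3a_0 ++ D3a_1 ++ D3a_2 ++ D3a_3

def D3b_0 : List (List ℕ × ℕ) :=
  [([0, 0, 0], 8758455268), ([0, 0, 1], 8849121365), ([0, 0, 2], 8925319041), ([0, 0, 3], 8999545566),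
   ([0, 0, 4], 9059424246), ([0, 0, 5], 9117026544), ([0, 0, 6], 9182389989), ([0, 0, 7], 9242606397),
   ([0, 0, 8], 9296336355), ([0, 0, 9], 9341941106), ([0, 1, 1], 8937843274), ([0, 1, 2], 9011680662),
   ([0, 1, 3], 9082766189), ([0, 1, 4], 9139314013), ([0, 1, 5], 9192816404), ([0, 1, 6], 9252052020),
   ([0, 1, 7], 9304550685), ([0, 1, 8], 9348616846), ([0, 1, 9], 9382164860), ([0, 2, 2], 9082766189),
   ([0, 2, 3], 9150277914), ([0, 2, 4], 9203094708), ([0, 2, 5], 9252052020), ([0, 2, 6], 9304550685),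
   ([0, 2, 7], 9348616846), ([0, 2, 8], 9382164860), ([0, 2, 9], 9344200713), ([0, 3, 3], 9213219030),
   ([0, 3, 4], 9261311212), ([0, 3, 5], 9304550685), ([0, 3, 6], 9348616846), ([0, 3, 7], 9382164860),
   ([0, 3, 8], 9353584437), ([0, 3, 9], 9283091965), ([0, 4, 4], 9304550685), ([0, 4, 5], 9341941106),
   ([0, 4, 6], 9377406443), ([0, 4, 7], 9362103942), ([0, 4, 8], 9297330207), ([0, 4, 9], 9194672561),
   ([0, 5, 5], 9372298597), ([0, 5, 6], 9362103942), ([0, 5, 7], 9297330207), ([0, 5, 8], 9194672561),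
   ([0, 5, 9], 9044022166), ([0, 6, 6], 9297330207), ([0, 6, 7], 9194672561), ([0, 6, 8], 9044022166),
   ([0, 6, 9], 8832099751), ([0, 7, 7], 9044022166), ([0, 7, 8], 8832099751), ([0, 7, 9], 8541201799),
   ([0, 8, 8], 8541201799), ([0, 8, 9], 8291873963), ([0, 9, 9], 0), ([1, 1, 1], 9023739627),
   ([1, 1, 2], 9094290882), ([1, 1, 3], 9161115335), ([1, 1, 4], 9213219030), ([1, 1, 5], 9261311212)]

def D3b_1 : List (List ℕ × ℕ) :=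
  [([1, 1, 6], 9312531649), ([1, 1, 7], 9355001518), ([1, 1, 8], 9386560868), ([1, 1, 9], 9344200713),
   ([1, 2, 2], 9161115335), ([1, 2, 3], 9223183298), ([1, 2, 4], 9270376793), ([1, 2, 5], 9312531649),
   ([1, 2, 6], 9355001518), ([1, 2, 7], 9386560868), ([1, 2, 8], 9344200713), ([1, 2, 9], 9267764997),
   ([1, 3, 3], 9279241329), ([1, 3, 4], 9320270449), ([1, 3, 5], 9355001518), ([1, 3, 6], 9386560868),
   ([1, 3, 7], 9353584437), ([1, 3, 8], 9283091965), ([1, 3, 9], 9173210860), ([1, 4, 4], 9355001518),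
   ([1, 4, 5], 9382164860), ([1, 4, 6], 9362103942), ([1, 4, 7], 9297330207), ([1, 4, 8], 9194672561),
   ([1, 4, 9], 9044022166), ([1, 5, 5], 9362103942), ([1, 5, 6], 9297330207), ([1, 5, 7], 9194672561),
   ([1, 5, 8], 9044022166), ([1, 5, 9], 8832099751), ([1, 6, 6], 9194672561), ([1, 6, 7], 9044022166),
   ([1, 6, 8], 8832099751), ([1, 6, 9], 8541201799), ([1, 7, 7], 8832099751), ([1, 7, 8], 8541201799),
   ([1, 7, 9], 8291873963), ([1, 8, 8], 8291873963), ([1, 8, 9], 8291873963), ([1, 9, 9], 0),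
   ([2, 2, 2], 9223183298), ([2, 2, 3], 9279241329), ([2, 2, 4], 9320270449), ([2, 2, 5], 9355001518),
   ([2, 2, 6], 9386560868), ([2, 2, 7], 9344200713), ([2, 2, 8], 9267764997), ([2, 2, 9], 9150368849),
   ([2, 3, 3], 9327757963), ([2, 3, 4], 9361084269), ([2, 3, 5], 9386560868), ([2, 3, 6], 9353584437),
   ([2, 3, 7], 9283091965), ([2, 3, 8], 9173210860), ([2, 3, 9], 9013371937), ([2, 4, 4], 9386560868),
   ([2, 4, 5], 9362103942), ([2, 4, 6], 9297330207), ([2, 4, 7], 9194672561), ([2, 4, 8], 9044022166)]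

def D3b_2 : List (List ℕ × ℕ) :=
  [([2, 4, 9], 8832099751), ([2, 5, 5], 9297330207), ([2, 5, 6], 9194672561), ([2, 5, 7], 9044022166),
   ([2, 5, 8], 8832099751), ([2, 5, 9], 8541201799), ([2, 6, 6], 9044022166), ([2, 6, 7], 8832099751),
   ([2, 6, 8], 8541201799), ([2, 6, 9], 8291873963), ([2, 7, 7], 8541201799), ([2, 7, 8], 8291873963),
   ([2, 7, 9], 8291873963), ([2, 8, 8], 8291873963), ([2, 8, 9], 0), ([2, 9, 9], 0), ([3, 3, 3], 9366853844),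
   ([3, 3, 4], 9390581004), ([3, 3, 5], 9362103942), ([3, 3, 6], 9297330207), ([3, 3, 7], 9194672561),
   ([3, 3, 8], 9044022166), ([3, 3, 9], 8832099751), ([3, 4, 4], 9369791422), ([3, 4, 5], 9310521255),
   ([3, 4, 6], 9214808156), ([3, 4, 7], 9072980168), ([3, 4, 8], 8872360508), ([3, 4, 9], 8596093097),
   ([3, 5, 5], 9214808156), ([3, 5, 6], 9072980168), ([3, 5, 7], 8872360508), ([3, 5, 8], 8596093097),
   ([3, 5, 9], 8291873963), ([3, 6, 6], 8872360508), ([3, 6, 7], 8596093097), ([3, 6, 8], 8291873963),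
   ([3, 6, 9], 8291873963), ([3, 7, 7], 8291873963), ([3, 7, 8], 8291873963), ([3, 7, 9], 0), ([3, 8, 8], 0),
   ([3, 8, 9], 0), ([3, 9, 9], 0), ([4, 4, 4], 9322704884), ([4, 4, 5], 9233669436), ([4, 4, 6], 9100314314),
   ([4, 4, 7], 8910533024), ([4, 4, 8], 8648268910), ([4, 4, 9], 8291873963), ([4, 5, 5], 9100314314),
   ([4, 5, 6], 8910533024), ([4, 5, 7], 8648268910), ([4, 5, 8], 8291873963), ([4, 5, 9], 8291873963),
   ([4, 6, 6], 8648268910), ([4, 6, 7], 8291873963), ([4, 6, 8], 8291873963), ([4, 6, 9], 0),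
   ([4, 7, 7], 8291873963)]

def D3b_3 : List (List ℕ × ℕ) :=
  [([4, 7, 8], 0), ([4, 7, 9], 0), ([4, 8, 8], 0), ([4, 8, 9], 0), ([4, 9, 9], 0), ([5, 5, 5], 8910533024),
   ([5, 5, 6], 8648268910), ([5, 5, 7], 8291873963), ([5, 5, 8], 8291873963), ([5, 5, 9], 0),
   ([5, 6, 6], 8291873963), ([5, 6, 7], 8291873963), ([5, 6, 8], 0), ([5, 6, 9], 0), ([5, 7, 7], 0),
   ([5, 7, 8], 0), ([5, 7, 9], 0), ([5, 8, 8], 0), ([5, 8, 9], 0), ([5, 9, 9], 0), ([6, 6, 6], 8291873963),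
   ([6, 6, 7], 0), ([6, 6, 8], 0), ([6, 6, 9], 0), ([6, 7, 7], 0), ([6, 7, 8], 0), ([6, 7, 9], 0), ([6, 8, 8], 0),
   ([6, 8, 9], 0), ([6, 9, 9], 0), ([7, 7, 7], 0), ([7, 7, 8], 0), ([7, 7, 9], 0), ([7, 8, 8], 0), ([7, 8, 9], 0),
   ([7, 9, 9], 0), ([8, 8, 8], 0), ([8, 8, 9], 0), ([8, 9, 9], 0), ([9, 9, 9], 0)]

/-- three visible primes, at most 5 primes -/
def D3b : List (List ℕ × ℕ) :=
  D3b_0 ++ D3b_1 ++ D3b_2 ++ D3b_3

def D4_0 : List (List ℕ × ℕ) :=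
  [([0, 0, 0, 0], 0), ([0, 0, 0, 1], 0), ([0, 0, 0, 2], 0), ([0, 0, 0, 3], 0), ([0, 0, 0, 4], 0),
   ([0, 0, 0, 5], 0), ([0, 0, 0, 6], 0), ([0, 0, 0, 7], 0), ([0, 0, 1, 1], 0), ([0, 0, 1, 2], 0),
   ([0, 0, 1, 3], 0), ([0, 0, 1, 4], 0), ([0, 0, 1, 5], 0), ([0, 0, 1, 6], 0), ([0, 0, 1, 7], 0),
   ([0, 0, 2, 2], 0), ([0, 0, 2, 3], 0), ([0, 0, 2, 4], 0), ([0, 0, 2, 5], 0), ([0, 0, 2, 6], 0),
   ([0, 0, 2, 7], 0), ([0, 0, 3, 3], 0), ([0, 0, 3, 4], 0), ([0, 0, 3, 5], 0), ([0, 0, 3, 6], 0),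
   ([0, 0, 3, 7], 0), ([0, 0, 4, 4], 0), ([0, 0, 4, 5], 0), ([0, 0, 4, 6], 0), ([0, 0, 4, 7], 0),
   ([0, 0, 5, 5], 0), ([0, 0, 5, 6], 0), ([0, 0, 5, 7], 0), ([0, 0, 6, 6], 0), ([0, 0, 6, 7], 0),
   ([0, 0, 7, 7], 0), ([0, 1, 1, 1], 0), ([0, 1, 1, 2], 0), ([0, 1, 1, 3], 0), ([0, 1, 1, 4], 0),
   ([0, 1, 1, 5], 0), ([0, 1, 1, 6], 0), ([0, 1, 1, 7], 0), ([0, 1, 2, 2], 0), ([0, 1, 2, 3], 0),
   ([0, 1, 2, 4], 0), ([0, 1, 2, 5], 0), ([0, 1, 2, 6], 0), ([0, 1, 2, 7], 0), ([0, 1, 3, 3], 0),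
   ([0, 1, 3, 4], 0), ([0, 1, 3, 5], 0), ([0, 1, 3, 6], 0), ([0, 1, 3, 7], 0), ([0, 1, 4, 4], 0),
   ([0, 1, 4, 5], 0), ([0, 1, 4, 6], 0), ([0, 1, 4, 7], 0), ([0, 1, 5, 5], 0), ([0, 1, 5, 6], 0)]

def D4_1 : List (List ℕ × ℕ) :=
  [([0, 1, 5, 7], 0), ([0, 1, 6, 6], 0), ([0, 1, 6, 7], 0), ([0, 1, 7, 7], 0), ([0, 2, 2, 2], 0),
   ([0, 2, 2, 3], 0), ([0, 2, 2, 4], 0), ([0, 2, 2, 5], 0), ([0, 2, 2, 6], 0), ([0, 2, 2, 7], 0),
   ([0, 2, 3, 3], 0), ([0, 2, 3, 4], 0), ([0, 2, 3, 5], 0), ([0, 2, 3, 6], 0), ([0, 2, 3, 7], 0),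
   ([0, 2, 4, 4], 0), ([0, 2, 4, 5], 0), ([0, 2, 4, 6], 0), ([0, 2, 4, 7], 0), ([0, 2, 5, 5], 0),
   ([0, 2, 5, 6], 0), ([0, 2, 5, 7], 0), ([0, 2, 6, 6], 0), ([0, 2, 6, 7], 0), ([0, 2, 7, 7], 0),
   ([0, 3, 3, 3], 0), ([0, 3, 3, 4], 0), ([0, 3, 3, 5], 0), ([0, 3, 3, 6], 0), ([0, 3, 3, 7], 0),
   ([0, 3, 4, 4], 0), ([0, 3, 4, 5], 0), ([0, 3, 4, 6], 0), ([0, 3, 4, 7], 0), ([0, 3, 5, 5], 0),
   ([0, 3, 5, 6], 0), ([0, 3, 5, 7], 0), ([0, 3, 6, 6], 0), ([0, 3, 6, 7], 0), ([0, 3, 7, 7], 0),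
   ([0, 4, 4, 4], 0), ([0, 4, 4, 5], 0), ([0, 4, 4, 6], 0), ([0, 4, 4, 7], 0), ([0, 4, 5, 5], 0),
   ([0, 4, 5, 6], 0), ([0, 4, 5, 7], 0), ([0, 4, 6, 6], 0), ([0, 4, 6, 7], 0), ([0, 4, 7, 7], 0),
   ([0, 5, 5, 5], 0), ([0, 5, 5, 6], 0), ([0, 5, 5, 7], 0), ([0, 5, 6, 6], 0), ([0, 5, 6, 7], 0),
   ([0, 5, 7, 7], 0), ([0, 6, 6, 6], 0), ([0, 6, 6, 7], 0), ([1, 1, 1, 1], 0), ([1, 1, 1, 2], 0)]

def D4_2 : List (List ℕ × ℕ) :=
  [([1, 1, 1, 3], 0), ([1, 1, 1, 4], 0), ([1, 1, 1, 5], 0), ([1, 1, 1, 6], 0), ([1, 1, 1, 7], 0),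
   ([1, 1, 2, 2], 0), ([1, 1, 2, 3], 0), ([1, 1, 2, 4], 0), ([1, 1, 2, 5], 0), ([1, 1, 2, 6], 0),
   ([1, 1, 2, 7], 0), ([1, 1, 3, 3], 0), ([1, 1, 3, 4], 0), ([1, 1, 3, 5], 0), ([1, 1, 3, 6], 0),
   ([1, 1, 3, 7], 0), ([1, 1, 4, 4], 0), ([1, 1, 4, 5], 0), ([1, 1, 4, 6], 0), ([1, 1, 4, 7], 0),
   ([1, 1, 5, 5], 0), ([1, 1, 5, 6], 0), ([1, 1, 5, 7], 0), ([1, 1, 6, 6], 0), ([1, 1, 6, 7], 0),
   ([1, 1, 7, 7], 0), ([1, 2, 2, 2], 0), ([1, 2, 2, 3], 0), ([1, 2, 2, 4], 0), ([1, 2, 2, 5], 0),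
   ([1, 2, 2, 6], 0), ([1, 2, 2, 7], 0), ([1, 2, 3, 3], 0), ([1, 2, 3, 4], 0), ([1, 2, 3, 5], 0),
   ([1, 2, 3, 6], 0), ([1, 2, 3, 7], 0), ([1, 2, 4, 4], 0), ([1, 2, 4, 5], 0), ([1, 2, 4, 6], 0),
   ([1, 2, 4, 7], 0), ([1, 2, 5, 5], 0), ([1, 2, 5, 6], 0), ([1, 2, 5, 7], 0), ([1, 2, 6, 6], 0),
   ([1, 2, 6, 7], 0), ([1, 2, 7, 7], 0), ([1, 3, 3, 3], 0), ([1, 3, 3, 4], 0), ([1, 3, 3, 5], 0),
   ([1, 3, 3, 6], 0), ([1, 3, 3, 7], 0), ([1, 3, 4, 4], 0), ([1, 3, 4, 5], 0), ([1, 3, 4, 6], 0),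
   ([1, 3, 4, 7], 0), ([1, 3, 5, 5], 0), ([1, 3, 5, 6], 0), ([1, 3, 5, 7], 0), ([1, 3, 6, 6], 0)]

def D4_3 : List (List ℕ × ℕ) :=
  [([1, 3, 6, 7], 0), ([1, 3, 7, 7], 0), ([1, 4, 4, 4], 0), ([1, 4, 4, 5], 0), ([1, 4, 4, 6], 0),
   ([1, 4, 4, 7], 0), ([1, 4, 5, 5], 0), ([1, 4, 5, 6], 0), ([1, 4, 5, 7], 0), ([1, 4, 6, 6], 0),
   ([1, 4, 6, 7], 0), ([1, 4, 7, 7], 0), ([1, 5, 5, 5], 0), ([1, 5, 5, 6], 0), ([1, 5, 5, 7], 0),
   ([1, 5, 6, 6], 0), ([1, 5, 6, 7], 0), ([2, 2, 2, 2], 0), ([2, 2, 2, 3], 0), ([2, 2, 2, 4], 0),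
   ([2, 2, 2, 5], 0), ([2, 2, 2, 6], 0), ([2, 2, 2, 7], 0), ([2, 2, 3, 3], 0), ([2, 2, 3, 4], 0),
   ([2, 2, 3, 5], 0), ([2, 2, 3, 6], 0), ([2, 2, 3, 7], 0), ([2, 2, 4, 4], 0), ([2, 2, 4, 5], 0),
   ([2, 2, 4, 6], 0), ([2, 2, 4, 7], 0), ([2, 2, 5, 5], 0), ([2, 2, 5, 6], 0), ([2, 2, 5, 7], 0),
   ([2, 2, 6, 6], 0), ([2, 2, 6, 7], 0), ([2, 2, 7, 7], 0), ([2, 3, 3, 3], 0), ([2, 3, 3, 4], 0),
   ([2, 3, 3, 5], 0), ([2, 3, 3, 6], 0), ([2, 3, 3, 7], 0), ([2, 3, 4, 4], 0), ([2, 3, 4, 5], 0),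
   ([2, 3, 4, 6], 0), ([2, 3, 4, 7], 0), ([2, 3, 5, 5], 0), ([2, 3, 5, 6], 0), ([2, 3, 5, 7], 0),
   ([2, 3, 6, 6], 0), ([2, 3, 6, 7], 0), ([2, 4, 4, 4], 0), ([2, 4, 4, 5], 0), ([2, 4, 4, 6], 0),
   ([2, 4, 4, 7], 0), ([2, 4, 5, 5], 0), ([2, 4, 5, 6], 0), ([2, 4, 5, 7], 0), ([2, 4, 6, 6], 0)]

def D4_4 : List (List ℕ × ℕ) :=
  [([2, 4, 6, 7], 0), ([2, 5, 5, 5], 0), ([2, 5, 5, 6], 0), ([2, 5, 5, 7], 0), ([2, 5, 6, 6], 0),
   ([3, 3, 3, 3], 0), ([3, 3, 3, 4], 0), ([3, 3, 3, 5], 0), ([3, 3, 3, 6], 0), ([3, 3, 3, 7], 0),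
   ([3, 3, 4, 4], 0), ([3, 3, 4, 5], 0), ([3, 3, 4, 6], 0), ([3, 3, 4, 7], 0), ([3, 3, 5, 5], 0),
   ([3, 3, 5, 6], 0), ([3, 3, 5, 7], 0), ([3, 3, 6, 6], 0), ([3, 4, 4, 4], 0), ([3, 4, 4, 5], 0),
   ([3, 4, 4, 6], 0), ([3, 4, 4, 7], 0), ([3, 4, 5, 5], 0), ([3, 4, 5, 6], 0), ([3, 4, 5, 7], 0),
   ([3, 4, 6, 6], 0), ([3, 5, 5, 5], 0), ([3, 5, 5, 6], 0), ([4, 4, 4, 4], 0), ([4, 4, 4, 5], 0),
   ([4, 4, 4, 6], 0), ([4, 4, 4, 7], 0), ([4, 4, 5, 5], 0), ([4, 4, 5, 6], 0), ([4, 5, 5, 5], 0),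
   ([5, 5, 5, 5], 0)]

/-- four visible primes -/
def D4 : List (List ℕ × ℕ) :=
  D4_0 ++ D4_1 ++ D4_2 ++ D4_3 ++ D4_4

/-- the boxes for the products of at most 4 primes -/
def LF3 : List (List ℕ × ℕ) := D0 ++ D1 ++ D2a ++ D3a

/-- the boxes for the products of at most 5 primes -/
def LF4 : List (List ℕ × ℕ) := D0 ++ D1 ++ D2b ++ D3b ++ D4

/-- the boxes for the products of at most `k + 1` primes, `k = 3, 4` -/
def LF (k : ℕ) : List (List ℕ × ℕ) := if k = 3 then LF3 else LF4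

end Pool.Agent.Lib.MP_092512_nt.P5
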