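import Pool.Agent.Lib.MP_092512_nt.P5.E1

/-!
# P5.EK: evaluation of the closed forms by the kernel

For a box `L` of `n` intervals with integer end points (unit `et`) and the weight `G(S) = (61 - S)^2 + 36` the number `qs L`
is a lower bound of `∑_(s < 58) (s+1)/(58-s) (∑_(x < 58-s) G(s+x) RI n L 0 0 x)^2`.  All functions are written with
recursors and the functions of `Nat`, so that the kernel evaluates them fast.
-/

set_option autoImplicit false

open Finset

namespace Pool.Agent.Lib.MP_092512_nt.P5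

open Pool.Agent.Lib.MP_092512_nt.P3

/-- the leaves of sign `b` of the recursion: `(c, y, e)` stands for `c (y - x)^e` -/
noncomputable def lfr (L : List (ℕ × ℕ)) : ℕ → ℕ → ℕ → Bool → List (ℕ × ℕ × ℕ) → List (ℕ × ℕ × ℕ) :=
  @List.rec (ℕ × ℕ) (fun _ => ℕ → ℕ → ℕ → Bool → List (ℕ × ℕ × ℕ) → List (ℕ × ℕ × ℕ))
    (fun k c y b acc => @cond (List (ℕ × ℕ × ℕ)) b (List.cons (c, y, Nat.succ k) acc) acc)
    (fun I _ ih k c y b acc => ih k (Nat.mul c (Nat.sub I.2 I.1)) y b (ih (Nat.succ k) (Nat.div c (Nat.add k 2))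
      (Nat.add y I.2) (not b) (ih (Nat.succ k) (Nat.div c (Nat.add k 2)) (Nat.add y I.1) b acc))) L

noncomputable def evl (l : List (ℕ × ℕ × ℕ)) (x : ℕ) : ℕ :=
  @List.rec (ℕ × ℕ × ℕ) (fun _ => ℕ) 0
    (fun p _ ih => Nat.add (Nat.mul p.1 (Nat.pow (Nat.sub p.2.1 x) p.2.2)) ih) l

/-- `∑_(x < K) ((K + 3 - x)^2 + 36) (l(x) + l'(x+1))` -/
noncomputable def dt (l l' : List (ℕ × ℕ × ℕ)) (K : ℕ) : ℕ :=
  @Nat.rec (fun _ => ℕ) 0 (fun x ih => Nat.add (Nat.mul (Nat.add (Nat.pow (Nat.sub (Nat.add K 3) x) 2) 36)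
    (Nat.add (evl l x) (evl l' (Nat.succ x)))) ih) K

noncomputable def absd (a b : ℕ) : ℕ := Nat.add (Nat.sub a b) (Nat.sub b a)

noncomputable def qsl (l l' : List (ℕ × ℕ × ℕ)) (n : ℕ) : ℕ :=
  @Nat.rec (fun _ => ℕ) 0 (fun k ih => Nat.add (Nat.div (Nat.mul (Nat.sub 58 k)
    (Nat.pow (absd (dt l l' (Nat.succ k)) (dt l' l (Nat.succ k))) 2)) (Nat.succ k)) ih) n

/-- the lower bound for the box `L` -/
noncomputable def qs (L : List (ℕ × ℕ)) : ℕ :=
  qsl (lfr L 0 (Nat.factorial (Nat.succ L.length)) 0 true []) (lfr L 0 (Nat.factorial (Nat.succ L.length)) 0 false []) 58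

/-- positive and negative parts, without lists -/
private def TPc : List (ℕ × ℕ) → ℕ → ℕ → ℕ → ℕ → Bool → ℕ
  | [], k, c, y, x, b => if b then c * (y - x) ^ (k + 1) else 0
  | I :: L, k, c, y, x, b => TPc L k (c * (I.2 - I.1)) y x b + (TPc L (k + 1) (c / (k + 2)) (y + I.2) x (!b) +
      TPc L (k + 1) (c / (k + 2)) (y + I.1) x b)

private theorem evl_cons (p : ℕ × ℕ × ℕ) (l : List (ℕ × ℕ × ℕ)) (x : ℕ) :
    evl (p :: l) x = p.1 * (p.2.1 - x) ^ p.2.2 + evl l x := rfl

private theorem lfr_cons (I : ℕ × ℕ) (L : List (ℕ × ℕ)) (k c y : ℕ) (b : Bool) (acc : List (ℕ × ℕ × ℕ)) :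
    lfr (I :: L) k c y b acc = lfr L k (c * (I.2 - I.1)) y b (lfr L (k + 1) (c / (k + 2)) (y + I.2) (!b)
      (lfr L (k + 1) (c / (k + 2)) (y + I.1) b acc)) := rfl

private theorem evl_lfr (L : List (ℕ × ℕ)) (k c y x : ℕ) (b : Bool) (acc : List (ℕ × ℕ × ℕ)) :
    evl (lfr L k c y b acc) x = TPc L k c y x b + evl acc x := by
  induction L generalizing k c y b acc with
  | nil =>
    cases b
    · show evl acc x = _
      simp [TPc]
    · show evl ((c, y, k + 1) :: acc) x = _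
      rw [evl_cons]
      simp [TPc]
  | cons I L ih =>
    rw [lfr_cons, ih, ih, ih]
    simp only [TPc]
    ring

/-- the real recursion for one truncated power -/
private noncomputable def RT : List (ℕ × ℕ) → ℕ → ℕ → ℕ → ℝ
  | [], k, y, x => (((y - x : ℕ) : ℝ) ^ (k + 1)) / ((k + 1).factorial : ℝ)
  | I :: L, k, y, x => ((I.2 : ℝ) - I.1) * RT L k y x - RT L (k + 1) (y + I.2) x + RT L (k + 1) (y + I.1) x

private theorem RJ_RT (L : List (ℕ × ℕ)) (k y x : ℕ) : RJ L k y x = RT L k y x - RT L k y (x + 1) := by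
  induction L generalizing k y with
  | nil =>
    simp only [RJ, RT, hk]
    have h2 : ((y - x : ℕ) : ℝ) = max ((y : ℝ) - x) 0 := by
      rcases le_total y x with h | h
      · have h3 : (y : ℝ) ≤ x := by exact_mod_cast h
        rw [Nat.sub_eq_zero_of_le h, max_eq_right (by linarith)]
        simp
      · have h3 : (x : ℝ) ≤ y := by exact_mod_cast h
        rw [max_eq_left (by linarith), Nat.cast_sub h]
    have h4 : ((y - (x + 1) : ℕ) : ℝ) = max ((y : ℝ) - x - 1) 0 := by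
      rcases le_total y (x + 1) with h | h
      · have h3 : (y : ℝ) ≤ x + 1 := by exact_mod_cast h
        rw [Nat.sub_eq_zero_of_le h, max_eq_right (by linarith)]
        simp
      · have h3 : (x : ℝ) + 1 ≤ y := by exact_mod_cast h
        rw [max_eq_left (by linarith), Nat.cast_sub h]
        push_cast
        ring
    rw [← h2, ← h4]
    ring
  | cons I L ih =>
    simp only [RJ, RT]
    rw [ih, ih, ih]
    ring

private theorem TPc_RT (L : List (ℕ × ℕ)) (hI : ∀ I ∈ L, I.1 ≤ I.2) (k c c' y x : ℕ)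
    (hc : c * (k + 1).factorial = c' * (k + 1 + L.length).factorial) :
    (TPc L k c y x true : ℝ) - (TPc L k c y x false : ℝ) = c * ((k + 1).factorial : ℝ) * RT L k y x := by
  induction L generalizing k c c' y with
  | nil =>
    simp only [TPc, RT]
    have hf : (((k + 1).factorial : ℕ) : ℝ) ≠ 0 := by exact_mod_cast (Nat.factorial_pos _).ne'
    simp only [if_true, Bool.false_eq_true, if_false]
    push_cast
    field_simp
    ring
  | cons I L ih =>
    have hI1 : I.1 ≤ I.2 := hI I List.mem_cons_self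
    have hIL : ∀ J ∈ L, J.1 ≤ J.2 := fun J hJ => hI J (List.mem_cons_of_mem _ hJ)
    simp only [List.length_cons] at hc
    have hfk : (k + 2).factorial = (k + 2) * (k + 1).factorial := Nat.factorial_succ (k + 1)
    -- first term
    have h1 : (c * (I.2 - I.1)) * (k + 1).factorial =
        (c' * (I.2 - I.1) * (k + 1 + (L.length + 1))) * (k + 1 + L.length).factorial := by
      have : (k + 1 + (L.length + 1)).factorial = (k + 1 + (L.length + 1)) * (k + 1 + L.length).factorial :=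
        Nat.factorial_succ (k + 1 + L.length)
      rw [this] at hc
      calc (c * (I.2 - I.1)) * (k + 1).factorial = (c * (k + 1).factorial) * (I.2 - I.1) := by ring
        _ = _ := by rw [hc]; ring
    -- divisibility
    obtain ⟨m, hm⟩ : (k + 2).factorial ∣ (k + 1 + (L.length + 1)).factorial := Nat.factorial_dvd_factorial (by omega)
    have hcdiv : c = (k + 2) * (c' * m) := by
      have h5 : c * (k + 1).factorial = ((k + 2) * (c' * m)) * (k + 1).factorial := by
        rw [hc, hm, hfk]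
        ring
      exact Nat.eq_of_mul_eq_mul_right (Nat.factorial_pos _) h5
    have hdiv : c / (k + 2) = c' * m := by
      rw [hcdiv]
      exact Nat.mul_div_cancel_left _ (by omega)
    have h2 : (c / (k + 2)) * (k + 1 + 1).factorial = c' * (k + 1 + 1 + L.length).factorial := by
      rw [hdiv]
      have e1 : k + 1 + (L.length + 1) = k + 1 + 1 + L.length := by ring
      rw [e1] at hm
      have e2 : (k + 1 + 1).factorial = (k + 2).factorial := rfl
      rw [e2, hm]
      ring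
    have i1 := ih hIL k (c * (I.2 - I.1)) _ y h1
    have i2 := ih hIL (k + 1) (c / (k + 2)) _ (y + I.2) h2
    have i3 := ih hIL (k + 1) (c / (k + 2)) _ (y + I.1) h2
    have h3 : ((c / (k + 2) : ℕ) : ℝ) * (((k + 1 + 1).factorial : ℕ) : ℝ) = c * (((k + 1).factorial : ℕ) : ℝ) := by
      have h4 : (c / (k + 2)) * (k + 1 + 1).factorial = c * (k + 1).factorial := by
        have e2 : (k + 1 + 1).factorial = (k + 2) * (k + 1).factorial := hfk
        rw [hdiv, e2, hcdiv]
        ring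
      exact_mod_cast h4
    rw [h3] at i2 i3
    simp only [TPc, RT, Bool.not_true, Bool.not_false]
    rw [Nat.cast_mul, Nat.cast_sub hI1] at i1
    push_cast
    linear_combination i1 - i2 + i3

private theorem RI_evl (L : List (ℕ × ℕ)) (hI : ∀ I ∈ L, I.1 ≤ I.2) (x : ℕ) :
    (RI L.length L 0 0 x : ℝ) =
      ((evl (lfr L 0 (Nat.factorial (Nat.succ L.length)) 0 true []) x : ℝ) +
        evl (lfr L 0 (Nat.factorial (Nat.succ L.length)) 0 false []) (x + 1)) -
      ((evl (lfr L 0 (Nat.factorial (Nat.succ L.length)) 0 false []) x : ℝ) +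
        evl (lfr L 0 (Nat.factorial (Nat.succ L.length)) 0 true []) (x + 1)) := by
  have hc : (L.length + 1).factorial * (0 + 1).factorial = 1 * (0 + 1 + L.length).factorial := by
    have : 0 + 1 + L.length = L.length + 1 := by ring
    rw [this]
    simp
  have h1 := TPc_RT L hI 0 (L.length + 1).factorial 1 0 x hc
  have h2 := TPc_RT L hI 0 (L.length + 1).factorial 1 0 (x + 1) hc
  rw [RI_eq L.length L 0 0 x (by omega), RJ_RT]
  have e0 : Nat.factorial (Nat.succ L.length) = (L.length + 1).factorial := rfl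
  rw [e0, evl_lfr, evl_lfr, evl_lfr, evl_lfr]
  have e1 : ∀ t, evl [] t = 0 := fun _ => rfl
  simp only [e1, add_zero]
  have e2 : (((0 + 1).factorial : ℕ) : ℝ) = 1 := by simp
  rw [e2, mul_one] at h1 h2
  linear_combination -h1 + h2

private theorem dt_eq (l l' : List (ℕ × ℕ × ℕ)) (K m : ℕ) :
    @Nat.rec (fun _ => ℕ) 0 (fun x ih => Nat.add (Nat.mul (Nat.add (Nat.pow (Nat.sub (Nat.add K 3) x) 2) 36)
      (Nat.add (evl l x) (evl l' (Nat.succ x)))) ih) m =
    ∑ x ∈ range m, ((K + 3 - x) ^ 2 + 36) * (evl l x + evl l' (x + 1)) := by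
  induction m with
  | zero => rfl
  | succ m ih =>
    rw [sum_range_succ, ← ih]
    exact Nat.add_comm _ _

private theorem absd_sq (a b : ℕ) : ((absd a b : ℕ) : ℝ) ^ 2 = ((a : ℝ) - b) ^ 2 := by
  have e : absd a b = (a - b) + (b - a) := rfl
  rw [e]
  rcases le_total a b with h | h
  · rw [Nat.sub_eq_zero_of_le h, zero_add, Nat.cast_sub h]
    ring
  · rw [Nat.sub_eq_zero_of_le h, add_zero, Nat.cast_sub h]

private theorem qsl_le (l l' : List (ℕ × ℕ × ℕ)) (n : ℕ) (hn : n ≤ 58) :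
    (qsl l l' n : ℝ) ≤ ∑ k ∈ range n, (58 - (k : ℝ)) / (k + 1) * ((dt l l' (k + 1) : ℝ) - dt l' l (k + 1)) ^ 2 := by
  induction n with
  | zero =>
    have : qsl l l' 0 = 0 := rfl
    rw [this]
    simp
  | succ n ih =>
    have e : qsl l l' (n + 1) = (58 - n) * (absd (dt l l' (n + 1)) (dt l' l (n + 1))) ^ 2 / (n + 1) + qsl l l' n := rfl
    rw [e, sum_range_succ, Nat.cast_add, add_comm]
    apply add_le_add (ih (by omega))
    refine Nat.cast_div_le.trans ?_
    rw [Nat.cast_mul, Nat.cast_pow, absd_sq, Nat.cast_sub (by omega)]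
    push_cast
    apply le_of_eq
    ring

/-- the weight function -/
noncomputable def Gw (S : ℕ) : ℝ := (61 - (S : ℝ)) ^ 2 + 36

private theorem dt_eq' (l l' : List (ℕ × ℕ × ℕ)) (K : ℕ) :
    dt l l' K = ∑ x ∈ range K, ((K + 3 - x) ^ 2 + 36) * (evl l x + evl l' (x + 1)) := dt_eq l l' K K

private theorem dt_diff (l l' : List (ℕ × ℕ × ℕ)) (f : ℕ → ℝ)
    (hf : ∀ x, f x = ((evl l x : ℝ) + evl l' (x + 1)) - ((evl l' x : ℝ) + evl l (x + 1))) (k : ℕ) (hk : k < 58) :
    (dt l l' (k + 1) : ℝ) - dt l' l (k + 1) = ∑ x ∈ range (k + 1), Gw (57 - k + x) * f x := by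
  rw [dt_eq', dt_eq', Nat.cast_sum, Nat.cast_sum, ← sum_sub_distrib]
  apply sum_congr rfl
  intro x hx
  rw [mem_range] at hx
  have e2 : ((57 - k : ℕ) : ℝ) = 57 - k := by
    rw [Nat.cast_sub (by omega)]
    norm_num
  have e4 : Gw (57 - k + x) = (((k + 1 + 3 - x : ℕ) : ℝ)) ^ 2 + 36 := by
    unfold Gw
    rw [Nat.cast_add, e2, Nat.cast_sub (by omega)]
    push_cast
    ring
  rw [hf x, e4]
  push_cast
  ring

private theorem qsl_le' (l l' : List (ℕ × ℕ × ℕ)) (f : ℕ → ℝ)
    (hf : ∀ x, f x = ((evl l x : ℝ) + evl l' (x + 1)) - ((evl l' x : ℝ) + evl l (x + 1))) :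
    (qsl l l' 58 : ℝ) ≤ ∑ s ∈ range 58, ((s : ℝ) + 1) / (58 - s) *
      (∑ x ∈ range (58 - s), Gw (s + x) * f x) ^ 2 := by
  refine (qsl_le l l' 58 le_rfl).trans (le_of_eq ?_)
  rw [← sum_range_reflect (fun s : ℕ => ((s : ℝ) + 1) / (58 - s) *
      (∑ x ∈ range (58 - s), Gw (s + x) * f x) ^ 2) 58]
  apply sum_congr rfl
  intro k hk
  rw [mem_range] at hk
  have e1 : 58 - (57 - k) = k + 1 := by omega
  have e2 : ((57 - k : ℕ) : ℝ) = 57 - k := by
    rw [Nat.cast_sub (by omega)]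
    norm_num
  have e0 : 58 - 1 - k = 57 - k := by omega
  rw [e0, e1, e2, dt_diff l l' f hf k hk]
  have e3 : (57 - (k : ℝ) + 1) = 58 - (k : ℝ) := by ring
  have e4 : (58 - (57 - (k : ℝ))) = k + 1 := by ring
  rw [e3, e4]

theorem EK_qs (L : List (ℕ × ℕ)) (hI : ∀ I ∈ L, I.1 ≤ I.2) :
    (qs L : ℝ) ≤ ∑ s ∈ range 58, ((s : ℝ) + 1) / (58 - s) *
      (∑ x ∈ range (58 - s), Gw (s + x) * (RI L.length L 0 0 x : ℝ)) ^ 2 := by
  unfold qs
  exact qsl_le' _ _ (fun x => (RI L.length L 0 0 x : ℝ)) (fun x => RI_evl L hI x)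

end Pool.Agent.Lib.MP_092512_nt.P5
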