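import Pool.Agent.Lib.MP_092512_nt.P5.Fam

/-!
# P5: the certificate inequality of `Red.red` from the values of the families
-/

set_option autoImplicit false

open Finset

namespace Pool.Agent.Lib.MP_092512_nt.P5

open Pool.Agent.Lib.SW Pool.Agent.Lib.MP_092512_nt.P3

/-- upper bound for the mean square -/
def cA : ℕ := ∑ s ∈ range 58, ((s + 1) * (∑ u ∈ range (58 - s), Gf (s + u) ^ 2) / (58 - s) + 1)

/-- the prime part -/
def cM : ℕ := ∑ s ∈ range 58, (s + 1) * (s + 2) / 2 * Gf s ^ 2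

theorem cert1 : 2401 * (3 * cA) < 10 * cM + 2401 * (391045306 + 2 * 419280690) := by decide +kernel

theorem cert2 : 2401 * (15 * cA) < 90 * cM + 2401 * (15 * 391045306) := by decide +kernel

private theorem HC_A : ∑ s ∈ range 58, ((s : ℝ) + 1) / (58 - s) * ∑ u ∈ range (58 - s), (Gf (s + u) : ℝ) ^ 2 ≤
    (cA : ℝ) := by
  unfold cA
  push_cast
  refine sum_le_sum fun s hs => ?_
  have hs' := mem_range.1 hs
  have hc : ((58 - s : ℕ) : ℝ) = 58 - s := by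
    rw [Nat.cast_sub hs'.le]; norm_num
  have hp : (0 : ℝ) < 58 - s := by
    rw [← hc]
    exact_mod_cast Nat.sub_pos_of_lt hs'
  obtain ⟨Z, hZ⟩ : ∃ Z : ℕ, Z = ∑ u ∈ range (58 - s), Gf (s + u) ^ 2 := ⟨_, rfl⟩
  have e1 : ∑ u ∈ range (58 - s), (Gf (s + u) : ℝ) ^ 2 = (Z : ℝ) := by
    rw [hZ]; push_cast; rfl
  rw [e1, ← hZ]
  have h2 : (s + 1) * Z < (58 - s) * ((s + 1) * Z / (58 - s) + 1) :=
    Nat.lt_mul_div_succ _ (Nat.sub_pos_of_lt hs')
  have h3 : (((s + 1) * Z : ℕ) : ℝ) < ((58 - s : ℕ) : ℝ) * ((((s + 1) * Z / (58 - s) : ℕ) : ℝ) + 1) := by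
    exact_mod_cast h2
  rw [hc] at h3
  push_cast at h3
  rw [div_mul_eq_mul_div, div_le_iff₀ hp]
  push_cast
  linarith

private theorem HC_M : ∑ s ∈ range 58, ((s : ℝ) + 1) * (s + 2) / 2 * (Gf s : ℝ) ^ 2 = (cM : ℝ) := by
  unfold cM
  push_cast
  refine sum_congr rfl fun s _ => ?_
  have h1 : ((((s + 1) * (s + 2) / 2 : ℕ)) : ℝ) = ((s : ℝ) + 1) * (s + 2) / 2 := by
    rw [Nat.cast_div (by
      have := Nat.even_mul_succ_self (s + 1)
      exact this.two_dvd) (by norm_num)]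
    push_cast
    ring
  rw [← h1]

/-- the value of a family in the certificate -/
noncomputable def vF (k : ℕ) : ℝ := ∑ s ∈ range 58, ((s : ℝ) + 1) / (58 - s) *
  (Fk k).val et (58 - s) (fun u => (Gf (s + u) : ℝ))

theorem vF_ge (k : ℕ) (V : ℕ) (hES : V * 10 ^ 36 ≤ ES (LF k))
    (hE : (et / 10 ^ 36) * (ES (LF k) : ℝ) ≤ ∑ s ∈ range 58, ((s : ℝ) + 1) / (58 - s) *
      ((LF k).map (fun e => 1 / (mulL e.1 : ℝ) * (TB (scL et (bx e.1))
        (fun t => VV et (58 - s) (fun u => (Gf (s + u) : ℝ)) 1 - VV et (58 - s) (fun u => (Gf (s + u) : ℝ)) t) 0 ^ 2 /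
        TM (scL et (bx e.1)) (fun t => alW e.2 - beW e.2 * t) 0))).sum) : et * V ≤ vF k := by
  unfold vF
  have h1 : ∑ s ∈ range 58, ((s : ℝ) + 1) / (58 - s) * (Fk k).val et (58 - s) (fun u => (Gf (s + u) : ℝ)) =
      ∑ s ∈ range 58, ((s : ℝ) + 1) / (58 - s) *
      ((LF k).map (fun e => 1 / (mulL e.1 : ℝ) * (TB (scL et (bx e.1))
        (fun t => VV et (58 - s) (fun u => (Gf (s + u) : ℝ)) 1 - VV et (58 - s) (fun u => (Gf (s + u) : ℝ)) t) 0 ^ 2 /
        TM (scL et (bx e.1)) (fun t => alW e.2 - beW e.2 * t) 0))).sum := by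
    refine sum_congr rfl fun s _ => ?_
    rw [Fk_val]
  rw [h1]
  refine le_trans ?_ hE
  have h2 : ((V * 10 ^ 36 : ℕ) : ℝ) ≤ (ES (LF k) : ℝ) := by exact_mod_cast hES
  push_cast at h2
  have h2' : (V : ℝ) * 10 ^ 36 ≤ (ES (LF k) : ℝ) := by linarith
  have h3 : et * V = et / 10 ^ 36 * (V * 10 ^ 36) := by field_simp
  rw [h3]
  exact mul_le_mul_of_nonneg_left h2' (div_nonneg et_pos.le (by positivity))

/-- the certificate for one prime, one `P_4` and two `P_5` -/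
theorem hcert1 (h3 : et * (391045306 : ℕ) ≤ vF 3) (h4 : et * (419280690 : ℕ) ≤ vF 4) :
    3 * et * ∑ s ∈ range 58, ((s : ℝ) + 1) / (58 - s) * ∑ u ∈ range (58 - s), (Gf (s + u) : ℝ) ^ 2 <
      1 * et ^ 2 * ∑ s ∈ range 58, ((s : ℝ) + 1) * (s + 2) / 2 * (Gf s : ℝ) ^ 2 +
        ∑ i : Fin 3, ∑ s ∈ range 58, ((s : ℝ) + 1) / (58 - s) *
          (Fk ((![3, 4, 4] : Fin 3 → ℕ) i)).val et (58 - s) (fun u => (Gf (s + u) : ℝ)) := by
  rw [Fin.sum_univ_three]
  change _ < _ + (vF 3 + vF 4 + vF 4)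
  rw [HC_M]
  have hA := HC_A
  have hc : ((2401 * (3 * cA) : ℕ) : ℝ) < ((10 * cM + 2401 * (391045306 + 2 * 419280690) : ℕ) : ℝ) := by
    exact_mod_cast cert1
  push_cast at hc h3 h4
  have hc' : 2401 * (3 * (cA : ℝ)) < 10 * (cM : ℝ) + 2401 * (391045306 + 2 * 419280690) := by linarith
  have he := et_pos
  have he2 : (2401 : ℝ) * et = 10 := by unfold et; norm_num
  have h5 := mul_le_mul_of_nonneg_left hA (mul_nonneg (by norm_num : (0 : ℝ) ≤ 3) he.le)
  refine lt_of_le_of_lt h5 ?_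
  have h6 : 3 * et * (cA : ℝ) < et ^ 2 * cM + et * (391045306 + 2 * 419280690) := by
    have h7 := mul_lt_mul_of_pos_left hc' (div_pos he (by norm_num : (0 : ℝ) < 2401))
    have e1 : et / 2401 * (2401 * (3 * (cA : ℝ))) = 3 * et * cA := by ring
    have e2 : et / 2401 * (10 * (cM : ℝ) + 2401 * (391045306 + 2 * 419280690)) =
        et * (10 / 2401) * cM + et * (391045306 + 2 * 419280690) := by ring
    rw [e1, e2] at h7
    have e3 : (10 : ℝ) / 2401 = et := rfl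
    rw [e3] at h7
    calc 3 * et * (cA : ℝ) < et * et * cM + et * (391045306 + 2 * 419280690) := h7
      _ = _ := by ring
  linarith

/-- the certificate for one `P_2` and three `P_4` -/
theorem hcert2 (h3 : et * (391045306 : ℕ) ≤ vF 3) :
    3 * et * ∑ s ∈ range 58, ((s : ℝ) + 1) / (58 - s) * ∑ u ∈ range (58 - s), (Gf (s + u) : ℝ) ^ 2 <
      9 / 5 * et ^ 2 * ∑ s ∈ range 58, ((s : ℝ) + 1) * (s + 2) / 2 * (Gf s : ℝ) ^ 2 +
        ∑ i : Fin 3, ∑ s ∈ range 58, ((s : ℝ) + 1) / (58 - s) *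
          (Fk ((![3, 3, 3] : Fin 3 → ℕ) i)).val et (58 - s) (fun u => (Gf (s + u) : ℝ)) := by
  rw [Fin.sum_univ_three]
  change _ < _ + (vF 3 + vF 3 + vF 3)
  rw [HC_M]
  have hA := HC_A
  have hc : ((2401 * (15 * cA) : ℕ) : ℝ) < ((90 * cM + 2401 * (15 * 391045306) : ℕ) : ℝ) := by
    exact_mod_cast cert2
  push_cast at hc h3
  have hc' : 2401 * (15 * (cA : ℝ)) < 90 * (cM : ℝ) + 2401 * (15 * 391045306) := by linarith
  have he := et_pos
  have h5 := mul_le_mul_of_nonneg_left hA (mul_nonneg (by norm_num : (0 : ℝ) ≤ 3) he.le)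
  refine lt_of_le_of_lt h5 ?_
  have h6 : 3 * et * (cA : ℝ) < 9 / 5 * et ^ 2 * cM + et * (3 * 391045306) := by
    have h7 := mul_lt_mul_of_pos_left hc' (div_pos he (by norm_num : (0 : ℝ) < 5 * 2401))
    have e1 : et / (5 * 2401) * (2401 * (15 * (cA : ℝ))) = 3 * et * cA := by ring
    have e2 : et / (5 * 2401) * (90 * (cM : ℝ) + 2401 * (15 * 391045306)) =
        9 / 5 * (et * (10 / 2401)) * cM + et * (3 * 391045306) := by ring
    rw [e1, e2] at h7
    have e3 : (10 : ℝ) / 2401 = et := rfl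
    rw [e3] at h7
    calc 3 * et * (cA : ℝ) < 9 / 5 * (et * et) * cM + et * (3 * 391045306) := h7
      _ = _ := by ring
  linarith

end Pool.Agent.Lib.MP_092512_nt.P5
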