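import Pool.Agent.Lib.MP_092512_nt.P5.Main
import Pool.Agent.Lib.MP_092512_nt.P5.HCert

/-!
# P5: the two theorems, relative to the completions (`D2`), the values of the families and the masses of the coordinate `0`
-/

set_option autoImplicit false

open Finset Filter

namespace Pool.Agent.Lib.MP_092512_nt.P5

open Pool.Agent.Lib.SW Pool.Agent.Lib.MP_092512_nt.P3

/-- the statement of `D2` for `LF k` -/
def HD2 (k : ℕ) : Prop := ∀ h0 : ℕ, ∀ e ∈ LF k, ∀ ε : ℝ, 0 < ε → ∀ᶠ x : ℕ in atTop,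
  ∀ l ∈ boxL x (scL et (bx e.1)), l.Nodup →
    x / Real.log x * (1 / (l.prod : ℝ) * (1 / (alW e.2 - beW e.2 * sL x l) - ε)) ≤ Comp x h0 de k l.prod

/-- prime in the coordinate `0`, at most `kk i + 1` prime factors in the others -/
def QP (kk : Fin 3 → ℕ) : Fin 4 → ℕ → Prop :=
  Fin.cons (fun m => m.Prime) (fun i m => m.primeFactors.card ≤ kk i + 1)

/-- at most `kk i` prime factors -/
def QK (k₀ : ℕ) (kk : Fin 3 → ℕ) : Fin 4 → ℕ → Prop :=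
  Fin.cons (fun m => m.primeFactors.card ≤ k₀ + 1) (fun i m => m.primeFactors.card ≤ kk i + 1)

open Classical in
/-- the conclusion -/
def Concl (Q : Fin 4 → ℕ → Prop) : Prop :=
  ∃ c C : ℝ, 0 < c ∧ 0 < C ∧ ∀ h : Fin 4 → ℕ, Function.Injective h →
    (∀ p : ℕ, p.Prime → nuh h univ p < p) →
    ∃ S : ℝ, 0 < S ∧ Tendsto (SgR h) atTop (nhds S) ∧ ∃ N₀ : ℕ, ∀ N : ℕ, N₀ ≤ N →
      c * S * (N / (Real.log N) ^ 4) ≤ (((Icc 1 N).filter (fun n => ∀ i, Squarefree (n + h i) ∧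
        Q i (n + h i) ∧ ∀ p ∈ (n + h i).primeFactors, (N : ℝ) ^ (1 / 251 : ℝ) < p)).card : ℝ) ∧
      (((Icc 1 N).filter (fun n => ∀ i, Squarefree (n + h i) ∧
        Q i (n + h i) ∧ ∀ p ∈ (n + h i).primeFactors, (N : ℝ) ^ (1 / 251 : ℝ) < p)).card : ℝ) ≤
        C * S * (N / (Real.log N) ^ 4)

/-- one prime, one `P_4`, two `P_5` -/
theorem fin1 (hrough : ∃ x₀ : ℕ, ∀ x : ℕ, x₀ ≤ x → ∀ m : ℕ, x < m → m ≤ 3 * x → ewk x de th 0 m ≠ 0 →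
      ∀ p ∈ m.primeFactors, (x : ℝ) ^ (1 / 4 : ℝ) < p)
    (hmass : ∀ h0 : ℕ, ∀ ε : ℝ, 0 < ε → ∃ x₀ : ℕ, ∀ x : ℕ, x₀ ≤ x →
      x / Real.log x * (1 - ε) ≤ ∑ m ∈ Ioc (x + h0) (2 * x + h0), ewk x de th 0 m)
    (hD3 : HD2 3) (hD4 : HD2 4) (h3 : et * (391045306 : ℕ) ≤ vF 3) (h4 : et * (419280690 : ℕ) ≤ vF 4) :
    Concl (QP ![3, 4, 4]) := by
  have hde1 : de ≤ 1 := by unfold de; norm_num
  refine main_gen (fun S => (Gf S : ℝ)) de le_rfl hde1 0 (by norm_num) ![3, 4, 4] ?_ hrough 1 hmass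
    (fun i s => (Fk ((![3, 4, 4] : Fin 3 → ℕ) i)).val et (58 - s) (fun u => (Gf (s + u) : ℝ))) ?_
    (hcert1 h3 h4) (QP ![3, 4, 4]) ?_ ?_
  · intro i
    fin_cases i <;> simp
  · intro i B h0 hB s hs ε hε
    have hk : HD2 ((![3, 4, 4] : Fin 3 → ℕ) i) := by
      fin_cases i
      · exact hD3
      · exact hD4
      · exact hD4
    exact D_main _ hk B h0 hB s hs ε hε
  · exact ⟨2, fun x hx m hm hm3 hne => prime_of_ewk hx hde1 hm hm3 hne⟩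
  · intro i m hm
    exact hm

/-- one `P_2`, three `P_4` -/
theorem fin2 (δ₀ : ℝ) (hδ₀ : de ≤ δ₀) (hδ₁ : δ₀ ≤ 1)
    (hrough : ∃ x₀ : ℕ, ∀ x : ℕ, x₀ ≤ x → ∀ m : ℕ, x < m → m ≤ 3 * x → ewk x δ₀ th 1 m ≠ 0 →
      ∀ p ∈ m.primeFactors, (x : ℝ) ^ (1 / 4 : ℝ) < p)
    (hmass : ∀ h0 : ℕ, ∀ ε : ℝ, 0 < ε → ∃ x₀ : ℕ, ∀ x : ℕ, x₀ ≤ x →
      x / Real.log x * (9 / 5 - ε) ≤ ∑ m ∈ Ioc (x + h0) (2 * x + h0), ewk x δ₀ th 1 m)
    (hD3 : HD2 3) (h3 : et * (391045306 : ℕ) ≤ vF 3) :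
    Concl (QK 1 ![3, 3, 3]) := by
  have hth : th ≤ 1 := by unfold th; norm_num
  refine main_gen (fun S => (Gf S : ℝ)) δ₀ hδ₀ hδ₁ 1 (by norm_num) ![3, 3, 3] ?_ hrough (9 / 5) hmass
    (fun i s => (Fk ((![3, 3, 3] : Fin 3 → ℕ) i)).val et (58 - s) (fun u => (Gf (s + u) : ℝ))) ?_
    (hcert2 h3) (QK 1 ![3, 3, 3]) ?_ ?_
  · intro i
    fin_cases i <;> simp
  · intro i B h0 hB s hs ε hε
    have hk : HD2 ((![3, 3, 3] : Fin 3 → ℕ) i) := by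
      fin_cases i
      · exact hD3
      · exact hD3
      · exact hD3
    exact D_main _ hk B h0 hB s hs ε hε
  · exact ⟨2, fun x hx m hm hm3 hne => ((ewk_bound δ₀ th hδ₁ hth 1 x hx m hm hm3).2.2 hne).2.1⟩
  · intro i m hm
    exact hm

end Pool.Agent.Lib.MP_092512_nt.P5
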