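import Pool.Agent.Lib.MP_092512_nt.P5.EDefs

/-!
# P5.K0: fast evaluation of the quadratic form of a box by generating polynomials

`polP n L k = (P, N)`: two polynomials over `ℕ` with `coeff P X - coeff N X = RI n L k 180 X` for `X ≥ ∑ hi`.
Evaluating at `b` packs all values into one natural number.  `QP n L`: the quadratic form computed from the digits.
-/

set_option autoImplicit false

open Finset Polynomial

namespace Pool.Agent.Lib.MP_092512_nt.P5

/-! ### digits -/

theorem K0_coeff_le (p : ℕ[X]) (j : ℕ) : p.coeff j ≤ p.eval 1 := by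
  rw [eval_eq_sum_range]
  simp only [one_pow, mul_one]
  by_cases h : j ∈ range (p.natDegree + 1)
  · exact single_le_sum (f := fun i => p.coeff i) (fun i _ => Nat.zero_le _) h
  · rw [mem_range, not_lt] at h
    rw [coeff_eq_zero_of_natDegree_lt (by omega)]
    exact Nat.zero_le _

theorem K0_eval_divX (p : ℕ[X]) (b : ℕ) : p.eval b = p.divX.eval b * b + p.coeff 0 := by
  conv_lhs => rw [← divX_mul_X_add p]
  simp

/-- digit extraction -/
theorem K0_digit (b : ℕ) (hb : 0 < b) (j : ℕ) (p : ℕ[X]) (hp : p.eval 1 < b) :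
    p.eval b / b ^ j % b = p.coeff j := by
  induction j generalizing p with
  | zero =>
    have h1 := K0_coeff_le p 0
    rw [pow_zero, Nat.div_one, K0_eval_divX p b, Nat.mul_comm, Nat.mul_add_mod,
      Nat.mod_eq_of_lt (lt_of_le_of_lt h1 hp)]
  | succ j ih =>
    have h1 := K0_coeff_le p 0
    have h2 := K0_eval_divX p b
    have h3 := K0_eval_divX p 1
    have h4 : p.eval b / b = p.divX.eval b := by
      rw [h2, Nat.mul_comm, Nat.mul_add_div hb, Nat.div_eq_of_lt (lt_of_le_of_lt h1 hp), add_zero]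
    rw [pow_succ', ← Nat.div_div_eq_div_mul, h4, ih p.divX (by omega), coeff_divX]

/-- drop the first `j` digits -/
theorem K0_drop (b : ℕ) (hb : 0 < b) (j : ℕ) (p : ℕ[X]) (hp : p.eval 1 < b) :
    ∃ q : ℕ[X], q.eval b = p.eval b / b ^ j ∧ q.eval 1 ≤ p.eval 1 ∧ ∀ i, q.coeff i = p.coeff (i + j) := by
  induction j generalizing p with
  | zero => exact ⟨p, by simp, le_refl _, fun i => rfl⟩
  | succ j ih =>
    have h1 := K0_coeff_le p 0
    have h2 := K0_eval_divX p b
    have h3 := K0_eval_divX p 1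
    have h4 : p.eval b / b = p.divX.eval b := by
      rw [h2, Nat.mul_comm, Nat.mul_add_div hb, Nat.div_eq_of_lt (lt_of_le_of_lt h1 hp), add_zero]
    obtain ⟨q, hq1, hq2, hq3⟩ := ih p.divX (by omega)
    refine ⟨q, ?_, by omega, fun i => ?_⟩
    · rw [hq1, pow_succ', ← Nat.div_div_eq_div_mul, h4]
    · rw [hq3, coeff_divX]
      rfl

/-! ### the polynomials -/

theorem RI_shift (n : ℕ) (L : List (ℕ × ℕ)) (k y x : ℕ) : RI n L k (y + 1) (x + 1) = RI n L k y x := by
  induction L generalizing k y with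
  | nil =>
    simp only [RI]
    rw [Nat.add_sub_add_right]
  | cons I L ih =>
    simp only [RI]
    have e1 : y + 1 + I.2 = y + I.2 + 1 := by ring
    have e2 : y + 1 + I.1 = y + I.1 + 1 := by ring
    rw [ih k y, e1, ih (k + 1) (y + I.2), e2, ih (k + 1) (y + I.1)]

theorem RI_shift' (n : ℕ) (L : List (ℕ × ℕ)) (k y x h : ℕ) : RI n L k (y + h) (x + h) = RI n L k y x := by
  induction h with
  | zero => rfl
  | succ h ih => rw [← add_assoc, ← add_assoc, RI_shift, ih]

/-- the base values -/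
def bas (n k X : ℕ) : ℕ :=
  (n + 1).factorial / (k + 1).factorial * ((180 - X) ^ (k + 1) - (180 - X - 1) ^ (k + 1))

theorem bas_eq (n k X : ℕ) : (bas n k X : ℤ) = RI n [] k 180 X := by
  unfold bas RI
  have h : (180 - X - 1) ^ (k + 1) ≤ (180 - X) ^ (k + 1) := Nat.pow_le_pow_left (by omega) _
  rw [Nat.cast_mul, Nat.cast_sub h]
  push_cast
  rfl

theorem bas_zero (n k X : ℕ) (h : 180 ≤ X) : bas n k X = 0 := by
  unfold bas
  have h1 : 180 - X = 0 := by omega
  rw [h1]
  simp

noncomputable def basP (n k : ℕ) : ℕ[X] := ∑ j ∈ range 180, C (bas n k j) * X ^ j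

theorem basP_coeff (n k j : ℕ) : (basP n k).coeff j = bas n k j := by
  unfold basP
  simp only [finsetSum_coeff, coeff_C_mul, coeff_X_pow]
  by_cases h : j < 180
  · rw [sum_eq_single j]
    · simp
    · intro i _ hij
      rw [if_neg (Ne.symm hij), mul_zero]
    · intro hj
      exact absurd (mem_range.mpr h) hj
  · rw [bas_zero n k j (by omega)]
    apply sum_eq_zero
    intro i hi
    rw [mem_range] at hi
    rw [if_neg (by omega), mul_zero]

/-- the pair of polynomials -/
noncomputable def polP (n : ℕ) : List (ℕ × ℕ) → ℕ → ℕ[X] × ℕ[X]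
  | [], k => (basP n k, 0)
  | I :: L, k => (C (I.2 - I.1) * (polP n L k).1 + X ^ I.2 * (polP n L (k + 1)).2 + X ^ I.1 * (polP n L (k + 1)).1,
      C (I.2 - I.1) * (polP n L k).2 + X ^ I.2 * (polP n L (k + 1)).1 + X ^ I.1 * (polP n L (k + 1)).2)

theorem polP_coeff (n : ℕ) (L : List (ℕ × ℕ)) (hL : ∀ I ∈ L, I.1 ≤ I.2) (k j : ℕ)
    (hj : (L.map Prod.snd).sum ≤ j) :
    (((polP n L k).1.coeff j : ℕ) : ℤ) - ((polP n L k).2.coeff j : ℕ) = RI n L k 180 j := by
  induction L generalizing k j with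
  | nil => simp [polP, basP_coeff, bas_eq]
  | cons I L ih =>
    simp only [List.map_cons, List.sum_cons] at hj
    have hI := hL I List.mem_cons_self
    have hL' : ∀ I ∈ L, I.1 ≤ I.2 := fun J hJ => hL J (List.mem_cons_of_mem _ hJ)
    have h1 : j = j - I.2 + I.2 := by omega
    have h2 : j = j - I.1 + I.1 := by omega
    have h3 := ih hL' k j (by omega)
    have h4 := ih hL' (k + 1) (j - I.2) (by omega)
    have h5 := ih hL' (k + 1) (j - I.1) (by omega)
    have e4 : RI n L (k + 1) 180 (j - I.2) = RI n L (k + 1) (180 + I.2) j := by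
      conv_rhs => rw [h1]
      rw [RI_shift']
    have e5 : RI n L (k + 1) 180 (j - I.1) = RI n L (k + 1) (180 + I.1) j := by
      conv_rhs => rw [h2]
      rw [RI_shift']
    simp only [polP, RI, coeff_add, coeff_C_mul]
    have hi : I.2 ≤ j := by omega
    have lo : I.1 ≤ j := by omega
    simp only [coeff_X_pow_mul', if_pos hi, if_pos lo]
    rw [← h3, ← e4, ← e5, ← h4, ← h5]
    push_cast [Nat.cast_sub hI]
    ring

/-! ### the quadratic form -/

/-- the multiplier polynomial `∑ (j+3)² X^j`, `1 ≤ j ≤ 58` -/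
noncomputable def GP : ℕ[X] := ∑ j ∈ range 59, C (if j = 0 then 0 else (j + 3) ^ 2) * X ^ j

theorem GP_coeff (j : ℕ) (hj : j < 59) : GP.coeff j = if j = 0 then 0 else (j + 3) ^ 2 := by
  unfold GP
  simp only [finsetSum_coeff, coeff_C_mul, coeff_X_pow]
  rw [sum_eq_single j]
  · simp
  · intro i _ hij
    rw [if_neg (Ne.symm hij), mul_zero]
  · intro h
    exact absurd (mem_range.mpr hj) h

theorem GP_mul_coeff (p : ℕ[X]) (m : ℕ) (hm : m < 59) :
    (p * GP).coeff m = ∑ x ∈ range m, p.coeff x * (m + 3 - x) ^ 2 := by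
  rw [coeff_mul, Finset.Nat.sum_antidiagonal_eq_sum_range_succ_mk, sum_range_succ]
  have h0 : p.coeff m * GP.coeff (m - m) = 0 := by
    rw [Nat.sub_self, GP_coeff 0 (by norm_num), if_pos rfl, mul_zero]
  rw [h0, add_zero]
  refine sum_congr rfl fun x hx => ?_
  rw [mem_range] at hx
  have e1 : m - x + 3 = m + 3 - x := by omega
  rw [GP_coeff (m - x) (by omega), if_neg (by omega), e1]

/-- the base -/
def bB : ℕ := 2 ^ 72

end Pool.Agent.Lib.MP_092512_nt.P5
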