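import Pool.Agent.Lib.MP_092512_nt.P5.K0
import Pool.Agent.Lib.MP_092512_nt.P5.Fam

/-!
# P5.K1: the kernel functions

All intermediate numbers are forced by `kN`.  `run n L ≤ ES L` for lists of boxes in `n ≥ 1` primes.
-/

set_option autoImplicit false

open Finset Polynomial

namespace Pool.Agent.Lib.MP_092512_nt.P5

/-- the base -/
def kB : ℕ := 2 ^ 72

theorem kB_pos : 0 < kB := by unfold kB; positivity

noncomputable def kN {α : Type} (K : ℕ → α) (n : ℕ) : α := Nat.rec (K 0) (fun k _ => K (Nat.succ k)) n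

theorem kN_eq {α : Type} (K : ℕ → α) (n : ℕ) : kN K n = K n := by
  cases n <;> rfl

/-! ### one step -/

noncomputable def stp {α : Type} (w sl sh : ℕ) (Ts : List (ℕ × ℕ)) : (List (ℕ × ℕ) → α) → α :=
  List.rec (motive := fun _ => (List (ℕ × ℕ) → α) → α) (fun K => K [])
    (fun T0 rest ih K => List.rec (motive := fun _ => α) (K []) (fun T1 _ _ =>
      Prod.rec (motive := fun _ => α) (fun p0 q0 => Prod.rec (motive := fun _ => α) (fun p1 q1 =>
        kN (fun p => kN (fun q => ih (fun r => K ((p, q) :: r)))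
          (Nat.add (Nat.add (Nat.mul w q0) (Nat.mul sh p1)) (Nat.mul sl q1)))
          (Nat.add (Nat.add (Nat.mul w p0) (Nat.mul sh q1)) (Nat.mul sl p1))) T1) T0) rest) Ts

def stpL (w sl sh : ℕ) : List (ℕ × ℕ) → List (ℕ × ℕ)
  | [] => []
  | [_] => []
  | T0 :: T1 :: rest => (w * T0.1 + sh * T1.2 + sl * T1.1, w * T0.2 + sh * T1.1 + sl * T1.2) ::
      stpL w sl sh (T1 :: rest)

theorem stp_eq {α : Type} (w sl sh : ℕ) (Ts : List (ℕ × ℕ)) (K : List (ℕ × ℕ) → α) :
    stp w sl sh Ts K = K (stpL w sl sh Ts) := by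
  induction Ts generalizing K with
  | nil => rfl
  | cons T0 rest ih =>
    cases rest with
    | nil => rfl
    | cons T1 rest =>
      have e1 : stp w sl sh (T0 :: T1 :: rest) K =
          kN (fun p => kN (fun q => stp w sl sh (T1 :: rest) (fun r => K ((p, q) :: r)))
            (Nat.add (Nat.add (Nat.mul w T0.2) (Nat.mul sh T1.1)) (Nat.mul sl T1.2)))
            (Nat.add (Nat.add (Nat.mul w T0.1) (Nat.mul sh T1.2)) (Nat.mul sl T1.1)) := rfl
      rw [e1, kN_eq, kN_eq, ih]
      rfl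

/-- the table of the values at `b` -/
noncomputable def tabF (b n : ℕ) (L : List (ℕ × ℕ)) (k0 : ℕ) : ℕ → List (ℕ × ℕ)
  | 0 => []
  | m + 1 => ((polP n L k0).1.eval b, (polP n L k0).2.eval b) :: tabF b n L (k0 + 1) m

theorem stpL_tab (b n : ℕ) (I : ℕ × ℕ) (L : List (ℕ × ℕ)) (k0 m : ℕ) :
    stpL (I.2 - I.1) (b ^ I.1) (b ^ I.2) (tabF b n L k0 (m + 1)) = tabF b n (I :: L) k0 m := by
  induction m generalizing k0 with
  | zero => rfl
  | succ m ih =>
    have e1 := ih (k0 + 1)
    simp only [tabF] at e1 ⊢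
    simp only [stpL]
    rw [e1]
    simp [polP]

/-- the tables of a box -/
noncomputable def boxT {α : Type} (b : ℕ) (base : List (ℕ × ℕ)) (L : List (ℕ × ℕ)) : (List (ℕ × ℕ) → α) → α :=
  List.rec (motive := fun _ => (List (ℕ × ℕ) → α) → α) (fun K => K base)
    (fun I _ ih K => ih (fun Ts => Prod.rec (motive := fun _ => α) (fun lo hi =>
      kN (fun w => kN (fun sl => kN (fun sh => stp w sl sh Ts K) (Nat.pow b hi)) (Nat.pow b lo)) (Nat.sub hi lo)) I)) L

theorem boxT_eq {α : Type} (b n : ℕ) (L : List (ℕ × ℕ)) (K : List (ℕ × ℕ) → α) (m : ℕ) :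
    boxT b (tabF b n [] 0 (m + L.length)) L K = K (tabF b n L 0 m) := by
  induction L generalizing K m with
  | nil => rfl
  | cons I L ih =>
    have e0 : m + (I :: L).length = m + 1 + L.length := by
      rw [List.length_cons]
      ring
    have e1 : boxT b (tabF b n [] 0 (m + (I :: L).length)) (I :: L) K =
        boxT b (tabF b n [] 0 (m + (I :: L).length)) L (fun Ts =>
          kN (fun w => kN (fun sl => kN (fun sh => stp w sl sh Ts K) (Nat.pow b I.2)) (Nat.pow b I.1))
            (Nat.sub I.2 I.1)) := rfl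
    rw [e1, e0, ih]
    rw [kN_eq, kN_eq, kN_eq, stp_eq]
    congr 1
    exact stpL_tab b n I L 0 m

/-! ### the digits -/

noncomputable def lpD (ws : List ℕ) : ℕ → ℕ → ℕ → ℕ :=
  List.rec (motive := fun _ => ℕ → ℕ → ℕ → ℕ) (fun _ _ s => s)
    (fun w _ ih zp zq s => kN (fun zp => kN (fun zq => kN (fun a => kN (fun c => kN (fun s => ih zp zq s)
      (Nat.add s (Nat.mul w (Nat.mul (Nat.add (Nat.sub a c) (Nat.sub c a)) (Nat.add (Nat.sub a c) (Nat.sub c a))))))
      (Nat.mod zq kB)) (Nat.mod zp kB)) (Nat.div zq kB)) (Nat.div zp kB)) ws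

theorem lpD_cons (w : ℕ) (ws : List ℕ) (zp zq s : ℕ) : lpD (w :: ws) zp zq s =
    lpD ws (zp / kB) (zq / kB) (s + w * ((zp / kB % kB - zq / kB % kB + (zq / kB % kB - zp / kB % kB)) *
      (zp / kB % kB - zq / kB % kB + (zq / kB % kB - zp / kB % kB)))) := by
  have e1 : lpD (w :: ws) zp zq s = kN (fun zp => kN (fun zq => kN (fun a => kN (fun c => kN (fun s => lpD ws zp zq s)
      (Nat.add s (Nat.mul w (Nat.mul (Nat.add (Nat.sub a c) (Nat.sub c a)) (Nat.add (Nat.sub a c) (Nat.sub c a))))))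
      (Nat.mod zq kB)) (Nat.mod zp kB)) (Nat.div zq kB)) (Nat.div zp kB) := rfl
  rw [e1, kN_eq, kN_eq, kN_eq, kN_eq, kN_eq]
  rfl

theorem lpD_eq (ws : List ℕ) (zp zq s : ℕ) : lpD ws zp zq s = s + ∑ i ∈ range ws.length, ws.getD i 0 *
    ((((zp / kB ^ (i + 1) % kB : ℕ) : ℤ) - ((zq / kB ^ (i + 1) % kB : ℕ) : ℤ)).natAbs) ^ 2 := by
  induction ws generalizing zp zq s with
  | nil => simp [lpD]
  | cons w ws ih =>
    rw [lpD_cons, ih, List.length_cons, sum_range_succ' _ ws.length, add_comm (∑ i ∈ range ws.length, _), ← add_assoc]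
    have hd : ∀ a c : ℕ, a - c + (c - a) = ((a : ℤ) - (c : ℤ)).natAbs := by
      intro a c
      omega
    congr 1
    · rw [hd, zero_add, pow_one]
      have : (w :: ws).getD 0 0 = w := rfl
      rw [this]
      ring
    · refine sum_congr rfl fun i _ => ?_
      have e1 : (w :: ws).getD (i + 1) 0 = ws.getD i 0 := rfl
      rw [e1, pow_succ' kB (i + 1), ← Nat.div_div_eq_div_mul, ← Nat.div_div_eq_div_mul]

/-- the weights -/
def wsL : List ℕ := [58000000, 28500000, 18666666, 13750000, 10800000, 8833333, 7428571, 6375000, 5555555,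
  4900000, 4363636, 3916666, 3538461, 3214285, 2933333, 2687500, 2470588, 2277777, 2105263, 1950000, 1809523,
  1681818, 1565217, 1458333, 1360000, 1269230, 1185185, 1107142, 1034482, 966666, 903225, 843750, 787878, 735294,
  685714, 638888, 594594, 552631, 512820, 475000, 439024, 404761, 372093, 340909, 311111, 282608, 255319, 229166,
  204081, 180000, 156862, 134615, 113207, 92592, 72727, 53571, 35087, 17241]

theorem wsL_len : wsL.length = 58 := rfl

theorem wsL_get : ∀ i < 58, wsL.getD i 0 = (57 - i + 1) * 10 ^ 6 / (58 - (57 - i)) := by decide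

/-! ### the base tables -/

noncomputable def bv (b n k : ℕ) : ℕ :=
  kN (fun c => Nat.rec (motive := fun _ => ℕ) 0 (fun j acc => Nat.add acc (Nat.mul (Nat.mul c
    (Nat.sub (Nat.pow (Nat.sub 180 j) (Nat.succ k)) (Nat.pow (Nat.sub (Nat.sub 180 j) 1) (Nat.succ k)))) (Nat.pow b j))) 180)
    (Nat.div (n + 1).factorial (k + 1).factorial)

theorem bv_eq (b n k : ℕ) : bv b n k = (basP n k).eval b := by
  unfold bv basP
  rw [kN_eq, eval_finsetSum]
  have key : ∀ m : ℕ, Nat.rec (motive := fun _ => ℕ) 0 (fun j acc => Nat.add acc (Nat.mul (Nat.mul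
      (Nat.div (n + 1).factorial (k + 1).factorial) (Nat.sub (Nat.pow (Nat.sub 180 j) (Nat.succ k))
        (Nat.pow (Nat.sub (Nat.sub 180 j) 1) (Nat.succ k)))) (Nat.pow b j))) m =
      ∑ i ∈ range m, (C (bas n k i) * X ^ i : ℕ[X]).eval b := by
    intro m
    induction m with
    | zero => simp
    | succ m ih =>
      rw [sum_range_succ, ← ih]
      simp only [eval_mul, eval_C, eval_pow, eval_X]
      rfl
  exact key 180

noncomputable def bases {α : Type} (b n : ℕ) (m : ℕ) : ℕ → (List (ℕ × ℕ) → α) → α :=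
  Nat.rec (motive := fun _ => ℕ → (List (ℕ × ℕ) → α) → α) (fun _ K => K [])
    (fun _ ih k0 K => kN (fun v => ih (Nat.succ k0) (fun r => K ((v, 0) :: r))) (bv b n k0)) m

theorem bases_eq {α : Type} (b n m k0 : ℕ) (K : List (ℕ × ℕ) → α) :
    bases b n m k0 K = K (tabF b n [] k0 m) := by
  induction m generalizing k0 K with
  | zero => rfl
  | succ m ih =>
    have e1 : bases b n (m + 1) k0 K = kN (fun v => bases b n m (k0 + 1) (fun r => K ((v, 0) :: r))) (bv b n k0) := rfl
    rw [e1, kN_eq, ih, bv_eq]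
    simp [tabF, polP]

end Pool.Agent.Lib.MP_092512_nt.P5
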