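import Pool.Agent.Lib.MP_092512_nt.P5.K1

/-!
# P5.K2: correctness of the kernel functions

`run n L ≤ ES L` for a list `L` of boxes in `n ≥ 1` primes.
-/

set_option autoImplicit false

open Finset Polynomial

namespace Pool.Agent.Lib.MP_092512_nt.P5

/-! ### the multiplier -/

noncomputable def gv (b : ℕ) : ℕ :=
  Nat.rec (motive := fun _ => ℕ) 0 (fun j acc => Nat.add acc (Nat.mul
    (Nat.rec (motive := fun _ => ℕ) 0 (fun _ _ => Nat.pow (Nat.add j 3) 2) j) (Nat.pow b j))) 59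

theorem gv_eq (b : ℕ) : gv b = GP.eval b := by
  unfold gv GP
  rw [eval_finsetSum]
  have key : ∀ m : ℕ, Nat.rec (motive := fun _ => ℕ) 0 (fun j acc => Nat.add acc (Nat.mul
    (Nat.rec (motive := fun _ => ℕ) 0 (fun _ _ => Nat.pow (Nat.add j 3) 2) j) (Nat.pow b j))) m =
      ∑ i ∈ range m, (C (if i = 0 then 0 else (i + 3) ^ 2) * X ^ i : ℕ[X]).eval b := by
    intro m
    induction m with
    | zero => simp
    | succ m ih =>
      rw [sum_range_succ, ← ih]
      simp only [eval_mul, eval_C, eval_pow, eval_X]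
      cases m with
      | zero => rfl
      | succ m =>
        rw [if_neg (Nat.succ_ne_zero m)]
        rfl
  exact key 59

/-! ### one box -/

/-- the value from the two packed numbers -/
noncomputable def qv (Gv Dv p q : ℕ) : ℕ := lpD wsL (Nat.mul (Nat.div p Dv) Gv) (Nat.mul (Nat.div q Dv) Gv) 0

theorem K2_digit (P : ℕ[X]) (hP : P.eval 1 * GP.eval 1 < kB) (i : ℕ) (hi : i < 58) :
    (P.eval kB / kB ^ 180 * GP.eval kB) / kB ^ (i + 1) % kB =
      ∑ x ∈ range (i + 1), P.coeff (x + 180) * (i + 4 - x) ^ 2 := by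
  have hG : 1 ≤ GP.eval 1 := by
    have h1 := K0_coeff_le GP 1
    rw [GP_coeff 1 (by norm_num), if_neg (by norm_num)] at h1
    omega
  have hP1 : P.eval 1 < kB := lt_of_le_of_lt (Nat.le_mul_of_pos_right _ hG) hP
  obtain ⟨H, hH1, hH2, hH3⟩ := K0_drop kB kB_pos 180 P hP1
  have h2 : (H * GP).eval 1 < kB := by
    rw [eval_mul]
    exact lt_of_le_of_lt (Nat.mul_le_mul_right _ hH2) hP
  rw [← hH1, ← eval_mul, K0_digit kB kB_pos (i + 1) _ h2, GP_mul_coeff H (i + 1) (by omega)]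
  refine sum_congr rfl fun x hx => ?_
  rw [hH3]

theorem qv_eq (is : List ℕ) (his : is ≠ []) (h1 : ((bx is).map Prod.snd).sum ≤ 180)
    (h2 : ∀ I ∈ bx is, I.1 ≤ I.2) (hP : (polP is.length (bx is) 0).1.eval 1 * GP.eval 1 < kB)
    (hQ : (polP is.length (bx is) 0).2.eval 1 * GP.eval 1 < kB) :
    qv (GP.eval kB) (kB ^ 180) ((polP is.length (bx is) 0).1.eval kB) ((polP is.length (bx is) 0).2.eval kB) =
      Qi is := by
  unfold qv Qi
  rw [lpD_eq, zero_add, wsL_len,
    ← sum_range_reflect (fun s => (s + 1) * 10 ^ 6 / (58 - s) * (zz is s).natAbs ^ 2) 58]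
  refine sum_congr rfl fun i hi => ?_
  rw [mem_range] at hi
  have e0 : 58 - 1 - i = 57 - i := rfl
  rw [wsL_get i hi, e0]
  congr 3
  rw [show Nat.mul (Nat.div ((polP is.length (bx is) 0).1.eval kB) (kB ^ 180)) (GP.eval kB) =
    (polP is.length (bx is) 0).1.eval kB / kB ^ 180 * GP.eval kB from rfl,
    show Nat.mul (Nat.div ((polP is.length (bx is) 0).2.eval kB) (kB ^ 180)) (GP.eval kB) =
    (polP is.length (bx is) 0).2.eval kB / kB ^ 180 * GP.eval kB from rfl,
    K2_digit _ hP i hi, K2_digit _ hQ i hi]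
  unfold zz
  have e1 : 58 - (57 - i) = i + 1 := by omega
  rw [e1]
  push_cast
  rw [← sum_sub_distrib]
  refine sum_congr rfl fun x hx => ?_
  rw [mem_range] at hx
  have e2 : ff is x = ((polP is.length (bx is) 0).1.coeff (x + 180) : ℤ) -
      ((polP is.length (bx is) 0).2.coeff (x + 180) : ℕ) := by
    rw [polP_coeff is.length (bx is) h2 0 (x + 180) (by omega)]
    unfold ff
    rw [if_neg his]
    have := RI_shift' is.length (bx is) 0 0 x 180
    rw [zero_add] at this
    exact this.symm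
  have e3 : (Gf (57 - i + x) : ℤ) = ((i + 4 - x : ℕ) : ℤ) ^ 2 := by
    unfold Gf
    rw [show 61 - (57 - i + x) = i + 4 - x by omega]
    push_cast
    rfl
  rw [e2, e3]
  ring

/-- the form of one box, or `0` if the digits could overflow -/
noncomputable def boxQ (B1 BB : List (ℕ × ℕ)) (G1 Gv Dv : ℕ) (L : List (ℕ × ℕ)) : ℕ :=
  boxT 1 B1 L (fun T1 => boxT kB BB L (fun T => List.rec (motive := fun _ => ℕ) 0 (fun t1 _ _ =>
    List.rec (motive := fun _ => ℕ) 0 (fun t _ _ => Prod.rec (motive := fun _ => ℕ) (fun p1 q1 =>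
      Prod.rec (motive := fun _ => ℕ) (fun p q =>
        Bool.rec (motive := fun _ => ℕ) 0 (Bool.rec (motive := fun _ => ℕ) 0 (qv Gv Dv p q)
          (Nat.ble (Nat.succ (Nat.mul q1 G1)) kB)) (Nat.ble (Nat.succ (Nat.mul p1 G1)) kB)) t) t1) T) T1))

theorem boxQ_le (is : List ℕ) (his : is ≠ []) (h1 : ((bx is).map Prod.snd).sum ≤ 180)
    (h2 : ∀ I ∈ bx is, I.1 ≤ I.2) :
    boxQ (tabF 1 is.length [] 0 (is.length + 1)) (tabF kB is.length [] 0 (is.length + 1)) (GP.eval 1)
      (GP.eval kB) (kB ^ 180) (bx is) ≤ Qi is := by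
  have hlen : is.length + 1 = 1 + (bx is).length := by
    unfold bx
    rw [List.length_map, add_comm]
  unfold boxQ
  rw [hlen, boxT_eq, boxT_eq]
  simp only [tabF]
  by_cases hP : (polP is.length (bx is) 0).1.eval 1 * GP.eval 1 < kB
  · by_cases hQ : (polP is.length (bx is) 0).2.eval 1 * GP.eval 1 < kB
    · have e1 : Nat.ble (Nat.succ (Nat.mul ((polP is.length (bx is) 0).1.eval 1) (GP.eval 1))) kB = true :=
        Nat.ble_eq.mpr hP
      have e2 : Nat.ble (Nat.succ (Nat.mul ((polP is.length (bx is) 0).2.eval 1) (GP.eval 1))) kB = true :=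
        Nat.ble_eq.mpr hQ
      rw [e1, e2, qv_eq is his h1 h2 hP hQ]
    · have e2 : Nat.ble (Nat.succ (Nat.mul ((polP is.length (bx is) 0).2.eval 1) (GP.eval 1))) kB = false := by
        rw [Bool.eq_false_iff]
        intro h
        exact hQ (Nat.ble_eq.mp h)
      rw [e2]
      cases Nat.ble (Nat.succ (Nat.mul ((polP is.length (bx is) 0).1.eval 1) (GP.eval 1))) kB <;> exact Nat.zero_le _
  · have e1 : Nat.ble (Nat.succ (Nat.mul ((polP is.length (bx is) 0).1.eval 1) (GP.eval 1))) kB = false := by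
      rw [Bool.eq_false_iff]
      intro h
      exact hP (Nat.ble_eq.mp h)
    rw [e1]
    exact Nat.zero_le _

/-! ### the list -/

noncomputable def goL (B1 BB : List (ℕ × ℕ)) (G1 Gv Dv : ℕ) (L : List (List ℕ × ℕ)) : ℕ → ℕ :=
  List.rec (motive := fun _ => ℕ → ℕ) (fun acc => acc) (fun e _ ih acc =>
    kN (fun c => kN (fun q => kN ih (Nat.add acc (Nat.mul c q))) (boxQ B1 BB G1 Gv Dv (bx e.1))) (Ci e.1 e.2)) L

theorem goL_cons (B1 BB : List (ℕ × ℕ)) (G1 Gv Dv : ℕ) (e : List ℕ × ℕ) (L : List (List ℕ × ℕ)) (acc : ℕ) :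
    goL B1 BB G1 Gv Dv (e :: L) acc =
      goL B1 BB G1 Gv Dv L (acc + Ci e.1 e.2 * boxQ B1 BB G1 Gv Dv (bx e.1)) := by
  have e1 : goL B1 BB G1 Gv Dv (e :: L) acc = kN (fun c => kN (fun q => kN (goL B1 BB G1 Gv Dv L)
    (Nat.add acc (Nat.mul c q))) (boxQ B1 BB G1 Gv Dv (bx e.1))) (Ci e.1 e.2) := rfl
  rw [e1, kN_eq, kN_eq, kN_eq]
  rfl

noncomputable def run (n : ℕ) (L : List (List ℕ × ℕ)) : ℕ :=
  bases 1 n (n + 1) 0 (fun B1 => bases kB n (n + 1) 0 (fun BB =>
    kN (fun G1 => kN (fun Gv => kN (fun Dv => goL B1 BB G1 Gv Dv L 0) (Nat.pow kB 180)) (gv kB)) (gv 1)))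

theorem run_le (n : ℕ) (hn : n ≠ 0) (L : List (List ℕ × ℕ)) (hL : ∀ e ∈ L, okB e = true ∧ e.1.length = n) :
    run n L ≤ ES L := by
  unfold run ES
  rw [bases_eq, bases_eq, kN_eq, kN_eq, kN_eq, gv_eq, gv_eq]
  have key : ∀ (L : List (List ℕ × ℕ)) (acc : ℕ), (∀ e ∈ L, okB e = true ∧ e.1.length = n) →
      goL (tabF 1 n [] 0 (n + 1)) (tabF kB n [] 0 (n + 1)) (GP.eval 1) (GP.eval kB) (Nat.pow kB 180) L acc ≤
        acc + (L.map (fun e => Ci e.1 e.2 * Qi e.1)).sum := by
    intro L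
    induction L with
    | nil => intro acc _; exact le_of_eq rfl
    | cons e L ih =>
      intro acc h
      rw [goL_cons, List.map_cons, List.sum_cons]
      obtain ⟨hok, hlen⟩ := h e List.mem_cons_self
      refine (ih _ fun e he => h e (List.mem_cons_of_mem _ he)).trans ?_
      rw [← add_assoc]
      apply Nat.add_le_add_right
      apply Nat.add_le_add_left
      apply Nat.mul_le_mul_left
      obtain ⟨_, h1, h2, _⟩ := (okB_iff e).mp hok
      subst hlen
      refine boxQ_le e.1 ?_ h2 ?_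
      · intro h
        exact hn (by rw [h, List.length_nil])
      · intro I hI
        unfold bx at hI
        obtain ⟨j, hj, rfl⟩ := List.mem_map.mp hI
        exact (h1 j hj).1.le
  have := key L 0 hL
  rwa [zero_add] at this

end Pool.Agent.Lib.MP_092512_nt.P5
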