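import Pool.Agent.Lib.MP_092512_nt.P5.Main
import Pool.Agent.Lib.MP_092512_nt.P5.Low
import Pool.Agent.Lib.MP_092512_nt.P5.CompP
import Pool.Agent.Lib.MP_092512_nt.P3.D0m

/-!
# P5-M0: the masses of the coordinate `0`

`rough0`, `mass0`: the coordinate `0` is a prime (`ewk x de th 0`).
`rough1`, `mass1`: the coordinate `0` is a product of at most two primes, both `> x^(1/4)` (`ewk x (1/4) th 1`), mass `≥ 9/5`.
-/

set_option autoImplicit false

open Finset Filter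

namespace Pool.Agent.Lib.MP_092512_nt.P5

open Pool.Agent.Lib.SW Pool.Agent.Lib.MP_092512_nt.P3

theorem rough0 : ∃ x₀ : ℕ, ∀ x : ℕ, x₀ ≤ x → ∀ m : ℕ, x < m → m ≤ 3 * x → ewk x de th 0 m ≠ 0 →
    ∀ p ∈ m.primeFactors, (x : ℝ) ^ (1 / 4 : ℝ) < p := by
  refine ⟨2, fun x hx m hm hm3 hne p hp => ?_⟩
  have hpr := prime_of_ewk hx (δ := de) (by unfold de; norm_num) hm hm3 hne
  rw [hpr.primeFactors, mem_singleton] at hp
  rw [hp]
  have hx1 : (1 : ℝ) ≤ x := by exact_mod_cast (by omega : 1 ≤ x)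
  have h1 : (x : ℝ) ^ (1 / 4 : ℝ) ≤ x := by
    calc (x : ℝ) ^ (1 / 4 : ℝ) ≤ (x : ℝ) ^ (1 : ℝ) :=
          Real.rpow_le_rpow_of_exponent_le hx1 (by norm_num)
      _ = x := Real.rpow_one _
  have h2 : (x : ℝ) < m := by exact_mod_cast hm
  linarith

theorem rough1 : ∃ x₀ : ℕ, ∀ x : ℕ, x₀ ≤ x → ∀ m : ℕ, x < m → m ≤ 3 * x → ewk x (1 / 4) th 1 m ≠ 0 →
    ∀ p ∈ m.primeFactors, (x : ℝ) ^ (1 / 4 : ℝ) < p := by
  have hth : th ≤ 1 := by unfold th; norm_num
  exact ⟨2, fun x hx m hm hm3 hne =>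
    ((ewk_bound (1 / 4) th (by norm_num) hth 1 x hx m hm hm3).2.2 hne).2.2⟩

/-- the prime part -/
private theorem M0_prime (x h0 : ℕ) (δ : ℝ) (k : ℕ) (hx : 2 ≤ x) (hh : h0 ≤ x) (A : Finset ℕ)
    (hA : ∀ a ∈ A, As x δ th k a) :
    TS x h0 1 / Real.log (3 * x / ((1 : ℕ) : ℝ)) + ∑ a ∈ A, TS x h0 a / Real.log (3 * x / a) ≤
      ∑ m ∈ Ioc (x + h0) (2 * x + h0), ewk x δ th k m := by
  have h1 := Low_D3 x h0 hx hh δ th k A hA (fun _ => 1) (fun _ => zero_le_one) (fun _ _ _ _ _ => rfl)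
  have h2 := Low_prime_part x h0 (fun _ => 1) (fun _ _ _ => rfl)
  simp only [mul_one, one_mul] at h1 h2
  rw [h2] at h1
  exact h1

theorem mass0 : ∀ h0 : ℕ, ∀ ε : ℝ, 0 < ε → ∃ x₀ : ℕ, ∀ x : ℕ, x₀ ≤ x →
    x / Real.log x * (1 - ε) ≤ ∑ m ∈ Ioc (x + h0) (2 * x + h0), ewk x de th 0 m := by
  intro h0 ε hε
  refine eventually_atTop.1 ?_
  filter_upwards [Comp_point h0 (1 / 2) (by norm_num) ε hε, eventually_ge_atTop 2,
    eventually_ge_atTop h0] with x hx hx2 hxh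
  have hx1 : (1 : ℝ) ≤ x := by exact_mod_cast (by omega : 1 ≤ x)
  have h1 := hx 1 le_rfl (by
    rw [Nat.cast_one]
    exact Real.one_le_rpow hx1 (by norm_num))
  have h2 : lg x 1 = 0 := by
    unfold lg
    rw [Nat.cast_one, Real.log_one, zero_div]
  rw [h2] at h1
  have h3 := M0_prime x h0 de 0 hx2 hxh ∅ (fun a ha => absurd ha (notMem_empty a))
  rw [sum_empty, add_zero] at h3
  refine le_trans (le_of_eq ?_) (h1.trans h3)
  rw [Nat.cast_one, sub_zero, div_one, div_one]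

private theorem M0_As {x : ℕ} (hx : 2 ≤ x) {a : ℕ} (ha : a ∈ PP x (1 / 4) (th / 2)) :
    As x (1 / 4) th 1 a := by
  obtain ⟨hp, h1, h2⟩ := mem_PP.1 ha
  have hx1 : (1 : ℝ) ≤ x := by exact_mod_cast (by omega : 1 ≤ x)
  have hx0 : (0 : ℝ) < x := by linarith
  refine ⟨hp.squarefree, ?_, ?_, ?_, ?_⟩
  · rw [hp.primeFactors, card_singleton]
  · rw [hp.primeFactors, card_singleton]
  · exact h2.trans (Real.rpow_le_rpow_of_exponent_le hx1 (by unfold th; norm_num))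
  · intro p hpa
    rw [hp.primeFactors, mem_singleton] at hpa
    subst hpa
    refine ⟨h1, ?_⟩
    calc (p : ℝ) * p ≤ (x : ℝ) ^ (th / 2) * (x : ℝ) ^ (th / 2) :=
          mul_le_mul h2 h2 (by positivity) (by positivity)
      _ = (x : ℝ) ^ th := by
          rw [← Real.rpow_add hx0]
          congr 1
          ring

theorem mass1 : ∀ h0 : ℕ, ∀ ε : ℝ, 0 < ε → ∃ x₀ : ℕ, ∀ x : ℕ, x₀ ≤ x →
    x / Real.log x * (9 / 5 - ε) ≤ ∑ m ∈ Ioc (x + h0) (2 * x + h0), ewk x (1 / 4) th 1 m := by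
  intro h0 ε hε
  refine eventually_atTop.1 ?_
  have hab : (1 / 4 : ℝ) ≤ th / 2 := by unfold th; norm_num
  have hM := (D0_mertens (1 / 4) (th / 2) (by norm_num) hab).eventually
    (Ici_mem_nhds (show th / 2 - 1 / 4 - 1 / 1000 < th / 2 - 1 / 4 by linarith))
  filter_upwards [Comp_point h0 (1 / 2) (by norm_num) ε hε,
    Comp_point h0 (1 / 2) (by norm_num) (1 / 50) (by norm_num), eventually_ge_atTop 2,
    eventually_ge_atTop h0, hM] with x hx hx' hx2 hxh hM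
  have hx1 : (1 : ℝ) < x := by exact_mod_cast hx2
  have hx0 : (0 : ℝ) < x := by linarith
  have hL : 0 < Real.log x := Real.log_pos hx1
  have hM' : th / 2 - 1 / 4 - 1 / 1000 ≤ ∑ p ∈ PP x (1 / 4) (th / 2), lg x p / (p : ℝ) := hM
  have h1 := hx 1 le_rfl (by
    rw [Nat.cast_one]
    exact Real.one_le_rpow hx1.le (by norm_num))
  have h2 : lg x 1 = 0 := by
    unfold lg
    rw [Nat.cast_one, Real.log_one, zero_div]
  rw [h2, sub_zero, div_one, Nat.cast_one, div_one] at h1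
  have h3 := M0_prime x h0 (1 / 4) 1 hx2 hxh (PP x (1 / 4) (th / 2)) (fun a ha => M0_As hx2 ha)
  rw [Nat.cast_one] at h3
  have h4 : x / Real.log x * (4 / 5) ≤
      ∑ a ∈ PP x (1 / 4) (th / 2), TS x h0 a / Real.log (3 * x / a) := by
    have h5 : ∀ a ∈ PP x (1 / 4) (th / 2), x / Real.log x * (39 / 10 * (lg x a / (a : ℝ))) ≤
        TS x h0 a / Real.log (3 * x / a) := by
      intro a ha
      obtain ⟨hp, ha1, ha2⟩ := mem_PP.1 ha
      have ha0 : (0 : ℝ) < a := by exact_mod_cast hp.pos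
      refine le_trans ?_ (hx' a hp.one_le (ha2.trans
        (Real.rpow_le_rpow_of_exponent_le hx1.le (by unfold th; norm_num))))
      refine mul_le_mul_of_nonneg_left ?_ (by positivity)
      have hl1 : 1 / 4 ≤ lg x a := by
        unfold lg
        rw [le_div_iff₀ hL, ← Real.log_rpow hx0]
        exact Real.log_le_log (by positivity) ha1.le
      have hl2 : lg x a ≤ 1 / 2 := by
        unfold lg
        rw [div_le_iff₀ hL, ← Real.log_rpow hx0]
        refine Real.log_le_log ha0 (ha2.trans ?_)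
        exact Real.rpow_le_rpow_of_exponent_le hx1.le (by unfold th; norm_num)
      have hl3 : 0 < 1 - lg x a := by linarith
      rw [← mul_div_assoc]
      refine div_le_div_of_nonneg_right ?_ ha0.le
      have h6 : 4 * lg x a ≤ 1 / (1 - lg x a) := by
        rw [le_div_iff₀ hl3]
        nlinarith [sq_nonneg (2 * lg x a - 1)]
      linarith
    refine le_trans ?_ (sum_le_sum h5)
    rw [← mul_sum, ← mul_sum]
    refine mul_le_mul_of_nonneg_left ?_ (by positivity)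
    have h7 : th / 2 - 1 / 4 - 1 / 1000 ≥ 4 / 5 * (10 / 39) := by unfold th; norm_num
    linarith
  have h8 : x / Real.log x * (9 / 5 - ε) = x / Real.log x * (1 - ε) + x / Real.log x * (4 / 5) := by
    ring
  rw [h8]
  linarith

end Pool.Agent.Lib.MP_092512_nt.P5
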