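import Pool.Agent.Lib.MP_092512_nt.P5.WLev
import Pool.Agent.Lib.MP_092512_nt.P5.A0

/-!
# P5: the minorants `ewk` are weights in the sense of the assembly (`Wt`)
-/

set_option autoImplicit false

open Finset

namespace Pool.Agent.Lib.MP_092512_nt.P5

open Pool.Agent.Lib.SW Pool.Agent.Lib.MP_092512_nt.P3

/-- `k + 1` prime factors (`k ≤ 4`), all `> x^δ`, `de ≤ δ ≤ 1` -/
theorem wt_ewk (δ : ℝ) (hδ : de ≤ δ) (hδ1 : δ ≤ 1) (k : ℕ) (hk : k ≤ 4) :
    Wt (fun x m => ewk x δ th k m) := by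
  have hde : (0 : ℝ) < de := by unfold de; norm_num
  have hth : th ≤ 1 := by unfold th; norm_num
  refine ⟨⟨2, fun x hx m hm hm3 => ?_⟩, fun h0 B hB A K ε hε => ?_⟩
  · obtain ⟨h1, h2, h3⟩ := ewk_bound δ th hδ1 hth k x hx m hm hm3
    refine ⟨h1, h2, fun h => ?_⟩
    obtain ⟨h4, h5, h6⟩ := h3 h
    refine ⟨h4, by omega, fun p hp => lt_of_le_of_lt ?_ (h6 p hp)⟩
    have hx1 : (1 : ℝ) ≤ x := by exact_mod_cast (by omega : 1 ≤ x)
    exact Real.rpow_le_rpow_of_exponent_le hx1 hδ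
  · exact level_ewk h0 59 B hB et δ th (by unfold et; norm_num) (by unfold et; norm_num)
      (hde.trans_le hδ) hth k A K ε hε

end Pool.Agent.Lib.MP_092512_nt.P5
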