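import Pool.Agent.Lib.MP_092512_nt.P5.Red
import Pool.Agent.Lib.MP_092512_nt.P5.A8
import Pool.Agent.Lib.MP_092512_nt.P5.WInst

/-!
# P5: the theorems, from the line sums and the certificate

`kk` = numbers of small prime factors allowed for the coordinates `1, 2, 3`.
-/

set_option autoImplicit false

open Finset Filter

namespace Pool.Agent.Lib.MP_092512_nt.P5

open Pool.Agent.Lib.SW Pool.Agent.Lib.MP_092512_nt.P3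

/-- the weights: `k₀ + 1` prime factors `> x^δ₀` in the coordinate `0`, `kk i + 1` prime factors `> x^de` in the others -/
noncomputable def wM (δ₀ : ℝ) (k₀ : ℕ) (kk : Fin 3 → ℕ) : Fin 4 → ℕ → ℕ → ℝ :=
  Fin.cons (fun x m => ewk x δ₀ th k₀ m) (fun i x m => ewk x de th (kk i) m)

theorem prime_of_ewk {x : ℕ} (hx : 2 ≤ x) {δ : ℝ} (hδ1 : δ ≤ 1) {m : ℕ} (hm : x < m) (hm3 : m ≤ 3 * x)
    (h : ewk x δ th 0 m ≠ 0) : m.Prime := by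
  have hth : th ≤ 1 := by unfold th; norm_num
  obtain ⟨h1, h2, _⟩ := (ewk_bound δ th hδ1 hth 0 x hx m hm hm3).2.2 h
  obtain ⟨p, hp, hpm⟩ := Nat.exists_prime_and_dvd (show m ≠ 1 by omega)
  have hp' : p ∈ m.primeFactors := Nat.mem_primeFactors.2 ⟨hp, hpm, h1.ne_zero⟩
  have h3 : m.primeFactors = {p} := by
    refine (eq_of_subset_of_card_le (singleton_subset_iff.2 hp') ?_).symm
    rw [card_singleton]
    exact h2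
  have h4 := Nat.prod_primeFactors_of_squarefree h1
  rw [h3, prod_singleton] at h4
  rw [← h4]
  exact hp

open Classical in
/-- general form -/
theorem main_gen (G : ℕ → ℝ) (δ₀ : ℝ) (hδ₀ : de ≤ δ₀) (hδ₁ : δ₀ ≤ 1) (k₀ : ℕ) (hk₀ : k₀ ≤ 4)
    (kk : Fin 3 → ℕ) (hkk : ∀ i, kk i ≤ 4)
    (hrough : ∃ x₀ : ℕ, ∀ x : ℕ, x₀ ≤ x → ∀ m : ℕ, x < m → m ≤ 3 * x → ewk x δ₀ th k₀ m ≠ 0 →
      ∀ p ∈ m.primeFactors, (x : ℝ) ^ (1 / 4 : ℝ) < p) (μ₀ : ℝ)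
    (hμ : ∀ h0 : ℕ, ∀ ε : ℝ, 0 < ε → ∃ x₀ : ℕ, ∀ x : ℕ, x₀ ≤ x →
      x / Real.log x * (μ₀ - ε) ≤ ∑ m ∈ Ioc (x + h0) (2 * x + h0), ewk x δ₀ th k₀ m)
    (Dl : Fin 3 → ℕ → ℝ)
    (hDl : ∀ (i : Fin 3) (B h0 : ℕ), 3 ≤ B → ∀ s < 58, ∀ ε : ℝ, 0 < ε → ∃ x₀ : ℕ, ∀ x : ℕ, x₀ ≤ x →
      x / Real.log x * (Dl i s - ε) ≤ ∑ m ∈ Ioc (x + h0) (2 * x + h0),
        ewk x de th (kk i) m * LV x (zB B x) et (58 - s) (fun u => G (s + u)) m ^ 2)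
    (hcert : 3 * et * ∑ s ∈ range 58, ((s : ℝ) + 1) / (58 - s) * ∑ u ∈ range (58 - s), G (s + u) ^ 2 <
      μ₀ * et ^ 2 * ∑ s ∈ range 58, ((s : ℝ) + 1) * (s + 2) / 2 * G s ^ 2 +
        ∑ i, ∑ s ∈ range 58, ((s : ℝ) + 1) / (58 - s) * Dl i s)
    (Q : Fin 4 → ℕ → Prop)
    (hQ0 : ∃ x₀ : ℕ, ∀ x : ℕ, x₀ ≤ x → ∀ m : ℕ, x < m → m ≤ 3 * x → ewk x δ₀ th k₀ m ≠ 0 → Q 0 m)
    (hQs : ∀ (i : Fin 3) (m : ℕ), m.primeFactors.card ≤ kk i + 1 → Q i.succ m) :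
    ∃ c C : ℝ, 0 < c ∧ 0 < C ∧ ∀ h : Fin 4 → ℕ, Function.Injective h →
    (∀ p : ℕ, p.Prime → nuh h univ p < p) →
    ∃ S : ℝ, 0 < S ∧ Tendsto (SgR h) atTop (nhds S) ∧ ∃ N₀ : ℕ, ∀ N : ℕ, N₀ ≤ N →
      c * S * (N / (Real.log N) ^ 4) ≤ (((Icc 1 N).filter (fun n => ∀ i, Squarefree (n + h i) ∧
        Q i (n + h i) ∧ ∀ p ∈ (n + h i).primeFactors, (N : ℝ) ^ (1 / 251 : ℝ) < p)).card : ℝ) ∧
      (((Icc 1 N).filter (fun n => ∀ i, Squarefree (n + h i) ∧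
        Q i (n + h i) ∧ ∀ p ∈ (n + h i).primeFactors, (N : ℝ) ^ (1 / 251 : ℝ) < p)).card : ℝ) ≤
        C * S * (N / (Real.log N) ^ 4) := by
  have hth : th ≤ 1 := by unfold th; norm_num
  have hde1 : de ≤ 1 := by unfold de; norm_num
  have hw : ∀ i, Wt (wM δ₀ k₀ kk i) := by
    intro i
    refine Fin.cases ?_ (fun k => ?_) i
    · exact wt_ewk δ₀ hδ₀ hδ₁ k₀ hk₀
    · exact wt_ewk de le_rfl hde1 (kk k) (hkk k)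
  refine quad_sing (wM δ₀ k₀ kk) hw Q ?_ (red G (wM δ₀ k₀ kk) hw hrough μ₀ hμ Dl hDl hcert)
  intro i
  refine Fin.cases ?_ (fun k => ?_) i
  · exact hQ0
  · refine ⟨2, fun x hx m hm hm3 hne => hQs k m ?_⟩
    exact ((ewk_bound de th hde1 hth (kk k) x hx m hm hm3).2.2 hne).2.1

end Pool.Agent.Lib.MP_092512_nt.P5
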