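import Pool.Agent.Lib.MP_092512_nt.P5.Dat1
import Pool.Agent.Lib.MP_092512_nt.P5.A7

/-!
# P5: the reduction of the theorem to the line sums of the three weights and a certificate in one variable
-/

set_option autoImplicit false
set_option linter.all false

open Finset Filter

namespace Pool.Agent.Lib.MP_092512_nt.P5

open Pool.Agent.Lib.SW Pool.Agent.Lib.MP_092512_nt.P3

private theorem R_et : (0 : ℝ) < et := by unfold et; norm_num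

/-! ### sums over `BN` -/

private theorem R_BN (F : (Fin 3 → ℕ) → ℝ) :
    ∑ b ∈ BN, F b = ∑ s ∈ range 58, ∑ p ∈ antidiagonal s, ∑ t ∈ range (58 - s), F ![t, p.1, p.2] := by
  simp_rw [sum_sigma']
  refine sum_bij' (i := fun b _ => (⟨b 1 + b 2, ⟨(b 1, b 2), b 0⟩⟩ : Σ _ : ℕ, Σ _ : ℕ × ℕ, ℕ))
    (j := fun q _ => ![q.2.2, q.2.1.1, q.2.1.2]) ?_ ?_ ?_ ?_ ?_
  · intro b hb
    rw [mem_BN] at hb
    have h1 : b 1 + b 2 < 58 := by omega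
    have h2 : b 0 < 58 - (b 1 + b 2) := by omega
    rw [mem_sigma, mem_sigma, mem_range, mem_range]
    refine ⟨h1, ?_, h2⟩
    rw [HasAntidiagonal.mem_antidiagonal]
  · rintro ⟨s, ⟨⟨p1, p2⟩, t⟩⟩ hq
    simp only [mem_sigma, mem_range, HasAntidiagonal.mem_antidiagonal] at hq
    rw [mem_BN]
    simp only [Fin.isValue, Matrix.cons_val_zero, Matrix.cons_val_one, Matrix.cons_val]
    omega
  · intro b hb
    funext j
    fin_cases j <;> rfl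
  · rintro ⟨s, ⟨⟨p1, p2⟩, t⟩⟩ hq
    simp only [mem_sigma, mem_range, HasAntidiagonal.mem_antidiagonal] at hq
    obtain ⟨h1, h2, h3⟩ := hq
    subst h2
    rfl
  · intro b hb
    congr 1
    funext j
    fin_cases j <;> rfl

theorem BN_sum12 (g : ℕ → ℝ) :
    ∑ b ∈ BN, g (b 1 + b 2) = ∑ s ∈ range 58, ((s : ℝ) + 1) * (58 - s) * g s := by
  rw [R_BN]
  refine sum_congr rfl fun s hs => ?_
  have hs' := mem_range.1 hs
  have h1 : ∀ p ∈ antidiagonal s, ∑ t ∈ range (58 - s), g ((![t, p.1, p.2] : Fin 3 → ℕ) 1 +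
      (![t, p.1, p.2] : Fin 3 → ℕ) 2) = ((58 : ℝ) - s) * g s := by
    intro p hp
    have hp' := HasAntidiagonal.mem_antidiagonal.1 hp
    simp only [Fin.isValue, Matrix.cons_val_one, Matrix.cons_val]
    rw [hp', sum_const, card_range, nsmul_eq_mul, Nat.cast_sub hs'.le]
    norm_num
  rw [sum_congr rfl h1, sum_const, Nat.card_antidiagonal, nsmul_eq_mul]
  push_cast
  ring

theorem BN_sum012 (g : ℕ → ℝ) :
    ∑ b ∈ BN, g (b 0 + b 1 + b 2) = ∑ s ∈ range 58, ((s : ℝ) + 1) * (s + 2) / 2 * g s := by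
  rw [R_BN]
  have h1 : ∀ s ∈ range 58, ∑ p ∈ antidiagonal s, ∑ t ∈ range (58 - s),
      g ((![t, p.1, p.2] : Fin 3 → ℕ) 0 + (![t, p.1, p.2] : Fin 3 → ℕ) 1 +
      (![t, p.1, p.2] : Fin 3 → ℕ) 2) = ∑ t ∈ range (58 - s), ((s : ℝ) + 1) * g (s + t) := by
    intro s hs
    have h2 : ∀ p ∈ antidiagonal s, ∑ t ∈ range (58 - s),
      g ((![t, p.1, p.2] : Fin 3 → ℕ) 0 + (![t, p.1, p.2] : Fin 3 → ℕ) 1 +
      (![t, p.1, p.2] : Fin 3 → ℕ) 2) = ∑ t ∈ range (58 - s), g (s + t) := by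
      intro p hp
      have hp' := HasAntidiagonal.mem_antidiagonal.1 hp
      refine sum_congr rfl fun t _ => ?_
      simp only [Fin.isValue, Matrix.cons_val_zero, Matrix.cons_val_one, Matrix.cons_val]
      congr 1
      omega
    rw [sum_congr rfl h2, sum_const, Nat.card_antidiagonal, nsmul_eq_mul, mul_sum]
    refine sum_congr rfl fun t _ => ?_
    push_cast
    ring
  rw [sum_congr rfl h1, ← sum_range_diag_flip 58 (fun s t => ((s : ℝ) + 1) * g (s + t))]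
  refine sum_congr rfl fun s _ => ?_
  have h2 : ∀ k ∈ range (s + 1), ((k : ℝ) + 1) * g (k + (s - k)) = ((k : ℝ) + 1) * g s := by
    intro k hk
    have := mem_range.1 hk
    rw [show k + (s - k) = s by omega]
  rw [sum_congr rfl h2, ← sum_mul]
  congr 1
  have h3 : ∀ n : ℕ, ∑ k ∈ range (n + 1), ((k : ℝ) + 1) = ((n : ℝ) + 1) * (n + 2) / 2 := by
    intro n
    induction n with
    | zero => simp
    | succ n ih =>
      rw [sum_range_succ, ih]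
      push_cast
      ring
  exact h3 s

/-! ### the lines in direction `i ≥ 1` -/

theorem fG_ins (G : ℕ → ℝ) (i : Fin 3) (u : ℕ) (b : Fin 3 → ℕ) :
    fG G i.succ (ins i.succ u b) = G (b 1 + b 2 + u) / ((58 - (b 1 + b 2) : ℕ) : ℝ) := by
  have e1 : ∀ k : Fin 3, (ins k.succ u b 1 + ins k.succ u b 2 + ins k.succ u b 3 = b 1 + b 2 + u) ∧
      Kc k.succ (ins k.succ u b) = 58 - (b 1 + b 2) := by
    intro k
    fin_cases k
    · change ins 1 u b 1 + ins 1 u b 2 + ins 1 u b 3 = _ ∧ Kc 1 (ins 1 u b) = _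
      rw [ins1]
      refine ⟨?_, rfl⟩
      change u + b 1 + b 2 = b 1 + b 2 + u
      omega
    · change ins 2 u b 1 + ins 2 u b 2 + ins 2 u b 3 = _ ∧ Kc 2 (ins 2 u b) = _
      rw [ins2]
      refine ⟨?_, rfl⟩
      change b 1 + u + b 2 = b 1 + b 2 + u
      omega
    · change ins 3 u b 1 + ins 3 u b 2 + ins 3 u b 3 = _ ∧ Kc 3 (ins 3 u b) = _
      rw [ins3]
      exact ⟨rfl, rfl⟩
  unfold fG
  rw [(e1 i).1, (e1 i).2]

theorem ins_zero_succ (i : Fin 3) (u : ℕ) (b : Fin 3 → ℕ) : ins i.succ u b 0 = b 0 := by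
  fin_cases i
  · change ins 1 u b 0 = _
    rw [ins1]; rfl
  · change ins 2 u b 0 = _
    rw [ins2]; rfl
  · change ins 3 u b 0 = _
    rw [ins3]; rfl

theorem lenT_succ (i : Fin 3) (b : Fin 3 → ℕ) : lenT i.succ b = 58 - (b 1 + b 2) := by
  unfold lenT
  rw [if_neg (Fin.succ_ne_zero i)]

theorem Yb_dat_succ (G : ℕ → ℝ) (w : ℕ → ℕ → ℝ) (x z h0 : ℕ) (i : Fin 3) (b : Fin 3 → ℕ) :
    Yb (dat G) w x z h0 i.succ b = (rho x z (b 0) / ((58 - (b 1 + b 2) : ℕ) : ℝ)) ^ 2 *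
      ∑ m ∈ Ioc (x + h0) (2 * x + h0),
        w x m * LV x z et (58 - (b 1 + b 2)) (fun u => G (b 1 + b 2 + u)) m ^ 2 := by
  have e0 : Yb (dat G) w x z h0 i.succ b = ∑ m ∈ Ioc (x + h0) (2 * x + h0),
      w x m * LV x z et (lenT i.succ b)
        (fun u => fG G i.succ (ins i.succ u b) * rho x z (ins i.succ u b 0)) m ^ 2 := rfl
  rw [e0, mul_sum]
  refine sum_congr rfl fun m _ => ?_
  have e1 : LV x z et (lenT i.succ b)
        (fun u => fG G i.succ (ins i.succ u b) * rho x z (ins i.succ u b 0)) m =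
      rho x z (b 0) / ((58 - (b 1 + b 2) : ℕ) : ℝ) *
        LV x z et (58 - (b 1 + b 2)) (fun u => G (b 1 + b 2 + u)) m := by
    unfold LV
    rw [lenT_succ, mul_sum]
    refine sum_congr rfl fun u _ => ?_
    simp only [fG_ins, ins_zero_succ]
    ring
  rw [e1]
  ring

theorem setT_sum_sq (G : ℕ → ℝ) (i : Fin 3) :
    ∑ c ∈ setT i.succ, fG G i.succ c ^ 2 =
      ∑ s ∈ range 58, ((s : ℝ) + 1) / (58 - s) * ∑ u ∈ range (58 - s), G (s + u) ^ 2 := by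
  have h1 := T_sum (dat G) i.succ (fun c => fG G i.succ c ^ 2)
  have h2 : ∑ c ∈ (dat G).T i.succ, fG G i.succ c ^ 2 = ∑ c ∈ setT i.succ, fG G i.succ c ^ 2 := rfl
  rw [← h2, h1]
  have h3 : ∑ b ∈ (dat G).B i.succ, ∑ u ∈ range ((dat G).len i.succ b), fG G i.succ (ins i.succ u b) ^ 2 =
      ∑ b ∈ BN, (fun s : ℕ => (∑ u ∈ range (58 - s), G (s + u) ^ 2) / ((58 - s : ℕ) : ℝ) ^ 2) (b 1 + b 2) := by
    refine sum_congr rfl fun b _ => ?_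
    have e : (dat G).len i.succ b = 58 - (b 1 + b 2) := lenT_succ i b
    change _ = (∑ u ∈ range (58 - (b 1 + b 2)), G (b 1 + b 2 + u) ^ 2) / ((58 - (b 1 + b 2) : ℕ) : ℝ) ^ 2
    rw [e, sum_div]
    refine sum_congr rfl fun u _ => ?_
    rw [fG_ins, div_pow]
  rw [h3, BN_sum12 (fun s : ℕ => (∑ u ∈ range (58 - s), G (s + u) ^ 2) / ((58 - s : ℕ) : ℝ) ^ 2)]
  refine sum_congr rfl fun s hs => ?_
  have hs' := mem_range.1 hs
  have hc : ((58 - s : ℕ) : ℝ) = 58 - s := by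
    rw [Nat.cast_sub hs'.le]; norm_num
  have hp : (0 : ℝ) < 58 - s := by
    rw [← hc]
    exact_mod_cast Nat.sub_pos_of_lt hs'
  rw [hc]
  field_simp

/-! ### the line sums -/

private theorem R_D0 (G : ℕ → ℝ) (w : ℕ → ℕ → ℝ)
    (hw0 : ∃ x₀ : ℕ, ∀ x : ℕ, x₀ ≤ x → ∀ m : ℕ, x < m → m ≤ 3 * x → w x m ≠ 0 →
      ∀ p ∈ m.primeFactors, (x : ℝ) ^ (1 / 4 : ℝ) < p) (μ₀ : ℝ)
    (hμ : ∀ h0 : ℕ, ∀ ε : ℝ, 0 < ε → ∃ x₀ : ℕ, ∀ x : ℕ, x₀ ≤ x →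
      x / Real.log x * (μ₀ - ε) ≤ ∑ m ∈ Ioc (x + h0) (2 * x + h0), w x m)
    (B h0 : ℕ) (hB : 3 ≤ B) (ε : ℝ) (hε : 0 < ε) : ∃ x₀ : ℕ, ∀ x : ℕ, x₀ ≤ x →
      ∀ b ∈ BN, x / Real.log x * (μ₀ * et ^ 2 * G (b 0 + b 1 + b 2) ^ 2 - ε) ≤
        Yb (dat G) w x (zB B x) h0 0 b := by
  obtain ⟨M, hM⟩ : ∃ M : ℝ, M = et ^ 2 * (∑ b ∈ BN, G (b 0 + b 1 + b 2) ^ 2) + 1 := ⟨_, rfl⟩
  have hM0 : 0 < M := by
    rw [hM]
    have : 0 ≤ ∑ b ∈ BN, G (b 0 + b 1 + b 2) ^ 2 := sum_nonneg fun _ _ => sq_nonneg _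
    positivity
  obtain ⟨x1, hx1⟩ := hw0
  obtain ⟨x2, hx2⟩ := hμ h0 (ε / M) (div_pos hε hM0)
  obtain ⟨x3, hx3⟩ := rho_asymp B hB 1 one_pos
  refine ⟨max (max x1 x2) (max (max x3 2) h0), fun x hx b hb => ?_⟩
  simp only [max_le_iff] at hx
  obtain ⟨⟨k1, k2⟩, ⟨k3, k4⟩, k5⟩ := hx
  set z : ℕ := zB B x with hz
  have hGb : et ^ 2 * G (b 0 + b 1 + b 2) ^ 2 ≤ M := by
    rw [hM]
    have := single_le_sum (f := fun b : Fin 3 → ℕ => G (b 0 + b 1 + b 2) ^ 2) (fun _ _ => sq_nonneg _) hb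
    have h2 := mul_le_mul_of_nonneg_left this (sq_nonneg et)
    linarith
  have hY : Yb (dat G) w x z h0 0 b =
      et ^ 2 * G (b 0 + b 1 + b 2) ^ 2 * ∑ m ∈ Ioc (x + h0) (2 * x + h0), w x m := by
    have e0 : Yb (dat G) w x z h0 0 b = ∑ m ∈ Ioc (x + h0) (2 * x + h0),
      w x m * LV x z et (lenT 0 b) (fun u => fG G 0 (ins 0 u b) * rho x z (ins 0 u b 0)) m ^ 2 := rfl
    rw [e0, mul_sum]
    refine sum_congr rfl fun m hm => ?_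
    by_cases hwm : w x m = 0
    · rw [hwm]; ring
    have hm' := mem_Ioc.1 hm
    have hr := hx1 x k1 m (by omega) (by omega) hwm
    have e1 : LV x z et (lenT 0 b) (fun u => fG G 0 (ins 0 u b) * rho x z (ins 0 u b 0)) m =
        et * G (b 0 + b 1 + b 2) := by
      unfold LV
      have e2 : lenT 0 b = 1 := rfl
      rw [e2, sum_range_one, LC_rough x z 0 m (by omega) (by norm_num) (by omega) hr]
      unfold fG rho
      beta_reduce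
      rw [Kc_ins0, ins0]
      have h4 := (hx3 x k3 0 (by norm_num)).1
      rw [← hz] at h4
      simp only [Kb, Fin.isValue, Matrix.cons_val_zero, Matrix.cons_val_one, Matrix.cons_val, Nat.cast_one, div_one]
      field_simp
    rw [e1]
    ring
  rw [hY]
  have h1 := hx2 x k2
  have hxR : (2 : ℝ) ≤ x := by exact_mod_cast k4
  have hxl : 0 ≤ x / Real.log x := div_nonneg (Nat.cast_nonneg _) (Real.log_nonneg (by linarith))
  have hG0 : 0 ≤ et ^ 2 * G (b 0 + b 1 + b 2) ^ 2 := by positivity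
  have h2 := mul_le_mul_of_nonneg_left h1 hG0
  refine le_trans ?_ h2
  have h3 : et ^ 2 * G (b 0 + b 1 + b 2) ^ 2 * (ε / M) ≤ ε := by
    calc et ^ 2 * G (b 0 + b 1 + b 2) ^ 2 * (ε / M) ≤ M * (ε / M) :=
          mul_le_mul_of_nonneg_right hGb (div_pos hε hM0).le
      _ = ε := by field_simp
  have h4 : et ^ 2 * G (b 0 + b 1 + b 2) ^ 2 * (x / Real.log x * (μ₀ - ε / M)) =
      x / Real.log x * (μ₀ * et ^ 2 * G (b 0 + b 1 + b 2) ^ 2 - et ^ 2 * G (b 0 + b 1 + b 2) ^ 2 * (ε / M)) := by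
    ring
  rw [h4]
  exact mul_le_mul_of_nonneg_left (by linarith) hxl

private theorem R_num (D r K ε δ M : ℝ) (hK : 1 ≤ K) (hε : 0 < ε) (hδ0 : 0 < δ) (hδ1 : δ ≤ 1 / 2)
    (hM : |D| ≤ M) (hδ : 4 * δ * M ≤ ε) (hr : |r - 1| ≤ δ) (X Y : ℝ) (hX : 0 ≤ X) (hY : 0 ≤ Y)
    (h : X * (D - ε / 2) ≤ Y) : X * (D / K ^ 2 - ε) ≤ (r / K) ^ 2 * Y := by
  have hr1 : 1 - δ ≤ r := by
    have := (abs_le.1 hr).1; linarith
  have hr2 : 1 - 2 * δ ≤ r ^ 2 := by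
    calc 1 - 2 * δ ≤ (1 - δ) ^ 2 := by nlinarith
      _ ≤ r ^ 2 := pow_le_pow_left₀ (by linarith) hr1 2
  have hK0 : 0 < K := by linarith
  have h1 : X * (D - ε) ≤ r ^ 2 * Y := by
    have h2 : (1 - 2 * δ) * (X * (D - ε / 2)) ≤ r ^ 2 * Y := by
      calc (1 - 2 * δ) * (X * (D - ε / 2)) ≤ (1 - 2 * δ) * Y :=
            mul_le_mul_of_nonneg_left h (by linarith)
        _ ≤ r ^ 2 * Y := mul_le_mul_of_nonneg_right hr2 hY
    refine le_trans ?_ h2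
    have h3 : D - ε ≤ (1 - 2 * δ) * (D - ε / 2) := by
      have h4 : 2 * δ * D ≤ ε / 2 := by
        have h5 : 2 * δ * D ≤ 2 * δ * M :=
          mul_le_mul_of_nonneg_left ((le_abs_self D).trans hM) (by linarith)
        linarith
      nlinarith
    calc X * (D - ε) ≤ X * ((1 - 2 * δ) * (D - ε / 2)) := mul_le_mul_of_nonneg_left h3 hX
      _ = _ := by ring
  have h2 : (r / K) ^ 2 * Y = r ^ 2 * Y / K ^ 2 := by ring
  rw [h2, le_div_iff₀ (by positivity)]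
  have h3 : X * (D / K ^ 2 - ε) * K ^ 2 = X * (D - ε * K ^ 2) := by field_simp
  rw [h3]
  refine le_trans (mul_le_mul_of_nonneg_left ?_ hX) h1
  have : 1 ≤ K ^ 2 := one_le_pow₀ hK
  nlinarith

private theorem R_Ds (G : ℕ → ℝ) (w : ℕ → ℕ → ℝ) (hw : Wt w) (i : Fin 3) (Dl : ℕ → ℝ)
    (hDl : ∀ (B h0 : ℕ), 3 ≤ B → ∀ s < 58, ∀ ε : ℝ, 0 < ε → ∃ x₀ : ℕ, ∀ x : ℕ, x₀ ≤ x →
      x / Real.log x * (Dl s - ε) ≤ ∑ m ∈ Ioc (x + h0) (2 * x + h0),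
        w x m * LV x (zB B x) et (58 - s) (fun u => G (s + u)) m ^ 2)
    (B h0 : ℕ) (hB : 3 ≤ B) (ε : ℝ) (hε : 0 < ε) : ∃ x₀ : ℕ, ∀ x : ℕ, x₀ ≤ x →
      ∀ b ∈ BN, x / Real.log x * (Dl (b 1 + b 2) / ((58 - (b 1 + b 2) : ℕ) : ℝ) ^ 2 - ε) ≤
        Yb (dat G) w x (zB B x) h0 i.succ b := by
  obtain ⟨M, hM⟩ : ∃ M : ℝ, M = (∑ s ∈ range 58, |Dl s|) + 1 := ⟨_, rfl⟩
  have hM0 : 0 < M := by
    rw [hM]
    have : 0 ≤ ∑ s ∈ range 58, |Dl s| := sum_nonneg fun _ _ => abs_nonneg _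
    linarith
  obtain ⟨δ, hδd⟩ : ∃ δ : ℝ, δ = min (1 / 2) (ε / (4 * M)) := ⟨_, rfl⟩
  have hδ0 : 0 < δ := by rw [hδd]; exact lt_min (by norm_num) (by positivity)
  have hδ1 : δ ≤ 1 / 2 := by rw [hδd]; exact min_le_left _ _
  have hδ : 4 * δ * M ≤ ε := by
    have h1 : δ ≤ ε / (4 * M) := by rw [hδd]; exact min_le_right _ _
    rw [le_div_iff₀ (by positivity)] at h1
    linarith
  have h1 : ∀ s : ℕ, ∃ x₀ : ℕ, s < 58 → ∀ x : ℕ, x₀ ≤ x →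
      x / Real.log x * (Dl s - ε / 2) ≤ ∑ m ∈ Ioc (x + h0) (2 * x + h0),
        w x m * LV x (zB B x) et (58 - s) (fun u => G (s + u)) m ^ 2 := by
    intro s
    by_cases hs : s < 58
    · obtain ⟨x₀, h⟩ := hDl B h0 hB s hs (ε / 2) (by linarith)
      exact ⟨x₀, fun _ => h⟩
    · exact ⟨0, fun h => absurd h hs⟩
  choose X hX using h1
  obtain ⟨x2, hx2⟩ := rho_asymp B hB δ hδ0
  obtain ⟨x3, hx3⟩ := hw.bd
  refine ⟨max (∑ s ∈ range 58, X s) (max (max x2 2) (max x3 h0)), fun x hx b hb => ?_⟩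
  simp only [max_le_iff] at hx
  obtain ⟨k1, ⟨k2, k3⟩, k4, k5⟩ := hx
  have hb' := (mem_BN b).1 hb
  have hs : b 1 + b 2 < 58 := by omega
  have hXs : X (b 1 + b 2) ≤ x :=
    (single_le_sum (f := X) (fun _ _ => Nat.zero_le _) (mem_range.2 hs)).trans k1
  have hmain := hX (b 1 + b 2) hs x hXs
  rw [Yb_dat_succ]
  have hxR : (2 : ℝ) ≤ x := by exact_mod_cast k3
  refine R_num (Dl (b 1 + b 2)) (rho x (zB B x) (b 0)) ((58 - (b 1 + b 2) : ℕ) : ℝ) ε δ M ?_ hε hδ0 hδ1 ?_ hδ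
    (hx2 x k2 (b 0) (by omega)).2 _ _
    (div_nonneg (Nat.cast_nonneg _) (Real.log_nonneg (by linarith))) ?_ hmain
  · have : 1 ≤ 58 - (b 1 + b 2) := by omega
    exact_mod_cast this
  · have h2 : |Dl (b 1 + b 2)| ≤ ∑ s ∈ range 58, |Dl s| :=
      single_le_sum (f := fun s => |Dl s|) (fun _ _ => abs_nonneg _) (mem_range.2 hs)
    rw [hM]
    linarith
  · refine sum_nonneg fun m hm => ?_
    have hm' := mem_Ioc.1 hm
    exact mul_nonneg (hx3 x k4 m (by omega) (by omega)).1 (sq_nonneg _)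

open Classical in
/-- the reduction -/
theorem red (G : ℕ → ℝ) (w : Fin 4 → ℕ → ℕ → ℝ) (hw : ∀ i, Wt (w i))
    (hw0 : ∃ x₀ : ℕ, ∀ x : ℕ, x₀ ≤ x → ∀ m : ℕ, x < m → m ≤ 3 * x → w 0 x m ≠ 0 →
      ∀ p ∈ m.primeFactors, (x : ℝ) ^ (1 / 4 : ℝ) < p) (μ₀ : ℝ)
    (hμ : ∀ h0 : ℕ, ∀ ε : ℝ, 0 < ε → ∃ x₀ : ℕ, ∀ x : ℕ, x₀ ≤ x →
      x / Real.log x * (μ₀ - ε) ≤ ∑ m ∈ Ioc (x + h0) (2 * x + h0), w 0 x m)
    (Dl : Fin 3 → ℕ → ℝ)
    (hDl : ∀ (i : Fin 3) (B h0 : ℕ), 3 ≤ B → ∀ s < 58, ∀ ε : ℝ, 0 < ε → ∃ x₀ : ℕ, ∀ x : ℕ, x₀ ≤ x →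
      x / Real.log x * (Dl i s - ε) ≤ ∑ m ∈ Ioc (x + h0) (2 * x + h0),
        w i.succ x m * LV x (zB B x) et (58 - s) (fun u => G (s + u)) m ^ 2)
    (hcert : 3 * et * ∑ s ∈ range 58, ((s : ℝ) + 1) / (58 - s) * ∑ u ∈ range (58 - s), G (s + u) ^ 2 <
      μ₀ * et ^ 2 * ∑ s ∈ range 58, ((s : ℝ) + 1) * (s + 2) / 2 * G s ^ 2 +
        ∑ i, ∑ s ∈ range 58, ((s : ℝ) + 1) / (58 - s) * Dl i s) :
    ∃ κ' : ℝ, 0 < κ' ∧ ∀ h : Fin 4 → ℕ, Function.Injective h →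
    ∀ c₀ : ℝ, 0 < c₀ → ∀ z₀ : ℕ, (∀ z : ℕ, z₀ ≤ z → c₀ * Vz z ^ 4 ≤ VH h z) →
    ∃ x₀ : ℕ, ∀ x : ℕ, x₀ ≤ x →
      c₀ * κ' * (x / (Real.log x) ^ 4) ≤
        (((Ioc x (2 * x)).filter (fun n => ∀ i, w i x (n + h i) ≠ 0)).card : ℝ) := by
  obtain ⟨D, hDd⟩ : ∃ D : Fin 4 → (Fin 3 → ℕ) → ℝ, D = Fin.cons
    (fun b => μ₀ * et ^ 2 * G (b 0 + b 1 + b 2) ^ 2)
    (fun k b => Dl k (b 1 + b 2) / ((58 - (b 1 + b 2) : ℕ) : ℝ) ^ 2) := ⟨_, rfl⟩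
  have hD0 : ∀ b, D 0 b = μ₀ * et ^ 2 * G (b 0 + b 1 + b 2) ^ 2 := fun b => by rw [hDd]; rfl
  have hDs : ∀ (k : Fin 3) b, D k.succ b = Dl k (b 1 + b 2) / ((58 - (b 1 + b 2) : ℕ) : ℝ) ^ 2 :=
    fun k b => by rw [hDd]; rfl
  refine gen_lower (dat G) w hw (hid_dat G w hw0) D ?_ ?_
  · intro i B h0 hB ε hε
    change ∃ x₀ : ℕ, ∀ x : ℕ, x₀ ≤ x → ∀ b ∈ BN, x / Real.log x * (D i b - ε) ≤
      Yb (dat G) (w i) x (zB B x) h0 i b
    revert i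
    intro i
    refine Fin.cases ?_ (fun k => ?_) i
    · simp only [hD0]
      exact R_D0 G (w 0) hw0 μ₀ hμ B h0 hB ε hε
    · simp only [hDs]
      exact R_Ds G (w k.succ) (hw k.succ) k (Dl k) (hDl k) B h0 hB ε hε
  · change et * ∑ i ∈ univ.erase (0 : Fin 4), ∑ c ∈ setT i, fG G i c ^ 2 < ∑ i, ∑ b ∈ BN, D i b
    have e1 : ∑ i ∈ univ.erase (0 : Fin 4), ∑ c ∈ setT i, fG G i c ^ 2 =
        3 * ∑ s ∈ range 58, ((s : ℝ) + 1) / (58 - s) * ∑ u ∈ range (58 - s), G (s + u) ^ 2 := by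
      have h1 := add_sum_erase univ (fun i : Fin 4 => ∑ c ∈ setT i, fG G i c ^ 2) (mem_univ 0)
      rw [Fin.sum_univ_succ] at h1
      have h2 : ∑ i ∈ univ.erase (0 : Fin 4), ∑ c ∈ setT i, fG G i c ^ 2 =
          ∑ k : Fin 3, ∑ c ∈ setT k.succ, fG G k.succ c ^ 2 := by linarith
      rw [h2, sum_congr rfl fun k _ => setT_sum_sq G k, sum_const, card_univ, Fintype.card_fin]
      simp
    have e2 : ∑ i, ∑ b ∈ BN, D i b = μ₀ * et ^ 2 * ∑ s ∈ range 58, ((s : ℝ) + 1) * (s + 2) / 2 * G s ^ 2 +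
        ∑ i, ∑ s ∈ range 58, ((s : ℝ) + 1) / (58 - s) * Dl i s := by
      rw [Fin.sum_univ_succ]
      congr 1
      · rw [sum_congr rfl fun b _ => hD0 b, ← mul_sum]
        congr 1
        exact BN_sum012 (fun s => G s ^ 2)
      · refine sum_congr rfl fun k _ => ?_
        rw [sum_congr rfl fun b _ => hDs k b]
        rw [BN_sum12 (fun s => Dl k s / ((58 - s : ℕ) : ℝ) ^ 2)]
        refine sum_congr rfl fun s hs => ?_
        have hs' := mem_range.1 hs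
        have hc : ((58 - s : ℕ) : ℝ) = 58 - s := by
          rw [Nat.cast_sub hs'.le]; norm_num
        have hp : (0 : ℝ) < 58 - s := by
          rw [← hc]
          exact_mod_cast Nat.sub_pos_of_lt hs'
        rw [hc]
        field_simp
    rw [e1, e2]
    linarith

end Pool.Agent.Lib.MP_092512_nt.P5
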