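import Pool.Agent.Lib.MP_092512_nt.P5.Fin1
import Pool.Agent.Lib.MP_092512_nt.P5.D2
import Pool.Agent.Lib.MP_092512_nt.P5.M0
import Pool.Agent.Lib.MP_092512_nt.P5.E2
import Pool.Agent.Lib.MP_092512_nt.P5.ECert

/-!
# P5: the two theorems

`theorem1`: one prime, one `P_4`, two `P_5`.  `theorem2`: one `P_2`, three `P_4`.
-/

set_option autoImplicit false

namespace Pool.Agent.Lib.MP_092512_nt.P5

open Pool.Agent.Lib.SW Pool.Agent.Lib.MP_092512_nt.P3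

theorem hd2 (k : ℕ) (hk : k = 3 ∨ k = 4) : HD2 k := fun h0 => D2 k hk h0

theorem v3 : et * (391045306 : ℕ) ≤ vF 3 := vF_ge 3 391045306 ES3 (E2 (LF 3) (E2_pos 3))

theorem v4 : et * (419280690 : ℕ) ≤ vF 4 := vF_ge 4 419280690 ES4 (E2 (LF 4) (E2_pos 4))

theorem theorem1 : Concl (QP ![3, 4, 4]) :=
  fin1 rough0 mass0 (hd2 3 (Or.inl rfl)) (hd2 4 (Or.inr rfl)) v3 v4

theorem theorem2 : Concl (QK 1 ![3, 3, 3]) :=
  fin2 (1 / 4) (by unfold de; norm_num) (by norm_num) rough1 mass1 (hd2 3 (Or.inl rfl)) v3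

end Pool.Agent.Lib.MP_092512_nt.P5
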