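import Pool.Agent.Lib.MP_092512_nt.P5.Defs
import Pool.Agent.Lib.MP_092512_nt.P3.LevA
import Pool.Agent.Lib.MP_092512_nt.P3.C4
import Pool.Agent.Lib.BV.Main

/-!
# P5: level of distribution of the minorant `ewk`

As in `P3/LevB`, `P3/LevC`, with `k` prime factors instead of two.
-/

set_option autoImplicit false

open Finset

namespace Pool.Agent.Lib.MP_092512_nt.P5

open Pool.Agent.Lib.BV Pool.Agent.Lib.SW Pool.Agent.Lib.MP_092512_nt.P3

theorem WLev_gt {x : ℕ} {δ θ : ℝ} {k a : ℕ} (h : As x δ θ k a) : (x : ℝ) ^ δ < a := by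
  obtain ⟨p, hp⟩ := card_pos.mp (Nat.lt_of_lt_of_le Nat.zero_lt_one h.2.1)
  have h1 := (h.2.2.2.2 p hp).1
  have h2 : (p : ℝ) ≤ a := by
    exact_mod_cast Nat.le_of_dvd (Nat.pos_of_ne_zero (As_ne_zero h)) (Nat.dvd_of_mem_primeFactors hp)
  exact h1.trans_le h2

theorem WLev_le {x : ℕ} (hx : 1 ≤ x) {δ θ : ℝ} (hθ : θ ≤ 1) {k a : ℕ} (h : As x δ θ k a) :
    (a : ℝ) ≤ (x : ℝ) ^ (3 / 4 : ℝ) := by
  have hx1 : (1 : ℝ) ≤ x := by exact_mod_cast hx
  exact h.2.2.2.1.trans (Real.rpow_le_rpow_of_exponent_le hx1 (by linarith))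

theorem WLev_card {x : ℕ} {δ θ : ℝ} {k a : ℕ} (h : As x δ θ k a) : a.divisors.card ≤ 2 ^ k := by
  rw [Nat.card_divisors (As_ne_zero h)]
  have h1 : ∏ p ∈ a.primeFactors, (a.factorization p + 1) ≤ ∏ p ∈ a.primeFactors, 2 := by
    refine prod_le_prod (fun _ _ => Nat.zero_le _) fun p _ => ?_
    have := h.1.natFactorization_le_one p
    omega
  refine h1.trans ?_
  rw [prod_const]
  exact Nat.pow_le_pow_right (by norm_num) h.2.2.1

theorem WLev_LC {x z : ℕ} {δ θ η : ℝ} {k j a : ℕ} (h : As x δ θ k a)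
    (hl : ∀ d, |lamC x z η j d| ≤ 2) : |LC x z η j a| ≤ 2 * 2 ^ k := by
  unfold LC
  refine (abs_sum_le_sum_abs _ _).trans ?_
  refine (sum_le_card_nsmul _ _ 2 fun d _ => hl d).trans ?_
  rw [nsmul_eq_mul]
  have h1 : (a.divisors.card : ℝ) ≤ 2 ^ k := by exact_mod_cast WLev_card h
  linarith

open Classical in
/-- the coefficient of the bilinear part -/
noncomputable def gW (x z : ℕ) (η δ θ : ℝ) (k j j' : ℕ) (a : ℕ) : ℝ :=
  if As x δ θ k a then LC x z η j a * LC x z η j' a / Real.log (3 * x / (a : ℝ)) else 0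

theorem WLev_FB (g : ℕ → ℝ) (Y n : ℕ) (hn : 1 ≤ n) : FB g (fun a => Y / a) n =
    if n ≤ Y then ∑ p ∈ n.primeFactors, g (n / p) * Real.log p else 0 := by
  unfold FB
  have key : ∀ p ∈ n.primeFactors, (p ≤ Y / (n / p) ↔ n ≤ Y) := by
    intro p hp
    have h1 := Nat.dvd_of_mem_primeFactors hp
    have h2 : 0 < n / p := Nat.div_pos (Nat.le_of_dvd (by omega) h1)
      (Nat.prime_of_mem_primeFactors hp).pos
    rw [Nat.le_div_iff_mul_le h2, Nat.mul_div_cancel' h1]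
  split_ifs with h
  · rw [filter_true_of_mem]
    intro p hp
    exact (key p hp).mpr h
  · rw [filter_false_of_mem, sum_empty]
    intro p hp h1
    exact h ((key p hp).mp h1)

/-- the weighted function is a prime part and a bilinear part -/
theorem WLev_decomp (h0 x z : ℕ) (hx : 2 ≤ x) (hx0 : h0 ≤ x) (η δ θ : ℝ) (hη : 0 < η)
    (hθ : θ ≤ 1) (k j j' : ℕ) (hj : ((j : ℝ) + 1) * η ≤ 1 / 4) (hj' : ((j' : ℝ) + 1) * η ≤ 1 / 4)
    (n : ℕ) (hn : n ∈ Icc 1 (3 * x)) :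
    (if x + h0 < n ∧ n ≤ 2 * x + h0 then
        ewk x δ θ k n * (LC x z η j n * LC x z η j' n) else 0) =
      (lamC x z η j 1 * lamC x z η j' 1 / Real.log (3 * x)) *
          (if x + h0 < n ∧ n ≤ 2 * x + h0 then th n else 0) +
        (FB (gW x z η δ θ k j j') (fun a => (2 * x + h0) / a) n -
          FB (gW x z η δ θ k j j') (fun a => (x + h0) / a) n) := by
  classical
  rw [mem_Icc] at hn
  rw [WLev_FB _ _ n hn.1, WLev_FB _ _ n hn.1]
  have hx1 : (1 : ℝ) < x := by exact_mod_cast (by omega : 1 < x)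
  by_cases hI : x + h0 < n ∧ n ≤ 2 * x + h0
  · rw [if_pos hI, if_pos hI, if_pos hI.2, if_neg (by omega), sub_zero]
    have hxn : (x : ℝ) < n := by exact_mod_cast (by omega : x < n)
    have hpow : ∀ i : ℕ, ((i : ℝ) + 1) * η ≤ 1 / 4 → (x : ℝ) ^ (((i : ℝ) + 1) * η) ≤
        (x : ℝ) ^ (1 / 4 : ℝ) := fun i hi => Real.rpow_le_rpow_of_exponent_le hx1.le hi
    have hx13 : (x : ℝ) ^ (1 / 4 : ℝ) ≤ x := by
      calc (x : ℝ) ^ (1 / 4 : ℝ) ≤ (x : ℝ) ^ (1 : ℝ) :=
            Real.rpow_le_rpow_of_exponent_le hx1.le (by norm_num)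
        _ = x := Real.rpow_one _
    unfold ewk
    rw [add_mul]
    congr 1
    · unfold th
      split_ifs with hp
      · rw [LevA_LC_prime x z (by omega) η hη j n hp (((hpow j hj).trans hx13).trans_lt hxn),
          LevA_LC_prime x z (by omega) η hη j' n hp (((hpow j' hj').trans hx13).trans_lt hxn)]
        ring
      · ring
    · rw [sum_mul, sum_filter]
      refine sum_congr rfl fun b hb => ?_
      unfold gW
      split_ifs with hA
      · have hbp := Nat.prime_of_mem_primeFactors hb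
        have hbn := Nat.dvd_of_mem_primeFactors hb
        have hab : n / b * b = n := Nat.div_mul_cancel hbn
        have ha0 := As_ne_zero hA
        have ha1 : (0 : ℝ) < ((n / b : ℕ) : ℝ) := by exact_mod_cast Nat.pos_of_ne_zero ha0
        have h1 := WLev_le (by omega) hθ hA
        have h2 : (x : ℝ) ^ (1 / 4 : ℝ) < b := by
          have h3 : (x : ℝ) < ((n / b : ℕ) : ℝ) * b := by
            rw [← Nat.cast_mul, hab]
            exact hxn
          have h4 : (x : ℝ) = (x : ℝ) ^ (3 / 4 : ℝ) * (x : ℝ) ^ (1 / 4 : ℝ) := by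
            rw [← Real.rpow_add (by linarith)]
            norm_num
          by_contra h5
          push Not at h5
          have h6 : ((n / b : ℕ) : ℝ) * b ≤ (x : ℝ) ^ (3 / 4 : ℝ) * (x : ℝ) ^ (1 / 4 : ℝ) :=
            mul_le_mul h1 h5 (by positivity) (by positivity)
          linarith
        have e1 : ∀ i : ℕ, ((i : ℝ) + 1) * η ≤ 1 / 4 → LC x z η i n = LC x z η i (n / b) := by
          intro i hi
          conv_lhs => rw [← hab]
          exact LevA_LC_mul x z (by omega) η hη i (n / b) b ha0 hbp ((hpow i hi).trans_lt h2)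
        rw [e1 j hj, e1 j' hj']
        ring
      · ring
  · rw [if_neg hI, if_neg hI, mul_zero, zero_add]
    by_cases h3 : n ≤ x + h0
    · rw [if_pos (by omega), if_pos h3, sub_self]
    · rw [if_neg (by omega), if_neg h3, sub_self]

theorem WLev_Q {x Y : ℕ} {ε : ℝ} (hx : 2 ≤ x) (hY : x ≤ Y) :
    ((⌊(x : ℝ) ^ (1 / 2 - ε)⌋₊ : ℕ) : ℝ) ≤ (Y : ℝ) ^ (1 / 2 - ε) := by
  have hx1 : (1 : ℝ) < x := by exact_mod_cast (by omega : 1 < x)
  have hxY : (x : ℝ) ≤ Y := by exact_mod_cast hY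
  rcases le_or_gt 0 (1 / 2 - ε) with h | h
  · exact (Nat.floor_le (by positivity)).trans (Real.rpow_le_rpow (by linarith) hxY h)
  · rw [Nat.floor_eq_zero.mpr (Real.rpow_lt_one_of_one_lt_of_neg hx1 h), Nat.cast_zero]
    exact Real.rpow_nonneg (Nat.cast_nonneg _) _

/-- `|gW| ≤ (2 * 2 ^ k) ^ 2` -/
theorem WLev_gW {x z : ℕ} {η δ θ : ℝ} {k j j' : ℕ} (hx : 1 ≤ x) (hθ : θ ≤ 1)
    (hl : ∀ d, |lamC x z η j d| ≤ 2) (hl' : ∀ d, |lamC x z η j' d| ≤ 2) (a : ℕ) :
    |gW x z η δ θ k j j' a| ≤ (2 * 2 ^ k) ^ 2 := by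
  unfold gW
  split_ifs with h
  · have ha0 : (0 : ℝ) < a := by exact_mod_cast Nat.pos_of_ne_zero (As_ne_zero h)
    have hx0 : (0 : ℝ) < x := by exact_mod_cast hx
    have hx1 : (1 : ℝ) ≤ x := by exact_mod_cast hx
    have h1 : (a : ℝ) ≤ x := by
      refine (WLev_le hx hθ h).trans ?_
      calc (x : ℝ) ^ (3 / 4 : ℝ) ≤ (x : ℝ) ^ (1 : ℝ) :=
            Real.rpow_le_rpow_of_exponent_le hx1 (by norm_num)
        _ = x := Real.rpow_one _
    have h2 : 1 ≤ Real.log (3 * x / (a : ℝ)) := by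
      rw [Real.le_log_iff_exp_le (by positivity), le_div_iff₀ ha0]
      have := Real.exp_one_lt_three
      nlinarith
    rw [abs_div, abs_mul, abs_of_pos (by linarith : 0 < Real.log (3 * x / (a : ℝ)))]
    rw [div_le_iff₀ (by linarith)]
    have h3 := WLev_LC h hl
    have h4 := WLev_LC h hl'
    have h5 : |LC x z η j a| * |LC x z η j' a| ≤ (2 * 2 ^ k) * (2 * 2 ^ k) :=
      mul_le_mul h3 h4 (abs_nonneg _) (by positivity)
    have h6 : (0 : ℝ) ≤ (2 * 2 ^ k) ^ 2 := by positivity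
    nlinarith
  · simp only [abs_zero]
    positivity

theorem WLev_supp {x z : ℕ} {η δ θ : ℝ} {k j j' : ℕ} (hx : 3 ≤ x) (hθ : θ ≤ 1) (hδ : 0 < δ)
    {δ' : ℝ} (h1 : δ' ≤ δ / 2) (h2 : δ' ≤ 1 / 4) (a : ℕ)
    (ha : gW x z η δ θ k j j' a ≠ 0) :
    ((3 * x : ℕ) : ℝ) ^ δ' ≤ a ∧ (a : ℝ) ≤ ((3 * x : ℕ) : ℝ) ^ (1 - δ') := by
  have h : As x δ θ k a := by
    by_contra h
    exact ha (by unfold gW; rw [if_neg h])
  have hx3 : (3 : ℝ) ≤ x := by exact_mod_cast hx
  push_cast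
  constructor
  · refine le_trans ?_ (WLev_gt h).le
    calc (3 * (x : ℝ)) ^ δ' ≤ (3 * (x : ℝ)) ^ (δ / 2) :=
          Real.rpow_le_rpow_of_exponent_le (by linarith) h1
      _ ≤ ((x : ℝ) * x) ^ (δ / 2) := Real.rpow_le_rpow (by positivity) (by nlinarith) (by positivity)
      _ = (x : ℝ) ^ δ := by
          rw [Real.mul_rpow (by positivity) (by positivity), ← Real.rpow_add (by linarith)]
          congr 1
          ring
  · refine (WLev_le (by omega) hθ h).trans ?_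
    calc (x : ℝ) ^ (3 / 4 : ℝ) ≤ (3 * (x : ℝ)) ^ (3 / 4 : ℝ) :=
          Real.rpow_le_rpow (by positivity) (by linarith) (by norm_num)
      _ ≤ _ := Real.rpow_le_rpow_of_exponent_le (by linarith) (by linarith)

/-- level of distribution of `ewk` times two Selberg weights -/
theorem level_ewk (h0 jm B : ℕ) (hB : 3 ≤ B) (η δ θ : ℝ) (hη : 0 < η) (hjm : ((jm : ℝ) + 1) * η ≤ 1 / 4)
    (hδ : 0 < δ) (hθ : θ ≤ 1) (k A K : ℕ) (ε : ℝ) (hε : 0 < ε) :
    ∃ x₀ : ℕ, ∀ x : ℕ, x₀ ≤ x → ∀ j ≤ jm, ∀ j' ≤ jm,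
      LevelBd (fun m => if x + h0 < m ∧ m ≤ 2 * x + h0 then
          ewk x δ θ k m * (LC x (zB B x) η j m * LC x (zB B x) η j' m) else 0)
        (3 * x) ⌊(x : ℝ) ^ (1 / 2 - ε)⌋₊ K (x / (Real.log x) ^ A) := by
  obtain ⟨x1, hx1⟩ := lamC_le B jm hB η hη (by linarith)
  set δ' : ℝ := min (δ / 2) (1 / 4) with hδ'
  have hδ'0 : 0 < δ' := lt_min (by positivity) (by norm_num)
  set C : ℝ := (2 * 2 ^ k) ^ 2 with hC
  have hC0 : 0 < C := by positivity
  obtain ⟨x2, hx2⟩ := bvp (A + 1) K ε hε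
  obtain ⟨x3, hx3⟩ := bvb (A + 1) K ε δ' hε hδ'0
  obtain ⟨x4, hx4⟩ := exists_nat_ge (Real.exp (24 + 6 * C))
  refine ⟨max 3 (max h0 (max x1 (max x2 (max x3 x4)))), fun x hx j hj j' hj' => ?_⟩
  simp only [max_le_iff] at hx
  obtain ⟨hxa, hxb, hxc, hxd, hxe, hxf⟩ := hx
  have hx0 : (0 : ℝ) < x := by exact_mod_cast (by omega : 0 < x)
  set z := zB B x with hz
  have hl := hx1 x hxc j hj
  have hl' := hx1 x hxc j' hj'
  have hjr : ((j : ℝ) + 1) * η ≤ 1 / 4 := by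
    have : (j : ℝ) ≤ jm := by exact_mod_cast hj
    nlinarith
  have hjr' : ((j' : ℝ) + 1) * η ≤ 1 / 4 := by
    have : (j' : ℝ) ≤ jm := by exact_mod_cast hj'
    nlinarith
  have hlog : 24 + 6 * C ≤ Real.log x := by
    rw [Real.le_log_iff_exp_le hx0]
    exact hx4.trans (by exact_mod_cast hxf)
  have hlog0 : 0 < Real.log x := by linarith
  intro l hl0
  have hlc : ∀ q ∈ Icc 1 ⌊(x : ℝ) ^ (1 / 2 - ε)⌋₊, (l q).Coprime q := fun q hq =>
    hl0 q (mem_Icc.mp hq).1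
  -- the four mean values
  set G : ℕ → ℝ := fun a => gW x z η δ θ k j j' a / C with hG
  have hG1 : ∀ m, |G m| ≤ 1 := by
    intro m
    simp only [hG]
    rw [abs_div, abs_of_pos hC0, div_le_one hC0]
    exact WLev_gW (by omega) hθ hl hl' m
  have hG2 : ∀ m, G m ≠ 0 → ((3 * x : ℕ) : ℝ) ^ δ' ≤ m ∧ (m : ℝ) ≤ ((3 * x : ℕ) : ℝ) ^ (1 - δ') := by
    intro m hm
    refine WLev_supp (z := z) (η := η) (k := k) (j := j) (j' := j') hxa hθ hδ (min_le_left _ _)
      (min_le_right _ _) m ?_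
    intro h
    exact hm (by simp only [hG]; rw [h, zero_div])
  have hFB : ∀ (b : ℕ → ℕ) (n : ℕ), FB (gW x z η δ θ k j j') b n = C * FB G b n := by
    intro b n
    unfold FB
    rw [mul_sum]
    refine sum_congr rfl fun p _ => ?_
    simp only [hG]
    field_simp
  have bd : ∀ Y : ℕ, x ≤ Y → Y ≤ 3 * x →
      (Y : ℝ) / (Real.log Y) ^ (A + 1) ≤ 3 * x / (Real.log x) ^ (A + 1) := by
    intro Y hY1 hY2
    have h1 : Real.log x ≤ Real.log Y := Real.log_le_log hx0 (by exact_mod_cast hY1)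
    have h2 : (Y : ℝ) ≤ 3 * x := by exact_mod_cast hY2
    have h3 : (Real.log x) ^ (A + 1) ≤ (Real.log Y) ^ (A + 1) :=
      pow_le_pow_left₀ hlog0.le h1 _
    have h4 : 0 < (Real.log x) ^ (A + 1) := by positivity
    exact div_le_div₀ (by positivity) h2 h4 h3
  have s1 := (hx2 (2 * x + h0) (by omega) _ (WLev_Q (by omega) (by omega)) l hlc).trans
    (bd (2 * x + h0) (by omega) (by omega))
  have s2 := (hx2 (x + h0) (by omega) _ (WLev_Q (by omega) (by omega)) l hlc).trans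
    (bd (x + h0) (by omega) (by omega))
  have s3 := (hx3 (3 * x) (by omega) _ (WLev_Q (by omega) (by omega)) G
    (fun a => (2 * x + h0) / a) hG1 hG2 l hlc).trans (bd (3 * x) (by omega) le_rfl)
  have s4 := (hx3 (3 * x) (by omega) _ (WLev_Q (by omega) (by omega)) G
    (fun a => (x + h0) / a) hG1 hG2 l hlc).trans (bd (3 * x) (by omega) le_rfl)
  set κ : ℝ := lamC x z η j 1 * lamC x z η j' 1 / Real.log (3 * x) with hκ
  have hκ4 : |κ| ≤ 4 := by
    have h1 : 1 ≤ Real.log (3 * x) := by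
      have : Real.log x ≤ Real.log (3 * x) := Real.log_le_log hx0 (by linarith)
      linarith
    rw [hκ, abs_div, abs_mul, abs_of_pos (by linarith : 0 < Real.log (3 * x)),
      div_le_iff₀ (by linarith)]
    have h5 : |lamC x z η j 1| * |lamC x z η j' 1| ≤ 2 * 2 :=
      mul_le_mul (hl 1) (hl' 1) (abs_nonneg _) (by norm_num)
    linarith
  have key : ∀ q, |disc (fun m => if x + h0 < m ∧ m ≤ 2 * x + h0 then
      ewk x δ θ k m * (LC x z η j m * LC x z η j' m) else 0) (3 * x) q (l q)| ≤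
      4 * (|EE th (2 * x + h0) q (l q)| + |EE th (x + h0) q (l q)|) +
      C * (|EE (FB G (fun a => (2 * x + h0) / a)) (3 * x) q (l q)| +
        |EE (FB G (fun a => (x + h0) / a)) (3 * x) q (l q)|) := by
    intro q
    rw [LevA_disc, LevA_EE_congr _ _ (3 * x) q (l q)
      (fun n hn => WLev_decomp h0 x z (by omega) hxb η δ θ hη hθ k j j' hjr hjr' n hn),
      LevA_EE_add, LevA_EE_mul, LevA_EE_Ioc th (3 * x) (x + h0) (2 * x + h0) q (l q) (by omega)
      (by omega), LevA_EE_sub]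
    have e1 : ∀ b : ℕ → ℕ, EE (FB (gW x z η δ θ k j j') b) (3 * x) q (l q) =
        C * EE (FB G b) (3 * x) q (l q) := by
      intro b
      rw [← LevA_EE_mul]
      exact LevA_EE_congr _ _ _ _ _ fun n _ => hFB b n
    rw [e1, e1, ← hκ]
    refine (abs_add_le _ _).trans (add_le_add ?_ ?_)
    · rw [abs_mul]
      exact mul_le_mul hκ4 (abs_sub _ _) (abs_nonneg _) (by norm_num)
    · rw [← mul_sub, abs_mul, abs_of_pos hC0]
      exact mul_le_mul_of_nonneg_left (abs_sub _ _) hC0.le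
  calc ∑ q ∈ Icc 1 ⌊(x : ℝ) ^ (1 / 2 - ε)⌋₊, (K : ℝ) ^ q.primeFactors.card *
        |disc (fun m => if x + h0 < m ∧ m ≤ 2 * x + h0 then
          ewk x δ θ k m * (LC x z η j m * LC x z η j' m) else 0) (3 * x) q (l q)|
      ≤ ∑ q ∈ Icc 1 ⌊(x : ℝ) ^ (1 / 2 - ε)⌋₊, (K : ℝ) ^ q.primeFactors.card *
        (4 * (|EE th (2 * x + h0) q (l q)| + |EE th (x + h0) q (l q)|) +
      C * (|EE (FB G (fun a => (2 * x + h0) / a)) (3 * x) q (l q)| +
        |EE (FB G (fun a => (x + h0) / a)) (3 * x) q (l q)|)) :=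
        sum_le_sum fun q _ => mul_le_mul_of_nonneg_left (key q) (by positivity)
    _ = 4 * (∑ q ∈ Icc 1 ⌊(x : ℝ) ^ (1 / 2 - ε)⌋₊, (K : ℝ) ^ q.primeFactors.card *
          |EE th (2 * x + h0) q (l q)| + ∑ q ∈ Icc 1 ⌊(x : ℝ) ^ (1 / 2 - ε)⌋₊,
          (K : ℝ) ^ q.primeFactors.card * |EE th (x + h0) q (l q)|) +
        C * (∑ q ∈ Icc 1 ⌊(x : ℝ) ^ (1 / 2 - ε)⌋₊, (K : ℝ) ^ q.primeFactors.card *
          |EE (FB G (fun a => (2 * x + h0) / a)) (3 * x) q (l q)| +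
          ∑ q ∈ Icc 1 ⌊(x : ℝ) ^ (1 / 2 - ε)⌋₊, (K : ℝ) ^ q.primeFactors.card *
          |EE (FB G (fun a => (x + h0) / a)) (3 * x) q (l q)|) := by
        rw [← sum_add_distrib, ← sum_add_distrib, mul_sum, mul_sum, ← sum_add_distrib]
        exact sum_congr rfl fun q _ => by ring
    _ ≤ 4 * (3 * x / (Real.log x) ^ (A + 1) + 3 * x / (Real.log x) ^ (A + 1)) +
        C * (3 * x / (Real.log x) ^ (A + 1) + 3 * x / (Real.log x) ^ (A + 1)) := by
        gcongr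
    _ = (24 + 6 * C) / Real.log x * (x / (Real.log x) ^ A) := by
        rw [pow_succ]
        field_simp
        ring
    _ ≤ x / (Real.log x) ^ A := by
        refine mul_le_of_le_one_left (by positivity) ?_
        rw [div_le_one hlog0]
        exact hlog

end Pool.Agent.Lib.MP_092512_nt.P5
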