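import Pool.Agent.Lib.MP_092512_nt.P5.CompL

/-!
# P5-WT: lower bounds for `wY` by natural numbers

`TT κ j J / (4 * 10^12) ≤ wY κ j J` for `j ≤ J ≤ 960`; only sums of floors.
-/

set_option autoImplicit false
set_option linter.constructorNameAsVariable false

open Finset

namespace Pool.Agent.Lib.MP_092512_nt.P5

open Pool.Agent.Lib.SW Pool.Agent.Lib.MP_092512_nt.P3

/-- the sum `f 0 + ... + f (n - 1)`, as a recursor -/
def sR (f : ℕ → ℕ) (n : ℕ) : ℕ := Nat.rec 0 (fun k ih => Nat.add ih (f k)) n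

theorem sR_eq (f : ℕ → ℕ) (n : ℕ) : sR f n = ∑ k ∈ range n, f k := by
  induction n with
  | zero => rfl
  | succ n ih =>
    rw [sum_range_succ, ← ih]
    rfl

def T0 (j : ℕ) : ℕ := Nat.div 20000000000000 (Nat.sub 4802 (Nat.mul 5 j))

def T1 (j J : ℕ) : ℕ :=
  sR (fun n => Nat.div 20000000000000
    (Nat.mul (Nat.add 241 n) (Nat.sub 4802 (Nat.mul 5 (Nat.add j (Nat.add 241 n))))))
    (Nat.sub (Nat.div (Nat.sub 960 J) 2) 240)

def T2i (j d n : ℕ) : ℕ :=
  Nat.add (Nat.div 90000000000000 (Nat.mul (Nat.mul d d) (Nat.sub 4802 (Nat.mul 5 (Nat.add j (Nat.mul 2 d))))))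
    (sR (fun t => Nat.div 180000000000000
      (Nat.mul (Nat.mul d (Nat.add d (Nat.mul 3 (Nat.succ t))))
        (Nat.sub 4802 (Nat.mul 5 (Nat.add j (Nat.add d (Nat.add d (Nat.mul 3 (Nat.succ t))))))))) n)

def T2 (j J : ℕ) : ℕ :=
  sR (fun i => T2i j (Nat.add 243 (Nat.mul 3 i))
    (Nat.div (Nat.sub (Nat.sub 960 J) (Nat.mul 3 (Nat.add 243 (Nat.mul 3 i)))) 6))
    (Nat.div (Nat.sub (Nat.div (Nat.sub 960 J) 3) 240) 3)

def TT (κ j J : ℕ) : ℕ :=
  match κ with
  | 0 => T0 j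
  | 1 => Nat.add (T0 j) (T1 j J)
  | _ => Nat.add (Nat.add (T0 j) (T1 j J)) (T2 j J)

private theorem WT_pos1 (n : ℕ) : (0 : ℝ) < 241 + n := by positivity

private theorem WT_pos2 (n : ℕ) : (0 : ℝ) < 240 + n + 1 := by positivity

private theorem WT_pos3 (i : ℕ) : (0 : ℝ) < 243 + 3 * i := by positivity

private theorem WT_pos4 (i t : ℕ) : (0 : ℝ) < 243 + 3 * i + 3 * (t + 1) := by positivity

private theorem WT_pos5 (i t : ℕ) : (0 : ℝ) < 243 + 3 * (i + 1 + t) := by positivity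

private theorem WT_div (a b : ℕ) : ((Nat.div a b : ℕ) : ℝ) ≤ a / b := Nat.cast_div_le

private theorem WT_T0 (j : ℕ) (hj : j ≤ 960) : (T0 j : ℝ) ≤ 4000000000000 * (1 / (4802 / 5 - j)) := by
  unfold T0
  refine (WT_div _ _).trans (le_of_eq ?_)
  have h1 : (Nat.sub 4802 (Nat.mul 5 j)) = 4802 - 5 * j := rfl
  rw [h1, Nat.cast_sub (by omega)]
  have h2 : (j : ℝ) ≤ 960 := by exact_mod_cast hj
  have h3 : 0 < 4802 / 5 - (j : ℝ) := by linarith
  have h4 : 0 < 4802 - 5 * (j : ℝ) := by linarith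
  push_cast
  rw [mul_one_div, div_eq_div_iff h4.ne' h3.ne']
  ring

private theorem WT_T1 (j J : ℕ) (hj : j ≤ J) (hJ : J ≤ 960) : (T1 j J : ℝ) ≤ 4000000000000 *
    ∑ c ∈ cOne J, 1 / (((c : ℝ) + 1) * (4802 / 5 - j - (c + 1))) := by
  unfold T1
  rw [sR_eq, Nat.cast_sum]
  have hn : Nat.sub (Nat.div (Nat.sub 960 J) 2) 240 = (960 - J) / 2 - 240 := rfl
  rw [hn]
  have h1 : ∀ n ∈ range ((960 - J) / 2 - 240), ((Nat.div 20000000000000
    (Nat.mul (Nat.add 241 n) (Nat.sub 4802 (Nat.mul 5 (Nat.add j (Nat.add 241 n))))) : ℕ) : ℝ) ≤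
    4000000000000 * (1 / ((((240 + n : ℕ) : ℝ) + 1) * (4802 / 5 - j - (((240 + n : ℕ) : ℝ) + 1)))) := by
    intro n hn
    rw [mem_range] at hn
    refine (WT_div _ _).trans (le_of_eq ?_)
    have h1 : (Nat.mul (Nat.add 241 n) (Nat.sub 4802 (Nat.mul 5 (Nat.add j (Nat.add 241 n))))) =
      (241 + n) * (4802 - 5 * (j + (241 + n))) := rfl
    have h2 : j + (241 + n) ≤ 960 := by omega
    have h3 : (j : ℝ) + (241 + n) ≤ 960 := by exact_mod_cast h2
    rw [h1, Nat.cast_mul, Nat.cast_sub (by omega)]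
    push_cast
    clear h1 hn h2 hj hJ
    have h4 : 0 < 4802 - 5 * ((j : ℝ) + (241 + n)) := by linarith
    have h5 : 0 < 4802 / 5 - (j : ℝ) - (240 + n + 1) := by linarith
    have h6 := WT_pos1 n
    have h7 := WT_pos2 n
    rw [mul_one_div, div_eq_div_iff (mul_pos h6 h4).ne' (mul_pos h7 h5).ne']
    ring
  refine (sum_le_sum h1).trans ?_
  rw [← mul_sum]
  apply mul_le_mul_of_nonneg_left _ (by norm_num)
  rw [← sum_image (s := range ((960 - J) / 2 - 240)) (g := fun n => 240 + n)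
    (f := fun c : ℕ => 1 / (((c : ℝ) + 1) * (4802 / 5 - j - ((c : ℝ) + 1))))
    (fun a _ b _ h => by simpa using h)]
  apply sum_le_sum_of_subset_of_nonneg
  · intro c hc
    obtain ⟨n, hn, rfl⟩ := mem_image.mp hc
    rw [mem_range] at hn
    unfold cOne
    rw [mem_filter, mem_range]
    omega
  · intro c hc _
    unfold cOne at hc
    rw [mem_filter, mem_range] at hc
    have h2 : j + (c + 1) ≤ 960 := by omega
    have h3 : (j : ℝ) + (c + 1) ≤ 960 := by exact_mod_cast h2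
    have h5 : 0 ≤ 4802 / 5 - (j : ℝ) - (c + 1) := by linarith
    clear h2 hc hj hJ hn h1
    positivity

private theorem WT_T2 (j J : ℕ) (hj : j ≤ J) (hJ : J ≤ 960) : (T2 j J : ℝ) ≤ 4000000000000 *
    (∑ i ∈ cPairs J,
      9 / ((243 + 3 * (i.1 : ℝ)) * (243 + 3 * i.2) * (4802 / 5 - j - (243 + 3 * i.1) - (243 + 3 * i.2))) +
    ∑ i ∈ cDiag J, 9 / (2 * (243 + 3 * (i : ℝ)) ^ 2 * (4802 / 5 - j - 2 * (243 + 3 * i)))) := by
  unfold T2
  rw [sR_eq, Nat.cast_sum]
  have hn : Nat.div (Nat.sub (Nat.div (Nat.sub 960 J) 3) 240) 3 = ((960 - J) / 3 - 240) / 3 := rfl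
  rw [hn]
  set g : ℕ × ℕ → ℝ := fun i => 9 / ((243 + 3 * (i.1 : ℝ)) * (243 + 3 * i.2) *
    (4802 / 5 - j - (243 + 3 * i.1) - (243 + 3 * i.2))) with hg
  set f : ℕ → ℝ := fun i => 9 / (2 * (243 + 3 * (i : ℝ)) ^ 2 * (4802 / 5 - j - 2 * (243 + 3 * i))) with hf
  have h1 : ∀ i ∈ range (((960 - J) / 3 - 240) / 3), ((T2i j (Nat.add 243 (Nat.mul 3 i))
      (Nat.div (Nat.sub (Nat.sub 960 J) (Nat.mul 3 (Nat.add 243 (Nat.mul 3 i)))) 6) : ℕ) : ℝ) ≤
      4000000000000 * f i + 4000000000000 *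
        ∑ t ∈ range ((960 - J - 3 * (243 + 3 * i)) / 6), g (i, i + 1 + t) := by
    intro i hi
    rw [mem_range] at hi
    unfold T2i
    rw [sR_eq]
    have e0 : ∀ a b : ℕ, Nat.add a b = a + b := fun _ _ => rfl
    rw [e0 (Nat.div _ _), Nat.cast_add, Nat.cast_sum, mul_sum]
    apply add_le_add
    · refine (WT_div _ _).trans (le_of_eq ?_)
      have h1 : Nat.mul (Nat.mul (Nat.add 243 (Nat.mul 3 i)) (Nat.add 243 (Nat.mul 3 i)))
        (Nat.sub 4802 (Nat.mul 5 (Nat.add j (Nat.mul 2 (Nat.add 243 (Nat.mul 3 i)))))) =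
        ((243 + 3 * i) * (243 + 3 * i)) * (4802 - 5 * (j + 2 * (243 + 3 * i))) := rfl
      have h2 : j + 2 * (243 + 3 * i) ≤ 960 := by omega
      have h3 : (j : ℝ) + 2 * (243 + 3 * i) ≤ 960 := by exact_mod_cast h2
      rw [h1, Nat.cast_mul, Nat.cast_sub (by omega), hf]
      push_cast
      clear h1 h2 hi hn hj hJ
      have h4 : 0 < 4802 - 5 * ((j : ℝ) + 2 * (243 + 3 * i)) := by linarith
      have h5 : 0 < 4802 / 5 - (j : ℝ) - 2 * (243 + 3 * i) := by linarith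
      have h6 := WT_pos3 i
      rw [← mul_div_assoc, div_eq_div_iff (mul_pos (mul_pos h6 h6) h4).ne'
        (mul_pos (mul_pos two_pos (pow_pos h6 2)) h5).ne']
      ring
    · refine sum_le_sum fun t ht => ?_
      have ht' : t < (960 - J - 3 * (243 + 3 * i)) / 6 := mem_range.mp ht
      refine (WT_div _ _).trans (le_of_eq ?_)
      have h1 : Nat.mul (Nat.mul (Nat.add 243 (Nat.mul 3 i)) (Nat.add (Nat.add 243 (Nat.mul 3 i)) (Nat.mul 3 (Nat.succ t))))
        (Nat.sub 4802 (Nat.mul 5 (Nat.add j (Nat.add (Nat.add 243 (Nat.mul 3 i))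
          (Nat.add (Nat.add 243 (Nat.mul 3 i)) (Nat.mul 3 (Nat.succ t))))))) =
        ((243 + 3 * i) * (243 + 3 * i + 3 * (t + 1))) *
          (4802 - 5 * (j + ((243 + 3 * i) + (243 + 3 * i + 3 * (t + 1))))) := rfl
      have h2 : j + ((243 + 3 * i) + (243 + 3 * i + 3 * (t + 1))) ≤ 960 := by omega
      have h3 : (j : ℝ) + ((243 + 3 * i) + (243 + 3 * i + 3 * (t + 1))) ≤ 960 := by exact_mod_cast h2
      rw [h1, Nat.cast_mul, Nat.cast_sub (by omega), hg]
      push_cast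
      clear h1 h2 ht ht' hi hn hj hJ
      have h4 : 0 < 4802 - 5 * ((j : ℝ) + ((243 + 3 * i) + (243 + 3 * i + 3 * (t + 1)))) := by linarith
      have h5 : 0 < 4802 / 5 - (j : ℝ) - (243 + 3 * i) - (243 + 3 * (i + 1 + t)) := by linarith
      have h6 := WT_pos3 i
      have h7 := WT_pos4 i t
      have h8 := WT_pos5 i t
      rw [← mul_div_assoc, div_eq_div_iff (mul_pos (mul_pos h6 h7) h4).ne' (mul_pos (mul_pos h6 h8) h5).ne']
      ring
  refine (sum_le_sum h1).trans ?_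
  rw [sum_add_distrib, ← mul_sum, ← mul_sum, mul_add, add_comm]
  apply add_le_add
  · apply mul_le_mul_of_nonneg_left _ (by norm_num)
    rw [sum_sigma']
    rw [← sum_image (s := (range (((960 - J) / 3 - 240) / 3)).sigma
      (fun i => range ((960 - J - 3 * (243 + 3 * i)) / 6))) (g := fun w => (w.1, w.1 + 1 + w.2)) (f := g)
      (by
        rintro ⟨a, b⟩ _ ⟨c, d⟩ _ h
        simp only [Prod.mk.injEq] at h
        obtain ⟨rfl, h⟩ := h
        have : b = d := by omega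
        rw [this])]
    apply sum_le_sum_of_subset_of_nonneg
    · refine image_subset_iff.mpr fun w hw => ?_
      rw [mem_sigma, mem_range, mem_range] at hw
      have hab1 := hw.1
      have hab2 := hw.2
      unfold cPairs
      rw [mem_filter, mem_product, mem_range, mem_range]
      simp only
      clear h1 hn
      omega
    · intro p hp _
      unfold cPairs at hp
      rw [mem_filter] at hp
      have h2 : j + (243 + 3 * p.1) + (243 + 3 * p.2) ≤ 960 := by omega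
      have h3 : (j : ℝ) + (243 + 3 * p.1) + (243 + 3 * p.2) ≤ 960 := by exact_mod_cast h2
      have h5 : 0 ≤ 4802 / 5 - (j : ℝ) - (243 + 3 * p.1) - (243 + 3 * p.2) := by linarith
      rw [hg]
      clear h2 hp hn hj hJ h1
      positivity
  · apply mul_le_mul_of_nonneg_left _ (by norm_num)
    apply sum_le_sum_of_subset_of_nonneg
    · intro i hi
      rw [mem_range] at hi
      unfold cDiag
      rw [mem_filter, mem_range]
      omega
    · intro i hi _
      unfold cDiag at hi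
      rw [mem_filter] at hi
      have h2 : j + 2 * (243 + 3 * i) ≤ 960 := by omega
      have h3 : (j : ℝ) + 2 * (243 + 3 * i) ≤ 960 := by exact_mod_cast h2
      have h5 : 0 ≤ 4802 / 5 - (j : ℝ) - 2 * (243 + 3 * i) := by linarith
      rw [hf]
      clear h2 hi hn hj hJ h1
      positivity

theorem WT_le (κ j J : ℕ) (hj : j ≤ J) (hJ : J ≤ 960) : (TT κ j J : ℝ) ≤ 4000000000000 * wY κ j J := by
  have h0 := WT_T0 j (hj.trans hJ)
  have h1 := WT_T1 j J hj hJ
  have h2 := WT_T2 j J hj hJ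
  unfold wY
  match κ with
  | 0 =>
    simp only [TT]
    simp only [show ¬ (1 ≤ 0) by norm_num, show ¬ (2 ≤ 0) by norm_num, if_false]
    linarith
  | 1 =>
    simp only [TT]
    simp only [show (1 ≤ 1) by norm_num, show ¬ (2 ≤ 1) by norm_num, if_false, if_true]
    have e : ((Nat.add (T0 j) (T1 j J) : ℕ) : ℝ) = T0 j + T1 j J := by
      rw [← Nat.cast_add]
      rfl
    rw [e]
    linarith
  | κ + 2 =>
    simp only [TT]
    simp only [show (1 ≤ κ + 2) by omega, show (2 ≤ κ + 2) by omega, if_true]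
    have e : ((Nat.add (Nat.add (T0 j) (T1 j J)) (T2 j J) : ℕ) : ℝ) = T0 j + T1 j J + T2 j J := by
      rw [← Nat.cast_add, ← Nat.cast_add]
      rfl
    rw [e]
    linarith

end Pool.Agent.Lib.MP_092512_nt.P5
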